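import Mathlib
import Pool.Agent.W872.CC.Core

/-!
# The least inaccessible cardinal in a generic extension

The forcing relation is the one of `Pool.Agent.Helper669.Forcing`: a sentence of the forcing
language is the set of the conditions which force it, and a name for a subset of a ground model
set `X` is a map `X → Set P`. Each set of the extension is in bijection with a set of the ground
model, so it is enough to speak about the cardinalities of sets of the ground model.
-/

set_option autoImplicit false

namespace Pool.Agent.Y587.CB

open Cardinal Pool.Agent.Helper669.Forcing Pool.Agent.W872.CC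

/-- Countable partial functions from `X` to the set of two elements: the forcing which adds `X` many
Cohen subsets of `ω₁`. -/
def AddSub (X : Type) : Type := {f : X → Option Bool // {x | f x ≠ none}.Countable}

instance (X : Type) : Preorder (AddSub X) where
  le s' s := ∀ x b, s.1 x = some b → s'.1 x = some b
  le_refl _ _ _ h := h
  le_trans _ _ _ hab hbc x b h := hab x b (hbc x b h)

section

variable (P : Type) [Preorder P]

/-- In the extension `|X| ≤ |Y|`: there is an injective function from `X` to `Y`. -/
def Le (X Y : Type) : Set P := fex fun R : X → Y → Set P => fand (IsFun R) (IsInj R)

/-- In the extension `|X| < |Y|`. -/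
def Lt (X Y : Type) : Set P := fnot (Le P Y X)

/-- In the extension `|Y| ≤ 2 ^ |X|`: there is a family of distinct subsets of `X` indexed by `Y`. -/
def LePow (Y X : Type) : Set P :=
  fex fun E : Y → X → Set P =>
    fall fun y => fall fun y' => fimp (SameSet (E y) (E y')) (fground (y = y'))

/-- In the extension `|Y|` is regular: each function from `Y` to a set of smaller cardinality has a
fiber of the cardinality of `Y`. -/
def Regular (Y : Type) : Set P :=
  fall fun X : Type => fimp (Lt P X Y) (fall fun R : Y → X → Set P => fimp (IsFun R)
    (fex fun x : X => fex fun H : Y → Y → Set P => fand (IsFun H) (fand (IsInj H)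
      (fall fun y => fall fun y' => fimp (meets (H y y')) (meets (R y' x))))))

/-- In the extension `|Y|` is inaccessible: it is uncountable and regular, and `2 ^ |X| < |Y|`
whenever `|X| < |Y|`. -/
def Inacc (Y : Type) : Set P :=
  fand (Lt P ℕ Y) (fand (Regular P Y)
    (fall fun X : Type => fimp (Lt P X Y) (fnot (LePow P Y X))))

/-- In the extension `|Y|` is the least inaccessible cardinal. -/
def LeastInacc (Y : Type) : Set P :=
  fand (Inacc P Y) (fall fun X : Type => fimp (Lt P X Y) (fnot (Inacc P X)))

end

end Pool.Agent.Y587.CB
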