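import Mathlib
import Pool.Agent.Y587.CBDefs

set_option autoImplicit false

namespace Pool.Agent.Y587.CB

open Cardinal Pool.Agent.Helper669.Forcing Pool.Agent.W872.CC

/-! ### Conditions -/

section conditions

variable {X : Type}

/-- compatibility -/
def Compat (p q : AddSub X) : Prop := ∀ x b c, p.1 x = some b → q.1 x = some c → b = c

theorem Compat.symm {p q : AddSub X} (h : Compat p q) : Compat q p :=
  fun x b c hb hc => (h x c b hc hb).symm

theorem Compat.of_le {p q r : AddSub X} (hp : r ≤ p) (hq : r ≤ q) : Compat p q := by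
  intro x b c hb hc
  have h1 := hp x b hb
  have h2 := hq x c hc
  rw [h1] at h2
  exact Option.some.inj h2

theorem exists_union {p q : AddSub X} (h : Compat p q) : ∃ r : AddSub X, r ≤ p ∧ r ≤ q := by
  classical
  refine ⟨⟨fun x => if p.1 x = none then q.1 x else p.1 x, ?_⟩, fun x b hb => ?_, fun x b hb => ?_⟩
  · refine (p.2.union q.2).mono fun x hx => ?_
    by_cases h1 : p.1 x = none
    · have h2 : (if p.1 x = none then q.1 x else p.1 x) ≠ none := hx
      rw [if_pos h1] at h2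
      exact Or.inr h2
    · exact Or.inl h1
  · show (if p.1 x = none then q.1 x else p.1 x) = some b
    rw [if_neg (by rw [hb]; simp)]
    exact hb
  · show (if p.1 x = none then q.1 x else p.1 x) = some b
    by_cases h1 : p.1 x = none
    · rw [if_pos h1]
      exact hb
    · rw [if_neg h1]
      obtain ⟨c, hc⟩ := Option.ne_none_iff_exists'.1 h1
      rw [hc, h x c b hc hb]

/-- the empty condition -/
def emp (X : Type) : AddSub X := ⟨fun _ => none, by simp⟩

theorem le_emp (p : AddSub X) : p ≤ emp X := fun x b h => by simp [emp] at h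

theorem compat_emp (p : AddSub X) : Compat p (emp X) := fun x b c _ h => by simp [emp] at h

theorem exists_limit (f : ℕ → AddSub X) (hf : ∀ n, f (n + 1) ≤ f n) :
    ∃ g : AddSub X, (∀ n, g ≤ f n) ∧ ∀ x b, g.1 x = some b → ∃ n, (f n).1 x = some b := by
  classical
  have hanti : ∀ m n, m ≤ n → f n ≤ f m := by
    intro m n hmn
    induction n, hmn using Nat.le_induction with
    | base => exact le_rfl
    | succ n _ ih => exact (hf n).trans ih
  let g : X → Option Bool := fun x => if h : ∃ n, (f n).1 x ≠ none then (f h.choose).1 x else none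
  have hg : ∀ n x b, (f n).1 x = some b → g x = some b := by
    intro n x b hb
    have h : ∃ n, (f n).1 x ≠ none := ⟨n, by rw [hb]; simp⟩
    have h1 : g x = (f h.choose).1 x := dif_pos h
    rw [h1]
    obtain ⟨c, hc⟩ := Option.ne_none_iff_exists'.1 h.choose_spec
    rw [hc]
    have h2 := hanti _ _ (le_max_left n h.choose) x b hb
    have h3 := hanti _ _ (le_max_right n h.choose) x c hc
    rw [h2] at h3
    exact h3.symm
  have hg' : ∀ x b, g x = some b → ∃ n, (f n).1 x = some b := by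
    intro x b hb
    by_cases h : ∃ n, (f n).1 x ≠ none
    · have h1 : g x = (f h.choose).1 x := dif_pos h
      exact ⟨_, h1 ▸ hb⟩
    · have h1 : g x = none := dif_neg h
      rw [h1] at hb
      simp at hb
  refine ⟨⟨g, ?_⟩, fun n x b h => hg n x b h, hg'⟩
  refine (Set.countable_iUnion fun n => (f n).2).mono fun x hx => ?_
  obtain ⟨b, hb⟩ := Option.ne_none_iff_exists'.1 hx
  obtain ⟨n, hn⟩ := hg' x b hb
  exact Set.mem_iUnion.2 ⟨n, by show (f n).1 x ≠ none; rw [hn]; simp⟩

end conditions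

/-! ### Measures -/

/-- `U` is a `|K|`-complete nonprincipal ultrafilter on the uncountable set `K`. -/
structure Measure {K : Type} (U : Ultrafilter K) : Prop where
  unc : ℵ₀ < #K
  complete : ∀ (ι : Type) (A : ι → Set K), #ι < #K → (∀ i, A i ∈ U) → (⋂ i, A i) ∈ U
  nonprincipal : ∀ a : K, {a} ∉ U

section measure

variable {K : Type} {U : Ultrafilter K}

theorem Measure.countable (hU : Measure U) (A : ℕ → Set K) (hA : ∀ n, A n ∈ U) : (⋂ n, A n) ∈ U :=
  hU.complete ℕ A (by simpa using hU.unc) hA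

theorem Measure.const (hU : Measure U) {ι : Type} (hι : #ι < #K) {B : Set K} (hB : B ∈ U)
    (R : K → ι → Prop) (hR : ∀ a ∈ B, ∃ i, R a i) : ∃ i, {a | a ∈ B ∧ R a i} ∈ U := by
  by_contra hcon
  push Not at hcon
  have h1 : ∀ i, {a | a ∈ B ∧ R a i}ᶜ ∈ U := fun i => Ultrafilter.compl_mem_iff_notMem.2 (hcon i)
  obtain ⟨a, ha, ha'⟩ := U.nonempty_of_mem (Filter.inter_mem (hU.complete ι _ hι h1) hB)
  obtain ⟨i, hi⟩ := hR a ha'
  exact Set.mem_iInter.1 ha i ⟨ha', hi⟩

theorem Measure.card_lt_notMem (hU : Measure U) {B : Set K} (hB : #B < #K) : B ∉ U := by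
  intro h
  obtain ⟨a, ha⟩ := hU.const hB h (fun a (b : B) => a = b.1) fun a ha => ⟨⟨a, ha⟩, rfl⟩
  refine hU.nonprincipal a.1 (Filter.mem_of_superset ha ?_)
  rintro b ⟨-, rfl⟩
  rfl

theorem Measure.strongLimit (hU : Measure U) : IsStrongLimit #K := by
  refine ⟨(aleph0_pos.trans hU.unc).ne', fun c hc => ?_⟩
  by_contra hcon
  rw [not_lt] at hcon
  have h1 : #K ≤ #(Set c.out) := by rw [mk_set, mk_out]; exact hcon
  obtain ⟨f⟩ := (Cardinal.le_def _ _).1 h1
  have h2 : ∀ i : c.out, ∃ b : Prop, {a | (i ∈ f a) = b} ∈ U := by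
    intro i
    by_cases h : {a | i ∈ f a} ∈ U
    · exact ⟨True, Filter.mem_of_superset h fun a ha => by simpa using ha⟩
    · refine ⟨False, Filter.mem_of_superset (Ultrafilter.compl_mem_iff_notMem.2 h) fun a ha => ?_⟩
      have : i ∉ f a := ha
      simpa using this
  choose b hb using h2
  have h3 := hU.complete c.out _ (by rwa [mk_out]) hb
  obtain ⟨a, ha⟩ := U.nonempty_of_mem h3
  refine hU.nonprincipal a (Filter.mem_of_superset h3 fun a' ha' => ?_)
  apply f.injective
  ext i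
  have e1 : (i ∈ f a) = b i := Set.mem_iInter.1 ha i
  have e2 : (i ∈ f a') = b i := Set.mem_iInter.1 ha' i
  rw [e1, e2]

end measure

theorem Measure.aleph_one_lt {K : Type} {U : Ultrafilter K} (hU : Measure U) : ℵ_ 1 < #K := by
  have h1 := hU.strongLimit.isStrongPrelimit hU.unc
  refine lt_of_le_of_lt ?_ h1
  rw [← succ_aleph0]
  exact Order.succ_le_of_lt (cantor ℵ₀)

/-! ### The strategy -/

section strategy

variable {K L X : Type} {U : Ultrafilter K}

/-- the conditions `r α` are generic over `p` -/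
def Alive (U : Ultrafilter K) (B : Set K) (r : K → AddSub X) (p : AddSub X) : Prop :=
  ∀ C ∈ U, ∀ q ≤ p, ∃ α ∈ C, α ∈ B ∧ Compat q (r α)

theorem Alive.mono {B : Set K} {r : K → AddSub X} {p q : AddSub X} (h : Alive U B r p) (hq : q ≤ p) :
    Alive U B r q := fun C hC q' hq' => h C hC q' (hq'.trans hq)

theorem exists_root (hU : Measure U) {B : Set K} (hB : B ∈ U) (r : K → AddSub X) (p : AddSub X)
    (hr : ∀ α ∈ B, r α ≤ p) : ∃ q ≤ p, Alive U B r q := by
  classical
  let f : X → Option Bool := fun x =>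
    if h : ∃ b, {α | (r α).1 x = some b} ∈ U then some h.choose else none
  have hf : ∀ x b, f x = some b → {α | (r α).1 x = some b} ∈ U := by
    intro x b hb
    by_cases h : ∃ b, {α | (r α).1 x = some b} ∈ U
    · have h1 : f x = some h.choose := dif_pos h
      rw [h1] at hb
      have h2 := h.choose_spec
      rw [Option.some.inj hb] at h2
      exact h2
    · have h1 : f x = none := dif_neg h
      rw [h1] at hb
      simp at hb
  have hf' : ∀ x b, {α | (r α).1 x = some b} ∈ U → f x = some b := by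
    intro x b hb
    have h : ∃ b, {α | (r α).1 x = some b} ∈ U := ⟨b, hb⟩
    have h1 : f x = some h.choose := dif_pos h
    obtain ⟨α, hα, hα'⟩ := U.nonempty_of_mem (Filter.inter_mem hb h.choose_spec)
    have h2 : (r α).1 x = some b := hα
    have h3 : (r α).1 x = some h.choose := hα'
    rw [h1, ← h3, h2]
  have hcount : {x | f x ≠ none}.Countable := by
    by_contra hcon
    have h1 : ℵ₀ < #{x | f x ≠ none} := by
      rw [← not_le]
      exact fun h => hcon (le_aleph0_iff_set_countable.1 h)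
    have h2 : #W1 ≤ #{x | f x ≠ none} := by
      rw [W1, mk_out, ← succ_aleph0]
      exact Order.succ_le_of_lt h1
    obtain ⟨e⟩ := (Cardinal.le_def _ _).1 h2
    have h3 : ∀ i : W1, {α | (r α).1 (e i).1 ≠ none} ∈ U := by
      intro i
      obtain ⟨b, hb⟩ := Option.ne_none_iff_exists'.1 (e i).2
      exact Filter.mem_of_superset (hf _ _ hb) fun α hα => by
        have : (r α).1 (e i).1 = some b := hα
        show (r α).1 (e i).1 ≠ none
        rw [this]
        simp
    obtain ⟨α, hα⟩ := U.nonempty_of_mem (hU.complete W1 _ (by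
      rw [W1, mk_out]; exact hU.aleph_one_lt) h3)
    have h4 : (Set.range fun i : W1 => (e i).1).Countable :=
      (r α).2.mono (by rintro _ ⟨i, rfl⟩; exact Set.mem_iInter.1 hα i)
    have h5 : #W1 ≤ ℵ₀ := by
      rw [← mk_range_eq (fun i : W1 => (e i).1) fun i j h => e.injective (Subtype.ext h)]
      exact le_aleph0_iff_set_countable.2 h4
    rw [W1, mk_out] at h5
    exact absurd h5 (not_le.2 aleph0_lt_aleph_one)
  refine ⟨⟨f, hcount⟩, fun x b hb => hf' x b ?_, fun C hC q hq => ?_⟩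
  · exact Filter.mem_of_superset hB fun α hα => hr α hα x b hb
  · have h1 : ∀ x, {α | ∀ b c, q.1 x = some b → (r α).1 x = some c → b = c} ∈ U := by
      intro x
      by_cases h : ∃ b, {α | (r α).1 x = some b} ∈ U
      · obtain ⟨b, hb⟩ := h
        have h2 := hq x b (hf' x b hb)
        refine Filter.mem_of_superset hb fun α hα b' c hb' hc => ?_
        have h3 : (r α).1 x = some b := hα
        rw [h3] at hc
        rw [h2] at hb'
        rw [← Option.some.inj hb', ← Option.some.inj hc]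
      · push Not at h
        have h2 : ∀ b, {α | (r α).1 x = some b}ᶜ ∈ U := fun b =>
          Ultrafilter.compl_mem_iff_notMem.2 (h b)
        refine Filter.mem_of_superset (Filter.inter_mem (h2 true) (h2 false))
          fun α hα b c _ hc => ?_
        cases c with
        | true => exact absurd hc hα.1
        | false => exact absurd hc hα.2
    have h2 : (⋂ x ∈ {x | q.1 x ≠ none},
        {α | ∀ b c, q.1 x = some b → (r α).1 x = some c → b = c}) ∈ U := by
      rw [Set.biInter_eq_iInter]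
      refine hU.complete _ _ ?_ fun x => h1 x.1
      exact (le_aleph0_iff_set_countable.2 q.2).trans_lt hU.unc
    obtain ⟨α, ⟨hα1, hα2⟩, hα3⟩ :=
      U.nonempty_of_mem (Filter.inter_mem (Filter.inter_mem hC hB) h2)
    refine ⟨α, hα1, hα2, fun x b c hb hc => ?_⟩
    exact Set.mem_iInter₂.1 hα3 x (by show q.1 x ≠ none; rw [hb]; simp) b c hb hc

/-- states of the strategy -/
structure St (K X : Type) where
  B : Set K
  q : K → AddSub X

/-- `p` forces that `t` is a good answer to the cut `A` -/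
def Good (U : Ultrafilter K) (ι : K → L) (s : St K X) (A : L → Set (AddSub X)) (t : St K X × Bool) :
    Set (AddSub X) :=
  {p | (t.1.B ∈ U ∧ t.1.B ⊆ s.B ∧ ∀ α ∈ t.1.B, t.1.q α ≤ s.q α) ∧ Alive U t.1.B t.1.q p ∧
    ∀ α ∈ t.1.B, ∀ r ≤ p, r ≤ t.1.q α → (r ∈ meets (A (ι α)) ↔ t.2 = true)}

theorem down_Good (ι : K → L) (s : St K X) (A : L → Set (AddSub X)) (t : St K X × Bool) :
    Down (Good U ι s A t) := fun _ hp _ hq =>
  ⟨hp.1, hp.2.1.mono hq, fun α hα r hr => hp.2.2 α hα r (hr.trans hq)⟩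

theorem good_congr {ι : K → L} {s : St K X} {A A' : L → Set (AddSub X)} {t : St K X × Bool}
    {p : AddSub X} (h : p ∈ SameSet A A') (hp : p ∈ Good U ι s A t) : p ∈ Good U ι s A' t :=
  ⟨hp.1, hp.2.1, fun α hα r hr hr' => by
    rw [← mem_SameSet.1 h (ι α) r hr]
    exact hp.2.2 α hα r hr hr'⟩

theorem exists_good (hU : Measure U) (ι : K → L) (s : St K X) (hs : s.B ∈ U)
    (A : L → Set (AddSub X)) {p : AddSub X} (hp : Alive U s.B s.q p) :
    ∃ q ≤ p, ∃ t, q ∈ Good U ι s A t := by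
  classical
  -- almost all `q α` are compatible with `p`
  have h1 : {α | α ∈ s.B ∧ Compat p (s.q α)} ∈ U := by
    by_contra hcon
    rw [← Ultrafilter.compl_mem_iff_notMem] at hcon
    obtain ⟨α, hα, hα', hα''⟩ := hp _ hcon p le_rfl
    exact hα ⟨hα', hα''⟩
  have h2 : ∀ α ∈ {α | α ∈ s.B ∧ Compat p (s.q α)}, ∃ b : Bool, ∃ r : AddSub X,
      r ≤ p ∧ r ≤ s.q α ∧ ∀ r' ≤ r, (r' ∈ meets (A (ι α)) ↔ b = true) := by
    rintro α ⟨-, hα⟩
    obtain ⟨r, hr, hr'⟩ := exists_union hα
    by_cases h : ∃ r' ≤ r, r' ∈ meets (A (ι α))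
    · obtain ⟨r', h3, h4⟩ := h
      exact ⟨true, r', h3.trans hr, h3.trans hr', fun r'' h5 =>
        iff_of_true (down_meets _ _ h4 _ h5) rfl⟩
    · exact ⟨false, r, hr, hr', fun r'' h5 => iff_of_false (fun h6 => h ⟨r'', h5, h6⟩) (by simp)⟩
  obtain ⟨b, hb⟩ := hU.const (ι := Bool) ((mk_lt_aleph0 (α := Bool)).trans hU.unc) h1
    (fun α b => ∃ r : AddSub X, r ≤ p ∧ r ≤ s.q α ∧
      ∀ r' ≤ r, (r' ∈ meets (A (ι α)) ↔ b = true)) h2
  have h3 : ∀ α, ∃ r : AddSub X, α ∈ {a | a ∈ {α | α ∈ s.B ∧ Compat p (s.q α)} ∧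
      ∃ r : AddSub X, r ≤ p ∧ r ≤ s.q a ∧ ∀ r' ≤ r, (r' ∈ meets (A (ι a)) ↔ b = true)} →
      r ≤ p ∧ r ≤ s.q α ∧ ∀ r' ≤ r, (r' ∈ meets (A (ι α)) ↔ b = true) := by
    intro α
    by_cases h : α ∈ {a | a ∈ {α | α ∈ s.B ∧ Compat p (s.q α)} ∧
      ∃ r : AddSub X, r ≤ p ∧ r ≤ s.q a ∧ ∀ r' ≤ r, (r' ∈ meets (A (ι a)) ↔ b = true)}
    · obtain ⟨r, hr⟩ := h.2
      exact ⟨r, fun _ => hr⟩
    · exact ⟨emp X, fun h' => absurd h' h⟩
  choose r hr using h3
  obtain ⟨q, hq, hq'⟩ := exists_root hU hb r p fun α hα => (hr α hα).1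
  exact ⟨q, hq, ⟨⟨_, r⟩, b⟩, ⟨hb, fun α hα => hα.1.1, fun α hα => (hr α hα).2.1⟩, hq',
    fun α hα r' _ hr' => (hr α hα).2.2 r' hr'⟩

/-- `p` forces that `t` is the least good answer -/
def Next (U : Ultrafilter K) (ι : K → L) (s : St K X) (A : L → Set (AddSub X)) (t : St K X × Bool) :
    Set (AddSub X) :=
  {p | p ∈ Good U ι s A t ∧ ∀ u, WellOrderingRel u t → p ∈ fnot (Good U ι s A u)}

theorem down_Next (ι : K → L) (s : St K X) (A : L → Set (AddSub X)) (t : St K X × Bool) :
    Down (Next U ι s A t) := fun _ hp _ hq =>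
  ⟨down_Good _ _ _ _ _ hp.1 _ hq, fun u hu => down_fnot _ _ (hp.2 u hu) _ hq⟩

theorem next_congr {ι : K → L} {s : St K X} {A A' : L → Set (AddSub X)} {t : St K X × Bool}
    {p : AddSub X} (h : p ∈ SameSet A A') (hp : p ∈ Next U ι s A t) : p ∈ Next U ι s A' t :=
  ⟨good_congr h hp.1, fun u hu q hq hq' =>
    hp.2 u hu q hq (good_congr (SameSet.symm (down_SameSet _ _ _ h _ hq)) hq')⟩

theorem next_unique {ι : K → L} {s : St K X} {A : L → Set (AddSub X)} {t t' : St K X × Bool}
    {p : AddSub X} (h : p ∈ Next U ι s A t) (h' : p ∈ Next U ι s A t') : t = t' := by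
  rcases trichotomous_of WellOrderingRel t t' with h1 | h1 | h1
  · exact absurd h.1 (h'.2 t h1 p le_rfl)
  · exact h1
  · exact absurd h'.1 (h.2 t' h1 p le_rfl)

theorem exists_next (hU : Measure U) (ι : K → L) (s : St K X) (hs : s.B ∈ U)
    (A : L → Set (AddSub X)) {p : AddSub X} (hp : Alive U s.B s.q p) :
    ∃ q ≤ p, ∃ t, q ∈ Next U ι s A t := by
  have h1 : {t : St K X × Bool | ∃ q ≤ p, q ∈ Good U ι s A t}.Nonempty := by
    obtain ⟨q, hq, t, ht⟩ := exists_good hU ι s hs A hp
    exact ⟨t, q, hq, ht⟩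
  have hwf : WellFounded (WellOrderingRel (α := St K X × Bool)) := WellOrderingRel.isWellOrder.wf
  obtain ⟨q, hq, hq'⟩ := hwf.min_mem _ h1
  refine ⟨q, hq, _, hq', fun u hu r hr hr' => ?_⟩
  exact hwf.not_lt_min _ (show u ∈ {t : St K X × Bool | ∃ q ≤ p, q ∈ Good U ι s A t} from
    ⟨r, hr.trans hq, hr'⟩) hu

/-- the initial state -/
def t₀ : St K X × Bool := (⟨Set.univ, fun _ => emp X⟩, true)

/-- `p` forces that the state after the sequence `l` of cuts is `t` -/
def StateIs (U : Ultrafilter K) (ι : K → L) : List (L → Set (AddSub X)) → St K X × Bool →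
    Set (AddSub X)
  | [], t => {_p | t = t₀}
  | A :: l, t => {p | ∃ t', p ∈ StateIs U ι l t' ∧ p ∈ Next U ι t'.1 A t}

theorem down_StateIs (ι : K → L) : ∀ (l : List (L → Set (AddSub X))) (t : St K X × Bool),
    Down (StateIs U ι l t)
  | [], _ => fun _ hp _ _ => hp
  | _ :: l, _ => by
    rintro p ⟨t', h1, h2⟩ q hq
    exact ⟨t', down_StateIs ι l t' p h1 q hq, down_Next _ _ _ _ _ h2 _ hq⟩

theorem state_unique {ι : K → L} : ∀ {l : List (L → Set (AddSub X))} {t t' : St K X × Bool}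
    {p : AddSub X}, p ∈ StateIs U ι l t → p ∈ StateIs U ι l t' → t = t'
  | [], _, _, _ => fun h h' => by
    have h1 : _ = t₀ := h
    have h2 : _ = t₀ := h'
    rw [h1, h2]
  | _ :: l, _, _, _ => by
    rintro ⟨t₁, h1, h2⟩ ⟨t₂, h3, h4⟩
    obtain rfl := state_unique h1 h3
    exact next_unique h2 h4

theorem state_congr {ι : K → L} {p : AddSub X} {l l' : List (L → Set (AddSub X))}
    (h : p ∈ SameSeq l l') : ∀ {t : St K X × Bool}, p ∈ StateIs U ι l t → p ∈ StateIs U ι l' t := by
  have h1 : List.Forall₂ (fun S T => p ∈ SameSet S T) l l' := h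
  clear h
  induction h1 with
  | nil => exact fun h => h
  | cons h _ ih =>
    rintro t ⟨t', h2, h3⟩
    exact ⟨t', ih h2, next_congr h h3⟩

/-- the strategy -/
def strat (U : Ultrafilter K) (ι : K → L) : List (L → Set (AddSub X)) → Set (AddSub X) :=
  fun l => {p | ∃ s, p ∈ StateIs U ι l (s, true)}

theorem mem_Keeps {ι : K → L} {l : List (L → Set (AddSub X))} {t : St K X × Bool} {p : AddSub X}
    (h : p ∈ StateIs U ι l t) : p ∈ Keeps (strat U ι) l ↔ t.2 = true := by
  constructor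
  · intro hk
    obtain ⟨q, hq, l', h1, h2⟩ := mem_fex.1 hk p le_rfl
    obtain ⟨r, hr, s, ⟨s', hs⟩, hrs⟩ := h1 q le_rfl
    have h3 : r ∈ StateIs U ι l' (s', true) := down_StateIs ι _ _ _ hs _ hrs
    have h4 : r ∈ StateIs U ι l (s', true) := state_congr (down_SameSeq _ _ _ h2 _ hr) h3
    have h5 := state_unique h4 (down_StateIs ι _ _ _ h _ (hr.trans hq))
    rw [← h5]
  · intro ht
    refine mem_fex.2 fun q hq => ⟨q, le_rfl, l, meets_of_mem ⟨t.1, ?_⟩, ?_⟩
    · have h1 := down_StateIs ι _ _ _ h _ hq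
      rwa [← ht]
    · show List.Forall₂ (fun S T => q ∈ SameSet S T) l l
      exact List.forall₂_same.2 fun S _ => SameSet.refl S q

end strategy

end Pool.Agent.Y587.CB
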