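import Mathlib
import Pool.Agent.Y587.CBGame

set_option autoImplicit false

namespace Pool.Agent.Y587.CB

open Cardinal Pool.Agent.Helper669.Forcing Pool.Agent.W872.CC

variable {K L X : Type} {U : Ultrafilter K}

theorem exists_chain (hU : Measure U) (ι : K → L) (A : ℕ → L → Set (AddSub X)) (p : AddSub X) :
    ∃ (f : ℕ → AddSub X) (t : ℕ → St K X × Bool), f 0 = p ∧ (∀ n, f (n + 1) ≤ f n) ∧
      (∀ n, f n ∈ StateIs U ι (hist A n) (t n)) ∧
      (∀ n, (t n).1.B ∈ U ∧ Alive U (t n).1.B (t n).1.q (f n)) ∧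
      ∀ n, f (n + 1) ∈ Good U ι (t n).1 (A n) (t (n + 1)) := by
  classical
  let Pos : Type := {x : AddSub X × (St K X × Bool) // x.2.1.B ∈ U ∧ Alive U x.2.1.B x.2.1.q x.1}
  have step : ∀ (n : ℕ) (x : Pos), ∃ y : Pos, y.1.1 ≤ x.1.1 ∧
      y.1.1 ∈ Next U ι x.1.2.1 (A n) y.1.2 := by
    rintro n ⟨⟨q, t⟩, ht, ha⟩
    obtain ⟨q', hq', t', ht'⟩ := exists_next hU ι t.1 ht (A n) ha
    exact ⟨⟨⟨q', t'⟩, ht'.1.1.1, ht'.1.2.1⟩, hq', ht'⟩
  choose nx hnx using step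
  let x₀ : Pos := ⟨(p, t₀), Filter.univ_mem, fun C hC q _ => by
    obtain ⟨α, hα⟩ := U.nonempty_of_mem hC
    exact ⟨α, hα, trivial, compat_emp q⟩⟩
  let x : ℕ → Pos := fun n => Nat.rec x₀ (fun n y => nx n y) n
  have hx : ∀ n, x (n + 1) = nx n (x n) := fun n => rfl
  refine ⟨fun n => (x n).1.1, fun n => (x n).1.2, rfl, fun n => ?_, fun n => ?_,
    fun n => (x n).2, fun n => ?_⟩
  · show (x (n + 1)).1.1 ≤ (x n).1.1
    rw [hx]
    exact (hnx n (x n)).1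
  · induction n with
    | zero => exact rfl
    | succ n ih =>
      refine ⟨(x n).1.2, ?_, ?_⟩
      · refine down_StateIs ι _ _ _ ih _ ?_
        show (x (n + 1)).1.1 ≤ (x n).1.1
        rw [hx]
        exact (hnx n (x n)).1
      · show (x (n + 1)).1.1 ∈ Next U ι (x n).1.2.1 (A n) (x (n + 1)).1.2
        rw [hx]
        exact (hnx n (x n)).2
  · show (x (n + 1)).1.1 ∈ Good U ι (x n).1.2.1 (A n) (x (n + 1)).1.2
    rw [hx]
    exact (hnx n (x n)).2.1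

theorem chooseWins (hU : Measure U) {ι : K → L} (hι : Function.Injective ι)
    (A : ℕ → L → Set (AddSub X)) (p : AddSub X) : p ∈ ChooseWins (strat U ι) A := by
  refine mem_fex.2 fun p' _ => ?_
  obtain ⟨f, t, hf0, hf, hst, hal, hgood⟩ := exists_chain hU ι A p'
  obtain ⟨g, hg, -⟩ := exists_limit f hf
  have hB : ∀ n, (t (n + 1)).1.B ⊆ (t n).1.B := fun n => (hgood n).1.2.1
  have hq : ∀ n, ∀ α ∈ (t (n + 1)).1.B, (t (n + 1)).1.q α ≤ (t n).1.q α :=
    fun n => (hgood n).1.2.2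
  -- Extend a condition by the conditions attached to a new point
  have key : ∀ (g' : AddSub X), (∀ n, g' ≤ f n) → ∀ C ∈ U, ∃ α ∈ C, ∃ r ≤ g',
      ∀ n, α ∈ (t n).1.B ∧ r ≤ (t n).1.q α := by
    intro g' hg' C hC
    have h1 : ∀ n, {α | α ∈ (t n).1.B ∧ Compat g' ((t n).1.q α)} ∈ U := by
      intro n
      by_contra hcon
      rw [← Ultrafilter.compl_mem_iff_notMem] at hcon
      obtain ⟨α, hα, hα', hα''⟩ := (hal n).2 _ hcon g' (hg' n)
      exact hα ⟨hα', hα''⟩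
    obtain ⟨α, hα, hα'⟩ := U.nonempty_of_mem (Filter.inter_mem hC (hU.countable _ h1))
    have h2 : ∀ n, α ∈ (t n).1.B ∧ Compat g' ((t n).1.q α) := fun n => Set.mem_iInter.1 hα' n
    obtain ⟨q, hq1, hq2⟩ := exists_limit (fun n => (t n).1.q α) fun n => hq n α (h2 (n + 1)).1
    have h3 : Compat g' q := by
      intro x b c hb hc
      obtain ⟨n, hn⟩ := hq2 x c hc
      exact (h2 n).2 x b c hb hn
    obtain ⟨r, hr, hr'⟩ := exists_union h3
    exact ⟨α, hα, r, hr, fun n => ⟨(h2 n).1, hr'.trans (hq1 n)⟩⟩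
  obtain ⟨α, -, r₁, hr₁, hα⟩ := key g hg Set.univ Filter.univ_mem
  obtain ⟨β, hβne, r₂, hr₂, hβ⟩ := key r₁ (fun n => hr₁.trans (hg n)) {α}ᶜ
    (Ultrafilter.compl_mem_iff_notMem.2 (hU.nonprincipal α))
  have hcur : ∀ γ : K, (∀ n, γ ∈ (t n).1.B ∧ r₂ ≤ (t n).1.q γ) → ∀ n,
      r₂ ∈ InCur (strat U ι) A n (ι γ) := by
    intro γ hγ n i _
    refine (mem_fiff (reg_meets _) (reg_Keeps _ _)).2 fun r hr => ?_
    have h1 : r ∈ StateIs U ι (hist A (i + 1)) (t (i + 1)) :=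
      down_StateIs ι _ _ _ (hst (i + 1)) _ (hr.trans (hr₂.trans (hr₁.trans (hg _))))
    rw [mem_Keeps h1]
    exact (hgood i).2.2 γ (hγ (i + 1)).1 r (hr.trans (hr₂.trans (hr₁.trans (hg _))))
      (hr.trans (hγ (i + 1)).2)
  refine ⟨r₂, hr₂.trans (hr₁.trans ((hg 0).trans hf0.le)), ι α, ?_⟩
  refine mem_fex_of_mem (ι β) (down_fand (down_fground _) (down_fall fun n =>
    down_fand (down_InCur _ _ _ _) (down_InCur _ _ _ _))) ?_
  refine ⟨fun h => hβne (hι h).symm, fun n => ⟨hcur α (fun n => ⟨(hα n).1, ?_⟩) n,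
    hcur β hβ n⟩⟩
  exact hr₂.trans (hα n).2

theorem chooseHasStrategy (hU : Measure U) {ι : K → L} (hι : Function.Injective ι)
    (p : AddSub X) : p ∈ ChooseHasStrategy (AddSub X) L :=
  mem_fex_of_mem (strat U ι) (down_fall fun _ => down_fex _) fun A => chooseWins hU hι A p

end Pool.Agent.Y587.CB
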