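import Mathlib
import Pool.Agent.Y587.CBRun

set_option autoImplicit false

namespace Pool.Agent.Y587.CB

open Cardinal Pool.Agent.Helper669.Forcing Pool.Agent.W872.CC

section general

variable {P : Type} [Preorder P]

theorem mem_meets_const {h : Prop} {p : P} : p ∈ meets {_p : P | h} ↔ h := by
  constructor
  · intro h'
    obtain ⟨_, _, s, hs, _⟩ := h' p le_rfl
    exact hs
  · intro h'
    exact meets_of_mem (show p ∈ {_p : P | h} from h')

theorem isFun_ground {X Y : Type} (f : X → Y) (p : P) :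
    p ∈ IsFun (fun x y => {_p : P | f x = y}) :=
  ⟨fun x => mem_fex_of_mem (f x) (down_meets _) (mem_meets_const.2 rfl),
    fun x y y' => mem_fimp.2 fun q _ h => ⟨q, le_rfl,
      show y = y' from (mem_meets_const.1 h.1).symm.trans (mem_meets_const.1 h.2)⟩⟩

theorem isInj_ground {X Y : Type} {f : X → Y} (hf : Function.Injective f) (p : P) :
    p ∈ IsInj (fun x y => {_p : P | f x = y}) :=
  fun x x' y => mem_fimp.2 fun q _ h => ⟨q, le_rfl,
      show x = x' from hf ((mem_meets_const.1 h.1).trans (mem_meets_const.1 h.2).symm)⟩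

theorem down_Le (X Y : Type) : Down (Le P X Y) := down_fex _

theorem mem_Le_of_injective {X Y : Type} {f : X → Y} (hf : Function.Injective f) (p : P) :
    p ∈ Le P X Y :=
  mem_fex_of_mem _ (down_fand (down_IsFun _) (down_IsInj _)) ⟨isFun_ground f p, isInj_ground hf p⟩

theorem card_lt_of_Lt {X Y : Type} {p : P} (h : p ∈ Lt P X Y) : #X < #Y := by
  by_contra hcon
  obtain ⟨f⟩ := (Cardinal.le_def _ _).1 (not_lt.1 hcon)
  exact h p le_rfl (mem_Le_of_injective f.injective p)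

theorem exists_ne_of_card {X Y : Type} (hP : #P < #Y) (hX : #X < #Y) (hY : ℵ₀ ≤ #Y)
    (f : Y → P × X) : ∃ y y', y ≠ y' ∧ f y = f y' := by
  by_contra hcon
  push Not at hcon
  have hf : Function.Injective f := fun y y' h => by
    by_contra hne
    exact hcon y y' hne h
  have h1 := mk_le_of_injective hf
  rw [mk_prod, lift_id, lift_id] at h1
  exact absurd h1 (not_le.2 (mul_lt_of_lt hY hP hX))

theorem mem_Lt {X Y : Type} (hP : #P < #Y) (hX : #X < #Y) (hY : ℵ₀ ≤ #Y) (p : P) :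
    p ∈ Lt P X Y := by
  intro q _ hq
  obtain ⟨r, _, R, hR, hR'⟩ := mem_fex.1 hq q le_rfl
  have h1 : ∀ y : Y, ∃ z : P × X, z.1 ≤ r ∧ z.1 ∈ meets (R y z.2) := by
    intro y
    obtain ⟨s, hs, x, hx⟩ := IsFun.total hR y
    exact ⟨(s, x), hs, hx⟩
  choose z hz hz' using h1
  obtain ⟨y, y', hne, heq⟩ := exists_ne_of_card hP hX hY z
  apply hne
  refine IsInj.eq (down_IsInj R _ hR' _ (hz y)) (hz' y) ?_
  rw [heq]
  exact hz' y'

/-- names for subsets of `X` which are equal -/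
theorem sameSet_of_meets {X : Type} {S T : X → Set P} (h : ∀ x, meets (S x) = meets (T x)) (p : P) :
    p ∈ SameSet S T := mem_SameSet.2 fun x q _ => by rw [h x]

theorem mem_LePow_iff {Y X : Type} {p : P} (h : p ∈ LePow P Y X) : ∃ q ≤ p, ∃ E : Y → X → Set P,
    ∀ y y', ∀ r ≤ q, r ∈ SameSet (E y) (E y') → y = y' := by
  obtain ⟨q, hq, E, hE⟩ := mem_fex.1 h p le_rfl
  refine ⟨q, hq, E, fun y y' r hr hr' => ?_⟩
  obtain ⟨s, _, hs'⟩ := mem_fimp.1 (hE y y') r hr hr'
  exact hs'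

theorem mem_LePow_of {Y X : Type} {p : P} (E : Y → X → Set P)
    (h : ∀ y y', ∀ r ≤ p, r ∈ SameSet (E y) (E y') → y = y') : p ∈ LePow P Y X :=
  mem_fex_of_mem E (down_fall fun _ => down_fall fun _ => down_fimp _ _) fun y y' =>
    mem_fimp.2 fun r hr hr' => ⟨r, le_rfl, h y y' r hr hr'⟩

theorem down_Inacc (Y : Type) : Down (Inacc P Y) :=
  down_fand (down_fnot _) (down_fand (down_fall fun _ => down_fimp _ _)
    (down_fall fun _ => down_fimp _ _))

/-- Inaccessible cardinals above the size of `P` stay inaccessible. -/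
theorem mem_Inacc {L : Type} (hL : (#L).IsInaccessible) (hP : #P < #L) (p : P) :
    p ∈ Inacc P L := by
  have h0 : ℵ₀ ≤ #L := hL.aleph0_lt.le
  refine ⟨mem_Lt hP (by simpa using hL.aleph0_lt) h0 p, fun X => mem_fimp.2 fun q _ hq => ?_,
    fun X => mem_fimp.2 fun q _ hq => ?_⟩
  · -- regularity
    have hX := card_lt_of_Lt hq
    refine ⟨q, le_rfl, fun R => mem_fimp.2 fun r _ hR => ⟨r, le_rfl, mem_fex.2 fun r' hr' => ?_⟩⟩
    have h1 : ∀ y : L, ∃ z : P × X, z.1 ≤ r' ∧ z.1 ∈ meets (R y z.2) := by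
      intro y
      obtain ⟨s, hs, x, hx⟩ := IsFun.total (down_IsFun R _ hR _ hr') y
      exact ⟨(s, x), hs, hx⟩
    choose z hz hz' using h1
    have hcard : #(P × X) < (#L).ord.cof := by
      rw [hL.isRegular.cof_ord, mk_prod, lift_id, lift_id]
      exact mul_lt_of_lt h0 hP hX
    obtain ⟨⟨s, x⟩, hsx⟩ := infinite_pigeonhole z h0 hcard
    have hne : ∃ y, z y = (s, x) := by
      have : #(z ⁻¹' {(s, x)}) ≠ 0 := by
        rw [hsx]
        exact (aleph0_pos.trans_le h0).ne'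
      obtain ⟨y⟩ := mk_ne_zero_iff.1 this
      exact ⟨y.1, y.2⟩
    obtain ⟨y₀, hy₀⟩ := hne
    have hs : s ≤ r' := by
      have := hz y₀
      rwa [hy₀] at this
    obtain ⟨e⟩ := Cardinal.eq.1 hsx.symm
    refine ⟨s, hs, x, ?_⟩
    refine mem_fex_of_mem (fun y y' => {_p : P | (e y).1 = y'}) (down_fand (down_IsFun _)
      (down_fand (down_IsInj _) (down_fall fun _ => down_fall fun _ => down_fimp _ _))) ?_
    refine ⟨isFun_ground (fun y => (e y).1) s, isInj_ground (f := fun y => (e y).1)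
      (fun y y' h => e.injective (Subtype.ext h)) s, fun y y' => mem_fimp.2 fun t ht h => ?_⟩
    refine ⟨t, le_rfl, ?_⟩
    have h2 : (e y).1 = y' := mem_meets_const.1 h
    have h3 : z y' = (s, x) := by
      rw [← h2]
      exact (e y).2
    have h4 := hz' y'
    rw [h3] at h4
    exact down_meets _ _ h4 _ ht
  · -- strong limit
    have hX := card_lt_of_Lt hq
    refine ⟨q, le_rfl, fun r _ hr => ?_⟩
    obtain ⟨s, _, E, hE⟩ := mem_LePow_iff hr
    have hcard : #(X → Set P) < #L := by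
      have h1 : #(X → Set P) = 2 ^ (#P * #X) := by
        rw [← power_def, mk_set, ← power_mul]
      rw [h1]
      exact hL.isStrongPrelimit (mul_lt_of_lt h0 hP hX)
    have h1 : ¬ Function.Injective (fun (y : L) (x : X) => meets (E y x)) := fun h =>
      absurd (mk_le_of_injective h) (not_le.2 hcard)
    unfold Function.Injective at h1
    push Not at h1
    obtain ⟨y, y', heq, hne⟩ := h1
    exact hne (hE y y' s le_rfl (sameSet_of_meets (fun x => congrFun heq x) s))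

theorem not_Inacc_of_pow {X Z : Type} (hZ : #Z < #X) (hP : #P < #X) (hX : ℵ₀ ≤ #X)
    (hpow : #X ≤ 2 ^ #Z) (p : P) : p ∉ Inacc P X := by
  intro h
  rw [← mk_set] at hpow
  obtain ⟨f⟩ := (Cardinal.le_def _ _).1 hpow
  obtain ⟨q, hq, hq'⟩ := mem_fimp.1 (h.2.2 Z) p le_rfl (mem_Lt hP hZ hX p)
  refine hq' q le_rfl (mem_LePow_of (fun x z => {_p : P | z ∈ f x}) fun x x' r _ hr => ?_)
  apply f.injective
  ext z
  have := mem_SameSet.1 hr z r le_rfl
  rwa [mem_meets_const, mem_meets_const] at this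

theorem not_Inacc_of_cof {X : Type} (hP : #P < #X) (hX : ℵ₀ ≤ #X)
    (hcof : (#X).ord.cof < #X) (p : P) : p ∉ Inacc P X := by
  classical
  intro h
  -- a function to a small set with small fibers
  have h1 : ∃ (Z : Type) (F : X → Z), #Z < #X ∧ ∀ z, #(F ⁻¹' {z}) < #X := by
    obtain ⟨r, _, hr⟩ := ord_eq X
    obtain ⟨e⟩ : Nonempty (X ≃ (#X).ord.ToType) := Cardinal.eq.1 (by simp)
    obtain ⟨S, hS, hS'⟩ := Order.exists_cof_eq (#X).ord.ToType
    rw [Ordinal.cof_toType] at hS'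
    choose g hg hg' using hS
    refine ⟨S, fun x => ⟨g (e x), hg _⟩, hS'.trans_lt hcof, fun z => ?_⟩
    have h2 : (fun x : X => (⟨g (e x), hg _⟩ : S)) ⁻¹' {z} ⊆ e ⁻¹' (Set.Iic z.1) := by
      intro x hx
      have h3 : (⟨g (e x), hg _⟩ : S) = z := hx
      show e x ≤ z.1
      rw [← h3]
      exact hg' _
    refine (mk_le_mk_of_subset h2).trans_lt ?_
    rw [mk_preimage_equiv]
    have h4 : (Set.Iic z.1 : Set (#X).ord.ToType) = insert z.1 (Set.Iio z.1) := by
      ext y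
      simp [le_iff_eq_or_lt]
    rw [h4]
    refine mk_insert_le.trans_lt (add_lt_of_lt hX ?_ (one_lt_aleph0.trans_le hX))
    have := mk_Iio_lt z.1 (by simp)
    simpa using this
  obtain ⟨Z, F, hZ, hF⟩ := h1
  obtain ⟨q, hq, hq'⟩ := mem_fimp.1 (h.2.1 Z) p le_rfl (mem_Lt hP hZ hX p)
  obtain ⟨r, hr, hr'⟩ := mem_fimp.1 (hq' (fun x z => {_p : P | F x = z})) q le_rfl
    (isFun_ground F q)
  obtain ⟨s, hs, z, hz⟩ := mem_fex.1 hr' r le_rfl
  obtain ⟨t, ht, H, hH, hH', hH''⟩ := mem_fex.1 hz s le_rfl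
  have h2 : ∀ y : X, ∃ w : P × (F ⁻¹' {z}), w.1 ≤ t ∧ w.1 ∈ meets (H y w.2.1) := by
    intro y
    obtain ⟨u, hu, y', hy'⟩ := IsFun.total hH y
    obtain ⟨v, hv, hv'⟩ := mem_fimp.1 (hH'' y y') u hu hy'
    have h3 : F y' = z := mem_meets_const.1 hv'
    exact ⟨(v, ⟨y', h3⟩), hv.trans hu, down_meets _ _ hy' _ hv⟩
  choose w hw hw' using h2
  obtain ⟨y, y', hne, heq⟩ := exists_ne_of_card hP (hF z) hX w
  apply hne
  refine IsInj.eq (down_IsInj H _ hH' _ (hw y)) (hw' y) ?_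
  rw [heq]
  exact hw' y'

end general

end Pool.Agent.Y587.CB
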