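import Mathlib
import Pool.Agent.Y587.CBCard

set_option autoImplicit false

namespace Pool.Agent.Y587.CB

open Cardinal Pool.Agent.Helper669.Forcing Pool.Agent.W872.CC

variable {K : Type} {U : Ultrafilter K}

theorem Measure.le_cof (hU : Measure U) : #K ≤ (#K).ord.cof := by
  by_contra hcon
  rw [not_le] at hcon
  obtain ⟨e⟩ : Nonempty (K ≃ (#K).ord.ToType) := Cardinal.eq.1 (by simp)
  obtain ⟨S, hS, hS'⟩ := Order.exists_cof_eq (#K).ord.ToType
  rw [Ordinal.cof_toType] at hS'
  obtain ⟨z, hz⟩ := hU.const (ι := S) (hS'.trans_lt hcon) Filter.univ_mem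
    (fun a z => e a ≤ z.1) (fun a _ => by
      obtain ⟨z, hz, hz'⟩ := hS (e a)
      exact ⟨⟨z, hz⟩, hz'⟩)
  refine hU.card_lt_notMem ?_ hz
  have h2 : {a | a ∈ Set.univ ∧ e a ≤ z.1} ⊆ e ⁻¹' (Set.Iic z.1) := fun a ha => ha.2
  refine (mk_le_mk_of_subset h2).trans_lt ?_
  rw [mk_preimage_equiv]
  have h4 : (Set.Iic z.1 : Set (#K).ord.ToType) = insert z.1 (Set.Iio z.1) := by
    ext y
    simp [le_iff_eq_or_lt]
  rw [h4]
  refine mk_insert_le.trans_lt (add_lt_of_lt hU.unc.le ?_ (one_lt_aleph0.trans hU.unc))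
  have := mk_Iio_lt z.1 (by simp)
  simpa using this

theorem mk_Add (hU : Measure U) : #(AddSub (K × W1)) ≤ #K := by
  have hW : #W1 < #K := by rw [W1, mk_out]; exact hU.aleph_one_lt
  have hX : #(K × W1 × Bool) = #K := by
    rw [mk_prod, lift_id, lift_id]
    refine mul_eq_left hU.unc.le ?_ ?_
    · rw [mk_prod, lift_id, lift_id]
      exact (mul_lt_of_lt hU.unc.le hW (mk_lt_aleph0.trans hU.unc)).le
    · rw [mk_prod, lift_id, lift_id, W1, mk_out]
      simp only [mk_bool, ne_eq, mul_eq_zero, OfNat.ofNat_ne_zero, or_false]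
      exact (aleph_pos 1).ne'
  have h1 : #{s : Set (K × W1 × Bool) // #s < (#(K × W1 × Bool)).ord.cof} =
      #(K × W1 × Bool) := mk_subset_mk_lt_cof (by rw [hX]; exact hU.strongLimit.isStrongPrelimit)
  rw [hX] at h1
  rw [← h1]
  refine mk_le_of_injective (f := fun p : AddSub (K × W1) =>
    (⟨{z | p.1 (z.1, z.2.1) = some z.2.2}, ?_⟩ :
      {s : Set (K × W1 × Bool) // #s < (#K).ord.cof})) fun p q h => ?_
  · refine lt_of_le_of_lt ?_ (hU.unc.trans_le hU.le_cof)
    rw [le_aleph0_iff_set_countable]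
    refine Set.Countable.mono ?_ (p.2.image fun x => (x.1, x.2, (p.1 x).getD true))
    rintro ⟨a, b, c⟩ hz
    have hz' : p.1 (a, b) = some c := hz
    refine ⟨(a, b), ?_, ?_⟩
    · show p.1 (a, b) ≠ none
      rw [hz']
      simp
    · simp [hz']
  · have h2 : {z : K × W1 × Bool | p.1 (z.1, z.2.1) = some z.2.2} =
        {z : K × W1 × Bool | q.1 (z.1, z.2.1) = some z.2.2} := congrArg Subtype.val h
    refine Subtype.ext (funext fun x => ?_)
    have h3 : ∀ c, p.1 x = some c ↔ q.1 x = some c := fun c => by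
      have : (x.1, x.2, c) ∈ {z : K × W1 × Bool | p.1 (z.1, z.2.1) = some z.2.2} ↔
        (x.1, x.2, c) ∈ {z : K × W1 × Bool | q.1 (z.1, z.2.1) = some z.2.2} := by rw [h2]
      exact this
    cases hp : p.1 x with
    | none =>
      cases hq : q.1 x with
      | none => rfl
      | some c => rw [← h3 c, hp] at hq; simp at hq
    | some c => exact ((h3 c).1 hp).symm

/-- the generic subsets of `ω₁` are distinct -/
theorem mem_LePow_W1 {X : Type} {f : X → K} (hf : Function.Injective f) (p : AddSub (K × W1)) :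
    p ∈ LePow (AddSub (K × W1)) X W1 := by
  classical
  refine mem_LePow_of (fun x i => {q | q.1 (f x, i) = some true}) fun x x' r _ hr => ?_
  by_contra hne
  have hne' : f x ≠ f x' := fun h => hne (hf h)
  -- a coordinate not decided by `r`
  have h1 : ∃ i : W1, r.1 (f x, i) = none ∧ r.1 (f x', i) = none := by
    by_contra hcon
    push Not at hcon
    have h2 : (Set.univ : Set W1) ⊆ (Prod.snd '' {z | r.1 z ≠ none}) := by
      intro i _
      by_cases h : r.1 (f x, i) = none
      · exact ⟨(f x', i), hcon i h, rfl⟩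
      · exact ⟨(f x, i), h, rfl⟩
    have h3 : (Set.univ : Set W1).Countable := (r.2.image _).mono h2
    have h4 : #W1 ≤ ℵ₀ := by
      rw [← mk_univ]
      exact le_aleph0_iff_set_countable.2 h3
    rw [W1, mk_out] at h4
    exact absurd h4 (not_le.2 aleph0_lt_aleph_one)
  obtain ⟨i, hi, hi'⟩ := h1
  let g : K × W1 → Option Bool := fun z =>
    if z = (f x, i) then some true else if z = (f x', i) then some false else r.1 z
  have hg1 : g (f x, i) = some true := if_pos rfl
  have hne2 : ((f x', i) : K × W1) ≠ (f x, i) := fun h => hne' (congrArg Prod.fst h).symm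
  have hg2 : g (f x', i) = some false := by
    show (if (f x', i) = (f x, i) then some true else if (f x', i) = (f x', i) then some false
      else r.1 (f x', i)) = some false
    rw [if_neg hne2, if_pos rfl]
  have hg3 : ∀ z b, r.1 z = some b → g z = some b := by
    intro z b hz
    show (if z = (f x, i) then some true else if z = (f x', i) then some false else r.1 z) = some b
    rw [if_neg, if_neg, hz]
    · rintro rfl
      rw [hi'] at hz
      simp at hz
    · rintro rfl
      rw [hi] at hz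
      simp at hz
  have hgc : {z | g z ≠ none}.Countable := by
    refine ((r.2.insert (f x', i)).insert (f x, i)).mono fun z hz => ?_
    by_cases h1 : z = (f x, i)
    · exact Or.inl h1
    · by_cases h2 : z = (f x', i)
      · exact Or.inr (Or.inl h2)
      · refine Or.inr (Or.inr ?_)
        have hz' : (if z = (f x, i) then some true else if z = (f x', i) then some false
          else r.1 z) ≠ none := hz
        rw [if_neg h1, if_neg h2] at hz'
        exact hz'
  let q : AddSub (K × W1) := ⟨g, hgc⟩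
  have hq : q ≤ r := hg3
  have h5 : q ∈ meets {q : AddSub (K × W1) | q.1 (f x, i) = some true} :=
    meets_of_mem (show q ∈ {q : AddSub (K × W1) | q.1 (f x, i) = some true} from hg1)
  rw [mem_SameSet.1 hr i q hq] at h5
  obtain ⟨s, hs, t, ht, hst⟩ := h5 q le_rfl
  have h6 := hst _ _ ht
  have h7 := hs _ _ hg2
  rw [h6] at h7
  simp at h7

theorem not_Inacc_small {X : Type} (hX : #X ≤ #K) (p : AddSub (K × W1)) :
    p ∉ Inacc (AddSub (K × W1)) X := by
  intro h
  obtain ⟨f⟩ := (Cardinal.le_def _ _).1 hX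
  -- `|X| ≤ ω₁` in the extension
  have h1 : ∃ q ≤ p, q ∈ Le (AddSub (K × W1)) X W1 := by
    by_contra hcon
    push Not at hcon
    obtain ⟨r, _, hr⟩ := mem_fimp.1 (h.2.2 W1) p le_rfl hcon
    exact hr r le_rfl (mem_LePow_W1 f.injective r)
  obtain ⟨q, hq, hq'⟩ := h1
  obtain ⟨r, hr, R, hR, hR'⟩ := mem_fex.1 hq' q le_rfl
  have hc : #W1 ≤ #(Set ℕ) := by
    rw [W1, mk_out, mk_set, mk_nat, ← succ_aleph0]
    exact Order.succ_le_of_lt (cantor ℵ₀)
  obtain ⟨c⟩ := (Cardinal.le_def _ _).1 hc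
  have h2 : r ∈ LePow (AddSub (K × W1)) X ℕ := by
    refine mem_LePow_of (fun x n => {s | ∃ i, s ∈ meets (R x i) ∧ n ∈ c i}) fun x x' s hs hss => ?_
    obtain ⟨t, ht, i, hi⟩ := IsFun.total (down_IsFun R _ hR _ hs) x
    obtain ⟨u, hu, i', hi'⟩ := IsFun.total (down_IsFun R _ hR _ (ht.trans hs)) x'
    have hui : u ∈ meets (R x i) := down_meets _ _ hi _ hu
    have huR := down_IsFun R _ hR _ (hu.trans (ht.trans hs))
    have h3 : ∀ y j, u ∈ meets (R y j) → ∀ n,
        (u ∈ meets {s | ∃ i, s ∈ meets (R y i) ∧ n ∈ c i} ↔ n ∈ c j) := by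
      intro y j hj n
      constructor
      · intro h4
        obtain ⟨v, hv, w, ⟨k, hk, hk'⟩, hvw⟩ := h4 u le_rfl
        have h5 : k = j := IsFun.unique (down_IsFun R _ huR _ hv)
          (down_meets _ _ hk _ hvw) (down_meets _ _ hj _ hv)
        rwa [h5] at hk'
      · intro h4
        exact meets_of_mem ⟨j, hj, h4⟩
    have h4 : c i = c i' := by
      ext n
      rw [← h3 x i hui n, ← h3 x' i' hi' n]
      exact mem_SameSet.1 hss n u (hu.trans ht)
    have h5 : i = i' := c.injective h4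
    subst h5
    exact IsInj.eq (down_IsInj R _ hR' _ (hu.trans (ht.trans hs))) hui hi'
  have h' := down_Inacc X _ h _ (hr.trans hq)
  obtain ⟨s, hs, hs'⟩ := mem_fimp.1 (h'.2.2 ℕ) r le_rfl h'.1
  exact hs' s le_rfl (down_fex _ _ h2 _ hs)

theorem leastInacc (hU : Measure U) {L : Type} (hL : (#L).IsInaccessible) (hKL : #K < #L)
    (hgap : ∀ μ : Cardinal.{0}, #K < μ → μ < #L → ¬ μ.IsInaccessible) (p : AddSub (K × W1)) :
    p ∈ LeastInacc (AddSub (K × W1)) L := by
  have hP := mk_Add hU
  refine ⟨mem_Inacc hL (hP.trans_lt hKL) p, fun X => mem_fimp.2 fun q _ hq => ⟨q, le_rfl,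
    fun r _ => ?_⟩⟩
  have hX := card_lt_of_Lt hq
  rcases le_or_gt #X #K with h | h
  · exact not_Inacc_small h r
  · have hPX : #(AddSub (K × W1)) < #X := hP.trans_lt h
    have h0 : ℵ₀ < #X := hU.unc.trans h
    have h1 := hgap #X h hX
    by_cases h2 : #X ≤ (#X).ord.cof
    · have h3 : ¬ IsStrongPrelimit #X := fun h3 => h1 ⟨h0, h2, h3⟩
      rw [not_isStrongPrelimit_iff] at h3
      obtain ⟨c, hc, hc'⟩ := h3
      exact not_Inacc_of_pow (Z := c.out) (by rwa [mk_out]) hPX h0.le (by rwa [mk_out]) r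
    · exact not_Inacc_of_cof hPX h0.le (not_le.1 h2) r

end Pool.Agent.Y587.CB
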