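import Mathlib

/-!
# The cut and choose game of length `ω`
-/

set_option autoImplicit false

namespace Pool.Agent.Y587.CC

universe u

/-- The first `n` moves of Cut, the last one of them is the head of the list. -/
def hist {α : Type u} (A : ℕ → α) : ℕ → List α
  | 0 => []
  | n + 1 => A n :: hist A n

/-- The current set after Cut has made the moves in the list (the last move is the head) and Choose
has answered by `σ`. The game starts with the whole of `K`. If the current set is `X` and Cut plays
`A`, then `X` is split into `X ∩ A` and `X \ A`; Choose takes `X ∩ A` if `σ` holds at the list of the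
moves of Cut made so far, and `X \ A` otherwise. -/
def cur {K : Type u} (σ : List (Set K) → Prop) : List (Set K) → Set K
  | [] => Set.univ
  | A :: l => {x | x ∈ cur σ l ∧ (x ∈ A ↔ σ (A :: l))}

/-- Choose has a winning strategy in the game `U(K, ≤ω)`: in each run in which Choose follows the
strategy, none of the selected sets is a singleton, and their intersection is nonempty. -/
def ChooseWins (K : Type u) : Prop :=
  ∃ σ : List (Set K) → Prop, ∀ A : ℕ → Set K,
    (∀ n x, cur σ (hist A (n + 1)) ≠ {x}) ∧ ∃ x, ∀ n, x ∈ cur σ (hist A n)

end Pool.Agent.Y587.CC
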