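import Mathlib
import Pool.Agent.Y587.CCDefs

set_option autoImplicit false

namespace Pool.Agent.Y587.CC

universe u

open Set Cardinal

variable {K : Type u}

/-- `σ` is winning -/
def Winning (σ : List (Set K) → Prop) : Prop :=
  ∀ A : ℕ → Set K, (∀ n x, cur σ (hist A (n + 1)) ≠ {x}) ∧ ∃ x, ∀ n, x ∈ cur σ (hist A n)

theorem cur_append (σ : List (Set K) → Prop) (l m : List (Set K)) :
    cur σ (l ++ m) ⊆ cur σ m := by
  induction l with
  | nil => exact subset_rfl
  | cons A l ih => exact fun x hx => ih hx.1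

theorem cur_mono (σ : List (Set K) → Prop) {l m : List (Set K)} (h : m <:+ l) :
    cur σ l ⊆ cur σ m := by
  obtain ⟨t, rfl⟩ := h
  exact cur_append σ t m

theorem hist_eq {α : Type u} (A : ℕ → α) (l : List α)
    (h : ∀ k < l.length, l.reverse[k]? = some (A k)) : hist A l.length = l := by
  induction l with
  | nil => rfl
  | cons a l ih =>
    have h1 : hist A l.length = l := by
      refine ih fun k hk => ?_
      have := h k (by simp; omega)
      rw [List.reverse_cons, List.getElem?_append_left (by simpa using hk)] at this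
      exact this
    have h2 := h l.length (by simp)
    rw [List.reverse_cons, List.getElem?_append_right (by simp)] at h2
    simp only [List.length_reverse, Nat.sub_self, List.getElem?_cons_zero, Option.some.injEq] at h2
    show A l.length :: hist A l.length = a :: l
    rw [h1, h2]

/-- a chain of positions comes from a run -/
theorem exists_run {α : Type u} [Inhabited α] (l : ℕ → List α) (h : ∀ n, l n <:+ l (n + 1)) :
    ∃ A : ℕ → α, ∀ n, hist A (l n).length = l n := by
  classical
  have hmono : ∀ m n, m ≤ n → l m <:+ l n := by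
    intro m n hmn
    induction n, hmn using Nat.le_induction with
    | base => exact List.suffix_refl _
    | succ n _ ih => exact ih.trans (h n)
  have hp : ∀ m n, m ≤ n → (l m).reverse <+: (l n).reverse := fun m n hmn =>
    List.reverse_prefix.2 (hmono m n hmn)
  let A : ℕ → α := fun k => if hk : ∃ n, k < (l n).length then
    ((l hk.choose).reverse[k]?).getD default else default
  refine ⟨A, fun n => hist_eq A (l n) fun k hk => ?_⟩
  have hk' : ∃ n, k < (l n).length := ⟨n, hk⟩
  have e : A k = ((l hk'.choose).reverse[k]?).getD default := dif_pos hk'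
  have hc := hk'.choose_spec
  rw [e]
  rcases le_total hk'.choose n with hle | hle
  · obtain ⟨t, ht⟩ := hp _ _ hle
    rw [← ht, List.getElem?_append_left (by simpa using hc)]
    rw [List.getElem?_eq_getElem (by simpa using hc)]
    rfl
  · obtain ⟨t, ht⟩ := hp _ _ hle
    rw [← ht, List.getElem?_append_left (by simpa using hk)]
    rw [List.getElem?_eq_getElem (by simpa using hk)]
    rfl

variable {σ : List (Set K) → Prop}

theorem Winning.chain (hσ : Winning σ) (l : ℕ → List (Set K)) (h : ∀ n, l n <:+ l (n + 1)) :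
    ∃ x, ∀ n, x ∈ cur σ (l n) := by
  obtain ⟨A, hA⟩ := exists_run l h
  obtain ⟨x, hx⟩ := (hσ A).2
  exact ⟨x, fun n => by rw [← hA n]; exact hx _⟩

theorem Winning.nonempty (hσ : Winning σ) (l : List (Set K)) : (cur σ l).Nonempty := by
  obtain ⟨x, hx⟩ := hσ.chain (fun _ => l) fun _ => List.suffix_refl _
  exact ⟨x, hx 0⟩

theorem Winning.cons_univ (hσ : Winning σ) (l : List (Set K)) :
    cur σ (Set.univ :: l) = cur σ l := by
  obtain ⟨x, hx⟩ := hσ.nonempty (Set.univ :: l)
  have h : σ (Set.univ :: l) := hx.2.1 (mem_univ _)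
  ext y
  exact ⟨fun hy => hy.1, fun hy => ⟨hy, fun _ => h, fun _ => mem_univ _⟩⟩

theorem Winning.not_singleton (hσ : Winning σ) (l : List (Set K)) (x : K) : cur σ l ≠ {x} := by
  intro hx
  obtain ⟨A, hA⟩ := exists_run (fun _ => Set.univ :: l) fun _ => List.suffix_refl _
  have h := (hσ A).1 l.length x
  apply h
  have h2 := hA 0
  simp only [List.length_cons] at h2
  rw [h2, hσ.cons_univ, hx]

theorem Winning.exists_ne (hσ : Winning σ) (l : List (Set K)) (x : K) :
    ∃ y ∈ cur σ l, y ≠ x := by
  by_contra hcon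
  push Not at hcon
  obtain ⟨z, hz⟩ := hσ.nonempty l
  refine hσ.not_singleton l x (eq_singleton_iff_unique_mem.2 ⟨?_, hcon⟩)
  rwa [← hcon z hz]

/-- Simulation: if `f` is nonconstant on all later current sets, then Choose wins the game on the
range. -/
theorem Winning.image (hσ : Winning σ) {L : Type u} (f : K → L) (l : List (Set K))
    (hf : ∀ l', l <:+ l' → ∀ c, ∃ x ∈ cur σ l', f x ≠ c) : ChooseWins L := by
  let pull : List (Set L) → List (Set K) := fun m => m.map (fun B => f ⁻¹' B) ++ l
  refine ⟨fun m => σ (pull m), fun B => ?_⟩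
  have key : ∀ m : List (Set L), ∀ x, x ∈ cur σ (pull m) ↔
      x ∈ cur σ l ∧ f x ∈ cur (fun m => σ (pull m)) m := by
    intro m
    induction m with
    | nil => intro x; simp [pull, cur]
    | cons C m ih =>
      intro x
      show (x ∈ cur σ (pull m) ∧ (x ∈ f ⁻¹' C ↔ σ (pull (C :: m)))) ↔
        x ∈ cur σ l ∧ (f x ∈ cur (fun m => σ (pull m)) m ∧ (f x ∈ C ↔ σ (pull (C :: m))))
      rw [ih x, mem_preimage, and_assoc]
  have hsuf : ∀ m : List (Set L), l <:+ pull m := fun m => List.suffix_append _ _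
  refine ⟨fun n y hy => ?_, ?_⟩
  · obtain ⟨x, hx, hne⟩ := hf (pull (hist B (n + 1))) (hsuf _) y
    apply hne
    have := ((key _ _).1 hx).2
    rw [hy] at this
    exact this
  · obtain ⟨x, hx⟩ := hσ.chain (fun n => pull (hist B n)) (fun n => by
      show _ <:+ pull (B n :: hist B n)
      exact List.suffix_cons _ _)
    exact ⟨f x, fun n => ((key _ _).1 (hx n)).2⟩

/-- Choose wins the game on the current set of any position. -/
theorem Winning.sub (hσ : Winning σ) (l : List (Set K)) : ChooseWins (cur σ l) := by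
  classical
  obtain ⟨x₀, hx₀⟩ := hσ.nonempty l
  let f : K → cur σ l := fun x => if h : x ∈ cur σ l then ⟨x, h⟩ else ⟨x₀, hx₀⟩
  refine hσ.image f l fun l' hl' c => ?_
  obtain ⟨y, hy, hne⟩ := hσ.exists_ne l' c
  refine ⟨y, hy, fun h => hne ?_⟩
  have : f y = ⟨y, cur_mono σ hl' hy⟩ := dif_pos (cur_mono σ hl' hy)
  rw [this] at h
  rw [← h]

theorem chooseWins_congr {K L : Type u} (e : K ≃ L) (h : ChooseWins K) : ChooseWins L := by
  obtain ⟨σ, hσ⟩ := h
  have hσ' : Winning σ := hσ
  refine hσ'.image e [] fun l' _ c => ?_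
  obtain ⟨y, hy, hne⟩ := hσ'.exists_ne l' (e.symm c)
  exact ⟨y, hy, fun h => hne (by rw [← h]; simp)⟩

/-- If Choose wins on `K`, then also on larger sets. -/
theorem chooseWins_mono {K L : Type u} (i : K ↪ L) (h : ChooseWins K) : ChooseWins L := by
  obtain ⟨σ, hσ⟩ := h
  have hσ' : Winning σ := hσ
  refine hσ'.image i [] fun l' _ c => ?_
  by_cases hc : ∃ k, i k = c
  · obtain ⟨k, rfl⟩ := hc
    obtain ⟨y, hy, hne⟩ := hσ'.exists_ne l' k
    exact ⟨y, hy, fun h => hne (i.injective h)⟩
  · obtain ⟨y, hy⟩ := hσ'.nonempty l'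
    exact ⟨y, hy, fun h => hc ⟨y, h⟩⟩

theorem not_chooseWins_countable [Countable K] : ¬ ChooseWins K := by
  rintro ⟨σ, hσ⟩
  have hσ' : Winning σ := hσ
  obtain ⟨x, -⟩ := hσ'.nonempty []
  haveI : Nonempty K := ⟨x⟩
  obtain ⟨e, he⟩ := exists_surjective_nat K
  obtain ⟨y, hy⟩ := (hσ fun n => {e n}).2
  obtain ⟨n, rfl⟩ := he y
  have h1 := hy (n + 1)
  have h2 : σ (hist (fun n => {e n}) (n + 1)) := h1.2.1 rfl
  refine hσ'.not_singleton (hist (fun n => {e n}) (n + 1)) (e n) ?_
  refine eq_singleton_iff_unique_mem.2 ⟨h1, fun z hz => ?_⟩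
  exact hz.2.2 h2

end Pool.Agent.Y587.CC
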