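import Mathlib
import Pool.Agent.Y587.CCCore

set_option autoImplicit false

namespace Pool.Agent.Y587.CC

universe u

open Set Cardinal

variable {K : Type u} [LinearOrder K] [WellFoundedLT K] {σ : List (Set K) → Prop}

/-- `K` is well ordered in the type of its cardinality, and Choose does not win on smaller sets. -/
structure Least (K : Type u) [LinearOrder K] [WellFoundedLT K] : Prop where
  inf : Infinite K
  small : ∀ x : K, #(Iio x) < #K
  least : ∀ L : Type u, #L < #K → ¬ ChooseWins L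

theorem Least.small' (hK : Least K) (x : K) : #(Iic x) < #K := by
  haveI := hK.inf
  have h : (Iic x : Set K) = insert x (Iio x) := by
    ext y
    simp [le_iff_eq_or_lt]
  rw [h]
  refine (mk_insert_le).trans_lt ?_
  exact add_lt_of_lt (aleph0_le_mk K) (hK.small x) (one_lt_aleph0.trans_le (aleph0_le_mk K))

theorem Least.exists_gt (hK : Least K) (x : K) : ∃ y, x < y := by
  by_contra hcon
  push Not at hcon
  have h := hK.small' x
  have e : (Iic x : Set K) = Set.univ := eq_univ_of_forall hcon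
  rw [e, mk_univ] at h
  exact h.false

/-- functions into smaller sets can be decided -/
theorem Winning.const (hσ : Winning σ) (hK : Least K) {L : Type u} (hL : #L < #K) (f : K → L)
    (l : List (Set K)) : ∃ l', l <:+ l' ∧ ∃ c, ∀ x ∈ cur σ l', f x = c := by
  by_contra hcon
  refine hK.least L hL (hσ.image f l fun l' hl' c => ?_)
  by_contra h2
  push Not at h2
  exact hcon ⟨l', hl', c, h2⟩

theorem Winning.const_of_lt (hσ : Winning σ) (hK : Least K) (h : K → K) (b : K)
    (l : List (Set K)) (hb : ∀ x ∈ cur σ l, h x < b) :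
    ∃ l', l <:+ l' ∧ ∃ c, ∀ x ∈ cur σ l', h x = c := by
  classical
  obtain ⟨x₀, hx₀⟩ := hσ.nonempty l
  let f : K → Iio b := fun x => if hx : h x < b then ⟨h x, hx⟩ else ⟨h x₀, hb x₀ hx₀⟩
  obtain ⟨l', hl', c, hc⟩ := hσ.const hK (hK.small b) f l
  refine ⟨l', hl', c.1, fun x hx => ?_⟩
  have h1 := hb x (cur_mono σ hl' hx)
  have h2 : f x = ⟨h x, h1⟩ := dif_pos h1
  rw [← hc x hx, h2]

theorem Winning.card_cur (hσ : Winning σ) (hK : Least K) (l : List (Set K)) :
    #K ≤ #(cur σ l) := by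
  by_contra h
  exact hK.least _ (not_le.1 h) (hσ.sub l)

theorem Winning.exists_ge (hσ : Winning σ) (hK : Least K) (l : List (Set K)) (b : K) :
    ∃ x ∈ cur σ l, b < x := by
  by_contra hcon
  push Not at hcon
  have h1 : cur σ l ⊆ Iic b := fun x hx => hcon x hx
  exact absurd ((hσ.card_cur hK l).trans (mk_le_mk_of_subset h1)) (not_le.2 (hK.small' b))

/-- regularity -/
theorem Winning.bounded (hσ : Winning σ) (hK : Least K) (B : Set K) (hB : #B < #K) :
    ∃ b, ∀ x ∈ B, x < b := by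
  by_contra hcon
  push Not at hcon
  choose f hf hf' using hcon
  let g : K → B := fun x => ⟨f x, hf x⟩
  obtain ⟨l', -, c, hc⟩ := hσ.const hK hB g []
  obtain ⟨x, hx, hx'⟩ := hσ.exists_ge hK l' c.1
  have h1 := hf' x
  have h2 : g x = c := hc x hx
  have h3 : f x = c.1 := congrArg Subtype.val h2
  rw [h3] at h1
  exact absurd (h1.trans_lt hx') (lt_irrefl _)

/-- `g` is nowhere bounded below the position `l` -/
def NB (σ : List (Set K) → Prop) (g : K → K) (l : List (Set K)) : Prop :=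
  ∀ l', l <:+ l' → ∀ b, ∃ x ∈ cur σ l', b ≤ g x

omit [WellFoundedLT K] in
theorem NB.mono {g : K → K} {l m : List (Set K)} (h : NB σ g l) (hm : l <:+ m) : NB σ g m :=
  fun l' hl' => h l' (hm.trans hl')

/-- normality of `g` below `l` -/
def Nml (σ : List (Set K) → Prop) (g : K → K) (l : List (Set K)) : Prop :=
  ∀ h : K → K, ∀ l', l <:+ l' → (∀ x ∈ cur σ l', h x < g x) →
    ∃ l'', l' <:+ l'' ∧ ∃ c, ∀ x ∈ cur σ l'', h x = c

omit [WellFoundedLT K] in
theorem Nml.mono {g : K → K} {l m : List (Set K)} (h : Nml σ g l) (hm : l <:+ m) : Nml σ g m :=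
  fun f l' hl' => h f l' (hm.trans hl')

theorem Winning.nb_of_not_const (hσ : Winning σ) (hK : Least K) (h : K → K) (l : List (Set K))
    (hl : ∀ l', l <:+ l' → ∀ c, ∃ x ∈ cur σ l', h x ≠ c) : NB σ h l := by
  intro l' hl' b
  by_contra hcon
  push Not at hcon
  obtain ⟨l'', hl'', c, hc⟩ := hσ.const_of_lt hK h b l' hcon
  obtain ⟨x, hx, hx'⟩ := hl l'' (hl'.trans hl'') c
  exact hx' (hc x hx)

theorem Winning.exists_nml (hσ : Winning σ) (hK : Least K) :
    ∃ g l, NB σ g l ∧ Nml σ g l := by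
  by_contra hcon
  push Not at hcon
  have step : ∀ p : {p : (K → K) × List (Set K) // NB σ p.1 p.2},
      ∃ q : {p : (K → K) × List (Set K) // NB σ p.1 p.2},
        p.1.2 <:+ q.1.2 ∧ ∀ x ∈ cur σ q.1.2, q.1.1 x < p.1.1 x := by
    rintro ⟨⟨g, l⟩, hg⟩
    have h1 := hcon g l hg
    unfold Nml at h1
    push Not at h1
    obtain ⟨h, l', hl', hlt, hne⟩ := h1
    exact ⟨⟨(h, l'), hσ.nb_of_not_const hK h l' hne⟩, hl', hlt⟩
  choose nx hnx using step
  have h0 : NB σ (fun x : K => x) [] := fun l' _ b => by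
    obtain ⟨x, hx, hx'⟩ := hσ.exists_ge hK l' b
    exact ⟨x, hx, hx'.le⟩
  let s : ℕ → {p : (K → K) × List (Set K) // NB σ p.1 p.2} := fun n =>
    nx^[n] ⟨(fun x => x, []), h0⟩
  have hs : ∀ n, s (n + 1) = nx (s n) := fun n => Function.iterate_succ_apply' _ _ _
  obtain ⟨x, hx⟩ := hσ.chain (fun n => (s n).1.2) fun n => by
    show (s n).1.2 <:+ (s (n + 1)).1.2
    rw [hs]
    exact (hnx _).1
  have hlt : ∀ n, (s (n + 1)).1.1 x < (s n).1.1 x := fun n => by
    have h2 := (hnx (s n)).2 x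
    rw [← hs n] at h2
    exact h2 (hx (n + 1))
  obtain ⟨n, hn⟩ := WellFounded.not_rel_apply_succ (r := fun a b : K => a < b) fun n => (s n).1.1 x
  exact hn (hlt n)

end Pool.Agent.Y587.CC
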