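import Mathlib
import Pool.Agent.Y587.CCNormal

set_option autoImplicit false

namespace Pool.Agent.Y587.CC

universe u

open Set Cardinal

variable {K : Type u} [LinearOrder K] [WellFoundedLT K] {σ : List (Set K) → Prop}

/-- `δ` is closed under `F` -/
def Cl (F : K → K) (δ : K) : Prop := ∀ x < δ, F x < δ

/-- `δ` has a short cofinal sequence -/
def Sing (δ : K) : Prop :=
  ∃ β < δ, ∃ φ : K → K, (∀ i < β, φ i < δ) ∧ ∀ ε < δ, ∃ i < β, ε ≤ φ i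

omit [LinearOrder K] [WellFoundedLT K] in
theorem Winning.decide (σ : List (Set K) → Prop) (P : K → Prop) (l : List (Set K)) :
    ∃ l', l <:+ l' ∧ ((∀ x ∈ cur σ l', P x) ∨ ∀ x ∈ cur σ l', ¬ P x) := by
  refine ⟨{x | P x} :: l, List.suffix_cons _ _, ?_⟩
  by_cases h : σ ({x | P x} :: l)
  · exact Or.inl fun x hx => hx.2.2 h
  · exact Or.inr fun x hx hP => h (hx.2.1 hP)

theorem NB.exists_gt {g : K → K} {l : List (Set K)} (hK : Least K) (hg : NB σ g l) (b : K) :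
    ∃ l', l <:+ l' ∧ ∀ x ∈ cur σ l', b < g x := by
  obtain ⟨l', hl', h⟩ := Winning.decide σ (fun x => b < g x) l
  rcases h with h | h
  · exact ⟨l', hl', h⟩
  · obtain ⟨c, hc⟩ := hK.exists_gt b
    obtain ⟨x, hx, hx'⟩ := hg l' hl' c
    exact absurd (hc.trans_le hx') (h x hx)

theorem Winning.closed (hσ : Winning σ) (hK : Least K) {g : K → K} {l : List (Set K)}
    (hg : NB σ g l) (hn : Nml σ g l) (F : K → K) (b : K) :
    ∃ l', l <:+ l' ∧ ∀ x ∈ cur σ l', b < g x ∧ Cl F (g x) := by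
  classical
  obtain ⟨l₁, hl₁, hb⟩ := hg.exists_gt hK b
  obtain ⟨l₂, hl₂, h₂⟩ := Winning.decide σ (fun x => Cl F (g x)) l₁
  rcases h₂ with h₂ | h₂
  · exact ⟨l₂, hl₁.trans hl₂, fun x hx => ⟨hb x (cur_mono σ hl₂ hx), h₂ x hx⟩⟩
  exfalso
  have h3 : ∀ x, ∃ y, x ∈ cur σ l₂ → y < g x ∧ g x ≤ F y := by
    intro x
    by_cases hx : x ∈ cur σ l₂
    · have := h₂ x hx
      unfold Cl at this
      push Not at this
      obtain ⟨y, hy⟩ := this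
      exact ⟨y, fun _ => hy⟩
    · exact ⟨x, fun h => absurd h hx⟩
  choose h hh using h3
  obtain ⟨l₃, hl₃, c, hc⟩ := hn h l₂ (hl₁.trans hl₂) fun x hx => (hh x hx).1
  obtain ⟨d, hd⟩ := hK.exists_gt (F c)
  obtain ⟨x, hx, hx'⟩ := hg l₃ ((hl₁.trans hl₂).trans hl₃) d
  have h4 := (hh x (cur_mono σ hl₃ hx)).2
  rw [hc x hx] at h4
  exact absurd (hd.trans_le (hx'.trans h4)) (lt_irrefl _)

/-- the set `S` meets each club -/
def Stat (S : Set K) : Prop := ∀ F : K → K, ∀ b, ∃ δ ∈ S, b < δ ∧ Cl F δ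

/-- countable cofinality, with a ladder -/
def Ladder (a : ℕ → K) (δ : K) : Prop := (∀ n, a n < δ) ∧ ∀ ε < δ, ∃ n, ε ≤ a n

theorem Winning.bounded_range (hσ : Winning σ) (hK : Least K) {ι : Type u} (hι : #ι < #K)
    (f : ι → K) : ∃ b, ∀ i, f i < b := by
  obtain ⟨b, hb⟩ := hσ.bounded hK (range f) (mk_range_le.trans_lt hι)
  exact ⟨b, fun i => hb _ ⟨i, rfl⟩⟩

theorem Winning.aleph0_lt (hσ : Winning σ) : ℵ₀ < #K := by
  by_contra h
  have h' : #K ≤ ℵ₀ := not_lt.1 h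
  have : Countable K := mk_le_aleph0_iff.1 h'
  exact not_chooseWins_countable ⟨σ, hσ⟩

theorem Winning.bounded_nat (hσ : Winning σ) (hK : Least K) (f : ℕ → K) : ∃ b, ∀ i, f i < b := by
  obtain ⟨b, hb⟩ := hσ.bounded_range hK (ι := ULift.{u} ℕ)
    (by simpa using hσ.aleph0_lt) fun n => f n.down
  exact ⟨b, fun i => hb ⟨i⟩⟩

theorem Winning.stat_ladder (hσ : Winning σ) (hK : Least K) :
    Stat {δ : K | ∃ a, Ladder a δ} := by
  intro F b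
  have h1 : ∀ x : K, ∃ y, x < y ∧ ∀ z ≤ x, F z < y := by
    intro x
    obtain ⟨y, hy⟩ := hσ.bounded_range hK (hK.small' x) fun z => F z.1
    obtain ⟨w, hw⟩ := hK.exists_gt x
    exact ⟨max w y, lt_max_of_lt_left hw, fun z hz => lt_max_of_lt_right (hy ⟨z, hz⟩)⟩
  choose G hG hG' using h1
  let s : ℕ → K := fun n => G^[n] b
  have hs : ∀ n, s (n + 1) = G (s n) := fun n => Function.iterate_succ_apply' _ _ _
  obtain ⟨c, hc⟩ := hσ.bounded_nat hK s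
  let δ := wellFounded_lt.min {x : K | ∀ n, s n < x} ⟨c, hc⟩
  have hδ : ∀ n, s n < δ := wellFounded_lt.min_mem {x : K | ∀ n, s n < x} ⟨c, hc⟩
  have hδ' : ∀ ε < δ, ∃ n, ε ≤ s n := by
    intro ε hε
    by_contra hcon
    push Not at hcon
    exact wellFounded_lt.not_lt_min {x : K | ∀ n, s n < x} hcon hε
  refine ⟨δ, ⟨s, hδ, hδ'⟩, hδ 0, fun x hx => ?_⟩
  obtain ⟨n, hn⟩ := hδ' x hx
  have h2 := hG' (s n) x hn
  rw [← hs n] at h2
  exact h2.trans (hδ _)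

theorem Winning.stat_fodor (hσ : Winning σ) (hK : Least K) (a : K → ℕ → K)
    (ha : ∀ δ, (∃ a, Ladder a δ) → Ladder (a δ) δ) :
    ∃ n : ℕ, ∀ β : K, ∃ γ, β ≤ γ ∧ Stat {δ : K | (∃ a, Ladder a δ) ∧ a δ n = γ} := by
  have h1 : ∃ n : ℕ, ∀ β : K, Stat {δ : K | (∃ a, Ladder a δ) ∧ β ≤ a δ n} := by
    by_contra hcon
    unfold Stat at hcon
    push Not at hcon
    choose β F b hh using hcon
    obtain ⟨β', hβ'⟩ := hσ.bounded_nat hK β
    obtain ⟨b', hb'⟩ := hσ.bounded_nat hK b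
    have h2 : ∀ x, ∃ y, ∀ n, F n x < y := fun x => hσ.bounded_nat hK fun n => F n x
    choose G hG using h2
    obtain ⟨δ, hδ, hδ2, hδ3⟩ := hσ.stat_ladder hK G (max β' b')
    obtain ⟨n, hn⟩ := (ha δ hδ).2 β' ((le_max_left _ _).trans_lt hδ2)
    refine hh n δ ⟨hδ, (hβ' n).le.trans hn⟩ ((hb' n).trans ((le_max_right _ _).trans_lt hδ2)) ?_
    exact fun x hx => (hG x n).trans (hδ3 x hx)
  obtain ⟨n, hn⟩ := h1
  refine ⟨n, fun β => ?_⟩
  by_contra hcon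
  have h3 : ∀ γ, ∃ F : K → K, ∃ b, β ≤ γ →
      ∀ δ ∈ {δ : K | (∃ a, Ladder a δ) ∧ a δ n = γ}, b < δ → ¬ Cl F δ := by
    intro γ
    by_cases hγ : β ≤ γ
    · have h4 : ¬ Stat {δ : K | (∃ a, Ladder a δ) ∧ a δ n = γ} := fun h => hcon ⟨γ, hγ, h⟩
      unfold Stat at h4
      push Not at h4
      obtain ⟨F, b, h⟩ := h4
      exact ⟨F, b, fun _ => h⟩
    · exact ⟨fun x => x, γ, fun h => absurd h hγ⟩
  choose F b hF using h3
  have h5 : ∀ x, ∃ y, ∀ γ ≤ x, b γ < y ∧ ∀ z ≤ x, F γ z < y := by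
    intro x
    obtain ⟨y, hy⟩ := hσ.bounded_range hK (hK.small' x) fun γ => b γ.1
    obtain ⟨w, hw⟩ := hσ.bounded_range hK (ι := Iic x × Iic x) (by
      rw [mk_prod, lift_id]
      exact mul_lt_of_lt hσ.aleph0_lt.le (hK.small' x) (hK.small' x)) fun p => F p.1.1 p.2.1
    exact ⟨max y w, fun γ hγ => ⟨lt_max_of_lt_left (hy ⟨γ, hγ⟩), fun z hz =>
      lt_max_of_lt_right (hw (⟨γ, hγ⟩, ⟨z, hz⟩))⟩⟩
  choose G hG using h5
  obtain ⟨δ, hδ, -, hδ3⟩ := hn β G β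
  have hγ : a δ n < δ := (ha δ hδ.1).1 n
  refine hF (a δ n) hδ.2 δ ⟨hδ.1, rfl⟩ (((hG _ _ le_rfl).1).trans (hδ3 _ hγ)) fun x hx => ?_
  exact ((hG (max (a δ n) x) _ (le_max_left _ _)).2 x (le_max_right _ _)).trans
    (hδ3 _ (max_lt hγ hx))

/-- the set of the limit points of `φ i`, `i < β`, up to `e` -/
def LimPt (β : K) (φ : K → K) (e : K) : Set K :=
  {δ | δ ≤ e ∧ ∀ ε < δ, ∃ i < β, ε ≤ φ i ∧ φ i < δ}

theorem card_limPt (β : K) (φ : K → K) (e : K) (hφ : ∀ ε < e, ∃ i < β, ε ≤ φ i ∧ φ i < e) :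
    #(LimPt β φ e) ≤ #(Iio β) + 1 := by
  classical
  have h1 : ∀ δ : LimPt β φ e, δ.1 ≠ e → ∃ i : Iio β, δ.1 ≤ φ i ∧ ∀ j : Iio β, δ.1 ≤ φ j →
      φ i ≤ φ j := by
    intro δ hδ
    obtain ⟨i, hi, hi2, -⟩ := hφ δ.1 (lt_of_le_of_ne δ.2.1 hδ)
    have hne : {y | ∃ j : Iio β, δ.1 ≤ φ j ∧ φ j = y}.Nonempty := ⟨φ i, ⟨i, hi⟩, hi2, rfl⟩
    obtain ⟨j, hj, hj2⟩ := wellFounded_lt.min_mem _ hne
    refine ⟨j, hj, fun k hk => ?_⟩
    rw [hj2]
    exact not_lt.1 (wellFounded_lt.not_lt_min {y | ∃ j : Iio β, δ.1 ≤ φ j ∧ φ j = y}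
      ⟨k, hk, rfl⟩)
  choose f hf hf2 using h1
  let g : LimPt β φ e → Option (Iio β) := fun δ => if h : δ.1 = e then none else some (f δ h)
  have hlt : ∀ δ δ' : LimPt β φ e, ∀ h h', δ.1 < δ'.1 → φ (f δ h) < φ (f δ' h') := by
    intro δ δ' h h' hlt
    obtain ⟨i, hi, hi2, hi3⟩ := δ'.2.2 δ.1 hlt
    exact ((hf2 δ h ⟨i, hi⟩ hi2).trans_lt hi3).trans_le (hf δ' h')
  have hg : Function.Injective g := by
    intro δ δ' h
    by_cases h1 : δ.1 = e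
    · by_cases h2 : δ'.1 = e
      · exact Subtype.ext (h1.trans h2.symm)
      · simp [g, h1, h2] at h
    · by_cases h2 : δ'.1 = e
      · simp [g, h1, h2] at h
      · simp only [g, h1, h2, dite_false, Option.some.injEq] at h
        rcases lt_trichotomy δ.1 δ'.1 with h3 | h3 | h3
        · have := hlt δ δ' h1 h2 h3
          rw [h] at this
          exact absurd this (lt_irrefl _)
        · exact Subtype.ext h3
        · have := hlt δ' δ h2 h1 h3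
          rw [h] at this
          exact absurd this (lt_irrefl _)
  have h5 := mk_le_of_injective hg
  rwa [mk_option] at h5

/-- Main lemma. -/
theorem Winning.exists_regular (hσ : Winning σ) (hK : Least K)
    (hlim : ∀ μ < #K, ∃ θ, μ < θ ∧ θ < #K) (F : K → K) (b : K) :
    ∃ δ, b < δ ∧ Cl F δ ∧ ¬ Sing δ := by
  classical
  by_contra hcon
  push Not at hcon
  obtain ⟨g, l, hg, hn⟩ := hσ.exists_nml hK
  obtain ⟨l₀, hl₀, h₀⟩ := hσ.closed hK hg hn F b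
  have h1 : ∀ x, ∃ β, ∃ φ : K → K, x ∈ cur σ l₀ →
      β < g x ∧ (∀ i < β, φ i < g x) ∧ ∀ ε < g x, ∃ i < β, ε ≤ φ i := by
    intro x
    by_cases hx : x ∈ cur σ l₀
    · obtain ⟨β, hβ, φ, hφ⟩ := hcon (g x) (h₀ x hx).1 (h₀ x hx).2
      exact ⟨β, φ, fun _ => ⟨hβ, hφ⟩⟩
    · exact ⟨x, fun y => y, fun h => absurd h hx⟩
  choose B φ hφ using h1
  obtain ⟨l₁, hl₁, β, hβ⟩ := hn B l₀ hl₀ fun x hx => (hφ x hx).1
  have hφ1 : ∀ x ∈ cur σ l₁, (∀ i < β, φ x i < g x) ∧ ∀ ε < g x, ∃ i < β, ε ≤ φ x i := by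
    intro x hx
    have := (hφ x (cur_mono σ hl₁ hx)).2
    rwa [hβ x hx] at this
  have hg1 : NB σ g l₁ := hg.mono (hl₀.trans hl₁)
  have hn1 : Nml σ g l₁ := hn.mono (hl₀.trans hl₁)
  -- values of the names
  have step : ∀ l : List (Set K), l₁ <:+ l → ∀ b : K, ∃ l', l <:+ l' ∧ ∃ i < β, ∃ ξ, b ≤ ξ ∧
      ∀ x ∈ cur σ l', φ x i = ξ := by
    intro l hl b
    obtain ⟨l₂, hl₂, h₂⟩ := (hg1.mono hl).exists_gt hK b
    have h3 : ∀ x, ∃ i, x ∈ cur σ l₂ → i < β ∧ b ≤ φ x i := by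
      intro x
      by_cases hx : x ∈ cur σ l₂
      · obtain ⟨i, hi⟩ := (hφ1 x (cur_mono σ (hl.trans hl₂) hx)).2 b (h₂ x hx)
        exact ⟨i, fun _ => hi⟩
      · exact ⟨x, fun h => absurd h hx⟩
    choose i hi using h3
    obtain ⟨l₃, hl₃, j, hj⟩ := hσ.const_of_lt hK i β l₂ fun x hx => (hi x hx).1
    obtain ⟨x₀, hx₀⟩ := hσ.nonempty l₃
    have hjβ : j < β := by
      rw [← hj x₀ hx₀]
      exact (hi x₀ (cur_mono σ hl₃ hx₀)).1
    obtain ⟨l₄, hl₄, ξ, hξ⟩ := hn1 (fun x => φ x j) l₃ ((hl.trans hl₂).trans hl₃) fun x hx =>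
      (hφ1 x (cur_mono σ ((hl.trans hl₂).trans hl₃) hx)).1 j hjβ
    refine ⟨l₄, (hl₂.trans hl₃).trans hl₄, j, hjβ, ξ, ?_, hξ⟩
    obtain ⟨x₁, hx₁⟩ := hσ.nonempty l₄
    rw [← hξ x₁ hx₁, ← hj x₁ (cur_mono σ hl₄ hx₁)]
    exact (hi x₁ (cur_mono σ (hl₃.trans hl₄) hx₁)).2
  -- ladders
  have hlad : ∃ a : K → ℕ → K, ∀ δ, (∃ a, Ladder a δ) → Ladder (a δ) δ := by
    have : ∀ δ : K, ∃ a : ℕ → K, (∃ a, Ladder a δ) → Ladder a δ := by
      intro δ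
      by_cases h : ∃ a, Ladder a δ
      · exact ⟨h.choose, fun _ => h.choose_spec⟩
      · exact ⟨fun _ => δ, fun h' => absurd h' h⟩
    choose a ha using this
    exact ⟨a, ha⟩
  obtain ⟨a, ha⟩ := hlad
  obtain ⟨n, hΓ⟩ := hσ.stat_fodor hK a ha
  let Γ : Set K := {γ | Stat {δ : K | (∃ a, Ladder a δ) ∧ a δ n = γ}}
  have hΓcard : #K ≤ #Γ := by
    by_contra h
    obtain ⟨c, hc⟩ := hσ.bounded hK Γ (not_le.1 h)
    obtain ⟨γ, hγ, hγ'⟩ := hΓ c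
    exact absurd (hc γ hγ') (not_lt.2 hγ)
  -- the sets `A x`
  let A : K → Set K := fun x => (fun δ => a δ n) '' LimPt β (φ x) (g x)
  have hA : ∀ x ∈ cur σ l₁, #(A x) ≤ #(Iio β) + 1 := fun x hx =>
    mk_image_le.trans (card_limPt β (φ x) (g x) fun ε hε => by
      obtain ⟨i, hi, hi'⟩ := (hφ1 x hx).2 ε hε
      exact ⟨i, hi, hi', (hφ1 x hx).1 i hi⟩)
  -- Claim: each `γ ∈ Γ` is possible everywhere
  have claim : ∀ γ ∈ Γ, ∀ l, l₁ <:+ l → ∃ x ∈ cur σ l, γ ∈ A x := by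
    intro γ hγ l hl
    have hstep : ∀ l : {l // l₁ <:+ l}, ∀ b : K, ∃ l' : {l // l₁ <:+ l}, ∃ i < β, ∃ ξ,
        l.1 <:+ l'.1 ∧ b ≤ ξ ∧ ∀ x ∈ cur σ l'.1, φ x i = ξ := by
      intro l b
      obtain ⟨l', hl', i, hi, ξ, hξ⟩ := step l.1 l.2 b
      exact ⟨⟨l', l.2.trans hl'⟩, i, hi, ξ, hl', hξ⟩
    choose nl ni hni nξ hnl hnξ hnφ using hstep
    let p : List K → {l // l₁ <:+ l} := fun s => s.foldr (fun b l => nl l b) ⟨l, hl⟩
    have hp : ∀ b s, p (b :: s) = nl (p s) b := fun b s => rfl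
    have hbd : ∀ x, ∃ y, ∀ s : List K, (∀ c ∈ s, c ≤ x) → ∀ b ≤ x, nξ (p s) b < y := by
      intro x
      obtain ⟨y, hy⟩ := hσ.bounded_range hK (ι := List (Iic x)) (by
        refine (mk_list_le_max _).trans_lt (max_lt hσ.aleph0_lt (hK.small' x))) fun s =>
          match s with
          | [] => x
          | b :: s => nξ (p (s.map Subtype.val)) b.1
      refine ⟨y, fun s hs b hb => ?_⟩
      lift s to List (Iic x) using hs
      exact hy (⟨b, hb⟩ :: s)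
    choose G hG using hbd
    obtain ⟨δ, ⟨hδ1, hδ2⟩, -, hδ3⟩ := hγ G b
    have hL := ha δ hδ1
    -- the run
    let s : ℕ → List K := fun k => hist (a δ) k
    obtain ⟨x, hx⟩ := hσ.chain (fun k => (p (s k)).1) fun k => by
      show (p (s k)).1 <:+ (p (a δ k :: s k)).1
      rw [hp]
      exact hnl _ _
    have hxl : x ∈ cur σ l := hx 0
    have hx1 : x ∈ cur σ l₁ := cur_mono σ hl hxl
    have hsδ : ∀ k, ∃ m < δ, ∀ c ∈ s k, c ≤ m := by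
      intro k
      induction k with
      | zero => exact ⟨a δ 0, hL.1 0, by simp [s, hist]⟩
      | succ k ih =>
        obtain ⟨m, hm, hm'⟩ := ih
        refine ⟨max (a δ k) m, max_lt (hL.1 k) hm, fun c hc => ?_⟩
        have hc' : c ∈ a δ k :: s k := hc
        rcases List.mem_cons.1 hc' with rfl | hc'
        · exact le_max_left _ _
        · exact (hm' c hc').trans (le_max_right _ _)
    have hval : ∀ k, ∃ i < β, a δ k ≤ φ x i ∧ φ x i < δ := by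
      intro k
      refine ⟨ni (p (s k)) (a δ k), hni _ _, ?_⟩
      have h6 : x ∈ cur σ (nl (p (s k)) (a δ k)).1 := hx (k + 1)
      rw [hnφ _ _ x h6]
      refine ⟨hnξ _ _, ?_⟩
      obtain ⟨m, hm, hm'⟩ := hsδ k
      exact (hG (max (a δ k) m) (s k) (fun c hc => (hm' c hc).trans (le_max_right _ _)) (a δ k)
        (le_max_left _ _)).trans (hδ3 _ (max_lt (hL.1 k) hm))
    have hlim2 : ∀ ε < δ, ∃ i < β, ε ≤ φ x i ∧ φ x i < δ := by
      intro ε hε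
      obtain ⟨k, hk⟩ := hL.2 ε hε
      obtain ⟨i, hi, hi2, hi3⟩ := hval k
      exact ⟨i, hi, hk.trans hi2, hi3⟩
    have hle : δ ≤ g x := by
      by_contra h
      obtain ⟨i, hi, hi2, -⟩ := hlim2 (g x) (not_le.1 h)
      exact absurd (hi2.trans_lt ((hφ1 x hx1).1 i hi)) (lt_irrefl _)
    exact ⟨x, hxl, δ, ⟨hle, hlim2⟩, hδ2⟩
  -- conclusion
  obtain ⟨θ, hθ1, hθ2⟩ := hlim (#(Iio β) + 1)
    (add_lt_of_lt hσ.aleph0_lt.le (hK.small β) (one_lt_aleph0.trans hσ.aleph0_lt))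
  obtain ⟨Γ', hΓ', hΓ'card⟩ := le_mk_iff_exists_subset.1 (hθ2.le.trans hΓcard)
  have hr : ∀ x, ∃ γ : Γ', x ∈ cur σ l₁ → γ.1 ∉ A x := by
    intro x
    by_cases hx : x ∈ cur σ l₁
    · by_contra h
      push Not at h
      have h7 : Γ' ⊆ A x := fun γ hγ => (h ⟨γ, hγ⟩).2
      exact absurd (mk_le_mk_of_subset h7) (not_le.2 ((hA x hx).trans_lt (hΓ'card ▸ hθ1)))
    · have hne : Γ'.Nonempty := by
        rw [nonempty_iff_ne_empty]
        rintro rfl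
        rw [mk_eq_zero] at hΓ'card
        rw [← hΓ'card] at hθ1
        exact absurd hθ1 not_lt_zero
      exact ⟨⟨hne.some, hne.some_mem⟩, fun h => absurd h hx⟩
  choose r hr using hr
  obtain ⟨l₂, hl₂, γ, hγ⟩ := hσ.const hK (hΓ'card ▸ hθ2) r l₁
  obtain ⟨x, hx, hx'⟩ := claim γ.1 (hΓ' γ.2) l₂ hl₂
  refine hr x (cur_mono σ hl₂ hx) ?_
  rw [hγ x hx]
  exact hx'

end Pool.Agent.Y587.CC
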