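import Mathlib
import Pool.Agent.Y587.CCMahlo

set_option autoImplicit false

namespace Pool.Agent.Y587.CC

universe u

open Set Cardinal Ordinal Order

/-- Choose wins the game on the cardinal `κ`. -/
def Wins (κ : Cardinal.{u}) : Prop := ChooseWins κ.ord.ToType

theorem wins_mk {K : Type u} : Wins #K ↔ ChooseWins K := by
  have e : Nonempty ((#K).ord.ToType ≃ K) := by
    rw [← Cardinal.eq]
    simp
  obtain ⟨e⟩ := e
  exact ⟨chooseWins_congr e, chooseWins_congr e.symm⟩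

theorem Wins.mono {κ μ : Cardinal.{u}} (h : Wins κ) (hμ : κ ≤ μ) : Wins μ := by
  have : Nonempty (κ.ord.ToType ↪ μ.ord.ToType) := by
    rw [← Cardinal.le_def]
    simpa using hμ
  obtain ⟨e⟩ := this
  exact chooseWins_mono e h

theorem least_of {κ : Cardinal.{u}} (h : Wins κ) (hmin : ∀ μ < κ, ¬ Wins μ) :
    Least κ.ord.ToType := by
  obtain ⟨σ, hσ⟩ := h
  have h0 : ℵ₀ < #κ.ord.ToType := Winning.aleph0_lt hσ
  refine ⟨infinite_iff.2 h0.le, fun x => mk_Iio_lt x (by simp), fun L hL hw => ?_⟩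
  refine hmin #L (by simpa using hL) (wins_mk.2 hw)

theorem aleph0_lt_of_wins {κ : Cardinal.{u}} (h : Wins κ) : ℵ₀ < κ := by
  obtain ⟨σ, hσ⟩ := h
  simpa using Winning.aleph0_lt hσ

theorem typein_toTypeMk {κ : Cardinal.{u}} (a : Ordinal.{u}) (ha : a < κ.ord) :
    typein (α := κ.ord.ToType) (· < ·) (ToType.mk ⟨a, ha⟩) = a :=
  congrArg Subtype.val ((ToType.mk (o := κ.ord)).symm_apply_apply ⟨a, ha⟩)

/-- a nonsingular point is a cardinal equal to its own cofinality -/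
theorem not_sing {κ : Cardinal.{u}} (δ : κ.ord.ToType) (h : ¬ Sing δ) :
    (typein (α := κ.ord.ToType) (· < ·) δ).cof.ord = typein (α := κ.ord.ToType) (· < ·) δ := by
  set o := typein (α := κ.ord.ToType) (· < ·) δ with ho
  by_contra hne
  have hlt : o.cof.ord < o := lt_of_le_of_ne (ord_cof_le o) hne
  obtain ⟨s, hs, hs'⟩ := exists_cof_eq (Iio δ)
  rw [Order.cof_Iio, ← ho] at hs'
  have hoκ : o < κ.ord := typein_lt_self δ
  let β : κ.ord.ToType := ToType.mk ⟨o.cof.ord, hlt.trans hoκ⟩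
  have hβ : typein (α := κ.ord.ToType) (· < ·) β = o.cof.ord :=
    typein_toTypeMk _ _
  have hβδ : β < δ := by
    rw [← typein_lt_typein (α := κ.ord.ToType) (· < ·), hβ]
    exact hlt
  have hcard : #(Iio β) = #s := by
    have h1 : #(Iio β) = (typein (α := κ.ord.ToType) (· < ·) β).card := rfl
    rw [h1, hβ, card_ord, hs']
  obtain ⟨e⟩ := Cardinal.eq.1 hcard
  apply h
  classical
  let φ : κ.ord.ToType → κ.ord.ToType := fun i => if hi : i ∈ Iio β then (e ⟨i, hi⟩).1.1 else β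
  have hφ : ∀ i (hi : i ∈ Iio β), φ i = (e ⟨i, hi⟩).1.1 := fun i hi => dif_pos hi
  refine ⟨β, hβδ, φ, fun i hi => ?_, fun ε hε => ?_⟩
  · rw [hφ i hi]
    exact (e ⟨i, hi⟩).1.2
  · obtain ⟨y, hy, hy'⟩ := hs ⟨ε, hε⟩
    refine ⟨(e.symm ⟨y, hy⟩).1, (e.symm ⟨y, hy⟩).2, ?_⟩
    rw [hφ _ (e.symm ⟨y, hy⟩).2]
    have h3 : e ⟨(e.symm ⟨y, hy⟩).1, (e.symm ⟨y, hy⟩).2⟩ = ⟨y, hy⟩ := e.apply_symm_apply _
    rw [h3]
    exact hy'

/-- Main theorem in terms of functions on ordinals. -/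
theorem exists_regular_card {κ : Cardinal.{u}} (h : Wins κ) (hmin : ∀ μ < κ, ¬ Wins μ)
    (hlim : ∀ μ < κ, ∃ θ, μ < θ ∧ θ < κ) (G : Ordinal.{u} → Ordinal.{u})
    (hG : ∀ α < κ.ord, G α < κ.ord) :
    ∃ μ < κ, ℵ₀ < μ ∧ μ.IsRegular ∧ ∀ α < μ.ord, G α < μ.ord := by
  have hL := least_of h hmin
  obtain ⟨σ, hσ⟩ := h
  have h0 : ℵ₀ < κ := by simpa using Winning.aleph0_lt hσ
  let o : κ.ord.ToType → Ordinal.{u} := typein (α := κ.ord.ToType) (· < ·)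
  have ho : ∀ x, o x < κ.ord := fun x => typein_lt_self x
  let m : ∀ a : Ordinal.{u}, a < κ.ord → κ.ord.ToType := fun a ha => ToType.mk ⟨a, ha⟩
  have hm : ∀ a ha, o (m a ha) = a := fun a ha => typein_toTypeMk a ha
  have hlt : ∀ x y, x < y ↔ o x < o y := fun x y =>
    (typein_lt_typein (α := κ.ord.ToType) (· < ·)).symm
  have hω : ω < κ.ord := by
    rw [← ord_aleph0]
    exact ord_lt_ord.2 h0
  obtain ⟨δ, hδ1, hδ2, hδ3⟩ := Winning.exists_regular hσ hL (by simpa using hlim)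
    (fun x => m (G (o x)) (hG _ (ho x))) (m ω hω)
  have h1 := not_sing δ hδ3
  have h2 : ω < o δ := by
    rw [hlt, hm] at hδ1
    exact hδ1
  have h3 : ℵ₀ < (o δ).cof := by
    rw [← ord_lt_ord, ord_aleph0, h1]
    exact h2
  refine ⟨(o δ).cof, ?_, h3, ⟨h3.le, ?_⟩, fun α hα => ?_⟩
  · rw [← ord_lt_ord, h1]
    exact ho δ
  · rw [h1]
  · rw [h1] at hα ⊢
    have hακ : α < κ.ord := hα.trans (ho δ)
    have h4 : m α hακ < δ := by rw [hlt, hm]; exact hα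
    have h5 := hδ2 _ h4
    rw [hlt, hm, hm] at h5
    exact h5

theorem regular_of_least {κ : Cardinal.{u}} (h : Wins κ) (hmin : ∀ μ < κ, ¬ Wins μ) :
    κ.IsRegular := by
  have hL := least_of h hmin
  have h0 := aleph0_lt_of_wins h
  obtain ⟨σ, hσ⟩ := h
  refine ⟨h0.le, ?_⟩
  by_contra hcon
  rw [not_le] at hcon
  obtain ⟨s, hs, hs'⟩ := exists_cof_eq κ.ord.ToType
  rw [cof_toType] at hs'
  obtain ⟨b, hb⟩ := Winning.bounded hσ hL s (by rw [hs']; simpa using hcon)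
  obtain ⟨y, hy, hy'⟩ := hs b
  exact absurd (hb y hy) (not_lt.2 hy')

/-- `C` is closed and unbounded in the cardinal `κ` (as a set of ordinals below `κ`). -/
def ClubIn (C : Set Ordinal.{u}) (κ : Cardinal.{u}) : Prop :=
  (∀ α < κ.ord, ∃ β ∈ C, α < β ∧ β < κ.ord) ∧
    ∀ δ < κ.ord, δ ≠ 0 → (∀ α < δ, ∃ β ∈ C, α < β ∧ β < δ) → δ ∈ C

/-- `κ` is regular uncountable, and the uncountable regular cardinals below `κ` meet each closed
unbounded subset of `κ`. -/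
def WeaklyMahlo (κ : Cardinal.{u}) : Prop :=
  ℵ₀ < κ ∧ κ.IsRegular ∧
    ∀ C, ClubIn C κ → ∃ μ : Cardinal.{u}, μ < κ ∧ ℵ₀ < μ ∧ μ.IsRegular ∧ μ.ord ∈ C

/-- `κ` is inaccessible, and the inaccessible cardinals below `κ` meet each closed unbounded subset
of `κ`. -/
def Mahlo (κ : Cardinal.{u}) : Prop :=
  κ.IsInaccessible ∧ ∀ C, ClubIn C κ → ∃ μ : Cardinal.{u}, μ < κ ∧ μ.IsInaccessible ∧ μ.ord ∈ C

theorem exists_fun_of_clubIn {C : Set Ordinal.{u}} {κ : Cardinal.{u}} (hC : ClubIn C κ) :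
    ∃ G : Ordinal.{u} → Ordinal.{u}, (∀ α < κ.ord, G α < κ.ord) ∧
      ∀ δ < κ.ord, δ ≠ 0 → (∀ α < δ, G α < δ) → δ ∈ C := by
  have h1 : ∀ α : Ordinal.{u}, ∃ β, α < κ.ord → β ∈ C ∧ α < β ∧ β < κ.ord := by
    intro α
    by_cases hα : α < κ.ord
    · obtain ⟨β, hβ⟩ := hC.1 α hα
      exact ⟨β, fun _ => hβ⟩
    · exact ⟨0, fun h => absurd h hα⟩
  choose G hG using h1
  refine ⟨G, fun α hα => (hG α hα).2.2, fun δ hδ h0 hcl => hC.2 δ hδ h0 fun α hα => ?_⟩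
  exact ⟨G α, (hG α (hα.trans hδ)).1, (hG α (hα.trans hδ)).2.1, hcl α hα⟩

theorem weaklyMahlo_of_least {κ : Cardinal.{u}} (h : Wins κ) (hmin : ∀ μ < κ, ¬ Wins μ)
    (hlim : IsSuccLimit κ) : WeaklyMahlo κ := by
  refine ⟨aleph0_lt_of_wins h, regular_of_least h hmin, fun C hC => ?_⟩
  obtain ⟨G, hG, hG'⟩ := exists_fun_of_clubIn hC
  obtain ⟨μ, h1, h2, h3, h4⟩ := exists_regular_card h hmin
    (fun μ hμ => ⟨succ μ, lt_succ μ, hlim.succ_lt hμ⟩) G hG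
  refine ⟨μ, h1, h2, h3, hG' _ (ord_lt_ord.2 h1) ?_ h4⟩
  exact h3.ord_pos.ne'

theorem mahlo_of_least {κ : Cardinal.{u}} (h : Wins κ) (hmin : ∀ μ < κ, ¬ Wins μ)
    (hin : κ.IsInaccessible) : Mahlo κ := by
  refine ⟨hin, fun C hC => ?_⟩
  obtain ⟨G, hG, hG'⟩ := exists_fun_of_clubIn hC
  obtain ⟨μ, h1, h2, h3, h4⟩ := exists_regular_card h hmin
    (fun μ hμ => ⟨succ μ, lt_succ μ, hin.isSuccLimit.succ_lt hμ⟩)
    (fun α => max (G α) (2 ^ α.card : Cardinal.{u}).ord) (fun α hα => by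
      refine max_lt (hG α hα) (ord_lt_ord.2 (hin.isStrongPrelimit ?_))
      exact lt_ord.1 hα)
  refine ⟨μ, h1, ⟨h2, h3.le_cof_ord, fun ν hν => ?_⟩, hG' _ (ord_lt_ord.2 h1) ?_ ?_⟩
  · have h5 := (le_max_right _ _).trans_lt (h4 ν.ord (ord_lt_ord.2 hν))
    rw [card_ord] at h5
    exact ord_lt_ord.1 h5
  · exact h3.ord_pos.ne'
  · exact fun α hα => (le_max_left _ _).trans_lt (h4 α hα)

/-- The least cardinal on which Choose wins. -/
theorem exists_least {κ : Cardinal.{u}} (h : Wins κ) : ∃ μ ≤ κ, Wins μ ∧ ∀ ν < μ, ¬ Wins ν := by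
  have hne : {μ : Cardinal.{u} | Wins μ}.Nonempty := ⟨κ, h⟩
  refine ⟨sInf {μ | Wins μ}, csInf_le' h, csInf_mem hne, fun ν hν hw => ?_⟩
  exact absurd hν (not_lt.2 (csInf_le' (s := {μ : Cardinal.{u} | Wins μ}) hw))

theorem clubIn_univ {κ : Cardinal.{u}} (h : κ.IsInaccessible) : ClubIn Set.univ κ := by
  refine ⟨fun α hα => ⟨α + 1, trivial, lt_add_one α, ?_⟩, fun _ _ _ _ => trivial⟩
  exact (isSuccLimit_ord h.aleph0_lt.le).succ_lt hα

end Pool.Agent.Y587.CC
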