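import Mathlib

/-!
# The 0-1 law for open set mappings
-/

set_option autoImplicit false

namespace Pool.Agent.Y587.ZO

open Cardinal Set FirstOrder

/-- `H(θ)`: the set of the `x` whose transitive closure has cardinality less than `θ`, i.e. `x` is
contained in a transitive set of cardinality less than `θ`. -/
def HH (θ : Cardinal.{0}) : Set ZFSet.{0} :=
  {x | ∃ y : ZFSet.{0}, y.IsTransitive ∧ x ⊆ y ∧ y.card < θ}

/-- The only relation symbol of the language of set theory. -/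
inductive MemRel : ℕ → Type
  | mem : MemRel 2

/-- The language of set theory. -/
def LS : FirstOrder.Language.{0, 0} := ⟨fun _ => Empty, MemRel⟩

/-- The structure `(H(θ), ∈)`. -/
def str (θ : Cardinal.{0}) : LS.Structure (HH θ) where
  funMap := fun f _ => f.elim
  RelMap := fun r => match r with
    | .mem => fun v => (v 0).1 ∈ (v 1).1

/-- `M` is (the underlying set of) an elementary submodel of `(H(θ), ∈)`. -/
def ElemSub (θ : Cardinal.{0}) (M : Set ZFSet.{0}) : Prop :=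
  letI := str θ
  ∃ S : LS.ElementarySubstructure (HH θ), M = Subtype.val '' (S : Set (HH θ))

/-- The first uncountable ordinal, as a set. -/
noncomputable def om1 : ZFSet.{0} := (ℵ₁ : Cardinal.{0}).ord.toZFSet

/-- `[A]^ω`: the countable subsets of `A`. -/
def Cs (A : Set ZFSet.{0}) : Set (Set ZFSet.{0}) := {P | P ⊆ A ∧ P.Countable}

/-- `C` is a closed unbounded subset of `[A]^ω`. -/
structure IsClub (A : Set ZFSet.{0}) (C : Set (Set ZFSet.{0})) : Prop where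
  sub : C ⊆ Cs A
  unbdd : ∀ P ∈ Cs A, ∃ Q ∈ C, P ⊆ Q
  closed : ∀ s : ℕ → Set ZFSet.{0}, (∀ n, s n ∈ C) → (∀ n, s n ⊆ s (n + 1)) → (⋃ n, s n) ∈ C

/-- The set `[X]^ω`, as an element of the universe of sets. -/
noncomputable def CsZ (X : ZFSet.{0}) : ZFSet.{0} :=
  X.powerset.sep fun P => (P : Set ZFSet.{0}).Countable

/-- `E` is a closed unbounded subset of `[X]^ω`, where `E` is an element of the universe of sets. -/
def IsClubZ (X E : ZFSet.{0}) : Prop := IsClub (X : Set ZFSet.{0}) {P | ∃ p ∈ E, P = (p : Set ZFSet.{0})}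

/-- `U` is an open subset of `[X]^ω`, i.e. `U` is a union of sets of the form
`[a, N] = {Q ∈ [X]^ω : a ⊆ Q ⊆ N}` with `a` finite and `N ∈ [X]^ω`. -/
def OpenIn (X : ZFSet.{0}) (U : Set (Set ZFSet.{0})) : Prop :=
  U ⊆ Cs (X : Set ZFSet.{0}) ∧ ∀ P ∈ U, ∃ a N : Set ZFSet.{0}, a.Finite ∧
    N ∈ Cs (X : Set ZFSet.{0}) ∧ a ⊆ P ∧ P ⊆ N ∧
    ∀ Q ∈ Cs (X : Set ZFSet.{0}), a ⊆ Q → Q ⊆ N → Q ∈ U

/-- `Q` is an end extension of `P`. -/
def EndExt (P Q : Set ZFSet.{0}) : Prop :=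
  P ⊆ Q ∧ Q ∩ (om1 : Set ZFSet.{0}) = P ∩ (om1 : Set ZFSet.{0})

/-- The 0-1 law for open set mappings. Here `D` is the domain of the open set mapping `S`. -/
def ZeroOneLaw : Prop :=
  ∀ (X : ZFSet.{0}) (θ : Cardinal.{0}) (D : Set (Set ZFSet.{0}))
    (S : Set ZFSet.{0} → Set (Set ZFSet.{0})),
    ¬ (X : Set ZFSet.{0}).Countable → θ.IsRegular → CsZ X ∈ HH θ →
    IsClub (HH θ) D → (∀ M ∈ D, ElemSub θ M ∧ X ∈ M) → (∀ M ∈ D, OpenIn X (S M)) →
    (∀ M ∈ D, ∀ P ∈ S M, ∀ Q ∈ Cs (X : Set ZFSet.{0}), EndExt P Q → Q ∈ S M) →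
    (∀ M ∈ D, ∀ M' ∈ D, EndExt M M' → ∀ p ∈ M,
      ((p : Set ZFSet.{0}) ∈ S M' ↔ (p : Set ZFSet.{0}) ∈ S M)) →
    ∃ C ⊆ D, IsClub (HH θ) C ∧ ∀ M ∈ C, ∃ E ∈ M, IsClubZ X E ∧
      ((∀ p ∈ E, p ∈ M → (p : Set ZFSet.{0}) ∈ S M) ∨
        ∀ p ∈ E, p ∈ M → (p : Set ZFSet.{0}) ∉ S M)

/-- The type of the countable ordinals. -/
abbrev Om : Type := (ℵ₁ : Cardinal.{0}).ord.ToType

/-- `C` is a closed unbounded subset of `ω₁`. -/
def Club1 (C : Set Om) : Prop :=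
  (∀ a, ∃ b ∈ C, a < b) ∧ ∀ d, (∃ a, a < d) → (∀ a < d, ∃ b ∈ C, a < b ∧ b < d) → d ∈ C

/-- `T` is a stationary subset of `ω₁`. -/
def Stat (T : Set Om) : Prop := ∀ C, Club1 C → ∃ d ∈ T, d ∈ C

end Pool.Agent.Y587.ZO
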