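import Mathlib
import Pool.Agent.Y587.ZODefs

/-!
# Countable ordinals
-/

set_option autoImplicit false

namespace Pool.Agent.Y587.ZO

open Cardinal Set FirstOrder

/-- The von Neumann ordinal of an element of a well-ordered type. -/
noncomputable def nzg (o : Ordinal.{0}) (i : o.ToType) : ZFSet.{0} :=
  (Ordinal.typein (α := o.ToType) (· < ·) i).toZFSet

theorem nzg_mem (o : Ordinal.{0}) (i : o.ToType) : nzg o i ∈ o.toZFSet := by
  rw [nzg, Ordinal.toZFSet_mem_toZFSet_iff]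
  exact Ordinal.typein_lt_self i

theorem nzg_inj {o : Ordinal.{0}} {i j : o.ToType} (h : nzg o i = nzg o j) : i = j := by
  have h1 := Ordinal.toZFSet_injective h
  exact (Ordinal.typein_inj _).1 h1

theorem exists_nzg {o : Ordinal.{0}} {x : ZFSet.{0}} (hx : x ∈ o.toZFSet) : ∃ i, nzg o i = x := by
  obtain ⟨a, ha, rfl⟩ := Ordinal.mem_toZFSet_iff.1 hx
  have h1 : a < Ordinal.type (α := o.ToType) (· < ·) := by simpa using ha
  exact ⟨Ordinal.enum (α := o.ToType) (· < ·) ⟨a, h1⟩, by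
    rw [nzg]
    congr 1
    exact Ordinal.typein_enum _ h1⟩

theorem nzg_mem_nzg {o : Ordinal.{0}} {i j : o.ToType} : nzg o i ∈ nzg o j ↔ i < j := by
  rw [nzg, nzg, Ordinal.toZFSet_mem_toZFSet_iff]
  exact Ordinal.typein_lt_typein _

theorem mem_nzg {o : Ordinal.{0}} {x : ZFSet.{0}} {i : o.ToType} :
    x ∈ nzg o i ↔ ∃ j < i, nzg o j = x := by
  constructor
  · intro hx
    obtain ⟨a, ha, rfl⟩ := Ordinal.mem_toZFSet_iff.1 hx
    obtain ⟨j, hj⟩ := exists_nzg (o := o) (x := a.toZFSet)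
      (Ordinal.toZFSet_mem_toZFSet_iff.2 (ha.trans (Ordinal.typein_lt_self i)))
    refine ⟨j, ?_, hj⟩
    rw [← nzg_mem_nzg, hj]
    exact hx
  · rintro ⟨j, hj, rfl⟩
    exact nzg_mem_nzg.2 hj

/-- The von Neumann ordinal of a countable ordinal. -/
noncomputable abbrev nz (i : Om) : ZFSet.{0} := nzg (ℵ₁ : Cardinal.{0}).ord i

theorem mk_Om : #Om = ℵ₁ := by simp [Om]

instance : Uncountable Om := by
  rw [← aleph0_lt_mk_iff, mk_Om]
  exact aleph0_lt_aleph_one

instance : NoMaxOrder Om := noMaxOrder (aleph0_le_aleph 1)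

theorem iic_lt {c : Cardinal.{0}} (hc : ℵ₀ ≤ c) (i : c.ord.ToType) : #(Iic i) < c := by
  have h1 : #(Iio i) < c := by simpa using mk_Iio_lt i
  have h2 : (Iic i : Set c.ord.ToType) = insert i (Iio i) := by
    ext j
    simp [le_iff_eq_or_lt]
  rw [h2]
  exact mk_insert_le.trans_lt (add_lt_of_lt hc h1 (one_lt_aleph0.trans_le hc))

theorem iio_ctbl (i : Om) : (Iio i).Countable := by
  have h1 : #(Iio i) < ℵ₁ := by simpa using mk_Iio_lt i
  rw [← Set.countable_coe_iff, ← Cardinal.mk_le_aleph0_iff]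
  exact Order.lt_succ_iff.1 (by rw [succ_aleph0]; exact h1)

/-- Small subsets are bounded. -/
theorem bdd_of_lt {c : Cardinal.{0}} (hc : c.IsRegular) {S : Set c.ord.ToType} (hS : #S < c) :
    ∃ b, ∀ i ∈ S, i < b := by
  by_contra hcon
  push Not at hcon
  have h1 : #(⋃ i : S, Iic i.1) < c :=
    (mk_iUnion_le_sum_mk).trans_lt (sum_lt_of_isRegular hc hS fun i => iic_lt hc.aleph0_le i.1)
  have h2 : (⋃ i : S, Iic i.1) = Set.univ := by
    refine Set.eq_univ_of_forall fun b => ?_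
    obtain ⟨i, hi, hbi⟩ := hcon b
    exact mem_iUnion.2 ⟨⟨i, hi⟩, hbi⟩
  rw [h2, mk_univ] at h1
  simp at h1

theorem ctbl_iff_lt {α : Type*} {S : Set α} : S.Countable ↔ #S < ℵ₁ := by
  rw [← Set.countable_coe_iff, ← Cardinal.mk_le_aleph0_iff, ← succ_aleph0, Order.lt_succ_iff]

theorem bdd_ctbl {S : Set Om} (hS : S.Countable) : ∃ b, ∀ i ∈ S, i < b :=
  bdd_of_lt isRegular_aleph_one (ctbl_iff_lt.1 hS)

/-- A countable set of countable ordinals which is an initial segment. -/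
theorem exists_iio {S : Set Om} (hS : S.Countable) (hd : ∀ i ∈ S, ∀ j < i, j ∈ S) :
    ∃ d, ∀ i, i ∈ S ↔ i < d := by
  obtain ⟨b, hb⟩ := bdd_ctbl hS
  have hne : {i | i ∉ S}.Nonempty := ⟨b, fun h => (hb b h).false⟩
  refine ⟨WellFounded.min wellFounded_lt {i | i ∉ S} hne, fun i => ⟨fun hi => ?_, fun hi => ?_⟩⟩
  · by_contra hcon
    have h1 := WellFounded.min_mem wellFounded_lt {i | i ∉ S} hne
    rcases (not_lt.1 hcon).lt_or_eq with h | h
    · exact h1 (hd i hi _ h)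
    · exact h1 (h ▸ hi)
  · by_contra hcon
    exact WellFounded.not_lt_min wellFounded_lt {i | i ∉ S} hcon hi

theorem Club1.inter {C D : Set Om} (hC : Club1 C) (hD : Club1 D) : Club1 (C ∩ D) := by
  constructor
  · intro a
    choose f hf hf' using hC.1
    choose g hg hg' using hD.1
    let s : ℕ → Om := fun n => (fun x => g (f x))^[n] a
    have hs : ∀ n, s (n + 1) = g (f (s n)) := fun n => by
      simp only [s, Function.iterate_succ_apply']
    obtain ⟨d, hd⟩ := exists_iio (S := {i | ∃ n, i < s n})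
      ((countable_iUnion fun n => iio_ctbl (s n)).mono fun i ⟨n, hn⟩ => mem_iUnion.2 ⟨n, hn⟩)
      (fun i ⟨n, hn⟩ j hj => ⟨n, hj.trans hn⟩)
    have hsd : ∀ n, s n < d := fun n => (hd _).1 ⟨n + 1, by
      rw [hs]
      exact (hf' _).trans (hg' _)⟩
    have h0 : a < d := hsd 0
    refine ⟨d, ⟨hC.2 d ⟨a, h0⟩ fun b hb => ?_, hD.2 d ⟨a, h0⟩ fun b hb => ?_⟩, h0⟩
    · obtain ⟨n, hn⟩ := (hd b).2 hb
      refine ⟨f (s n), hf _, hn.trans (hf' _), lt_trans (hg' _) ?_⟩
      rw [← hs]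
      exact hsd _
    · obtain ⟨n, hn⟩ := (hd b).2 hb
      refine ⟨g (f (s n)), hg _, (hn.trans (hf' _)).trans (hg' _), ?_⟩
      rw [← hs]
      exact hsd _
  · intro d hd h
    exact ⟨hC.2 d hd fun a ha => (h a ha).imp fun b hb => ⟨hb.1.1, hb.2⟩,
      hD.2 d hd fun a ha => (h a ha).imp fun b hb => ⟨hb.1.2, hb.2⟩⟩

end Pool.Agent.Y587.ZO
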