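import Mathlib
import Pool.Agent.Y587.ZOOrd

/-!
# Closure under finitary rules with countably many values
-/

set_option autoImplicit false

namespace Pool.Agent.Y587.ZO

open Cardinal Set

section

variable {U : Type*} {R R' : Finset U → Set U} {S S' N : Set U}

/-- `N` is closed under the finitary rule `R`. -/
def Closed (R : Finset U → Set U) (N : Set U) : Prop := ∀ A : Finset U, (A : Set U) ⊆ N → R A ⊆ N

/-- The closure of `S` under `R`. -/
def cl (R : Finset U → Set U) (S : Set U) : Set U := ⋂₀ {N | S ⊆ N ∧ Closed R N}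

theorem sub_cl : S ⊆ cl R S := fun _ hx _ hN => hN.1 hx

theorem closed_cl : Closed R (cl R S) := fun A hA _ hx N hN =>
  hN.2 A (fun _ ha => hA ha N hN) hx

theorem cl_sub (h : S ⊆ N) (hN : Closed R N) : cl R S ⊆ N := fun _ hx => hx N ⟨h, hN⟩

theorem cl_mono (h : S ⊆ S') : cl R S ⊆ cl R S' := cl_sub (h.trans sub_cl) closed_cl

theorem Closed.mono (h : ∀ A, R' A ⊆ R A) (hN : Closed R N) : Closed R' N := fun A hA =>
  (h A).trans (hN A hA)

theorem exists_of_dir {ι : Type*} [Nonempty ι] {M : ι → Set U} (hM : Directed (· ⊆ ·) M)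
    (A : Finset U) (hA : (A : Set U) ⊆ ⋃ i, M i) : ∃ i, (A : Set U) ⊆ M i := by
  classical
  induction A using Finset.induction_on with
  | empty => exact ⟨Classical.arbitrary ι, by simp⟩
  | insert a A _ ih =>
    rw [Finset.coe_insert, insert_subset_iff] at hA
    obtain ⟨i, hi⟩ := ih hA.2
    obtain ⟨j, hj⟩ := mem_iUnion.1 hA.1
    obtain ⟨k, hik, hjk⟩ := hM i j
    refine ⟨k, ?_⟩
    rw [Finset.coe_insert, insert_subset_iff]
    exact ⟨hjk hj, hi.trans hik⟩

theorem closed_iUnion {ι : Type*} [Nonempty ι] {M : ι → Set U} (hM : Directed (· ⊆ ·) M)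
    (h : ∀ i, Closed R (M i)) : Closed R (⋃ i, M i) := by
  intro A hA
  obtain ⟨i, hi⟩ := exists_of_dir hM A hA
  exact (h i A hi).trans (subset_iUnion M i)

theorem cl_iUnion {ι : Type*} [Nonempty ι] {M : ι → Set U} (hM : Directed (· ⊆ ·) M) :
    cl R (⋃ i, M i) ⊆ ⋃ i, cl R (M i) := by
  refine cl_sub (iUnion_mono fun i => sub_cl) (closed_iUnion ?_ fun i => closed_cl)
  intro i j
  obtain ⟨k, h1, h2⟩ := hM i j
  exact ⟨k, cl_mono h1, cl_mono h2⟩

theorem finset_ctbl {T : Set U} (hT : T.Countable) : {A : Finset U | (A : Set U) ⊆ T}.Countable := by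
  classical
  have := hT.to_subtype
  refine (countable_range fun B : Finset T => B.map (Function.Embedding.subtype _)).mono ?_
  intro A hA
  refine ⟨A.subtype (· ∈ T), ?_⟩
  ext x
  simp only [Finset.mem_map, Finset.mem_subtype, Function.Embedding.subtype_apply]
  constructor
  · rintro ⟨y, hy, rfl⟩
    exact hy
  · intro hx
    exact ⟨⟨x, hA hx⟩, hx, rfl⟩

theorem cl_ctbl (hR : ∀ A, (R A).Countable) (hS : S.Countable) : (cl R S).Countable := by
  let st : Set U → Set U := fun T => T ∪ ⋃ A ∈ {A : Finset U | (A : Set U) ⊆ T}, R A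
  let M : ℕ → Set U := fun n => st^[n] S
  have hM : ∀ n, M (n + 1) = st (M n) := fun n => by
    simp only [M, Function.iterate_succ_apply']
  have hmono : Monotone M := monotone_nat_of_le_succ fun n => by
    rw [hM]
    exact subset_union_left
  have hc : ∀ n, (M n).Countable := by
    intro n
    induction n with
    | zero => exact hS
    | succ n ih =>
      rw [hM]
      exact ih.union ((finset_ctbl ih).biUnion fun A _ => hR A)
  refine (countable_iUnion hc).mono (cl_sub (subset_iUnion M 0) ?_)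
  intro A hA
  obtain ⟨n, hn⟩ := exists_of_dir hmono.directed_le A hA
  refine subset_trans ?_ (subset_iUnion M (n + 1))
  rw [hM]
  exact subset_union_of_subset_right (subset_biUnion_of_mem (u := fun A => R A) hn) _

end

/-- Each club contains all countable sets closed under some rule. -/
theorem exists_rule {A : Set ZFSet.{0}} {C : Set (Set ZFSet.{0})} (hC : IsClub A C) :
    ∃ R : Finset ZFSet.{0} → Set ZFSet.{0}, (∀ b, (R b).Countable) ∧
      (∀ b : Finset ZFSet.{0}, (b : Set ZFSet.{0}) ⊆ A → R b ⊆ A) ∧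
      ∀ N ⊆ A, N.Countable → Closed R N → N ∈ C := by
  classical
  have h1 : ∀ P : Set ZFSet.{0}, ∃ Q : Set ZFSet.{0}, Q.Countable ∧ (P ∈ Cs A → Q ∈ C ∧ P ⊆ Q) := by
    intro P
    by_cases hP : P ∈ Cs A
    · obtain ⟨Q, hQ, hPQ⟩ := hC.unbdd P hP
      exact ⟨Q, (hC.sub hQ).2, fun _ => ⟨hQ, hPQ⟩⟩
    · exact ⟨∅, countable_empty, fun h => absurd h hP⟩
  choose g hg1 hg2 using h1
  let R : Finset ZFSet.{0} → Set ZFSet.{0} := Finset.strongInduction fun b ih =>
    g ((b : Set ZFSet.{0}) ∪ ⋃ a, ⋃ h : a ⊂ b, ih a h)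
  have hR : ∀ b, R b = g ((b : Set ZFSet.{0}) ∪ ⋃ a, ⋃ _ : a ⊂ b, R a) := fun b =>
    Finset.strongInduction_eq _ b
  have hRc : ∀ b, (R b).Countable := fun b => by
    rw [hR]
    exact hg1 _
  have hss : ∀ b : Finset ZFSet.{0}, {a : Finset ZFSet.{0} | a ⊂ b}.Countable := fun b =>
    (b.powerset.finite_toSet.subset fun a ha => by
      simpa using (show a ⊂ b from ha).subset).countable
  have hRC : ∀ b : Finset ZFSet.{0}, (b : Set ZFSet.{0}) ⊆ A → R b ∈ C ∧
      ((b : Set ZFSet.{0}) ∪ ⋃ a, ⋃ _ : a ⊂ b, R a) ⊆ R b := by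
    intro b
    induction b using Finset.strongInduction with
    | _ b ih =>
      intro hb
      rw [hR]
      refine hg2 _ ⟨union_subset hb ?_, b.countable_toSet.union ?_⟩
      · refine iUnion_subset fun a => iUnion_subset fun ha => ?_
        exact (hC.sub (ih a ha ((Finset.coe_subset.2 ha.subset).trans hb)).1).1
      · exact (hss b).biUnion (t := fun a _ => R a) fun a _ => hRc a
  refine ⟨R, hRc, fun b hb => (hC.sub (hRC b hb).1).1, fun N hNA hNc hN => ?_⟩
  rcases N.eq_empty_or_nonempty with rfl | hne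
  · have h2 := hRC ∅ (by simp)
    have h3 : R ∅ = ∅ := subset_empty_iff.1 (hN ∅ (by simp))
    rw [← h3]
    exact h2.1
  · obtain ⟨x, rfl⟩ := hNc.exists_eq_range hne
    have hsub : ∀ n, (((Finset.range n).image x : Finset ZFSet.{0}) : Set ZFSet.{0}) ⊆ range x := by
      intro n y hy
      obtain ⟨k, -, rfl⟩ := Finset.mem_image.1 (Finset.mem_coe.1 hy)
      exact ⟨k, rfl⟩
    have h2 := hC.closed (fun n => R ((Finset.range n).image x))
      (fun n => (hRC _ ((hsub n).trans hNA)).1) (by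
        intro n
        have h3 : (Finset.range n).image x ⊆ (Finset.range (n + 1)).image x :=
          Finset.image_subset_image (by simp)
        rcases h3.eq_or_ssubset with h | h
        · rw [h]
        · refine subset_trans ?_ (hRC _ ((hsub (n + 1)).trans hNA)).2
          exact subset_union_of_subset_right
            (subset_iUnion₂ (s := fun a (_ : a ⊂ (Finset.range (n + 1)).image x) => R a) _ h) _)
    have h3 : (⋃ n, R ((Finset.range n).image x)) = range x := by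
      refine (iUnion_subset fun n => hN _ (hsub n)).antisymm ?_
      rintro _ ⟨n, rfl⟩
      refine mem_iUnion.2 ⟨n + 1, (hRC _ ((hsub (n + 1)).trans hNA)).2 (Or.inl ?_)⟩
      simp only [Finset.coe_image, Finset.coe_range, mem_image, mem_Iio]
      exact ⟨n, Nat.lt_succ_self n, rfl⟩
    rw [h3] at h2
    exact h2

/-- The sets `P` for which the closure of `P` and `T` adds no new elements of `A` to `P`. -/
theorem isClub_cl {U : Type*} (A : Set ZFSet.{0}) {z : ZFSet.{0} → U} (hz : Function.Injective z)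
    {R : Finset U → Set U} (hR : ∀ B, (R B).Countable) {T : Set U} (hT : T.Countable) :
    IsClub A {P | P ∈ Cs A ∧ ∀ x ∈ A, z x ∈ cl R (z '' P ∪ T) → x ∈ P} := by
  refine ⟨fun P hP => hP.1, fun P hP => ?_, fun s hs hmono => ?_⟩
  · have hc : (cl R (z '' P ∪ T)).Countable := cl_ctbl hR ((hP.2.image z).union hT)
    have h1 : z '' {x | x ∈ A ∧ z x ∈ cl R (z '' P ∪ T)} ⊆ cl R (z '' P ∪ T) := by
      rintro _ ⟨x, hx, rfl⟩
      exact hx.2
    refine ⟨{x | x ∈ A ∧ z x ∈ cl R (z '' P ∪ T)}, ⟨⟨fun x hx => hx.1, ?_⟩, ?_⟩, ?_⟩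
    · exact (hc.preimage hz).mono fun x hx => hx.2
    · intro x hx h
      refine ⟨hx, cl_sub (union_subset h1 (subset_union_right.trans sub_cl)) closed_cl h⟩
    · exact fun x hx => ⟨hP.1 hx, sub_cl (Or.inl ⟨x, hx, rfl⟩)⟩
  · refine ⟨⟨iUnion_subset fun n => (hs n).1.1, countable_iUnion fun n => (hs n).1.2⟩, ?_⟩
    intro x hx h
    have hm : Monotone s := monotone_nat_of_le_succ hmono
    have h1 : z '' (⋃ n, s n) ∪ T = ⋃ n, (z '' (s n) ∪ T) := by
      rw [image_iUnion, iUnion_union]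
    rw [h1] at h
    have hd : Directed (· ⊆ ·) fun n => z '' (s n) ∪ T :=
      Monotone.directed_le (f := fun n => z '' (s n) ∪ T) fun n m hnm =>
        union_subset_union_left _ (image_mono (hm hnm))
    obtain ⟨n, hn⟩ := mem_iUnion.1 (cl_iUnion hd h)
    exact mem_iUnion.2 ⟨n, (hs n).2 x hx hn⟩

theorem IsClub.inter {A : Set ZFSet.{0}} {C D : Set (Set ZFSet.{0})} (hC : IsClub A C)
    (hD : IsClub A D) : IsClub A (C ∩ D) := by
  obtain ⟨R, hR1, hR2, hR3⟩ := exists_rule hC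
  obtain ⟨Q, hQ1, hQ2, hQ3⟩ := exists_rule hD
  have h1 := isClub_cl A (z := id) Function.injective_id (R := fun b => R b ∪ Q b)
    (fun b => (hR1 b).union (hQ1 b)) (T := ∅) countable_empty
  refine ⟨fun P hP => hC.sub hP.1, fun P hP => ?_, fun s hs hm =>
    ⟨hC.closed s (fun n => (hs n).1) hm, hD.closed s (fun n => (hs n).2) hm⟩⟩
  obtain ⟨N, ⟨hN1, hN2⟩, hPN⟩ := h1.unbdd P hP
  have h2 : ∀ b : Finset ZFSet.{0}, (b : Set ZFSet.{0}) ⊆ N → R b ∪ Q b ⊆ N := by
    intro b hb x hx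
    have h3 : (b : Set ZFSet.{0}) ⊆ A := hb.trans hN1.1
    have h4 : (b : Set ZFSet.{0}) ⊆ cl (fun b => R b ∪ Q b) (id '' N ∪ ∅) := fun y hy =>
      sub_cl (Or.inl ⟨y, hb hy, rfl⟩)
    exact hN2 x (union_subset (hR2 b h3) (hQ2 b h3) hx) (closed_cl b h4 hx)
  exact ⟨N, ⟨hR3 N hN1.1 hN1.2 fun b hb => subset_union_left.trans (h2 b hb),
    hQ3 N hN1.1 hN1.2 fun b hb => subset_union_right.trans (h2 b hb)⟩, hPN⟩

/-- The element of the universe given by the club of `isClub_cl`. -/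
noncomputable def Ez {U : Type*} (X : ZFSet.{0}) (z : ZFSet.{0} → U) (R : Finset U → Set U)
    (T : Set U) : ZFSet.{0} :=
  (CsZ X).sep fun p => ∀ x ∈ X, z x ∈ cl R (z '' (p : Set ZFSet.{0}) ∪ T) → x ∈ p

theorem mem_CsZ {X p : ZFSet.{0}} : p ∈ CsZ X ↔ (p : Set ZFSet.{0}) ∈ Cs (X : Set ZFSet.{0}) := by
  rw [CsZ, ZFSet.mem_sep, ZFSet.mem_powerset]
  exact Iff.rfl

theorem exists_coe {X : ZFSet.{0}} {P : Set ZFSet.{0}} (hP : P ⊆ (X : Set ZFSet.{0})) :
    ∃ p : ZFSet.{0}, (p : Set ZFSet.{0}) = P := by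
  refine ⟨X.sep fun x => x ∈ P, ?_⟩
  ext x
  show x ∈ X.sep (fun x => x ∈ P) ↔ x ∈ P
  rw [ZFSet.mem_sep]
  exact ⟨fun h => h.2, fun h => ⟨hP h, h⟩⟩

theorem isClubZ_Ez {U : Type*} (X : ZFSet.{0}) {z : ZFSet.{0} → U} (hz : Function.Injective z)
    {R : Finset U → Set U} (hR : ∀ B, (R B).Countable) {T : Set U} (hT : T.Countable) :
    IsClubZ X (Ez X z R T) := by
  have h1 := isClub_cl (X : Set ZFSet.{0}) hz hR hT
  have h2 : {P | ∃ p ∈ Ez X z R T, P = (p : Set ZFSet.{0})} = {P | P ∈ Cs (X : Set ZFSet.{0}) ∧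
      ∀ x ∈ (X : Set ZFSet.{0}), z x ∈ cl R (z '' P ∪ T) → x ∈ P} := by
    ext P
    constructor
    · rintro ⟨p, hp, rfl⟩
      rw [Ez, ZFSet.mem_sep] at hp
      exact ⟨mem_CsZ.1 hp.1, hp.2⟩
    · rintro ⟨h3, h4⟩
      obtain ⟨p, rfl⟩ := exists_coe h3.1
      refine ⟨p, ?_, rfl⟩
      rw [Ez, ZFSet.mem_sep]
      exact ⟨mem_CsZ.2 h3, h4⟩
  rw [IsClubZ, h2]
  exact h1

/-- A club of countable ordinals given by a rule. -/
theorem club1_cl {U : Type*} {om : Om → U} (hom : Function.Injective om) {R : Finset U → Set U}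
    (hR : ∀ B, (R B).Countable)
    (hdown : ∀ M, Closed R M → ∀ i, om i ∈ M → ∀ j < i, om j ∈ M) {T : Set U} (hT : T.Countable) :
    Club1 {d | (∃ i, i < d) ∧ ∀ i, om i ∈ cl R (T ∪ om '' Iio d) ↔ i < d} := by
  constructor
  · intro a
    have hc : (cl R (T ∪ om '' Iic a)).Countable :=
      cl_ctbl hR (hT.union ((by
        rw [← Iio_insert]
        exact (iio_ctbl a).insert a : (Iic a).Countable).image om))
    obtain ⟨d, hd⟩ := exists_iio (S := {i | om i ∈ cl R (T ∪ om '' Iic a)}) (hc.preimage hom)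
      fun i hi j hj => hdown _ closed_cl i hi j hj
    have had : a < d := (hd a).1 (sub_cl (Or.inr ⟨a, mem_Iic.2 le_rfl, rfl⟩))
    refine ⟨d, ⟨⟨a, had⟩, fun i => ⟨fun h => ?_, fun h => sub_cl (Or.inr ⟨i, h, rfl⟩)⟩⟩, had⟩
    refine (hd i).1 (cl_sub ?_ closed_cl h)
    refine union_subset (subset_union_left.trans sub_cl) ?_
    rintro _ ⟨j, hj, rfl⟩
    exact (hd j).2 hj
  · rintro d ⟨a, had⟩ h
    refine ⟨⟨a, had⟩, fun i => ⟨fun hi => ?_, fun h => sub_cl (Or.inr ⟨i, h, rfl⟩)⟩⟩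
    have : Nonempty (Iio d) := ⟨⟨a, had⟩⟩
    have h1 : T ∪ om '' Iio d = ⋃ b : Iio d, (T ∪ om '' Iio b.1) := by
      ext u
      constructor
      · rintro (hu | ⟨j, hj, rfl⟩)
        · exact mem_iUnion.2 ⟨⟨a, had⟩, Or.inl hu⟩
        · obtain ⟨b, -, hjb, hbd⟩ := h j hj
          exact mem_iUnion.2 ⟨⟨b, hbd⟩, Or.inr ⟨j, hjb, rfl⟩⟩
      · intro hu
        obtain ⟨b, hb⟩ := mem_iUnion.1 hu
        rcases hb with hu | ⟨j, hj, rfl⟩
        · exact Or.inl hu
        · exact Or.inr ⟨j, mem_Iio.2 (lt_trans (mem_Iio.1 hj) (mem_Iio.1 b.2)), rfl⟩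
    have hd : Directed (· ⊆ ·) fun b : Iio d => T ∪ om '' Iio b.1 :=
      Monotone.directed_le (f := fun b : Iio d => T ∪ om '' Iio b.1) fun b c hbc =>
        union_subset_union_right _ (image_mono (Iio_subset_Iio hbc))
    rw [h1] at hi
    obtain ⟨b, hb⟩ := mem_iUnion.1 (cl_iUnion hd hi)
    obtain ⟨c, hc, hbc, hcd⟩ := h b.1 b.2
    refine lt_trans ((hc.2 i).1 (cl_mono ?_ hb)) hcd
    exact union_subset_union_right _ (image_mono (Iio_subset_Iio hbc.le))

end Pool.Agent.Y587.ZO
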