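import Mathlib
import Pool.Agent.Y587.ZODefs

/-!
# Fragments of Martin's Maximum
-/

set_option autoImplicit false

namespace Pool.Agent.Y587.ZO

open Cardinal Set

/-- A `P`-name for a function from `ω₁` to `ω₁`: `val p a b` says that `p` forces that the function
maps `a` to `b`. Here `q ≤ p` means that `q` is the stronger condition. -/
structure FnName (P : Type) [Preorder P] where
  /-- `p` forces that the function maps `a` to `b` -/
  val : P → Om → Om → Prop
  mono : ∀ p q a b, q ≤ p → val p a b → val q a b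
  unique : ∀ p a b c, val p a b → val p a c → b = c
  dense : ∀ p a, ∃ q ≤ p, ∃ b, val q a b

/-- `p` forces that the countable ordinal `d` is closed under the function named by `f`. -/
def FnName.Closes {P : Type} [Preorder P] (f : FnName P) (p : P) (d : Om) : Prop :=
  ∀ a < d, ∀ q ≤ p, ∃ r ≤ q, ∃ b < d, f.val r a b

/-- `P` preserves stationary subsets of `ω₁`: for each stationary set `T` and each name for a
function from `ω₁` to `ω₁`, it is forced that `T` has a nonzero element closed under the function. -/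
def SSP (P : Type) [Preorder P] : Prop :=
  ∀ T : Set Om, Stat T → ∀ (f : FnName P) (p : P), ∃ q ≤ p, ∃ d ∈ T, (∃ a, a < d) ∧ f.Closes q d

/-- `G` is a filter on `P`. -/
structure IsFilter {P : Type} [Preorder P] (G : Set P) : Prop where
  nonempty : G.Nonempty
  up : ∀ p ∈ G, ∀ q, p ≤ q → q ∈ G
  dir : ∀ p ∈ G, ∀ q ∈ G, ∃ r ∈ G, r ≤ p ∧ r ≤ q

/-- `MM(κ)`: for each forcing notion `P` of cardinality at most `κ` which preserves stationary
subsets of `ω₁` and each family of at most `ℵ₁` dense subsets of `P` there is a filter which meets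
them all. -/
def MM (κ : Cardinal.{0}) : Prop :=
  ∀ (P : Type) [Preorder P] [Nonempty P], #P ≤ κ → SSP P → ∀ F : Set (Set P), #F ≤ ℵ₁ →
    (∀ D ∈ F, ∀ p, ∃ q ≤ p, q ∈ D) → ∃ G : Set P, IsFilter G ∧ ∀ D ∈ F, ∃ p ∈ G, p ∈ D

end Pool.Agent.Y587.ZO
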