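import Mathlib
import Pool.Agent.Y587.ZOClosure
import Pool.Agent.Y587.ZOMMDefs

/-!
# The forcing notion
-/

set_option autoImplicit false

namespace Pool.Agent.Y587.ZO

open Cardinal Set

/-- The labels. -/
abbrev Lab (DD : Set (Set Om)) (Y : Type) : Type := Om ⊕ (DD ⊕ Y)

section

variable {DD : Set (Set Om)} {Y : Type} {good : Y → Om → Om → Prop}

/-- The ordinals which occur before `n` are those below `n`. -/
def ClosedAt (s : Om → Lab DD Y) (n : Om) : Prop := ∀ i, (∃ e < n, s e = Sum.inl i) ↔ i < n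

/-- The requirement at `n`. -/
def Req (good : Y → Om → Om → Prop) (s : Om → Lab DD Y) (n : Om) : Prop :=
  (∃ i, i < n) → ClosedAt s n →
    (∃ e < n, ∃ D : DD, s e = Sum.inr (Sum.inl D) ∧ n ∈ D.1) ∨
      ∃ m < n, ∀ x, m < x → x < n → ClosedAt s x → ∃ e < x, ∃ r, s e = Sum.inr (Sum.inr r) ∧
        good r n x

theorem ClosedAt.congr {s t : Om → Lab DD Y} {n : Om} (h : ∀ e < n, s e = t e)
    (hs : ClosedAt s n) : ClosedAt t n := by
  intro i
  rw [← hs i]
  exact ⟨fun ⟨e, he, h'⟩ => ⟨e, he, (h e he).trans h'⟩, fun ⟨e, he, h'⟩ =>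
    ⟨e, he, (h e he).symm.trans h'⟩⟩

theorem Req.congr {s t : Om → Lab DD Y} {n : Om} (h : ∀ e < n, s e = t e)
    (hs : Req good s n) : Req good t n := by
  intro hn hc
  rcases hs hn (hc.congr fun e he => (h e he).symm) with ⟨e, he, D, h1, h2⟩ | ⟨m, hm, h1⟩
  · exact Or.inl ⟨e, he, D, (h e he).symm.trans h1, h2⟩
  · refine Or.inr ⟨m, hm, fun x hx hxn hcx => ?_⟩
    obtain ⟨e, he, r, h2, h3⟩ := h1 x hx hxn (hcx.congr fun e he => (h e (he.trans hxn)).symm)
    exact ⟨e, he, r, (h e (he.trans hxn)).symm.trans h2, h3⟩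

variable (DD Y good) in
/-- The conditions. -/
structure Cond : Type where
  len : Om
  s : Om → Lab DD Y
  req : ∀ n ≤ len, Req good s n

instance : Preorder (Cond DD Y good) where
  le q p := p.len ≤ q.len ∧ ∀ e < p.len, q.s e = p.s e
  le_refl p := ⟨le_rfl, fun _ _ => rfl⟩
  le_trans p q r h1 h2 := ⟨h2.1.trans h1.1, fun e he =>
    (h1.2 e (he.trans_le h2.1)).trans (h2.2 e he)⟩

theorem exists_succ (a : Om) : ∃ b, ∀ c, c < b ↔ c ≤ a := by
  have h1 : (Iic a).Countable := by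
    rw [← Iio_insert]
    exact (iio_ctbl a).insert a
  obtain ⟨b, hb⟩ := exists_iio h1 fun i hi j hj => le_trans (le_of_lt hj) hi
  exact ⟨b, fun c => (hb c).symm⟩

/-- Adding a label. -/
theorem exists_ext1 (p : Cond DD Y good) (z : Lab DD Y) :
    ∃ q : Cond DD Y good, q ≤ p ∧ p.len < q.len ∧ q.s p.len = z := by
  classical
  obtain ⟨b, hb⟩ := exists_succ p.len
  have h0 : p.len < b := (hb _).2 le_rfl
  have h1 : ∀ e < p.len, p.s e = Function.update p.s p.len z e := fun e he => by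
    rw [Function.update_of_ne he.ne]
  refine ⟨⟨b, Function.update p.s p.len z, fun n hn => ?_⟩, ⟨h0.le, fun e he => (h1 e he).symm⟩,
    h0, Function.update_self _ _ _⟩
  rcases hn.lt_or_eq with h | rfl
  · have h2 : n ≤ p.len := (hb _).1 h
    exact (p.req n h2).congr fun e he => h1 e (he.trans_le h2)
  · intro _ _
    refine Or.inr ⟨p.len, h0, fun x hx hxn _ => ?_⟩
    exact absurd ((hb x).1 hxn) (not_le.2 hx)

/-- Making the condition longer. -/
theorem exists_len (p : Cond DD Y good) (a : Om) : ∃ q : Cond DD Y good, q ≤ p ∧ a ≤ q.len := by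
  classical
  obtain ⟨b, hb⟩ := exists_gt (max a p.len)
  have hab : a < b := (le_max_left _ _).trans_lt hb
  have hpb : p.len < b := (le_max_right _ _).trans_lt hb
  have h1 : ∀ e < p.len, p.s e = Function.update p.s p.len (Sum.inl b) e := fun e he => by
    rw [Function.update_of_ne he.ne]
  refine ⟨⟨b, Function.update p.s p.len (Sum.inl b), fun n hn => ?_⟩,
    ⟨hpb.le, fun e he => (h1 e he).symm⟩, hab.le⟩
  rcases le_or_gt n p.len with h | h
  · exact (p.req n h).congr fun e he => h1 e (he.trans_le h)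
  · intro _ hc
    have h2 := (hc b).1 ⟨p.len, h, Function.update_self _ _ _⟩
    exact absurd hn (not_le.2 h2)

/-- The generic sequence. -/
theorem exists_generic {κ : Cardinal.{0}} (hMM : MM κ) (hcard : #(Cond DD Y good) ≤ κ)
    (hssp : SSP (Cond DD Y good)) :
    ∃ s : Om → Lab DD Y, (∀ n, Req good s n) ∧ ∀ i, ∃ e, s e = Sum.inl i := by
  classical
  obtain ⟨x0⟩ : Nonempty Om := inferInstance
  have hmin : ∃ o : Om, ∀ i, ¬ i < o := by
    obtain ⟨o, ho⟩ := exists_iio (S := ∅) countable_empty (by simp)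
    exact ⟨o, fun i hi => (ho i).2 hi⟩
  obtain ⟨o, ho⟩ := hmin
  have hne : Nonempty (Cond DD Y good) := ⟨⟨o, fun _ => Sum.inl o, fun n hn hn' => by
    obtain ⟨i, hi⟩ := hn'
    exact absurd (hi.trans_le hn) (ho i)⟩⟩
  obtain ⟨G, hG, hGD⟩ := hMM (Cond DD Y good) hcard hssp
    ((range fun a => {q : Cond DD Y good | a ≤ q.len}) ∪
      range fun i => {q : Cond DD Y good | ∃ e < q.len, q.s e = Sum.inl i}) (by
      refine (mk_union_le _ _).trans (add_le_of_le (aleph0_le_aleph 1) ?_ ?_)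
      · exact mk_range_le.trans (by rw [mk_Om])
      · exact mk_range_le.trans (by rw [mk_Om])) (by
      rintro D (⟨a, rfl⟩ | ⟨i, rfl⟩) p
      · exact exists_len p a
      · obtain ⟨q, hq, hlen, hs⟩ := exists_ext1 p (Sum.inl i)
        exact ⟨q, hq, p.len, hlen, hs⟩)
  have h1 : ∀ a, ∃ q ∈ G, a < q.len := by
    intro a
    obtain ⟨b, hb⟩ := exists_gt a
    obtain ⟨q, hq, hq'⟩ := hGD _ (Or.inl ⟨b, rfl⟩)
    exact ⟨q, hq, hb.trans_le hq'⟩
  choose q hqG hq using h1
  have h2 : ∀ p ∈ G, ∀ e < p.len, (q e).s e = p.s e := by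
    intro p hp e he
    obtain ⟨r, -, h3, h4⟩ := hG.dir p hp (q e) (hqG e)
    rw [← h4.2 e (hq e), ← h3.2 e he]
  refine ⟨fun e => (q e).s e, fun n => ?_, fun i => ?_⟩
  · refine ((q n).req n (hq n).le).congr fun e he => ?_
    exact (h2 (q n) (hqG n) e (he.trans (hq n))).symm
  · obtain ⟨p, hp, e, he, h3⟩ := hGD _ (Or.inr ⟨i, rfl⟩)
    exact ⟨e, (h2 p hp e he).trans h3⟩

/-- The limit of a sequence of conditions. -/
theorem build {f : FnName (Cond DD Y good)} {d : Om} (hd : ∃ a, a < d) {QQ : Set (Cond DD Y good)}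
    {p : Cond DD Y good} (hp : p ∈ QQ) (Pr : Lab DD Y → Om → Prop)
    (h : ∀ q ∈ QQ, ∀ i < d, ∃ q' ∈ QQ, q' ≤ q ∧ q.len < q'.len ∧ Pr (q'.s q.len) q'.len ∧
      i ≤ q'.len ∧ q'.len < d ∧ ∃ b < d, f.val q' i b) :
    ∃ s : Om → Lab DD Y, (∀ n < d, Req good s n) ∧ (∀ e < p.len, s e = p.s e) ∧
      (∀ x, p.len < x → x < d → ∃ e < x, ∃ y, x ≤ y ∧ Pr (s e) y) ∧
      ∀ a < d, ∃ q : Cond DD Y good, q.len ≤ d ∧ (∀ e < q.len, s e = q.s e) ∧
        ∃ b < d, f.val q a b := by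
  classical
  obtain ⟨a0, ha0⟩ := hd
  obtain ⟨e, he⟩ := (iio_ctbl d).exists_eq_range ⟨a0, ha0⟩
  have hed : ∀ n, e n < d := fun n => by
    have h1 : e n ∈ Iio d := he ▸ mem_range_self n
    exact h1
  choose! g hg1 hg2 hg3 hg4 hg5 hg6 hg7 using h
  let q : ℕ → Cond DD Y good := fun n => Nat.rec p (fun n q => g q (e n)) n
  have hqs : ∀ n, q (n + 1) = g (q n) (e n) := fun n => rfl
  have hq : ∀ n, q n ∈ QQ := by
    intro n
    induction n with
    | zero => exact hp
    | succ n ih => exact hqs n ▸ hg1 _ ih _ (hed n)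
  have hle : ∀ n, q (n + 1) ≤ q n := fun n => hqs n ▸ hg2 _ (hq n) _ (hed n)
  have hanti : ∀ m n, m ≤ n → q n ≤ q m := fun m n hmn => by
    induction n, hmn using Nat.le_induction with
    | base => exact le_rfl
    | succ n _ ih => exact (hle n).trans ih
  have hlen : ∀ n, (q n).len < (q (n + 1)).len := fun n => hqs n ▸ hg3 _ (hq n) _ (hed n)
  have hlt : ∀ n, (q (n + 1)).len < d := fun n => hqs n ▸ hg6 _ (hq n) _ (hed n)
  have hltd : ∀ n, (q n).len < d := fun n => (hlen n).trans (hlt n)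
  have hcof : ∀ a < d, ∃ n, a < (q n).len := by
    intro a ha
    have h1 : a ∈ Iio d := ha
    rw [he] at h1
    obtain ⟨n, rfl⟩ := h1
    exact ⟨n + 2, (hqs n ▸ hg5 _ (hq n) _ (hed n) : e n ≤ (q (n + 1)).len).trans_lt (hlen (n + 1))⟩
  have hcof' : ∀ a : Om, ∃ n, a < d → a < (q n).len := fun a => by
    by_cases ha : a < d
    · obtain ⟨n, hn⟩ := hcof a ha
      exact ⟨n, fun _ => hn⟩
    · exact ⟨0, fun h => absurd h ha⟩
  choose k hk using hcof'
  let s : Om → Lab DD Y := fun x => (q (k x)).s x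
  have hs : ∀ n, ∀ x < (q n).len, s x = (q n).s x := by
    intro n x hx
    have h1 := hk x (hx.trans (hltd n))
    rcases le_total n (k x) with h | h
    · exact (hanti _ _ h).2 x hx
    · exact ((hanti _ _ h).2 x h1).symm
  refine ⟨s, fun n hn => ?_, fun x hx => hs 0 x hx, fun x hx hxd => ?_, fun a ha => ?_⟩
  · have h1 := hk n hn
    exact ((q (k n)).req n h1.le).congr fun e he => (hs (k n) e (he.trans h1)).symm
  · have h1 : ∃ n, x ≤ (q n).len := (hcof x hxd).imp fun n hn => hn.le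
    obtain ⟨m, hm⟩ : ∃ m, Nat.find h1 = m + 1 := by
      refine Nat.exists_eq_succ_of_ne_zero fun h0 => ?_
      have h2 := Nat.find_spec h1
      rw [h0] at h2
      exact absurd h2 (not_le.2 hx)
    have h2 : x ≤ (q (m + 1)).len := hm ▸ Nat.find_spec h1
    have h3 : (q m).len < x := not_le.1 (Nat.find_min h1 (by omega))
    refine ⟨(q m).len, h3, (q (m + 1)).len, h2, ?_⟩
    rw [hs (m + 1) _ (hlen m), hqs]
    exact hg4 _ (hq m) _ (hed m)
  · have h1 : a ∈ Iio d := ha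
    rw [he] at h1
    obtain ⟨n, rfl⟩ := h1
    exact ⟨q (n + 1), (hlt n).le, hs (n + 1), hqs n ▸ hg7 _ (hq n) _ (hed n)⟩

end

end Pool.Agent.Y587.ZO
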