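import Mathlib
import Pool.Agent.Y587.ZOForcing

/-!
# The forcing notion preserves stationary sets
-/

set_option autoImplicit false

namespace Pool.Agent.Y587.ZO

open Cardinal Set

/-- A binary rule. -/
def Bin {U : Type*} (K : U → U → Set U) (A : Finset U) : Set U := ⋃ u ∈ A, ⋃ v ∈ A, K u v

theorem Bin_ctbl {U : Type*} {K : U → U → Set U} (hK : ∀ u v, (K u v).Countable) (A : Finset U) :
    (Bin K A).Countable :=
  A.countable_toSet.biUnion fun u _ => A.countable_toSet.biUnion fun v _ => hK u v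

theorem Closed.bin {U : Type*} {K : U → U → Set U} {N : Set U} (hN : Closed (Bin K) N) {u v x : U}
    (hu : u ∈ N) (hv : v ∈ N) (hx : x ∈ K u v) : x ∈ N := by
  classical
  refine hN {u, v} ?_ ?_
  · rw [Finset.coe_insert, Finset.coe_singleton]
    exact insert_subset hu (singleton_subset_iff.2 hv)
  · exact mem_biUnion (x := u) (by simp) (mem_biUnion (x := v) (by simp) hx)

section

variable {DD : Set (Set Om)} {Y : Type} {good : Y → Om → Om → Prop}

/-- The reflection property of a set of countable ordinals. -/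
def Refl (good : Y → Om → Om → Prop) (T : Set Om) : Prop :=
  ∀ (W : Type) (R : Finset (W ⊕ (Y ⊕ Om)) → Set (W ⊕ (Y ⊕ Om))), (∀ A, (R A).Countable) →
    ∀ w0 : W, ∃ d ∈ T, ∃ M : Set (W ⊕ (Y ⊕ Om)), Closed R M ∧ Sum.inl w0 ∈ M ∧
      (∀ i, Sum.inr (Sum.inr i) ∈ M ↔ i < d) ∧
      ∀ w, Sum.inl w ∈ M → ∃ N ⊆ M, Closed R N ∧ Sum.inl w ∈ N ∧
        ∃ n < d, (∀ i, Sum.inr (Sum.inr i) ∈ N → i < n) ∧ ∃ r, Sum.inr (Sum.inl r) ∈ N ∧
          good r d n

theorem exists_step (f : FnName (Cond DD Y good)) (q : Cond DD Y good) (z : Lab DD Y) (i : Om) :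
    ∃ q' ≤ q, ∃ b, q.len < q'.len ∧ q'.s q.len = z ∧ i ≤ q'.len ∧ f.val q' i b := by
  obtain ⟨q1, h1, h2, h3⟩ := exists_ext1 q z
  obtain ⟨q2, h4, h5⟩ := exists_len q1 i
  obtain ⟨q3, h6, b, h7⟩ := f.dense q2 i
  refine ⟨q3, h6.trans (h4.trans h1), b, h2.trans_le (h4.1.trans h6.1), ?_, h5.trans h6.1, h7⟩
  rw [h6.2 _ (h2.trans_le h4.1), h4.2 _ h2, h3]

theorem finish {f : FnName (Cond DD Y good)} {d : Om} {p : Cond DD Y good} (hp : p.len < d)
    {s : Om → Lab DD Y} (hs : ∀ n < d, Req good s n) (hsd : Req good s d)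
    (hps : ∀ e < p.len, s e = p.s e)
    (hval : ∀ a < d, ∃ q : Cond DD Y good, q.len ≤ d ∧ (∀ e < q.len, s e = q.s e) ∧
        ∃ b < d, f.val q a b) : ∃ q ≤ p, f.Closes q d := by
  refine ⟨⟨d, s, fun n hn => ?_⟩, ⟨hp.le, hps⟩, fun a ha r hr => ?_⟩
  · rcases hn.lt_or_eq with h | rfl
    · exact hs n h
    · exact hsd
  · obtain ⟨q, h1, h2, b, hb, h3⟩ := hval a ha
    refine ⟨r, le_rfl, b, hb, f.mono q r a b ?_ h3⟩
    exact ⟨h1.trans hr.1, fun e he => (hr.2 e (he.trans_le h1)).trans (h2 e he)⟩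

theorem ssp (hmono : ∀ r d x x', x' ≤ x → good r d x → good r d x')
    (hrefl : ∀ T : Set Om, Stat T → (∀ D ∈ DD, ¬ Stat (T ∩ D)) → Refl good T) :
    SSP (Cond DD Y good) := by
  classical
  intro T hT f p
  choose st hst1 bd hst2 hst3 hst4 hst5 using exists_step f
  by_cases hcase : ∃ D ∈ DD, Stat (T ∩ D)
  · obtain ⟨D, hD, hTD⟩ := hcase
    let z : Lab DD Y := Sum.inr (Sum.inl ⟨D, hD⟩)
    let K : (Cond DD Y good × Om) ⊕ Om → (Cond DD Y good × Om) ⊕ Om →
        Set ((Cond DD Y good × Om) ⊕ Om) := fun u v => match u, v with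
      | .inl (q, i), .inl _ => {Sum.inr i, Sum.inr q.len, Sum.inr (bd q z i),
          Sum.inr (st q z i).len, Sum.inl (st q z i, i)}
      | .inl (q, _), .inr j => {Sum.inl (q, j)}
      | .inr i, _ => Sum.inr '' Iio i
    have hK : ∀ u v, (K u v).Countable := by
      rintro (⟨q, i⟩ | i) (⟨q', i'⟩ | j)
      · exact (by simp : ({Sum.inr i, Sum.inr q.len, Sum.inr (bd q z i),
          Sum.inr (st q z i).len, Sum.inl (st q z i, i)} :
            Set ((Cond DD Y good × Om) ⊕ Om)).Finite).countable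
      · exact countable_singleton _
      · exact (iio_ctbl i).image _
      · exact (iio_ctbl i).image _
    have hdown : ∀ M, Closed (Bin K) M → ∀ i, (Sum.inr i : (Cond DD Y good × Om) ⊕ Om) ∈ M →
        ∀ j < i, (Sum.inr j : (Cond DD Y good × Om) ⊕ Om) ∈ M := fun M hM i hi j hj =>
      hM.bin (u := Sum.inr i) (v := Sum.inr i) hi hi (show _ ∈ Sum.inr '' Iio i from ⟨j, hj, rfl⟩)
    obtain ⟨i0⟩ : Nonempty Om := inferInstance
    obtain ⟨d, hdT, hd0, hd⟩ := hTD _ (club1_cl (T := {Sum.inl (p, i0)}) Sum.inr_injective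
      (Bin_ctbl hK) hdown (countable_singleton _))
    set M := cl (Bin K) ({Sum.inl (p, i0)} ∪ Sum.inr '' Iio d) with hM
    have hMc : Closed (Bin K) M := closed_cl
    have hpM : ∀ i < d, Sum.inl (p, i) ∈ M := fun i hi =>
      hMc.bin (u := Sum.inl (p, i0)) (v := Sum.inr i) (sub_cl (Or.inl rfl)) ((hd i).2 hi)
        (mem_singleton _)
    have hlenM : ∀ q i, Sum.inl (q, i) ∈ M → q.len < d := fun q i h =>
      (hd _).1 (hMc.bin h h (show _ ∈ ({Sum.inr i, Sum.inr q.len, Sum.inr (bd q z i),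
          Sum.inr (st q z i).len, Sum.inl (st q z i, i)} :
            Set ((Cond DD Y good × Om) ⊕ Om)) by simp))
    obtain ⟨s, hs1, hs2, hs3, hs4⟩ := build (f := f) hd0
      (QQ := {q | ∀ i < d, Sum.inl (q, i) ∈ M}) (p := p) hpM (fun lab _ => lab = z) (by
      intro q hq i hi
      have hqM : Sum.inl (q, i) ∈ M := hq i hi
      have h1 : ∀ x ∈ ({Sum.inr i, Sum.inr q.len, Sum.inr (bd q z i),
          Sum.inr (st q z i).len, Sum.inl (st q z i, i)} : Set ((Cond DD Y good × Om) ⊕ Om)),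
          x ∈ M := fun x hx => hMc.bin hqM hqM hx
      refine ⟨st q z i, fun j hj => hMc.bin (u := Sum.inl (st q z i, i)) (v := Sum.inr j)
        (h1 _ (by simp)) ((hd j).2 hj) (mem_singleton _), hst1 q z i, hst2 q z i, hst3 q z i,
        hst4 q z i, (hd _).1 (h1 _ (by simp)), bd q z i, (hd _).1 (h1 _ (by simp)), hst5 q z i⟩)
    obtain ⟨i1, hi1⟩ := hd0
    have hpd : p.len < d := hlenM p i1 (hpM i1 hi1)
    have hst : Sum.inl (st p z i1, i1) ∈ M := hMc.bin (hpM i1 hi1) (hpM i1 hi1)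
      (show _ ∈ ({Sum.inr i1, Sum.inr p.len, Sum.inr (bd p z i1),
          Sum.inr (st p z i1).len, Sum.inl (st p z i1, i1)} :
            Set ((Cond DD Y good × Om) ⊕ Om)) by simp)
    obtain ⟨e, he, y, -, hy⟩ := hs3 _ (hst2 p z i1) (hlenM _ _ hst)
    obtain ⟨q, hq, hq'⟩ := finish (f := f) hpd hs1 (fun _ _ => Or.inl
      ⟨e, he.trans (hlenM _ _ hst), ⟨D, hD⟩, hy, hdT.2⟩) hs2 hs4
    exact ⟨q, hq, d, hdT.1, ⟨i1, hi1⟩, hq'⟩
  · have hT' : Refl good T := hrefl T hT fun D hD h => hcase ⟨D, hD, h⟩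
    let z : Y → Lab DD Y := fun r => Sum.inr (Sum.inr r)
    let V := (Cond DD Y good × Om) ⊕ (Y ⊕ Om)
    let K : V → V → Set V := fun u v => match u, v with
      | .inl (q, i), .inl _ => {Sum.inr (Sum.inr i), Sum.inr (Sum.inr q.len)}
      | .inl (q, i), .inr (.inl r) => {Sum.inr (Sum.inr (bd q (z r) i)),
          Sum.inr (Sum.inr (st q (z r) i).len), Sum.inl (st q (z r) i, i)}
      | .inl (q, _), .inr (.inr j) => {Sum.inl (q, j)}
      | .inr _, _ => ∅
    have hK : ∀ u v, (K u v).Countable := by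
      rintro (⟨q, i⟩ | i) (⟨q', i'⟩ | (r | j))
      · exact (by simp : ({Sum.inr (Sum.inr i), Sum.inr (Sum.inr q.len)} : Set V).Finite).countable
      · exact (by simp : ({Sum.inr (Sum.inr (bd q (z r) i)),
          Sum.inr (Sum.inr (st q (z r) i).len), Sum.inl (st q (z r) i, i)} : Set V).Finite).countable
      · exact countable_singleton _
      · exact countable_empty
      · exact countable_empty
      · exact countable_empty
    obtain ⟨i0⟩ : Nonempty Om := inferInstance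
    obtain ⟨d, hdT, M, hMc, hpM, hd, hN⟩ := hT' (Cond DD Y good × Om) (Bin K) (Bin_ctbl hK) (p, i0)
    have h1 : ∀ q i, (Sum.inl (q, i) : V) ∈ M → i < d ∧ q.len < d := fun q i h => by
      have h2 : ∀ x ∈ ({Sum.inr (Sum.inr i), Sum.inr (Sum.inr q.len)} : Set V), x ∈ M :=
        fun x hx => hMc.bin h h hx
      exact ⟨(hd _).1 (h2 _ (by simp)), (hd _).1 (h2 _ (by simp))⟩
    have hi0 : i0 < d := (h1 _ _ hpM).1
    obtain ⟨s, hs1, hs2, hs3, hs4⟩ := build (f := f) ⟨i0, hi0⟩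
      (QQ := {q | ∀ i < d, (Sum.inl (q, i) : V) ∈ M}) (p := p)
      (fun i hi => hMc.bin (u := Sum.inl (p, i0)) (v := Sum.inr (Sum.inr i)) hpM ((hd i).2 hi)
        (mem_singleton _))
      (fun lab y => ∃ r n, lab = z r ∧ y < n ∧ good r d n) (by
      intro q hq i hi
      obtain ⟨N, hNM, hNc, hqN, n, hnd, hn, r, hrN, hr⟩ := hN (q, i) (hq i hi)
      have h2 : ∀ x ∈ ({Sum.inr (Sum.inr (bd q (z r) i)),
          Sum.inr (Sum.inr (st q (z r) i).len), Sum.inl (st q (z r) i, i)} : Set V),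
          x ∈ N := fun x hx => hNc.bin (u := Sum.inl (q, i)) (v := Sum.inr (Sum.inl r)) hqN hrN hx
      refine ⟨st q (z r) i, fun j hj => hMc.bin (u := Sum.inl (st q (z r) i, i))
        (v := Sum.inr (Sum.inr j)) (hNM (h2 _ (by simp))) ((hd j).2 hj) (mem_singleton _),
        hst1 q _ i, hst2 q _ i, ⟨r, n, hst3 q _ i, hn _ (h2 _ (by simp)), hr⟩,
        hst4 q _ i, (hn _ (h2 _ (by simp))).trans hnd, bd q _ i, (hn _ (h2 _ (by simp))).trans hnd,
        hst5 q _ i⟩)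
    have hpd : p.len < d := (h1 _ _ hpM).2
    obtain ⟨q, hq, hq'⟩ := finish (f := f) hpd hs1 (fun _ _ => Or.inr
      ⟨p.len, hpd, fun x hx hxd _ => by
        obtain ⟨e, he, y, hxy, r, n, h2, h3, h4⟩ := hs3 x hx hxd
        exact ⟨e, he, r, h2, hmono r d n x (hxy.trans h3.le) h4⟩⟩) hs2 hs4
    exact ⟨q, hq, d, hdT, ⟨i0, hi0⟩, hq'⟩

end

end Pool.Agent.Y587.ZO
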