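import Mathlib
import Pool.Agent.Y587.ZOSSP

/-!
# Almost disjoint coding and cardinalities
-/

set_option autoImplicit false

namespace Pool.Agent.Y587.ZO

open Cardinal Set

/-- An almost disjoint family of size `ℵ₁`. -/
theorem exists_ad : ∃ A : Om → Set ℕ, (∀ i, (A i).Infinite) ∧ ∀ i j, i ≠ j → (A i ∩ A j).Finite := by
  have h1 : #Om ≤ #(ℕ → Bool) := by
    rw [mk_Om]
    have h2 : #(ℕ → Bool) = 𝔠 := by simp
    rw [h2]
    exact aleph_one_le_continuum
  obtain ⟨x, hx⟩ := h1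
  let L : Om → ℕ → List Bool := fun i k => List.ofFn fun j : Fin k => x i j
  have hlen : ∀ i k, (L i k).length = k := fun i k => List.length_ofFn
  have hL : ∀ i j k l, Encodable.encode (L i k) = Encodable.encode (L j l) →
      k = l ∧ ∀ m < k, x i m = x j m := by
    intro i j k l h
    have h2 := Encodable.encode_injective h
    have h3 : k = l := by rw [← hlen i k, h2, hlen]
    subst h3
    refine ⟨rfl, fun m hm => ?_⟩
    have h4 := List.ofFn_injective h2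
    exact congrFun h4 ⟨m, hm⟩
  refine ⟨fun i => range fun k => Encodable.encode (L i k), fun i => ?_, fun i j hij => ?_⟩
  · exact infinite_range_of_injective fun k l h => (hL i i k l h).1
  · have h2 : ∃ m, x i m ≠ x j m := by
      by_contra hcon
      push Not at hcon
      exact hij (hx (funext hcon))
    obtain ⟨m, hm⟩ := h2
    refine ((finite_Iic m).image fun k => Encodable.encode (L i k)).subset ?_
    rintro _ ⟨⟨k, rfl⟩, ⟨l, hl⟩⟩
    refine ⟨k, ?_, rfl⟩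
    by_contra hcon
    exact hm ((hL i j k l hl.symm).2 m (not_le.1 hcon))

/-- The almost disjoint coding forcing. -/
structure AD (A : Om → Set ℕ) (Y : Set Om) : Type where
  s : Finset ℕ
  F : Finset Om
  hF : ∀ i ∈ F, i ∉ Y

instance (A : Om → Set ℕ) (Y : Set Om) : Preorder (AD A Y) where
  le q p := p.s ⊆ q.s ∧ p.F ⊆ q.F ∧ ∀ n ∈ q.s, n ∉ p.s → ∀ i ∈ p.F, n ∉ A i
  le_refl p := ⟨fun _ h => h, fun _ h => h, fun n h1 h2 => absurd h1 h2⟩
  le_trans p q r h1 h2 := by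
    refine ⟨h2.1.trans h1.1, h2.2.1.trans h1.2.1, fun n hn hn' i hi => ?_⟩
    by_cases h : n ∈ q.s
    · exact h2.2.2 n h hn' i hi
    · exact h1.2.2 n hn h i (h2.2.1 hi)

theorem mk_AD (A : Om → Set ℕ) (Y : Set Om) : #(AD A Y) ≤ 𝔠 := by
  have h1 : #(AD A Y) ≤ #(Finset ℕ × Finset Om) := by
    refine mk_le_of_injective (f := fun p : AD A Y => (p.s, p.F)) fun p q h => ?_
    cases p
    cases q
    simp only [Prod.mk.injEq] at h
    obtain ⟨rfl, rfl⟩ := h
    rfl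
  have h2 : #(Finset Om) = ℵ₁ := by rw [mk_finset_of_infinite, mk_Om]
  refine h1.trans ?_
  rw [mk_prod, lift_id, lift_id, h2]
  exact mul_le_of_le aleph0_le_continuum (mk_le_aleph0.trans aleph0_le_continuum)
    aleph_one_le_continuum

theorem ssp_AD (A : Om → Set ℕ) (Y : Set Om) : SSP (AD A Y) := by
  classical
  intro T hT f p
  have h1 : ∀ (a : Om) (s : Finset ℕ), ∃ b, (∃ p : AD A Y, p.s = s ∧ ∃ c, f.val p a c) →
      ∃ p : AD A Y, p.s = s ∧ f.val p a b := by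
    intro a s
    by_cases h : ∃ p : AD A Y, p.s = s ∧ ∃ c, f.val p a c
    · obtain ⟨p, hp, c, hc⟩ := h
      exact ⟨c, fun _ => ⟨p, hp, hc⟩⟩
    · exact ⟨a, fun h' => absurd h' h⟩
  choose β hβ using h1
  have h2 : ∀ a, ∃ b, ∀ s, β a s < b := fun a => by
    obtain ⟨b, hb⟩ := bdd_ctbl (countable_range (β a))
    exact ⟨b, fun s => hb _ ⟨s, rfl⟩⟩
  choose g hg using h2
  have hdown : ∀ M, Closed (Bin fun u _ : Om => insert (g u) (Iio u)) M → ∀ i, id i ∈ M →
      ∀ j < i, id j ∈ M := fun M hM i hi j hj => hM.bin (u := i) (v := i) hi hi (Or.inr hj)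
  obtain ⟨d, hdT, hd0, hd⟩ := hT _ (club1_cl (T := ∅) (om := id) Function.injective_id
    (Bin_ctbl (K := fun u _ : Om => insert (g u) (Iio u)) fun u _ => (iio_ctbl u).insert _) hdown
    countable_empty)
  have hgd : ∀ a < d, g a < d := fun a ha => (hd _).1
    (closed_cl.bin (u := a) (v := a) ((hd a).2 ha) ((hd a).2 ha) (Or.inl rfl))
  refine ⟨p, le_rfl, d, hdT, hd0, fun a ha q _ => ?_⟩
  obtain ⟨q1, hq1, c, hc⟩ := f.dense q a
  obtain ⟨q2, hs, hq2⟩ := hβ a q1.s ⟨q1, rfl, c, hc⟩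
  let r : AD A Y := ⟨q1.s, q1.F ∪ q2.F, fun i hi => by
    rcases Finset.mem_union.1 hi with h | h
    · exact q1.hF i h
    · exact q2.hF i h⟩
  have hr1 : r ≤ q1 := ⟨fun _ h => h, Finset.subset_union_left, fun n h1 h2 => absurd h1 h2⟩
  have hr2 : r ≤ q2 := ⟨fun n h => hs ▸ h, Finset.subset_union_right, fun n h1 h2 =>
    absurd (hs ▸ h1) h2⟩
  exact ⟨r, hr1.trans hq1, β a q1.s, (hg a _).trans (hgd a ha), f.mono _ _ _ _ hr2 hq2⟩

/-- Martin's axiom for `ℵ₁` dense sets implies that each subset of `ω₁` is coded by a real. -/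
theorem exists_code (hMM : MM 𝔠) {A : Om → Set ℕ} (hA : ∀ i, (A i).Infinite)
    (hAD : ∀ i j, i ≠ j → (A i ∩ A j).Finite) (Y : Set Om) :
    ∃ S : Set ℕ, ∀ i, i ∈ Y ↔ (S ∩ A i).Infinite := by
  classical
  have : Nonempty (AD A Y) := ⟨⟨∅, ∅, by simp⟩⟩
  obtain ⟨G, hG, hGD⟩ := hMM (AD A Y) (mk_AD A Y) (ssp_AD A Y)
    ((range fun x : Om × ℕ => {p : AD A Y | x.1 ∈ Y → ∃ m ∈ p.s, x.2 ≤ m ∧ m ∈ A x.1}) ∪
      range fun i : Om => {p : AD A Y | i ∉ Y → i ∈ p.F}) (by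
      refine (mk_union_le _ _).trans (add_le_of_le (aleph0_le_aleph 1) ?_ ?_)
      · refine mk_range_le.trans ?_
        rw [mk_prod, lift_id, lift_id, mk_Om]
        exact mul_le_of_le (aleph0_le_aleph 1) le_rfl (by simp)
      · exact mk_range_le.trans (by rw [mk_Om])) (by
      rintro D (⟨⟨i, n⟩, rfl⟩ | ⟨i, rfl⟩) p
      · by_cases hi : i ∈ Y
        · have h1 : (⋃ j ∈ p.F, A i ∩ A j).Finite :=
            p.F.finite_toSet.biUnion fun j hj => hAD i j fun h => p.hF j hj (h ▸ hi)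
          have h2 : (A i \ ((⋃ j ∈ p.F, A i ∩ A j) ∪ Iio n)).Infinite :=
            (hA i).sdiff (h1.union (finite_Iio n))
          obtain ⟨m, hm, hm'⟩ := h2.nonempty
          refine ⟨⟨insert m p.s, p.F, p.hF⟩, ⟨Finset.subset_insert _ _, fun _ h => h,
            fun k hk hk' j hj hkj => ?_⟩, fun _ => ⟨m, Finset.mem_insert_self _ _, ?_, hm⟩⟩
          · rcases Finset.mem_insert.1 hk with rfl | h
            · exact hm' (Or.inl (mem_biUnion (x := j) hj ⟨hm, hkj⟩))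
            · exact hk' h
          · exact not_lt.1 fun h => hm' (Or.inr h)
        · exact ⟨p, le_rfl, fun h => absurd h hi⟩
      · by_cases hi : i ∈ Y
        · exact ⟨p, le_rfl, fun h => absurd hi h⟩
        · refine ⟨⟨p.s, insert i p.F, fun j hj => ?_⟩, ⟨fun _ h => h, Finset.subset_insert _ _,
            fun n h1 h2 => absurd h1 h2⟩, fun _ => Finset.mem_insert_self _ _⟩
          rcases Finset.mem_insert.1 hj with rfl | h
          · exact hi
          · exact p.hF j h)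
  refine ⟨{m | ∃ p ∈ G, m ∈ p.s}, fun i => ⟨fun hi => ?_, fun hinf => ?_⟩⟩
  · refine infinite_of_not_bddAbove fun hb => ?_
    obtain ⟨n, hn⟩ := hb
    obtain ⟨p, hp, h1⟩ := hGD _ (Or.inl ⟨(i, n + 1), rfl⟩)
    obtain ⟨m, hm, hnm, hmA⟩ := h1 hi
    have h2 : m ≤ n := hn ⟨⟨p, hp, hm⟩, hmA⟩
    simp only at hnm
    omega
  · by_contra hi
    obtain ⟨p, hp, h1⟩ := hGD _ (Or.inr ⟨i, rfl⟩)
    refine hinf ((p.s.finite_toSet).subset ?_)
    rintro m ⟨⟨q, hq, hm⟩, hmA⟩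
    obtain ⟨r, -, hrp, hrq⟩ := hG.dir p hp q hq
    by_contra hcon
    exact hrp.2.2 m (hrq.1 hm) hcon i (h1 hi) hmA

theorem two_pow_le (hMM : MM 𝔠) : (2 : Cardinal.{0}) ^ (ℵ₁ : Cardinal.{0}) ≤ 𝔠 := by
  obtain ⟨A, hA, hAD⟩ := exists_ad
  choose S hS using exists_code hMM hA hAD
  have h1 : #(Set Om) ≤ #(Set ℕ) := by
    refine mk_le_of_injective (f := S) fun Y Z h => ?_
    ext i
    rw [hS Y i, hS Z i, h]
  rw [mk_set, mk_Om] at h1
  simpa using h1

/-- The cardinality of the forcing notion. -/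
theorem mk_Cond {DD : Set (Set Om)} {Y : Type} {good : Y → Om → Om → Prop}
    (hY : #Y ≤ (2 : Cardinal.{0}) ^ (ℵ₁ : Cardinal.{0})) :
    #(Cond DD Y good) ≤ (2 : Cardinal.{0}) ^ (ℵ₁ : Cardinal.{0}) := by
  have hinf : ℵ₀ ≤ (2 : Cardinal.{0}) ^ (ℵ₁ : Cardinal.{0}) :=
    (aleph0_le_aleph 1).trans (cantor _).le
  have h1 : #(Cond DD Y good) ≤ #(Om × (Om → Lab DD Y)) := by
    refine mk_le_of_injective (f := fun p : Cond DD Y good => (p.len, p.s)) fun p q h => ?_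
    cases p
    cases q
    simp only [Prod.mk.injEq] at h
    obtain ⟨rfl, rfl⟩ := h
    rfl
  have h2 : #(Lab DD Y) ≤ (2 : Cardinal.{0}) ^ (ℵ₁ : Cardinal.{0}) := by
    have h3 : #(Lab DD Y) = #Om + (#DD + #Y) := by
      simp [Lab]
    rw [h3]
    refine add_le_of_le hinf ?_ (add_le_of_le hinf ?_ hY)
    · rw [mk_Om]
      exact (cantor _).le
    · refine (mk_set_le DD).trans ?_
      rw [mk_set, mk_Om]
  have h4 : #(Om → Lab DD Y) ≤ (2 : Cardinal.{0}) ^ (ℵ₁ : Cardinal.{0}) := by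
    have h5 : #(Om → Lab DD Y) = #(Lab DD Y) ^ #Om := by simp
    rw [h5, mk_Om]
    refine (power_le_power_right h2).trans ?_
    rw [← power_mul, mul_eq_self (aleph0_le_aleph 1)]
  refine h1.trans ?_
  rw [mk_prod, lift_id, lift_id]
  exact mul_le_of_le hinf (by rw [mk_Om]; exact (cantor _).le) h4

end Pool.Agent.Y587.ZO
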