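import Mathlib
import Pool.Agent.Y587.ZOMS

/-!
# Countable sets which reflect
-/

set_option autoImplicit false

namespace Pool.Agent.Y587.ZO

open Cardinal Set

theorem HH_trans {θ : Cardinal.{0}} {x y : ZFSet.{0}} (hx : x ∈ HH θ) (hy : y ∈ x) : y ∈ HH θ := by
  obtain ⟨z, hz, hxz, hc⟩ := hx
  exact ⟨z, hz, hz y (hxz hy), hc⟩

theorem HH_sub {θ : Cardinal.{0}} {x y : ZFSet.{0}} (hx : x ∈ HH θ) (hy : y ⊆ x) : y ∈ HH θ := by
  obtain ⟨z, hz, hxz, hc⟩ := hx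
  exact ⟨z, hz, hy.trans hxz, hc⟩

theorem theta_unc {X : ZFSet.{0}} {θ : Cardinal.{0}} (hX : ¬ (X : Set ZFSet.{0}).Countable)
    (hXθ : CsZ X ∈ HH θ) : ℵ₀ < θ := by
  by_contra hcon
  obtain ⟨y, -, hy, hc⟩ := hXθ
  have h1 : y.card < ℵ₀ := hc.trans_le (not_lt.1 hcon)
  have h2 : #(y : Set ZFSet.{0}) < ℵ₀ := by
    have h4 : #(y : Set ZFSet.{0}) = Cardinal.lift.{1} y.card := ZFSet.cardinalMk_coe_sort
    rw [h4]
    exact lift_lt_aleph0.2 h1
  have h3 : (y : Set ZFSet.{0}).Finite := Cardinal.lt_aleph0_iff_set_finite.1 h2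
  refine hX ?_
  have h5 : (X : Set ZFSet.{0}).Finite := by
    refine Set.Finite.of_finite_image (f := fun x : ZFSet.{0} => ({x} : ZFSet.{0}))
      (h3.subset ?_) fun x _ x' _ h => ZFSet.singleton_injective h
    rintro _ ⟨x, hx, rfl⟩
    refine hy (mem_CsZ.2 ⟨?_, ?_⟩)
    · intro t ht
      have h6 : t = x := ZFSet.mem_singleton.1 ht
      exact h6 ▸ hx
    · have h7 : (({x} : ZFSet.{0}) : Set ZFSet.{0}) = {x} := by
        ext t
        exact ZFSet.mem_singleton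
      rw [h7]
      exact countable_singleton x
  exact h5.countable

theorem nz_HH {θ : Cardinal.{0}} (hθ : ℵ₀ < θ) (i : Om) : nz i ∈ HH θ := by
  refine ⟨nz i, (ZFSet.isOrdinal_toZFSet _).isTransitive, subset_rfl, ?_⟩
  have h1 : (nz i).card ≤ ℵ₀ := by
    rw [nz, nzg, Ordinal.card_toZFSet]
    have h2 : #(Iio i) ≤ ℵ₀ := by
      have := (iio_ctbl i).to_subtype
      exact mk_le_aleph0
    have h3 : (Ordinal.typein (α := Om) (· < ·) i).card = #(Iio i) := by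
      rw [Ordinal.card_typein]
      rfl
    rw [h3]
    exact h2
  exact h1.trans_lt hθ

theorem nz_mem_om1 (i : Om) : nz i ∈ om1 := nzg_mem _ i

theorem exists_nz {x : ZFSet.{0}} (hx : x ∈ om1) : ∃ i, nz i = x := exists_nzg hx

/-- The union of `b` and `X ∩ n`. -/
noncomputable def uz (X : ZFSet.{0}) (b : Finset ZFSet.{0}) (n : Om) : ZFSet.{0} :=
  X.sep fun x => x ∈ b ∨ x ∈ nz n

theorem mem_uz {X : ZFSet.{0}} {b : Finset ZFSet.{0}} {n : Om} {x : ZFSet.{0}} :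
    x ∈ uz X b n ↔ x ∈ X ∧ (x ∈ b ∨ x ∈ nz n) := by
  rw [uz, ZFSet.mem_sep]

theorem nz_ctbl (i : Om) : ((nz i : ZFSet.{0}) : Set ZFSet.{0}).Countable := by
  refine ((iio_ctbl i).image nz).mono ?_
  intro x hx
  obtain ⟨j, hj, rfl⟩ := mem_nzg.1 hx
  exact ⟨j, hj, rfl⟩

theorem uz_Cs (X : ZFSet.{0}) (b : Finset ZFSet.{0}) (n : Om) : uz X b n ∈ CsZ X := by
  refine mem_CsZ.2 ⟨fun x hx => (mem_uz.1 hx).1, ?_⟩
  refine ((b.countable_toSet).union (nz_ctbl n)).mono fun x hx => ?_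
  exact (mem_uz.1 hx).2

theorem engine {X : ZFSet.{0}} {θ : Cardinal.{0}} (hX : ¬ (X : Set ZFSet.{0}).Countable)
    (hXθ : CsZ X ∈ HH θ) {V : Type} {om : Om → V} (hom : Function.Injective om)
    {G0 : Finset (ZFSet.{0} ⊕ V) → Set (ZFSet.{0} ⊕ V)} (hG0 : ∀ B, (G0 B).Countable) (w0 : V)
    {R0 : Finset ZFSet.{0} → Set ZFSet.{0}} (hR0 : ∀ b, (R0 b).Countable)
    (hR0' : ∀ b : Finset ZFSet.{0}, (b : Set ZFSet.{0}) ⊆ HH θ → R0 b ⊆ HH θ) :
    ∃ C, IsClub (HH θ) C ∧ ∀ M ∈ C, M ⊆ HH θ ∧ Closed R0 M ∧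
      ∃ Ms : Set (ZFSet.{0} ⊕ V), (∀ x ∈ HH θ, Sum.inl x ∈ Ms ↔ x ∈ M) ∧ Closed G0 Ms ∧
        Sum.inr w0 ∈ Ms ∧ (∃ d, (∀ i, nz i ∈ M ↔ i < d) ∧ ∀ i, Sum.inr (om i) ∈ Ms ↔ i < d) ∧
        (∀ b : Finset ZFSet.{0}, (b : Set ZFSet.{0}) ⊆ M → ∀ i, Sum.inr (om i) ∈ Ms →
          uz X b i ∈ M) ∧
        (∀ p ∈ M, (p : Set ZFSet.{0}).Countable → (p : Set ZFSet.{0}) ⊆ M) ∧
        ∀ v, Sum.inr v ∈ Ms → ∃ E ∈ M, IsClubZ X E ∧ ∀ p ∈ E, p ∈ M → ∃ N ⊆ Ms, ∃ n,
          Closed G0 N ∧ Sum.inr v ∈ N ∧ (∀ i, Sum.inr (om i) ∈ N ↔ i < n) ∧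
          Sum.inr (om n) ∈ Ms ∧ (∀ i, Sum.inl (nz i) ∈ N ↔ i < n) ∧
          ∀ x ∈ X, Sum.inl x ∈ N ↔ x ∈ p := by
  classical
  have hθ : ℵ₀ < θ := theta_unc hX hXθ
  let U := ZFSet.{0} ⊕ V
  let G : Finset U → Set U := fun B => G0 B ∪
    ((⋃ i ∈ {i | Sum.inr (om i) ∈ B}, insert (Sum.inl (nz i)) ((fun j => Sum.inr (om j)) '' Iio i)) ∪
      (fun i => (Sum.inr (om i) : U)) '' {i | Sum.inl (nz i) ∈ B})
  have hinj1 : Function.Injective fun i => (Sum.inr (om i) : U) := fun i j h =>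
    hom (Sum.inr_injective h)
  have hinj2 : Function.Injective fun i : Om => (Sum.inl (nz i) : U) := fun i j h =>
    nzg_inj (Sum.inl_injective h)
  have hG : ∀ B, (G B).Countable := by
    intro B
    refine (hG0 B).union (Countable.union ?_ ?_)
    · refine Countable.biUnion (B.countable_toSet.preimage hinj1) fun i _ => ?_
      exact ((iio_ctbl i).image _).insert _
    · exact (B.countable_toSet.preimage hinj2).image _
  have hG0G : ∀ B, G0 B ⊆ G B := fun B => subset_union_left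
  have hGsing : ∀ {N : Set U}, Closed G N → ∀ u ∈ N, G {u} ⊆ N := fun hN u hu =>
    hN {u} (by rw [Finset.coe_singleton]; exact singleton_subset_iff.2 hu)
  have hGz : ∀ N, Closed G N → ∀ i, (Sum.inr (om i) : U) ∈ N → (Sum.inl (nz i) : U) ∈ N := by
    intro N hN i hi
    refine hGsing hN _ hi (Or.inr (Or.inl (mem_biUnion (x := i) ?_ (Or.inl rfl))))
    exact Finset.mem_singleton_self _
  have hGd : ∀ N, Closed G N → ∀ i, (Sum.inr (om i) : U) ∈ N → ∀ j < i,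
      (Sum.inr (om j) : U) ∈ N := by
    intro N hN i hi j hj
    refine hGsing hN _ hi (Or.inr (Or.inl (mem_biUnion (x := i) ?_ (Or.inr ⟨j, hj, rfl⟩))))
    exact Finset.mem_singleton_self _
  have hGo : ∀ N, Closed G N → ∀ i, (Sum.inl (nz i) : U) ∈ N → (Sum.inr (om i) : U) ∈ N := by
    intro N hN i hi
    refine hGsing hN _ hi (Or.inr (Or.inr ⟨i, ?_, rfl⟩))
    exact Finset.mem_singleton_self _
  let Ev : V → ZFSet.{0} := fun v => Ez X Sum.inl G {Sum.inr v}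
  let NN : ZFSet.{0} → V → Set U := fun p v => cl G (Sum.inl '' (p : Set ZFSet.{0}) ∪ {Sum.inr v})
  let F : Finset U → Set U := fun B => G B ∪ (Sum.inl '' R0 B.toLeft ∪
    ((fun v => Sum.inl (Ev v)) '' {v | Sum.inr v ∈ B} ∪
      ((⋃ p ∈ {p : ZFSet.{0} | Sum.inl p ∈ B}, ⋃ v ∈ {v | Sum.inr v ∈ B},
        {u : U | ∃ n, (∀ i, Sum.inr (om i) ∈ NN p v ↔ i < n) ∧ u = Sum.inr (om n)}) ∪
      ((⋃ p ∈ {p : ZFSet.{0} | Sum.inl p ∈ B}, {u : U | (p : Set ZFSet.{0}).Countable ∧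
        ∃ x ∈ p, u = Sum.inl x}) ∪
      (fun i => Sum.inl (uz X B.toLeft i)) '' {i | Sum.inr (om i) ∈ B}))))
  have hGF : ∀ B, G B ⊆ F B := fun B => subset_union_left
  have hF : ∀ B, (F B).Countable := by
    intro B
    have hl : {p : ZFSet.{0} | (Sum.inl p : U) ∈ B}.Countable :=
      B.countable_toSet.preimage Sum.inl_injective
    have hr : {v : V | (Sum.inr v : U) ∈ B}.Countable :=
      B.countable_toSet.preimage Sum.inr_injective
    refine (hG B).union (((hR0 _).image _).union ((hr.image _).union ((?_ : Set.Countable _).union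
      ((?_ : Set.Countable _).union ((B.countable_toSet.preimage hinj1).image _)))))
    · refine hl.biUnion fun p _ => hr.biUnion fun v _ => Set.Subsingleton.countable ?_
      rintro _ ⟨n, hn, rfl⟩ _ ⟨m, hm, rfl⟩
      have h1 : n = m := by
        refine le_antisymm (not_lt.1 fun h => ?_) (not_lt.1 fun h => ?_)
        · exact ((hm m).1 ((hn m).2 h)).false
        · exact ((hn n).1 ((hm n).2 h)).false
      rw [h1]
    · refine hl.biUnion fun p _ => ?_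
      by_cases hp : (p : Set ZFSet.{0}).Countable
      · refine (hp.image (Sum.inl : ZFSet.{0} → U)).mono ?_
        rintro _ ⟨-, x, hx, rfl⟩
        exact ⟨x, hx, rfl⟩
      · refine countable_empty.mono ?_
        rintro _ ⟨h, -⟩
        exact absurd h hp
  refine ⟨_, isClub_cl (HH θ) (z := (Sum.inl : ZFSet.{0} → U)) Sum.inl_injective hF
    (T := {Sum.inr w0}) (countable_singleton _), ?_⟩
  rintro M ⟨⟨hMH, hMc⟩, hM⟩
  set Ms := cl F (Sum.inl '' M ∪ {Sum.inr w0}) with hMs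
  have hcl : Closed F Ms := closed_cl
  have hclG : Closed G Ms := hcl.mono hGF
  have hMiff : ∀ x ∈ HH θ, (Sum.inl x : U) ∈ Ms ↔ x ∈ M := fun x hx =>
    ⟨fun h => hM x hx h, fun h => sub_cl (Or.inl ⟨x, h, rfl⟩)⟩
  have hMsc : Ms.Countable := cl_ctbl hF ((hMc.image _).union (countable_singleton _))
  have hp2 : ∀ p ∈ M, (p : Set ZFSet.{0}).Countable → (p : Set ZFSet.{0}) ⊆ M := by
    intro p hp hpc x hx
    refine (hMiff x (HH_trans (hMH hp) hx)).1 (hcl {Sum.inl p} ?_ ?_)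
    · rw [Finset.coe_singleton]
      exact singleton_subset_iff.2 ((hMiff p (hMH hp)).2 hp)
    · refine Or.inr (Or.inr (Or.inr (Or.inr (Or.inl (mem_biUnion (x := p) ?_ ⟨hpc, x, hx, rfl⟩)))))
      exact Finset.mem_singleton_self _
  obtain ⟨d, hd⟩ := exists_iio (S := {i | (Sum.inr (om i) : U) ∈ Ms}) (hMsc.preimage hinj1)
    fun i hi j hj => hGd Ms hclG i hi j hj
  have hd' : ∀ i, nz i ∈ M ↔ i < d := fun i => by
    rw [← hd i, ← hMiff _ (nz_HH hθ i)]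
    exact ⟨hGo Ms hclG i, hGz Ms hclG i⟩
  refine ⟨hMH, ?_, Ms, hMiff, hclG.mono hG0G, sub_cl (Or.inr rfl), ⟨d, hd', fun i => hd i⟩, ?_, hp2, ?_⟩
  · intro b hb x hx
    refine (hMiff x (hR0' b (hb.trans hMH) hx)).1 (hcl (b.disjSum ∅) ?_ ?_)
    · intro u hu
      rw [Finset.mem_coe, Finset.mem_disjSum] at hu
      rcases hu with ⟨y, hy, rfl⟩ | ⟨v, hv, rfl⟩
      · exact (hMiff y (hMH (hb hy))).2 (hb hy)
      · simp at hv
    · refine Or.inr (Or.inl ⟨x, ?_, rfl⟩)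
      rw [Finset.toLeft_disjSum]
      exact hx
  · intro b hb i hi
    refine (hMiff _ (HH_trans hXθ (uz_Cs X b i))).1 (hcl (b.disjSum {om i}) ?_ ?_)
    · intro u hu
      rw [Finset.mem_coe, Finset.mem_disjSum] at hu
      rcases hu with ⟨y, hy, rfl⟩ | ⟨v, hv, rfl⟩
      · exact (hMiff y (hMH (hb hy))).2 (hb hy)
      · rw [Finset.mem_singleton] at hv
        exact hv ▸ hi
    · refine Or.inr (Or.inr (Or.inr (Or.inr (Or.inr ⟨i, ?_, ?_⟩))))
      · show (Sum.inr (om i) : U) ∈ b.disjSum {om i}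
        simp
      · simp [Finset.toLeft_disjSum]
  · intro v hv
    have hE : Ev v ∈ HH θ := HH_sub hXθ fun p hp => (ZFSet.mem_sep.1 hp).1
    have hEM : Ev v ∈ M := by
      refine (hMiff _ hE).1 (hcl {Sum.inr v} ?_ ?_)
      · rw [Finset.coe_singleton]
        exact singleton_subset_iff.2 hv
      · exact Or.inr (Or.inr (Or.inl ⟨v, Finset.mem_singleton_self _, rfl⟩))
    refine ⟨Ev v, hEM, isClubZ_Ez X Sum.inl_injective hG (countable_singleton _),
      fun p hp hpM => ?_⟩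
    obtain ⟨hp1, hp3⟩ := ZFSet.mem_sep.1 hp
    have hpc := (mem_CsZ.1 hp1).2
    have hNM : NN p v ⊆ Ms := by
      refine cl_sub (union_subset ?_ (singleton_subset_iff.2 hv)) hclG
      rintro _ ⟨x, hx, rfl⟩
      have hxM := hp2 p hpM hpc hx
      exact (hMiff x (hMH hxM)).2 hxM
    have hNc : Closed G (NN p v) := closed_cl
    have hNctbl : (NN p v).Countable := cl_ctbl hG ((hpc.image _).union (countable_singleton _))
    obtain ⟨n, hn⟩ := exists_iio (S := {i | (Sum.inr (om i) : U) ∈ NN p v})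
      (hNctbl.preimage hinj1) fun i hi j hj => hGd _ hNc i hi j hj
    refine ⟨NN p v, hNM, n, hNc.mono hG0G, sub_cl (Or.inr rfl), fun i => hn i, ?_, fun i => ?_,
      fun x hx => ⟨hp3 x hx, fun h => sub_cl (Or.inl ⟨x, h, rfl⟩)⟩⟩
    · refine hcl {Sum.inl p, Sum.inr v} ?_ ?_
      · rw [Finset.coe_insert, Finset.coe_singleton]
        exact insert_subset ((hMiff p (hMH hpM)).2 hpM) (singleton_subset_iff.2 hv)
      · refine Or.inr (Or.inr (Or.inr (Or.inl (mem_biUnion (x := p) ?_ (mem_biUnion (x := v) ?_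
          ⟨n, fun i => hn i, rfl⟩)))))
        · show (Sum.inl p : U) ∈ ({Sum.inl p, Sum.inr v} : Finset U)
          simp
        · show (Sum.inr v : U) ∈ ({Sum.inl p, Sum.inr v} : Finset U)
          simp
    · rw [← hn i]
      exact ⟨hGo _ hNc i, hGz _ hNc i⟩

end Pool.Agent.Y587.ZO
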