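import Mathlib
import Pool.Agent.Y587.ZOEngine

/-!
# Elementary submodels and order types
-/

set_option autoImplicit false

namespace Pool.Agent.Y587.ZO

open Cardinal Set FirstOrder

instance : Countable LS.Symbols := by
  have h1 : Countable (Σ n, LS.Functions n) := by
    have : IsEmpty (Σ n, LS.Functions n) := ⟨fun ⟨_, f⟩ => f.elim⟩
    infer_instance
  have h2 : Countable (Σ n, LS.Relations n) := by
    have : Function.Surjective (fun _ : Unit => (⟨2, MemRel.mem⟩ : Σ n, MemRel n)) := by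
      rintro ⟨n, r⟩
      cases r
      exact ⟨(), rfl⟩
    exact this.countable
  exact inferInstanceAs (Countable ((Σ n, LS.Functions n) ⊕ (Σ n, LS.Relations n)))

/-- There is a rule such that all nonempty closed sets are elementary submodels. -/
theorem exists_skolem (θ : Cardinal.{0}) (hne : (HH θ).Nonempty) :
    ∃ R : Finset ZFSet.{0} → Set ZFSet.{0}, (∀ b, (R b).Countable) ∧
      (∀ b : Finset ZFSet.{0}, (b : Set ZFSet.{0}) ⊆ HH θ → R b ⊆ HH θ) ∧
      ∀ N ⊆ HH θ, Closed R N → ElemSub θ N := by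
  classical
  let := str θ
  obtain ⟨x0, hx0⟩ := hne
  have hsk : ∀ (p : Σ n, LS.BoundedFormula Empty (n + 1)) (v : Fin p.1 → HH θ), ∃ b : HH θ,
      (∃ a : HH θ, p.2.Realize default (Fin.snoc v a : _ → HH θ)) →
        p.2.Realize default (Fin.snoc v b : _ → HH θ) := by
    intro p v
    by_cases h : ∃ a : HH θ, p.2.Realize default (Fin.snoc v a : _ → HH θ)
    · obtain ⟨a, ha⟩ := h
      exact ⟨a, fun _ => ha⟩
    · exact ⟨⟨x0, hx0⟩, fun h' => absurd h' h⟩
  choose sk hsk using hsk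
  have hct : Countable (Σ n, LS.BoundedFormula Empty (n + 1)) := by
    have h1 : Countable (Σ n, LS.BoundedFormula Empty n) := inferInstance
    refine Function.Injective.countable
      (f := fun p : (Σ n, LS.BoundedFormula Empty (n + 1)) =>
        (⟨p.1 + 1, p.2⟩ : Σ n, LS.BoundedFormula Empty n)) ?_
    rintro ⟨n, φ⟩ ⟨m, ψ⟩ h
    simp only [Sigma.mk.injEq] at h
    obtain ⟨h1, h2⟩ := h
    have h3 : n = m := by omega
    subst h3
    simp only [heq_eq_eq] at h2
    rw [h2]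
  refine ⟨fun b => ⋃ p : (Σ n, LS.BoundedFormula Empty (n + 1)),
    range fun v : Fin p.1 → {x : HH θ // x.1 ∈ b} => (sk p fun i => (v i).1).1, fun b => ?_,
      fun b _ => ?_, fun N hN hc => ?_⟩
  · have : Countable {x : HH θ // x.1 ∈ b} := by
      have h1 : Countable b := inferInstance
      exact Function.Injective.countable (f := fun x : {x : HH θ // x.1 ∈ b} => (⟨x.1.1, x.2⟩ : b))
        fun x y h => by
          have h2 : x.1.1 = y.1.1 := by simpa using h
          exact Subtype.ext (Subtype.ext h2)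
    exact countable_iUnion fun p => countable_range _
  · refine iUnion_subset fun p => ?_
    rintro _ ⟨v, rfl⟩
    exact (sk p _).2
  · let S : LS.Substructure (HH θ) := ⟨{x | x.1 ∈ N}, fun f => f.elim⟩
    have htv : ∀ (n : ℕ) (φ : LS.BoundedFormula Empty (n + 1)) (x : Fin n → S) (a : HH θ),
        φ.Realize default (Fin.snoc ((↑) ∘ x) a : _ → HH θ) →
          ∃ b : S, φ.Realize default (Fin.snoc ((↑) ∘ x) b : _ → HH θ) := by
      intro n φ x a ha
      let b : Finset ZFSet.{0} := Finset.univ.image fun i => (x i).1.1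
      have hb : ∀ i, (x i).1.1 ∈ b := fun i => Finset.mem_image_of_mem _ (Finset.mem_univ i)
      have hbN : (b : Set ZFSet.{0}) ⊆ N := by
        intro y hy
        obtain ⟨i, -, rfl⟩ := Finset.mem_image.1 (Finset.mem_coe.1 hy)
        exact (x i).2
      have h1 : (sk ⟨n, φ⟩ fun i => (x i).1).1 ∈ N :=
        hc b hbN (mem_iUnion.2 ⟨⟨n, φ⟩, ⟨fun i => ⟨(x i).1, hb i⟩, rfl⟩⟩)
      exact ⟨⟨sk ⟨n, φ⟩ fun i => (x i).1, h1⟩, hsk ⟨n, φ⟩ _ ⟨a, ha⟩⟩
    refine ⟨⟨S, S.isElementary_of_exists htv⟩, ?_⟩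
    ext y
    constructor
    · intro hy
      exact ⟨⟨y, hN hy⟩, hy, rfl⟩
    · rintro ⟨x, hx, rfl⟩
      exact hx

/-- Countable sets without a last element have cofinal sequences. -/
theorem exists_ladder {α : Type*} [LinearOrder α] {S : Set α} (hS : S.Countable) (hne : S.Nonempty)
    (hmax : ∀ x ∈ S, ∃ y ∈ S, x < y) :
    ∃ L : ℕ → α, (∀ n, L n ∈ S) ∧ Monotone L ∧ ∀ x ∈ S, ∃ n, x < L n := by
  obtain ⟨x, hx⟩ := hS.exists_eq_range hne
  have hxS : ∀ n, x n ∈ S := fun n => hx ▸ mem_range_self n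
  choose! g hg hg' using hmax
  have hm : ∀ a ∈ S, ∀ n, max a (x n) ∈ S := fun a ha n => by
    rcases max_choice a (x n) with h | h
    · rwa [h]
    · rw [h]
      exact hxS n
  let L : ℕ → α := fun n => Nat.rec (x 0) (fun n a => g (max a (x n))) n
  have hL : ∀ n, L (n + 1) = g (max (L n) (x n)) := fun n => rfl
  have hLS : ∀ n, L n ∈ S := by
    intro n
    induction n with
    | zero => exact hxS 0
    | succ n ih => exact hL n ▸ hg _ (hm _ ih n)
  refine ⟨L, hLS, monotone_nat_of_le_succ fun n => ?_, fun y hy => ?_⟩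
  · rw [hL]
    exact ((le_max_left _ _).trans_lt (hg' _ (hm _ (hLS n) n))).le
  · rw [hx] at hy
    obtain ⟨n, rfl⟩ := hy
    refine ⟨n + 1, ?_⟩
    rw [hL]
    exact (le_max_right _ _).trans_lt (hg' _ (hm _ (hLS n) n))

/-- The order type of a set. -/
noncomputable def ot {α : Type} [LinearOrder α] [WellFoundedLT α] (S : Set α) : Ordinal.{0} :=
  Ordinal.type (Subrel (· < · : α → α → Prop) (· ∈ S))

section

variable {α : Type} [LinearOrder α] [WellFoundedLT α] {S T : Set α}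

theorem ot_mono (h : S ⊆ T) : ot S ≤ ot T := by
  refine RelEmbedding.ordinal_type_le (r := Subrel (· < · : α → α → Prop) (· ∈ S))
    (s := Subrel (· < · : α → α → Prop) (· ∈ T)) ⟨⟨fun x => ⟨x.1, h x.2⟩, fun x y hxy => ?_⟩, ?_⟩
  · have h1 : x.1 = y.1 := by simpa using hxy
    exact Subtype.ext h1
  · intro x y
    exact Iff.rfl

theorem ot_typein (x : α) (hx : x ∈ S) :
    ot {y | y ∈ S ∧ y < x} = Ordinal.typein (Subrel (· < · : α → α → Prop) (· ∈ S)) ⟨x, hx⟩ := by
  rw [← Ordinal.type_subrel, ot]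
  refine Ordinal.type_eq.2 ⟨⟨⟨fun y => ⟨⟨y.1, y.2.1⟩, y.2.2⟩, fun y => ⟨y.1.1, y.1.2, y.2⟩,
    fun y => rfl, fun y => rfl⟩, ?_⟩⟩
  intro y z
  exact Iff.rfl

theorem ot_lt {x : α} (hx : x ∈ S) : ot {y | y ∈ S ∧ y < x} < ot S := by
  rw [ot_typein x hx]
  exact Ordinal.typein_lt_type _ _

theorem ot_surj {o : Ordinal.{0}} (ho : o < ot S) : ∃ x ∈ S, ot {y | y ∈ S ∧ y < x} = o := by
  obtain ⟨⟨x, hx⟩, h⟩ := Ordinal.typein_surj _ ho
  exact ⟨x, hx, (ot_typein x hx).trans h⟩

end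

end Pool.Agent.Y587.ZO
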