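import Mathlib
import Pool.Agent.Y587.ZOSkolem

/-!
# The domain of the open set mappings
-/

set_option autoImplicit false

namespace Pool.Agent.Y587.ZO

open Cardinal Set FirstOrder

/-- `ω₂` as a set. -/
noncomputable abbrev om2 : ZFSet.{0} := (ℵ_ 2 : Cardinal.{0}).ord.toZFSet

/-- The type of the ordinals below `ω₂`. -/
abbrev O2 : Type := (ℵ_ 2 : Cardinal.{0}).ord.ToType

/-- The von Neumann ordinal of an ordinal below `ω₂`. -/
noncomputable abbrev nz2 (i : O2) : ZFSet.{0} := nzg (ℵ_ 2 : Cardinal.{0}).ord i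

instance : NoMaxOrder O2 := noMaxOrder (aleph0_le_aleph 2)

theorem aleph_one_lt_two : (ℵ₁ : Cardinal.{0}) < ℵ_ 2 := aleph_lt_aleph.2 (by norm_num)

theorem succ_aleph_one : Order.succ (ℵ₁ : Cardinal.{0}) = ℵ_ 2 := by
  rw [succ_aleph]
  congr 1
  norm_num

theorem regular_two : (ℵ_ 2 : Cardinal.{0}).IsRegular := by
  rw [← succ_aleph_one]
  exact isRegular_succ (aleph0_le_aleph 1)

theorem exists_emb (i : Om) : ∃ j : O2, nz2 j = nz i := by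
  refine exists_nzg ?_
  rw [nz, nzg, Ordinal.toZFSet_mem_toZFSet_iff]
  exact (Ordinal.typein_lt_self i).trans (ord_lt_ord.2 aleph_one_lt_two)

/-- The cardinal whose `H` we use. -/
noncomputable abbrev th : Cardinal.{0} := Order.succ (2 ^ (ℵ_ 2 : Cardinal.{0}))

theorem th_regular : th.IsRegular :=
  isRegular_succ ((aleph0_le_aleph 2).trans (cantor _).le)

theorem CsZ_om2 : CsZ om2 ∈ HH th := by
  refine ⟨CsZ om2 ∪ om2, ?_, fun x hx => ZFSet.mem_union.2 (Or.inl hx), ?_⟩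
  · intro x hx
    rcases ZFSet.mem_union.1 hx with h | h
    · exact fun y hy => ZFSet.mem_union.2 (Or.inr ((mem_CsZ.1 h).1 hy))
    · exact fun y hy => ZFSet.mem_union.2 (Or.inr
        ((ZFSet.isOrdinal_toZFSet _).isTransitive x h hy))
  · refine ZFSet.card_union_le.trans_lt (Order.lt_succ_iff.2 ?_)
    have h1 : om2.card = ℵ_ 2 := by
      rw [Ordinal.card_toZFSet, card_ord]
    refine add_le_of_le ((aleph0_le_aleph 2).trans (cantor _).le) ?_ ?_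
    · refine (ZFSet.card_mono (y := om2.powerset) fun x hx => ?_).trans ?_
      · exact (ZFSet.mem_sep.1 hx).1
      · rw [ZFSet.card_powerset, h1]
    · rw [h1]
      exact (cantor _).le

theorem nz2_HH (i : O2) : nz2 i ∈ HH th := by
  refine ⟨nz2 i, (ZFSet.isOrdinal_toZFSet _).isTransitive, subset_rfl, ?_⟩
  rw [nz2, nzg, Ordinal.card_toZFSet]
  have h1 : (Ordinal.typein (α := O2) (· < ·) i).card < ℵ_ 2 := lt_ord.1 (Ordinal.typein_lt_self i)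
  exact h1.trans ((cantor _).trans (Order.lt_succ _))

theorem om2_HH : om2 ∈ HH th := by
  refine ⟨om2, (ZFSet.isOrdinal_toZFSet _).isTransitive, subset_rfl, ?_⟩
  rw [Ordinal.card_toZFSet, card_ord]
  exact (cantor _).trans (Order.lt_succ _)

theorem om2_unc : ¬ (om2 : Set ZFSet.{0}).Countable := by
  intro h
  have h1 : #(om2 : Set ZFSet.{0}) ≤ ℵ₀ := by
    have := h.to_subtype
    exact mk_le_aleph0
  have h2 : #(om2 : Set ZFSet.{0}) = Cardinal.lift.{1} om2.card := ZFSet.cardinalMk_coe_sort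
  rw [h2, Ordinal.card_toZFSet, card_ord] at h1
  have h3 : (ℵ_ 2 : Cardinal.{0}) ≤ ℵ₀ := lift_le_aleph0.1 h1
  exact absurd (aleph0_lt_aleph_one.trans aleph_one_lt_two) (not_lt.2 h3)

theorem exists_surj : ∃ e : O2 → Om → O2, ∀ x, ∀ y < x, ∃ i, e x i = y := by
  have h1 : ∀ x : O2, ∃ e : Om → O2, ∀ y < x, ∃ i, e i = y := by
    intro x
    by_cases hx : (Iio x).Nonempty
    · have h2 : #(Iio x) < ℵ_ 2 := by simpa using mk_Iio_lt x
      have h2' : #(Iio x) ≤ #Om := by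
        rw [mk_Om]
        exact Order.lt_succ_iff.1 (h2.trans_eq succ_aleph_one.symm)
      obtain ⟨g⟩ := h2'
      have : Nonempty (Iio x) := hx.to_subtype
      have h3 := Function.invFun_surjective g.injective
      refine ⟨fun i => (Function.invFun g i).1, fun y hy => ?_⟩
      obtain ⟨i, hi⟩ := h3 ⟨y, hy⟩
      exact ⟨i, congrArg Subtype.val hi⟩
    · obtain ⟨a⟩ : Nonempty O2 := ⟨x⟩
      exact ⟨fun _ => a, fun y hy => absurd ⟨y, hy⟩ hx⟩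
  choose e he using h1
  exact ⟨e, he⟩

theorem single_Cs {X x : ZFSet.{0}} (hx : x ∈ X) : ({x} : Set ZFSet.{0}) ∈ Cs (X : Set ZFSet.{0}) :=
  ⟨singleton_subset_iff.2 hx, countable_singleton x⟩

theorem exists_beta (E : ZFSet.{0}) : ∃ (b : O2) (P : Om → ZFSet.{0}), IsClubZ om2 E →
    ∀ i, P i ∈ E ∧ nz i ∈ P i ∧ ∀ x, nz2 x ∈ P i → x < b := by
  classical
  obtain ⟨x0, -⟩ := exists_emb (Classical.arbitrary Om)
  by_cases hE : IsClubZ om2 E
  · have h1 : ∀ i : Om, ∃ p ∈ E, nz i ∈ p := by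
      intro i
      obtain ⟨j, hj⟩ := exists_emb i
      obtain ⟨_, ⟨p, hp, rfl⟩, hip⟩ := hE.unbdd _ (single_Cs (hj ▸ nzg_mem _ j : nz i ∈ om2))
      exact ⟨p, hp, hip rfl⟩
    choose P hP1 hP2 using h1
    have hc : ∀ i, {x : O2 | nz2 x ∈ P i}.Countable := fun i => by
      have h2 := (hE.sub ⟨P i, hP1 i, rfl⟩ : (P i : Set ZFSet.{0}) ∈ Cs _).2
      exact h2.preimage (f := nz2) fun x y h => nzg_inj h
    have h3 : #(⋃ i : Om, {x : O2 | nz2 x ∈ P i}) < ℵ_ 2 := by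
      refine mk_iUnion_le_sum_mk.trans_lt (sum_lt_of_isRegular regular_two ?_ fun i => ?_)
      · rw [mk_Om]
        exact aleph_one_lt_two
      · have := (hc i).to_subtype
        exact mk_le_aleph0.trans_lt (aleph0_lt_aleph_one.trans aleph_one_lt_two)
    obtain ⟨b, hb⟩ := bdd_of_lt regular_two h3
    exact ⟨b, P, fun _ i => ⟨hP1 i, hP2 i, fun x hx => hb x (mem_iUnion.2 ⟨i, hx⟩)⟩⟩
  · exact ⟨x0, fun _ => ∅, fun h => absurd h hE⟩

theorem exists_nu (E : ZFSet.{0}) : ∃ (v : Om) (x : O2 → O2) (Q : O2 → ZFSet.{0}),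
    IsClubZ om2 E → ∀ y, y ≤ x y ∧ nz2 (x y) ∈ Q y ∧ Q y ∈ E ∧ ∀ i, nz i ∈ Q y → i ≤ v := by
  classical
  by_cases hE : IsClubZ om2 E
  · have h1 : ∃ v : Om, ∀ y : O2, ∃ x, y ≤ x ∧ ∃ p ∈ E, nz2 x ∈ p ∧ ∀ i, nz i ∈ p → i ≤ v := by
      by_contra hcon
      push Not at hcon
      choose y hy using hcon
      have h2 : #(range y) < ℵ_ 2 := by
        refine mk_range_le.trans_lt ?_
        rw [mk_Om]
        exact aleph_one_lt_two
      obtain ⟨b, hb⟩ := bdd_of_lt regular_two h2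
      obtain ⟨_, ⟨p, hp, rfl⟩, hip⟩ := hE.unbdd _ (single_Cs (nzg_mem _ b : nz2 b ∈ om2))
      have hc : {i : Om | nz i ∈ p}.Countable := by
        have h2 := (hE.sub ⟨p, hp, rfl⟩ : (p : Set ZFSet.{0}) ∈ Cs _).2
        exact h2.preimage (f := nz) fun x y h => nzg_inj h
      obtain ⟨v, hv⟩ := bdd_ctbl hc
      obtain ⟨i, hi, hvi⟩ := hy v b (hb _ ⟨v, rfl⟩).le p hp (hip rfl)
      exact absurd (hv i hi) (not_lt.2 hvi.le)
    obtain ⟨v, hv⟩ := h1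
    choose x hx p hp1 hp2 hp3 using hv
    exact ⟨v, x, p, fun _ y => ⟨hx y, hp2 y, hp1 y, hp3 y⟩⟩
  · exact ⟨Classical.arbitrary Om, id, fun _ => ∅, fun h => absurd h hE⟩

/-- The part of `x` enumerated before `d`. -/
def AA (e : O2 → Om → O2) (d : Om) (x : O2) : Set O2 := {y | y < x ∧ ∃ i < d, e x i = y}

theorem exists_dom {e : O2 → Om → O2} (he : ∀ x, ∀ y < x, ∃ i, e x i = y) :
    ∃ D, IsClub (HH th) D ∧ (∀ M ∈ D, ElemSub th M ∧ om2 ∈ M) ∧ ∀ M ∈ D, M ⊆ HH th ∧ ∃ d : Om,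
      (∀ i, nz i ∈ M ↔ i < d) ∧ (∃ i, i < d) ∧ (∀ i < d, ∃ j < d, i < j) ∧
      (∃ x, nz2 x ∈ M) ∧ (∀ x, nz2 x ∈ M → ∃ y, nz2 y ∈ M ∧ x < y) ∧
      (∀ x, nz2 x ∈ M → AA e d x = {y | nz2 y ∈ M ∧ y < x}) ∧
      (∀ p ∈ M, (p : Set ZFSet.{0}).Countable → (p : Set ZFSet.{0}) ⊆ M) ∧
      ∀ E ∈ M, IsClubZ om2 E →
        (∃ b, nz2 b ∈ M ∧ ∀ i < d, ∃ p ∈ E, p ∈ M ∧ nz i ∈ p ∧ ∀ x, nz2 x ∈ p → x < b) ∧
        ∃ v < d, ∀ y, nz2 y ∈ M → ∃ x, y ≤ x ∧ nz2 x ∈ M ∧ ∃ p ∈ E, p ∈ M ∧ nz2 x ∈ p ∧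
          ∀ i, nz i ∈ p → i ≤ v := by
  classical
  choose β Pf hβ using exists_beta
  choose ν xf Qf hν using exists_nu
  choose sc hsc using fun i : Om => exists_gt i
  choose sc2 hsc2 using fun x : O2 => exists_gt x
  have hidx : ∀ x y : O2, ∃ i : Om, y < x → e x i = y := by
    intro x y
    by_cases h : y < x
    · obtain ⟨i, hi⟩ := he x y h
      exact ⟨i, fun _ => hi⟩
    · exact ⟨Classical.arbitrary Om, fun h' => absurd h' h⟩
  choose idx hidx using hidx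
  obtain ⟨R0, hR0, hR0', hR0e⟩ := exists_skolem th ⟨om2, om2_HH⟩
  let U := ZFSet.{0} ⊕ (Om ⊕ O2)
  let K : U → U → Set U := fun u v => match u, v with
    | .inl x, .inl _ => {Sum.inr (Sum.inr (β x)), Sum.inr (Sum.inl (ν x))} ∪
        (fun y => Sum.inr (Sum.inr y)) '' {y : O2 | nz2 y = x}
    | .inl x, .inr (.inl i) => {Sum.inl (Pf x i)}
    | .inl x, .inr (.inr y) => {Sum.inr (Sum.inr (xf x y)), Sum.inl (Qf x y)}
    | .inr (.inl i), _ => {Sum.inl om2, Sum.inr (Sum.inl (sc i))}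
    | .inr (.inr _), .inl _ => ∅
    | .inr (.inr x), .inr (.inl i) => {Sum.inr (Sum.inr (e x i))}
    | .inr (.inr x), .inr (.inr y) => {Sum.inl (nz2 x), Sum.inr (Sum.inr (sc2 x)),
        Sum.inr (Sum.inl (idx x y))}
  have hK : ∀ u v, (K u v).Countable := by
    rintro (x | (i | x)) (y | (j | y))
    · refine Countable.union (by simp) (Countable.image (Set.Subsingleton.countable ?_) _)
      intro y hy z hz
      exact nzg_inj (Eq.trans hy (Eq.symm hz))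
    all_goals simp [K]
  obtain ⟨D, hD, hDM⟩ := engine om2_unc CsZ_om2 (om := fun i => (Sum.inl i : Om ⊕ O2))
    Sum.inl_injective (Bin_ctbl hK) (Sum.inl (Classical.arbitrary Om)) hR0 hR0'
  have hmain : ∀ M ∈ D, om2 ∈ M ∧ M ⊆ HH th ∧ ∃ d : Om,
      (∀ i, nz i ∈ M ↔ i < d) ∧ (∃ i, i < d) ∧ (∀ i < d, ∃ j < d, i < j) ∧
      (∃ x, nz2 x ∈ M) ∧ (∀ x, nz2 x ∈ M → ∃ y, nz2 y ∈ M ∧ x < y) ∧
      (∀ x, nz2 x ∈ M → AA e d x = {y | nz2 y ∈ M ∧ y < x}) ∧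
      (∀ p ∈ M, (p : Set ZFSet.{0}).Countable → (p : Set ZFSet.{0}) ⊆ M) ∧
      ∀ E ∈ M, IsClubZ om2 E →
        (∃ b, nz2 b ∈ M ∧ ∀ i < d, ∃ p ∈ E, p ∈ M ∧ nz i ∈ p ∧ ∀ x, nz2 x ∈ p → x < b) ∧
        ∃ v < d, ∀ y, nz2 y ∈ M → ∃ x, y ≤ x ∧ nz2 x ∈ M ∧ ∃ p ∈ E, p ∈ M ∧ nz2 x ∈ p ∧
          ∀ i, nz i ∈ p → i ≤ v := by
    intro M hM
    obtain ⟨hMH, -, Ms, hMiff, hMs, hw0, ⟨d, hd, hd'⟩, -, hsub, -⟩ := hDM M hM
    have hz2 : ∀ x, nz2 x ∈ M ↔ (Sum.inr (Sum.inr x) : U) ∈ Ms := by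
      intro x
      rw [← hMiff _ (nz2_HH x)]
      constructor
      · intro h
        exact hMs.bin h h (show _ ∈ ({Sum.inr (Sum.inr (β (nz2 x))), Sum.inr (Sum.inl (ν (nz2 x)))} ∪
          (fun y => Sum.inr (Sum.inr y)) '' {y : O2 | nz2 y = nz2 x} : Set U) from
          Or.inr ⟨x, rfl, rfl⟩)
      · intro h
        exact hMs.bin h h (show _ ∈ ({Sum.inl (nz2 x), Sum.inr (Sum.inr (sc2 x)),
          Sum.inr (Sum.inl (idx x x))} : Set U) from Or.inl rfl)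
    have h0 : Classical.arbitrary Om < d := (hd' _).1 hw0
    refine ⟨?_, hMH, d, hd, ⟨_, h0⟩, fun i hi => ?_, ?_, fun x hx => ?_, fun x hx => ?_, hsub,
      fun E hE hEc => ⟨?_, ?_⟩⟩
    · exact (hMiff _ om2_HH).1 (hMs.bin hw0 hw0 (show _ ∈ ({Sum.inl om2,
        Sum.inr (Sum.inl (sc (Classical.arbitrary Om)))} : Set U) from Or.inl rfl))
    · have h1 := (hd' i).2 hi
      exact ⟨sc i, (hd' _).1 (hMs.bin h1 h1 (show _ ∈ ({Sum.inl om2,
        Sum.inr (Sum.inl (sc i))} : Set U) from Or.inr rfl)), hsc i⟩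
    · obtain ⟨x, hx⟩ := exists_emb (Classical.arbitrary Om)
      exact ⟨x, by rw [hx]; exact (hd _).2 h0⟩
    · have h1 := (hz2 x).1 hx
      exact ⟨sc2 x, (hz2 _).2 (hMs.bin h1 h1 (show _ ∈ ({Sum.inl (nz2 x),
        Sum.inr (Sum.inr (sc2 x)), Sum.inr (Sum.inl (idx x x))} : Set U) from
          Or.inr (Or.inl rfl))), hsc2 x⟩
    · ext y
      constructor
      · rintro ⟨hyx, i, hi, rfl⟩
        exact ⟨(hz2 _).2 (hMs.bin ((hz2 x).1 hx) ((hd' i).2 hi) (mem_singleton _)), hyx⟩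
      · rintro ⟨hyM, hyx⟩
        refine ⟨hyx, idx x y, ?_, hidx x y hyx⟩
        exact (hd' _).1 (hMs.bin ((hz2 x).1 hx) ((hz2 y).1 hyM) (show _ ∈ ({Sum.inl (nz2 x),
          Sum.inr (Sum.inr (sc2 x)), Sum.inr (Sum.inl (idx x y))} : Set U) from
            Or.inr (Or.inr rfl)))
    · have hE' := (hMiff E (hMH hE)).2 hE
      refine ⟨β E, (hz2 _).2 (hMs.bin hE' hE' (show _ ∈ ({Sum.inr (Sum.inr (β E)),
        Sum.inr (Sum.inl (ν E))} ∪ (fun y => Sum.inr (Sum.inr y)) '' {y : O2 | nz2 y = E} : Set U)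
          from Or.inl (Or.inl rfl))), fun i hi => ?_⟩
      obtain ⟨h1, h2, h3⟩ := hβ E hEc i
      refine ⟨Pf E i, h1, ?_, h2, h3⟩
      exact (hMiff _ (HH_trans (hMH hE) h1)).1 (hMs.bin hE' ((hd' i).2 hi) (mem_singleton _))
    · have hE' := (hMiff E (hMH hE)).2 hE
      refine ⟨ν E, (hd' _).1 (hMs.bin hE' hE' (show _ ∈ ({Sum.inr (Sum.inr (β E)),
        Sum.inr (Sum.inl (ν E))} ∪ (fun y => Sum.inr (Sum.inr y)) '' {y : O2 | nz2 y = E} : Set U)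
          from Or.inl (Or.inr rfl))), fun y hy => ?_⟩
      obtain ⟨h1, h2, h3, h4⟩ := hν E hEc y
      have hy' := (hz2 y).1 hy
      refine ⟨xf E y, h1, (hz2 _).2 (hMs.bin hE' hy' (show _ ∈ ({Sum.inr (Sum.inr (xf E y)),
        Sum.inl (Qf E y)} : Set U) from Or.inl rfl)), Qf E y, h3, ?_, h2, h4⟩
      exact (hMiff _ (HH_trans (hMH hE) h3)).1 (hMs.bin hE' hy' (show _ ∈
        ({Sum.inr (Sum.inr (xf E y)), Sum.inl (Qf E y)} : Set U) from Or.inr rfl))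
  exact ⟨D, hD, fun M hM => ⟨hR0e M (hDM M hM).1 (hDM M hM).2.1, (hmain M hM).1⟩,
    fun M hM => (hmain M hM).2⟩

end Pool.Agent.Y587.ZO
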