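import Mathlib
import Pool.Agent.Y587.ZODom

/-!
# The 0-1 law implies club bounding
-/

set_option autoImplicit false

namespace Pool.Agent.Y587.ZO

open Cardinal Set FirstOrder

/-- Each function from `ω₁` to `ω₁` is dominated on a club by a canonical function: for each `f`
there are a well-ordering `r` of `ω₁` and a club `C` such that for all `d` in `C` the ordinal `f(d)`
is less than the order type of the restriction of `r` to `d`. -/
def ClubBounding : Prop :=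
  ∀ f : Om → Om, ∃ (r : Om → Om → Prop) (_ : IsWellOrder Om r) (C : Set Om), Club1 C ∧
    ∀ d ∈ C, Ordinal.typein (α := Om) (· < ·) (f d) < Ordinal.type (Subrel r (· < d))

/-- The ordinals below `ω₂` in `M`. -/
def S2 (M : Set ZFSet.{0}) : Set O2 := {x | nz2 x ∈ M}

theorem ot_lt_of_lt {S : Set O2} {x y : O2} (hx : x ∈ S) (hxy : x < y) :
    ot {z | z ∈ S ∧ z < x} < ot {z | z ∈ S ∧ z < y} := by
  have h1 := ot_lt (S := {z | z ∈ S ∧ z < y}) (x := x) ⟨hx, hxy⟩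
  have h2 : {z | z ∈ {z | z ∈ S ∧ z < y} ∧ z < x} = {z | z ∈ S ∧ z < x} := by
    ext z
    exact ⟨fun h => ⟨h.1.1, h.2⟩, fun h => ⟨⟨h.1, h.2.trans hxy⟩, h.2⟩⟩
  rwa [h2] at h1

theorem stepA (h01 : ZeroOneLaw) {e : O2 → Om → O2}
    {D : Set (Set ZFSet.{0})} (hD : IsClub (HH th) D) (hDe : ∀ M ∈ D, ElemSub th M ∧ om2 ∈ M)
    (hDM : ∀ M ∈ D, M ⊆ HH th ∧ ∃ d : Om,
      (∀ i, nz i ∈ M ↔ i < d) ∧ (∃ i, i < d) ∧ (∀ i < d, ∃ j < d, i < j) ∧
      (∃ x, nz2 x ∈ M) ∧ (∀ x, nz2 x ∈ M → ∃ y, nz2 y ∈ M ∧ x < y) ∧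
      (∀ x, nz2 x ∈ M → AA e d x = {y | nz2 y ∈ M ∧ y < x}) ∧
      (∀ p ∈ M, (p : Set ZFSet.{0}).Countable → (p : Set ZFSet.{0}) ⊆ M) ∧
      ∀ E ∈ M, IsClubZ om2 E →
        (∃ b, nz2 b ∈ M ∧ ∀ i < d, ∃ p ∈ E, p ∈ M ∧ nz i ∈ p ∧ ∀ x, nz2 x ∈ p → x < b) ∧
        ∃ v < d, ∀ y, nz2 y ∈ M → ∃ x, y ≤ x ∧ nz2 x ∈ M ∧ ∃ p ∈ E, p ∈ M ∧ nz2 x ∈ p ∧
          ∀ i, nz i ∈ p → i ≤ v) (G : Om → Ordinal.{0}) :
    ∃ C ⊆ D, IsClub (HH th) C ∧ ∀ M ∈ C, ∀ d, (∀ i, nz i ∈ M ↔ i < d) → ot (S2 M) ≠ G d := by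
  classical
  have huniq : ∀ {M : Set ZFSet.{0}} {d d' : Om}, (∀ i, nz i ∈ M ↔ i < d) →
      (∀ i, nz i ∈ M ↔ i < d') → d = d' := by
    intro M d d' h h'
    refine le_antisymm (not_lt.1 fun hlt => ?_) (not_lt.1 fun hlt => ?_)
    · exact ((h' d').1 ((h d').2 hlt)).false
    · exact ((h d).1 ((h' d).2 hlt)).false
  have hL : ∀ d, ∃ L : ℕ → Ordinal.{0}, (∃ L : ℕ → Ordinal.{0}, (∀ n, L n < G d) ∧ Monotone L ∧
      ∀ x < G d, ∃ n, x < L n) → (∀ n, L n < G d) ∧ Monotone L ∧ ∀ x < G d, ∃ n, x < L n := by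
    intro d
    by_cases h : ∃ L : ℕ → Ordinal.{0}, (∀ n, L n < G d) ∧ Monotone L ∧ ∀ x < G d, ∃ n, x < L n
    · obtain ⟨L, hL⟩ := h
      exact ⟨L, fun _ => hL⟩
    · exact ⟨fun _ => 0, fun h' => absurd h' h⟩
  choose L hL using hL
  have hK : ∀ d : Om, ∃ K : ℕ → Om, (∃ K : ℕ → Om, (∀ n, K n ∈ Iio d) ∧ Monotone K ∧
      ∀ x ∈ Iio d, ∃ n, x < K n) → (∀ n, K n ∈ Iio d) ∧ Monotone K ∧ ∀ x ∈ Iio d, ∃ n, x < K n := by
    intro d
    by_cases h : ∃ K : ℕ → Om, (∀ n, K n ∈ Iio d) ∧ Monotone K ∧ ∀ x ∈ Iio d, ∃ n, x < K n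
    · obtain ⟨K, hK⟩ := h
      exact ⟨K, fun _ => hK⟩
    · exact ⟨fun _ => d, fun h' => absurd h' h⟩
  choose K hK using hK
  let nn : Om → O2 → ℕ := fun d x => sInf {n | ot (AA e d x) < L d n}
  let hh : Om → O2 → Om := fun d x => K d (nn d x)
  let S : Set ZFSet.{0} → Set (Set ZFSet.{0}) := fun M =>
    {P | P ∈ Cs (om2 : Set ZFSet.{0}) ∧ ∃ d, (∀ i, nz i ∈ M ↔ i < d) ∧ ∃ x, nz2 x ∈ P ∧
      ∀ i, nz i ∈ P → i ≤ hh d x}
  have hEE : ∀ {P Q : Set ZFSet.{0}}, EndExt P Q → ∀ i, nz i ∈ Q ↔ nz i ∈ P := by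
    intro P Q h i
    refine ⟨fun hi => ?_, fun hi => h.1 hi⟩
    have h1 : nz i ∈ Q ∩ (om1 : Set ZFSet.{0}) := ⟨hi, nz_mem_om1 i⟩
    rw [h.2] at h1
    exact h1.1
  obtain ⟨C, hCD, hC, hCM⟩ := h01 om2 th D S om2_unc th_regular CsZ_om2 hD hDe (by
    intro M hM
    refine ⟨fun P hP => hP.1, ?_⟩
    rintro P ⟨hPc, d, hd, x, hx, hP⟩
    refine ⟨{nz2 x}, P, finite_singleton _, hPc, singleton_subset_iff.2 hx, subset_rfl, ?_⟩
    intro Q hQ hxQ hQP
    exact ⟨hQ, d, hd, x, hxQ rfl, fun i hi => hP i (hQP hi)⟩) (by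
    rintro M hM P ⟨hPc, d, hd, x, hx, hP⟩ Q hQ hPQ
    exact ⟨hQ, d, hd, x, hPQ.1 hx, fun i hi => hP i ((hEE hPQ i).1 hi)⟩) (by
    intro M hM M' hM' hMM p hp
    constructor
    · rintro ⟨hPc, d, hd, h⟩
      exact ⟨hPc, d, fun i => (hEE hMM i).symm.trans (hd i), h⟩
    · rintro ⟨hPc, d, hd, h⟩
      exact ⟨hPc, d, fun i => (hEE hMM i).trans (hd i), h⟩)
  refine ⟨C, hCD, hC, fun M hM d hd hot => ?_⟩
  obtain ⟨hMH, d', hd', h0, hlim, hx0, hxmax, hAA, hsub, hEM⟩ := hDM M (hCD hM)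
  obtain rfl := huniq hd hd'
  have hS2 : (S2 M).Countable :=
    ((hD.sub (hCD hM)).2).preimage (f := nz2) fun x y h => nzg_inj h
  -- the ladders
  obtain ⟨hL1, hL2, hL3⟩ := hL d (by
    obtain ⟨x, hx1, hx2, hx3⟩ := exists_ladder hS2 hx0 hxmax
    refine ⟨fun n => ot {y | y ∈ S2 M ∧ y < x n}, fun n => ?_, fun n m hnm => ?_, fun o ho => ?_⟩
    · rw [← hot]
      exact ot_lt (hx1 n)
    · exact ot_mono fun y hy => ⟨hy.1, hy.2.trans_le (hx2 hnm)⟩
    · rw [← hot] at ho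
      obtain ⟨y, hy, rfl⟩ := ot_surj ho
      obtain ⟨n, hn⟩ := hx3 y hy
      exact ⟨n, ot_lt_of_lt hy hn⟩)
  obtain ⟨hK1, hK2, hK3⟩ := hK d (exists_ladder (iio_ctbl d) h0 fun i hi => by
    obtain ⟨j, hj, hij⟩ := hlim i hi
    exact ⟨j, hj, hij⟩)
  have hAA' : ∀ x, nz2 x ∈ M → ot (AA e d x) = ot {y | y ∈ S2 M ∧ y < x} := fun x hx => by
    rw [hAA x hx]
    rfl
  have hlt : ∀ x, nz2 x ∈ M → ot (AA e d x) < G d := fun x hx => by
    rw [hAA' x hx, ← hot]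
    exact ot_lt hx
  have hmono : ∀ x y, nz2 x ∈ M → nz2 y ∈ M → x ≤ y → hh d x ≤ hh d y := by
    intro x y hx hy hxy
    refine hK2 (Nat.sInf_le ?_)
    have h1 : {n | ot (AA e d y) < L d n}.Nonempty := hL3 _ (hlt y hy)
    have h2 : ot (AA e d y) < L d (nn d y) := Nat.sInf_mem h1
    show ot (AA e d x) < L d (nn d y)
    refine lt_of_le_of_lt ?_ h2
    rw [hAA' x hx, hAA' y hy]
    exact ot_mono fun z hz => ⟨hz.1, hz.2.trans_le hxy⟩
  obtain ⟨E, hE, hEc, hcase⟩ := hCM M hM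
  obtain ⟨⟨b, hb, hbp⟩, v, hv, hvp⟩ := hEM E hE hEc
  rcases hcase with h | h
  · obtain ⟨i, hid, hi⟩ := hlim (hh d b) (hK1 _)
    obtain ⟨p, hpE, hpM, hip, hpb⟩ := hbp i hid
    obtain ⟨hpC, d'', hd'', x, hxp, hx⟩ := h p hpE hpM
    obtain rfl := huniq hd hd''
    have hxM : nz2 x ∈ M := hsub p hpM hpC.2 hxp
    exact absurd ((hx i hip).trans (hmono x b hxM hb (hpb x hxp).le)) (not_le.2 hi)
  · obtain ⟨m, hm⟩ := hK3 v hv
    obtain ⟨y, hy, hyot⟩ := ot_surj (S := S2 M) (o := L d m) (by rw [hot]; exact hL1 m)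
    obtain ⟨x, hyx, hxM, p, hpE, hpM, hxp, hp⟩ := hvp y hy
    refine h p hpE hpM ⟨hEc.sub ⟨p, hpE, rfl⟩, d, hd, x, hxp, fun i hi => ?_⟩
    have h1 : m ≤ nn d y := by
      refine not_lt.1 fun hlt' => ?_
      have h2 : {n | ot (AA e d y) < L d n}.Nonempty := hL3 _ (hlt y hy)
      have h3 : ot (AA e d y) < L d (nn d y) := Nat.sInf_mem h2
      rw [hAA' y hy, hyot] at h3
      exact absurd (hL2 hlt'.le) (not_le.2 h3)
    exact (hp i hi).trans (hm.le.trans ((hK2 h1).trans (hmono y x hy hxM hyx)))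

theorem ot_ctbl {S : Set O2} (hS : S.Countable) : (Iio (ot S)).Countable := by
  refine (hS.image fun x => ot {y | y ∈ S ∧ y < x}).mono fun o ho => ?_
  obtain ⟨x, hx, h⟩ := ot_surj ho
  exact ⟨x, hx, h⟩

/-- The 0-1 law implies club bounding. -/
theorem clubBounding_of_zeroOne (h01 : ZeroOneLaw) : ClubBounding := by
  classical
  intro f
  obtain ⟨e, he⟩ := exists_surj
  obtain ⟨D, hD, hDe, hDM⟩ := exists_dom he
  have hG : ∀ d : Om, ∃ g : ℕ → Ordinal.{0}, Iic (Ordinal.typein (α := Om) (· < ·) (f d)) ⊆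
      range g := by
    intro d
    have h1 : (Iic (Ordinal.typein (α := Om) (· < ·) (f d))).Countable := by
      refine ((iio_ctbl (f d)).image fun i => Ordinal.typein (α := Om) (· < ·) i).insert
        (Ordinal.typein (α := Om) (· < ·) (f d)) |>.mono fun o ho => ?_
      rcases (mem_Iic.1 ho).eq_or_lt with h | h
      · exact Or.inl h
      · obtain ⟨i, hi⟩ := Ordinal.typein_surj (α := Om) (· < ·) (h.trans (Ordinal.typein_lt_type _ _))
        refine Or.inr ⟨i, ?_, hi⟩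
        rw [← hi] at h
        exact (Ordinal.typein_lt_typein (α := Om) (· < ·)).1 h
    obtain ⟨g, hg⟩ := h1.exists_eq_range ⟨_, mem_Iic.2 le_rfl⟩
    exact ⟨g, hg.le⟩
  choose g hg using hG
  choose CC hCCD hCC hCCM using fun n : ℕ => stepA h01 hD hDe hDM fun d => g d n
  choose R hR1 hR2 hR3 using fun n => exists_rule (hCC n)
  have hkey : ∀ M ⊆ HH th, M.Countable → (∀ n, Closed (R n) M) → ∀ d, (∀ i, nz i ∈ M ↔ i < d) →
      Ordinal.typein (α := Om) (· < ·) (f d) < ot (S2 M) := by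
    intro M hMH hMc hMR d hd
    by_contra hcon
    obtain ⟨n, hn⟩ := hg d (mem_Iic.2 (not_lt.1 hcon))
    exact hCCM n M (hR3 n M hMH hMc (hMR n)) d hd hn.symm
  -- the first closure
  let U := ZFSet.{0} ⊕ (Om ⊕ O2)
  let F1 : Finset U → Set U := fun B =>
    (⋃ i ∈ {i : Om | (Sum.inr (Sum.inl i) : U) ∈ B}, insert (Sum.inl (nz i))
      ((fun j => Sum.inr (Sum.inl j)) '' Iio i)) ∪
    ((fun i => (Sum.inr (Sum.inl i) : U)) '' {i : Om | (Sum.inl (nz i) : U) ∈ B} ∪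
    ((fun x => (Sum.inl (nz2 x) : U)) '' {x : O2 | (Sum.inr (Sum.inr x) : U) ∈ B} ∪
    ((fun x => (Sum.inr (Sum.inr x) : U)) '' {x : O2 | (Sum.inl (nz2 x) : U) ∈ B} ∪
      ⋃ n, Sum.inl '' R n B.toLeft)))
  have hi1 : Function.Injective fun i : Om => (Sum.inr (Sum.inl i) : U) := fun i j h =>
    Sum.inl_injective (Sum.inr_injective h)
  have hi2 : Function.Injective fun i : Om => (Sum.inl (nz i) : U) := fun i j h =>
    nzg_inj (Sum.inl_injective h)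
  have hi3 : Function.Injective fun i : O2 => (Sum.inr (Sum.inr i) : U) := fun i j h =>
    Sum.inr_injective (Sum.inr_injective h)
  have hi4 : Function.Injective fun i : O2 => (Sum.inl (nz2 i) : U) := fun i j h =>
    nzg_inj (Sum.inl_injective h)
  have hF1 : ∀ B, (F1 B).Countable := by
    intro B
    refine Countable.union ?_ (Countable.union ?_ (Countable.union ?_ (Countable.union ?_ ?_)))
    · exact Countable.biUnion (B.countable_toSet.preimage hi1) fun i _ =>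
        ((iio_ctbl i).image _).insert _
    · exact (B.countable_toSet.preimage hi2).image _
    · exact (B.countable_toSet.preimage hi3).image _
    · exact (B.countable_toSet.preimage hi4).image _
    · exact countable_iUnion fun n => (hR1 n _).image _
  have hsing : ∀ {N : Set U}, Closed F1 N → ∀ u ∈ N, F1 {u} ⊆ N := fun hN u hu =>
    hN {u} (by rw [Finset.coe_singleton]; exact singleton_subset_iff.2 hu)
  have hF1a : ∀ N : Set U, Closed F1 N → ∀ i, (Sum.inr (Sum.inl i) : U) ∈ N →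
      (Sum.inl (nz i) : U) ∈ N := fun N hN i hi =>
    hsing hN _ hi (Or.inl (mem_biUnion (x := i) (Finset.mem_singleton_self _) (Or.inl rfl)))
  have hF1b : ∀ N : Set U, Closed F1 N → ∀ i, (Sum.inr (Sum.inl i) : U) ∈ N → ∀ j < i,
      (Sum.inr (Sum.inl j) : U) ∈ N := fun N hN i hi j hj =>
    hsing hN _ hi (Or.inl (mem_biUnion (x := i) (Finset.mem_singleton_self _)
      (Or.inr ⟨j, hj, rfl⟩)))
  have hF1c : ∀ N : Set U, Closed F1 N → ∀ i, (Sum.inl (nz i) : U) ∈ N →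
      (Sum.inr (Sum.inl i) : U) ∈ N := fun N hN i hi =>
    hsing hN _ hi (Or.inr (Or.inl ⟨i, Finset.mem_singleton_self _, rfl⟩))
  have hF1d : ∀ N : Set U, Closed F1 N → ∀ i, (Sum.inr (Sum.inr i) : U) ∈ N →
      (Sum.inl (nz2 i) : U) ∈ N := fun N hN i hi =>
    hsing hN _ hi (Or.inr (Or.inr (Or.inl ⟨i, Finset.mem_singleton_self _, rfl⟩)))
  have hF1e : ∀ N : Set U, Closed F1 N → ∀ i, (Sum.inl (nz2 i) : U) ∈ N →
      (Sum.inr (Sum.inr i) : U) ∈ N := fun N hN i hi =>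
    hsing hN _ hi (Or.inr (Or.inr (Or.inr (Or.inl ⟨i, Finset.mem_singleton_self _, rfl⟩))))
  have hF1f : ∀ (N : Set U), Closed F1 N → ∀ n, Closed (R n) {x | x ∈ HH th ∧ (Sum.inl x : U) ∈ N} := by
    intro N hN n b hb x hx
    refine ⟨hR2 n b (fun y hy => (hb hy).1) hx, hN (b.disjSum ∅) ?_ ?_⟩
    · intro u hu
      rw [Finset.mem_coe, Finset.mem_disjSum] at hu
      rcases hu with ⟨y, hy, rfl⟩ | ⟨v, hv, rfl⟩
      · exact (hb hy).2
      · simp at hv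
    · refine Or.inr (Or.inr (Or.inr (Or.inr (mem_iUnion.2 ⟨n, x, ?_, rfl⟩))))
      rw [Finset.toLeft_disjSum]
      exact hx
  let om : Om → U := fun i => Sum.inr (Sum.inl i)
  let N := cl F1 (range om)
  have hN : N ⊆ ⋃ d : Om, cl F1 (om '' Iio d) := by
    have h1 : range om ⊆ ⋃ d : Om, om '' Iio d := by
      rintro _ ⟨i, rfl⟩
      obtain ⟨d, hd⟩ := exists_gt i
      exact mem_iUnion.2 ⟨d, i, hd, rfl⟩
    refine (cl_mono h1).trans (cl_iUnion ?_)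
    exact Monotone.directed_le (f := fun d : Om => om '' Iio d) fun a b hab =>
      image_mono (Iio_subset_Iio hab)
  let N2 : Set O2 := {x | (Sum.inr (Sum.inr x) : U) ∈ N}
  have hN2a : #N2 ≤ ℵ₁ := by
    have h1 : N2 ⊆ ⋃ d : Om, {x | (Sum.inr (Sum.inr x) : U) ∈ cl F1 (om '' Iio d)} := by
      intro x hx
      obtain ⟨d, hd⟩ := mem_iUnion.1 (hN hx)
      exact mem_iUnion.2 ⟨d, hd⟩
    refine (mk_le_mk_of_subset h1).trans ((mk_iUnion_le _).trans ?_)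
    refine mul_le_of_le (aleph0_le_aleph 1) (by rw [mk_Om]) (ciSup_le' fun d => ?_)
    have h2 : {x : O2 | (Sum.inr (Sum.inr x) : U) ∈ cl F1 (om '' Iio d)}.Countable :=
      (cl_ctbl hF1 ((iio_ctbl d).image _)).preimage hi3
    have := h2.to_subtype
    exact mk_le_aleph0.trans (aleph0_le_aleph 1)
  have hN2b : ℵ₁ ≤ #N2 := by
    choose j hj using exists_emb
    rw [← mk_Om]
    refine mk_le_of_injective (f := fun i => (⟨j i, ?_⟩ : N2)) fun i i' h => ?_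
    · refine hF1e N closed_cl (j i) ?_
      rw [hj i]
      exact hF1a N closed_cl i (sub_cl ⟨i, rfl⟩)
    · have h1 : j i = j i' := by simpa using h
      refine nzg_inj ((hj i).symm.trans (Eq.trans ?_ (hj i')))
      rw [h1]
  have heq : #Om = #N2 := by rw [mk_Om]; exact le_antisymm hN2b hN2a
  obtain ⟨q⟩ := Cardinal.eq.1 heq
  -- the second closure
  let F2 : Finset U → Set U := fun B => F1 B ∪
    ((fun i => (Sum.inr (Sum.inr (q i).1) : U)) '' {i : Om | (Sum.inr (Sum.inl i) : U) ∈ B} ∪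
    (fun x : N2 => (Sum.inr (Sum.inl (q.symm x)) : U)) '' {x : N2 | (Sum.inr (Sum.inr x.1) : U) ∈ B})
  have hF12 : ∀ B, F1 B ⊆ F2 B := fun B => subset_union_left
  have hF2 : ∀ B, (F2 B).Countable := fun B => (hF1 B).union (Countable.union
    ((B.countable_toSet.preimage hi1).image _)
    ((B.countable_toSet.preimage (f := fun x : N2 => (Sum.inr (Sum.inr x.1) : U))
      fun x y h => Subtype.ext (hi3 h)).image _))
  have hNF2 : Closed F2 N := by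
    intro B hB u hu
    rcases hu with hu | ⟨i, -, rfl⟩ | ⟨x, -, rfl⟩
    · exact closed_cl B hB hu
    · exact (q i).2
    · exact sub_cl ⟨_, rfl⟩
  have hr : IsWellOrder Om fun i j => (q i).1 < (q j).1 := by
    have h1 : Function.Injective fun i => (q i).1 := fun i j h => q.injective (Subtype.ext h)
    exact (RelEmbedding.preimage ⟨fun i => (q i).1, h1⟩ (· < ·)).isWellOrder
  refine ⟨fun i j => (q i).1 < (q j).1, hr, _, club1_cl (om := om) hi1 hF2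
    (fun M hM i hi j hj => hF1b M (hM.mono hF12) i hi j hj) (T := ∅) countable_empty, ?_⟩
  rintro d ⟨-, hd⟩
  set M2 := cl F2 (∅ ∪ om '' Iio d) with hM2
  have hM2c : Closed F2 M2 := closed_cl
  have hM2c1 : Closed F1 M2 := hM2c.mono hF12
  have hM2N : M2 ⊆ N := cl_sub (by
    rw [empty_union]
    exact (image_subset_range _ _).trans sub_cl) hNF2
  have hdM : ∀ i, nz i ∈ {x | x ∈ HH th ∧ (Sum.inl x : U) ∈ M2} ↔ i < d := by
    intro i
    rw [← hd i]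
    constructor
    · rintro ⟨-, h⟩
      exact hF1c M2 hM2c1 i h
    · intro h
      refine ⟨nz_HH (theta_unc om2_unc CsZ_om2) i, hF1a M2 hM2c1 i h⟩
  have hct : M2.Countable := cl_ctbl hF2 (by
    rw [empty_union]
    exact (iio_ctbl d).image _)
  have h1 := hkey {x | x ∈ HH th ∧ (Sum.inl x : U) ∈ M2} (fun x hx => hx.1)
    ((hct.preimage (Sum.inl_injective (β := Om ⊕ O2))).mono fun x hx => hx.2)
    (hF1f M2 hM2c1) d hdM
  refine h1.trans_le (le_of_eq ?_)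
  have hmem : ∀ x : O2, x ∈ S2 {x | x ∈ HH th ∧ (Sum.inl x : U) ∈ M2} ↔
      ∃ i < d, (q i).1 = x := by
    intro x
    constructor
    · rintro ⟨-, hx⟩
      have hx2 := hF1e M2 hM2c1 x hx
      have hxN : x ∈ N2 := hM2N hx2
      refine ⟨q.symm ⟨x, hxN⟩, ?_, by simp⟩
      refine (hd _).1 (hM2c {Sum.inr (Sum.inr x)} ?_ (Or.inr (Or.inr ⟨⟨x, hxN⟩, ?_, rfl⟩)))
      · rw [Finset.coe_singleton]
        exact singleton_subset_iff.2 hx2
      · exact Finset.mem_singleton_self _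
    · rintro ⟨i, hi, rfl⟩
      refine ⟨nz2_HH _, hF1d M2 hM2c1 _ (hM2c {Sum.inr (Sum.inl i)} ?_ (Or.inr (Or.inl ⟨i, ?_, rfl⟩)))⟩
      · rw [Finset.coe_singleton]
        exact singleton_subset_iff.2 ((hd i).2 hi)
      · exact Finset.mem_singleton_self _
  refine Ordinal.type_eq.2 ⟨RelIso.symm ⟨Equiv.ofBijective
    (fun i : {i // i < d} => (⟨(q i.1).1, (hmem _).2 ⟨i.1, i.2, rfl⟩⟩ :
      {x // x ∈ S2 {x | x ∈ HH th ∧ (Sum.inl x : U) ∈ M2}})) ⟨fun i j h => ?_, fun x => ?_⟩, ?_⟩⟩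
  · have h2 : (q i.1).1 = (q j.1).1 := by simpa using h
    exact Subtype.ext (q.injective (Subtype.ext h2))
  · obtain ⟨i, hi, hx⟩ := (hmem x.1).1 x.2
    exact ⟨⟨i, hi⟩, Subtype.ext hx⟩
  · intro i j
    exact Iff.rfl

end Pool.Agent.Y587.ZO
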