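import Mathlib
import Pool.Agent.Y587.ZOEngine

/-!
# `MM(𝔠)` implies the 0-1 law
-/

set_option autoImplicit false

namespace Pool.Agent.Y587.ZO

open Cardinal Set

section

variable {X : ZFSet.{0}} {θ : Cardinal.{0}} {D : Set (Set ZFSet.{0})}
  {S : Set ZFSet.{0} → Set (Set ZFSet.{0})}

variable (X D S) in
/-- The sets for which the conclusion of the law fails. -/
def Bad (M : Set ZFSet.{0}) : Prop :=
  M ∈ D ∧ ∀ E ∈ M, IsClubZ X E → (∃ p ∈ E, p ∈ M ∧ (p : Set ZFSet.{0}) ∉ S M) ∧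
    ∃ p ∈ E, p ∈ M ∧ (p : Set ZFSet.{0}) ∈ S M

/-- The closure of `d` and `p`. -/
def hull (R0 : Finset ZFSet.{0} → Set ZFSet.{0}) (d : Om) (p : ZFSet.{0}) : Set ZFSet.{0} :=
  cl R0 (insert p (nz '' Iio d))

variable (S) in
/-- Membership of `p` in the value of the mapping. -/
def TT (R0 : Finset ZFSet.{0} → Set ZFSet.{0}) (d : Om) (p : ZFSet.{0}) : Prop :=
  (p : Set ZFSet.{0}) ∈ S (hull R0 d p)

variable (X S) in
/-- The profile of a finite set. -/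
def prof (R0 : Finset ZFSet.{0} → Set ZFSet.{0}) (b : Finset ZFSet.{0}) (d n : Om) : Prop :=
  ∀ m ≤ n, (∀ i, nz i ∈ b → i < m) → TT S R0 d (uz X b m)

theorem TT_iff (hθ : ℵ₀ < θ) {R0 : Finset ZFSet.{0} → Set ZFSet.{0}} (hR0 : ∀ b, (R0 b).Countable)
    (hR0' : ∀ b : Finset ZFSet.{0}, (b : Set ZFSet.{0}) ⊆ HH θ → R0 b ⊆ HH θ)
    (hR0D : ∀ N ⊆ HH θ, N.Countable → Closed R0 N → N ∈ D)
    (h2 : ∀ M ∈ D, ∀ M' ∈ D, EndExt M M' → ∀ p ∈ M,
      ((p : Set ZFSet.{0}) ∈ S M' ↔ (p : Set ZFSet.{0}) ∈ S M))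
    {M : Set ZFSet.{0}} (hM : M ∈ D) (hMH : M ⊆ HH θ) (hMc : Closed R0 M) {d : Om}
    (hd : ∀ i, nz i ∈ M ↔ i < d) {p : ZFSet.{0}} (hp : p ∈ M) :
    TT S R0 d p ↔ (p : Set ZFSet.{0}) ∈ S M := by
  have h3 : hull R0 d p ⊆ M := by
    refine cl_sub (insert_subset hp ?_) hMc
    rintro _ ⟨i, hi, rfl⟩
    exact (hd i).2 hi
  have h4 : hull R0 d p ∈ D := by
    refine hR0D _ (h3.trans hMH) (cl_ctbl hR0 (((iio_ctbl d).image _).insert _)) closed_cl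
  have h5 : EndExt (hull R0 d p) M := by
    refine ⟨h3, Subset.antisymm ?_ (inter_subset_inter_left _ h3)⟩
    rintro x ⟨hx, hx1⟩
    refine ⟨?_, hx1⟩
    obtain ⟨i, rfl⟩ := exists_nz hx1
    exact sub_cl (Or.inr ⟨i, (hd i).1 hx, rfl⟩)
  exact (h2 _ h4 M hM h5 p (sub_cl (Or.inl rfl))).symm

theorem upper_aux (hMM : MM 𝔠) (hX : ¬ (X : Set ZFSet.{0}).Countable) (hXθ : CsZ X ∈ HH θ)
    (hD : IsClub (HH θ) D) (hopen : ∀ M ∈ D, OpenIn X (S M))
    (h1 : ∀ M ∈ D, ∀ P ∈ S M, ∀ Q ∈ Cs (X : Set ZFSet.{0}), EndExt P Q → Q ∈ S M)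
    (h2 : ∀ M ∈ D, ∀ M' ∈ D, EndExt M M' → ∀ p ∈ M,
      ((p : Set ZFSet.{0}) ∈ S M' ↔ (p : Set ZFSet.{0}) ∈ S M))
    (hbad : ∀ C, IsClub (HH θ) C → ∃ M ∈ C, Bad X D S M) : False := by
  classical
  have hθ : ℵ₀ < θ := theta_unc hX hXθ
  obtain ⟨R0, hR0, hR0', hR0D⟩ := exists_rule hD
  let Y : Type := {r : Om → Om → Prop // ∃ b : Finset ZFSet.{0}, (∀ x ∈ b, x ∈ X) ∧
    prof X S R0 b = r}
  let good : Y → Om → Om → Prop := fun r d n => r.1 d n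
  have hmono : ∀ (r : Y) (d x x' : Om), x' ≤ x → good r d x → good r d x' := by
    rintro ⟨_, b, hb, rfl⟩ d x x' hx h m hm
    exact h m (hm.trans hx)
  have hrep : ∀ r : Y, ∃ b : Finset ZFSet.{0}, (∀ x ∈ b, x ∈ X) ∧ prof X S R0 b = r.1 :=
    fun r => r.2
  choose rep hrep1 hrep2 using hrep
  let DD : Set (Set Om) := {T | ∃ C, IsClub (HH θ) C ∧ ∀ M ∈ C, Bad X D S M →
    ∀ d, (∀ i, nz i ∈ M ↔ i < d) → d ∉ T}
  have hrefl : ∀ T : Set Om, Stat T → (∀ A ∈ DD, ¬ Stat (T ∩ A)) → Refl good T := by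
    intro T hT hTD W R hR w0
    have hTDD : T ∉ DD := fun h => hTD T h (by rwa [inter_self])
    let U := ZFSet.{0} ⊕ (W ⊕ (Y ⊕ Om))
    let G0 : Finset U → Set U := fun B => Sum.inr '' R B.toRight ∪
      {u | ∃ h : ∀ x ∈ B.toLeft, x ∈ X, u = Sum.inr (Sum.inr (Sum.inl
        ⟨prof X S R0 B.toLeft, B.toLeft, h, rfl⟩))}
    have hG0 : ∀ B, (G0 B).Countable := fun B => ((hR _).image _).union (by
      refine Set.Subsingleton.countable ?_
      rintro _ ⟨h, rfl⟩ _ ⟨h', rfl⟩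
      rfl)
    obtain ⟨C, hC, hCM⟩ := engine hX hXθ (om := fun i => (Sum.inr (Sum.inr i) : W ⊕ (Y ⊕ Om)))
      (fun i j h => Sum.inr_injective (Sum.inr_injective h)) hG0 (Sum.inl w0) hR0 hR0'
    have h3 : ∃ M ∈ C, Bad X D S M ∧ ∃ d, (∀ i, nz i ∈ M ↔ i < d) ∧ d ∈ T := by
      by_contra hcon
      exact hTDD ⟨C, hC, fun M hM hb d hd hdT => hcon ⟨M, hM, hb, d, hd, hdT⟩⟩
    obtain ⟨M, hMC, ⟨hMD, hMbad⟩, d, hd, hdT⟩ := h3
    obtain ⟨hMH, hMR, Ms, hMiff, hMsG, hw0, ⟨d', hd', hd''⟩, huz, hsub, hE⟩ := hCM M hMC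
    have hdd : d' = d := by
      refine le_antisymm (not_lt.1 fun h => ?_) (not_lt.1 fun h => ?_)
      · exact ((hd d).1 ((hd' d).2 h)).false
      · exact ((hd' d').1 ((hd d').2 h)).false
    subst hdd
    have hout : ∀ N : Set U, Closed G0 N → Closed R {v | Sum.inr v ∈ N} := by
      intro N hN A hA v hv
      refine hN ((∅ : Finset ZFSet.{0}).disjSum A) ?_ ?_
      · intro u hu
        rw [Finset.mem_coe, Finset.mem_disjSum] at hu
        rcases hu with ⟨y, hy, rfl⟩ | ⟨v, hv, rfl⟩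
        · simp at hy
        · exact hA hv
      · refine Or.inl ⟨v, ?_, rfl⟩
        rwa [Finset.toRight_disjSum]
    refine ⟨d', hdT, {v | Sum.inr v ∈ Ms}, hout Ms hMsG, hw0, fun i => hd'' i, fun w hw => ?_⟩
    obtain ⟨E, hEM, hEc, hEp⟩ := hE (Sum.inl w) hw
    obtain ⟨-, p, hpE, hpM, hpS⟩ := hMbad E hEM hEc
    obtain ⟨N, hNM, n, hNG, hwN, hNn, hnM, hNz, hNX⟩ := hEp p hpE hpM
    have hnd : n < d' := (hd'' n).1 hnM
    obtain ⟨a, N1, ha, hN1, hap, hpN1, hQ⟩ := (hopen M hMD).2 _ hpS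
    have hpX : (p : Set ZFSet.{0}) ⊆ X := ((hopen M hMD).1 hpS).1
    have hpM' : (p : Set ZFSet.{0}) ⊆ M := hsub p hpM ((hopen M hMD).1 hpS).2
    have haX : ∀ x ∈ ha.toFinset, x ∈ X := fun x hx => hpX (hap (ha.mem_toFinset.1 hx))
    refine ⟨{v | Sum.inr v ∈ N}, fun v hv => hNM hv, hout N hNG, hwN, n, hnd,
      fun i hi => (hNn i).1 hi, ⟨prof X S R0 ha.toFinset, ha.toFinset, haX, rfl⟩, ?_, ?_⟩
    · refine hNG (ha.toFinset.disjSum ∅) ?_ ?_
      · intro u hu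
        rw [Finset.mem_coe, Finset.mem_disjSum] at hu
        rcases hu with ⟨y, hy, rfl⟩ | ⟨v, hv, rfl⟩
        · have hy' := hap (ha.mem_toFinset.1 hy)
          exact (hNX y (hpX hy')).2 hy'
        · simp at hv
      · refine Or.inr ⟨?_, ?_⟩
        · rw [Finset.toLeft_disjSum]
          exact haX
        · simp only [Finset.toLeft_disjSum]
    · intro m hm hbm
      have hmM : (Sum.inr (Sum.inr (Sum.inr m)) : U) ∈ Ms := (hd'' m).2 (hm.trans_lt hnd)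
      have haM : (ha.toFinset : Set ZFSet.{0}) ⊆ M := fun x hx =>
        hpM' (hap (ha.mem_toFinset.1 hx))
      have hqM := huz ha.toFinset haM m hmM
      rw [TT_iff hθ hR0 hR0' hR0D h2 hMD hMH hMR hd hqM]
      have hqp : ((uz X ha.toFinset m : ZFSet.{0}) : Set ZFSet.{0}) ⊆ p := by
        intro x hx
        obtain ⟨hxX, hx⟩ := mem_uz.1 hx
        rcases hx with hx | hx
        · exact hap (ha.mem_toFinset.1 hx)
        · obtain ⟨j, hj, rfl⟩ := mem_nzg.1 hx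
          exact (hNX _ hxX).1 ((hNz j).2 (lt_of_lt_of_le hj hm))
      exact hQ _ (mem_CsZ.1 (uz_Cs X _ m)) (fun x hx => mem_uz.2 ⟨haX x (ha.mem_toFinset.2 hx),
        Or.inl (ha.mem_toFinset.2 hx)⟩) (hqp.trans hpN1)
  have hY : #Y ≤ (2 : Cardinal.{0}) ^ (ℵ₁ : Cardinal.{0}) := by
    refine (mk_subtype_le _).trans ?_
    have h3 : #(Om → Om → Prop) = 2 ^ (ℵ₁ : Cardinal.{0}) := by
      have h4 : #(Om → Om → Prop) = (2 ^ #Om) ^ #Om := by simp
      rw [h4, ← power_mul, mk_Om, mul_eq_self (aleph0_le_aleph 1)]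
    rw [h3]
  obtain ⟨s, hs, hsi⟩ := exists_generic hMM ((mk_Cond (DD := DD) (good := good) hY).trans
    (two_pow_le hMM)) (ssp hmono hrefl)
  choose idx hidx using hsi
  have hDD : ∀ A : DD, ∃ C, IsClub (HH θ) C ∧ ∀ M ∈ C, Bad X D S M →
    ∀ d, (∀ i, nz i ∈ M ↔ i < d) → d ∉ A.1 := fun A => A.2
  choose CD hCD1 hCD2 using hDD
  choose RD hRD1 hRD2 hRD3 using fun A => exists_rule (hCD1 A)
  -- the final closure
  let V := Lab DD Y
  let U := ZFSet.{0} ⊕ V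
  let G0 : Finset U → Set U := fun B =>
    (fun e => Sum.inr (s e)) '' {e | (Sum.inr (Sum.inl e) : U) ∈ B} ∪
      ((fun i => Sum.inr (Sum.inl (idx i))) '' {i | (Sum.inr (Sum.inl i) : U) ∈ B} ∪
        ((⋃ r ∈ {r : Y | (Sum.inr (Sum.inr (Sum.inr r)) : U) ∈ B}, Sum.inl '' (rep r : Set ZFSet.{0})) ∪
          ⋃ A ∈ {A : DD | (Sum.inr (Sum.inr (Sum.inl A)) : U) ∈ B}, Sum.inl '' (RD A B.toLeft)))
  have hinj : Function.Injective fun i : Om => (Sum.inr (Sum.inl i) : U) := fun i j h =>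
    Sum.inl_injective (Sum.inr_injective h)
  have hG0 : ∀ B, (G0 B).Countable := by
    intro B
    refine Countable.union ?_ (Countable.union ?_ (Countable.union ?_ ?_))
    · exact (B.countable_toSet.preimage hinj).image _
    · exact (B.countable_toSet.preimage hinj).image _
    · exact Countable.biUnion (B.countable_toSet.preimage
        (f := fun r : Y => (Sum.inr (Sum.inr (Sum.inr r)) : U)) fun r r' h =>
          Sum.inr_injective (Sum.inr_injective (Sum.inr_injective h)))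
        fun r _ => (rep r).countable_toSet.image _
    · exact Countable.biUnion (B.countable_toSet.preimage
        (f := fun A : DD => (Sum.inr (Sum.inr (Sum.inl A)) : U)) fun r r' h =>
          Sum.inl_injective (Sum.inr_injective (Sum.inr_injective h)))
        fun A _ => (hRD1 A _).image _
  have hsing : ∀ {N : Set U}, Closed G0 N → ∀ u ∈ N, G0 {u} ⊆ N := fun hN u hu =>
    hN {u} (by rw [Finset.coe_singleton]; exact singleton_subset_iff.2 hu)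
  have hGs : ∀ N : Set U, Closed G0 N → ∀ e, (Sum.inr (Sum.inl e) : U) ∈ N →
      (Sum.inr (s e) : U) ∈ N := fun N hN e he =>
    hsing hN _ he (Or.inl ⟨e, Finset.mem_singleton_self _, rfl⟩)
  have hGi : ∀ N : Set U, Closed G0 N → ∀ i, (Sum.inr (Sum.inl i) : U) ∈ N →
      (Sum.inr (Sum.inl (idx i)) : U) ∈ N := fun N hN e he =>
    hsing hN _ he (Or.inr (Or.inl ⟨e, Finset.mem_singleton_self _, rfl⟩))
  have hGr : ∀ N : Set U, Closed G0 N → ∀ r : Y, (Sum.inr (Sum.inr (Sum.inr r)) : U) ∈ N →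
      ∀ x ∈ rep r, (Sum.inl x : U) ∈ N := fun N hN r hr x hx =>
    hsing hN _ hr (Or.inr (Or.inr (Or.inl (mem_biUnion (x := r) (Finset.mem_singleton_self _)
      ⟨x, hx, rfl⟩))))
  have hcls : ∀ (N : Set U) (n : Om), Closed G0 N → (∀ i, (Sum.inr (Sum.inl i) : U) ∈ N ↔ i < n) →
      ClosedAt s n := by
    intro N n hN hn i
    constructor
    · rintro ⟨e, he, h⟩
      have h3 := hGs N hN e ((hn e).2 he)
      rw [h] at h3
      exact (hn i).1 h3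
    · intro hi
      exact ⟨idx i, (hn _).1 (hGi N hN i ((hn i).2 hi)), hidx i⟩
  obtain ⟨o⟩ : Nonempty Om := inferInstance
  obtain ⟨C, hC, hCM⟩ := engine hX hXθ (om := fun i => (Sum.inl i : V))
      Sum.inl_injective hG0 (Sum.inl o) hR0 hR0'
  obtain ⟨M, hMC, hMB⟩ := hbad C hC
  obtain ⟨hMD, hMbad⟩ := id hMB
  obtain ⟨hMH, hMR, Ms, hMiff, hMsG, hw0, ⟨d, hd, hd'⟩, huz, hsub, hE⟩ := hCM M hMC
  rcases hs d ⟨o, (hd' o).1 hw0⟩ (hcls Ms d hMsG hd') with ⟨e, he, A, hA, hdA⟩ | ⟨m, hm, hmx⟩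
  · refine hCD2 A M (hRD3 A M hMH (hD.sub hMD).2 ?_) hMB d hd hdA
    intro b hb x hx
    have hAM : (Sum.inr (Sum.inr (Sum.inl A)) : U) ∈ Ms := by
      have h3 := hGs Ms hMsG e ((hd' e).2 he)
      rwa [hA] at h3
    refine (hMiff x (hRD2 A b (hb.trans hMH) hx)).1 (hMsG (b.disjSum {Sum.inr (Sum.inl A)}) ?_ ?_)
    · intro u hu
      rw [Finset.mem_coe, Finset.mem_disjSum] at hu
      rcases hu with ⟨y, hy, rfl⟩ | ⟨v, hv, rfl⟩
      · exact (hMiff y (hMH (hb hy))).2 (hb hy)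
      · rw [Finset.mem_singleton] at hv
        exact hv ▸ hAM
    · refine Or.inr (Or.inr (Or.inr (mem_biUnion (x := A) ?_ ⟨x, ?_, rfl⟩)))
      · show (Sum.inr (Sum.inr (Sum.inl A)) : U) ∈ b.disjSum {Sum.inr (Sum.inl A)}
        simp
      · rw [Finset.toLeft_disjSum]
        exact hx
  · obtain ⟨E, hEM, hEc, hEp⟩ := hE (Sum.inl m) ((hd' m).2 hm)
    obtain ⟨⟨p, hpE, hpM, hpS⟩, -⟩ := hMbad E hEM hEc
    obtain ⟨N, hNM, n, hNG, hwN, hNn, hnM, hNz, hNX⟩ := hEp p hpE hpM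
    have hnd : n < d := (hd' n).1 hnM
    have hmn : m < n := (hNn m).1 hwN
    obtain ⟨e, hen, r, her, hr⟩ := hmx n hmn hnd (hcls N n hNG hNn)
    have hrN : (Sum.inr (Sum.inr (Sum.inr r)) : U) ∈ N := by
      have h3 := hGs N hNG e ((hNn e).2 hen)
      rwa [her] at h3
    have hrepN := hGr N hNG r hrN
    have hpC := (hEc.sub ⟨p, hpE, rfl⟩ : (p : Set ZFSet.{0}) ∈ Cs (X : Set ZFSet.{0}))
    have h3 : TT S R0 d (uz X (rep r) n) := by
      have h4 : prof X S R0 (rep r) d n := by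
        rw [hrep2 r]
        exact hr
      exact h4 n le_rfl fun i hi => (hNz i).1 (hrepN _ hi)
    have hrepM : ((rep r : Finset ZFSet.{0}) : Set ZFSet.{0}) ⊆ M := fun x hx => by
      have h4 : x ∈ p := (hNX x (hrep1 r x hx)).1 (hrepN x hx)
      exact hsub p hpM hpC.2 h4
    have hqM := huz (rep r) hrepM n hnM
    rw [TT_iff hθ hR0 hR0' hR0D h2 hMD hMH hMR hd hqM] at h3
    refine hpS (h1 M hMD _ h3 _ hpC ⟨fun x hx => ?_, Subset.antisymm ?_ ?_⟩)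
    · obtain ⟨hxX, hx⟩ := mem_uz.1 hx
      rcases hx with hx | hx
      · exact (hNX x hxX).1 (hrepN x hx)
      · obtain ⟨j, hj, rfl⟩ := mem_nzg.1 hx
        exact (hNX _ hxX).1 ((hNz j).2 hj)
    · rintro x ⟨hxp, hx1⟩
      refine ⟨mem_uz.2 ⟨hpC.1 hxp, Or.inr ?_⟩, hx1⟩
      obtain ⟨i, rfl⟩ := exists_nz hx1
      exact nzg_mem_nzg.2 ((hNz i).1 ((hNX _ (hpC.1 hxp)).2 hxp))
    · rintro x ⟨hxq, hx1⟩
      refine ⟨?_, hx1⟩
      obtain ⟨hxX, hx⟩ := mem_uz.1 hxq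
      rcases hx with hx | hx
      · exact (hNX x hxX).1 (hrepN x hx)
      · obtain ⟨j, hj, rfl⟩ := mem_nzg.1 hx
        exact (hNX _ hxX).1 ((hNz j).2 hj)

end

/-- `MM(𝔠)` implies the 0-1 law for open set mappings. -/
theorem zeroOne_of_MM (hMM : MM 𝔠) : ZeroOneLaw := by
  intro X θ D S hX hθ hXθ hD hDe hopen h1 h2
  by_contra hcon
  refine upper_aux hMM hX hXθ hD hopen h1 h2 fun C hC => ?_
  by_contra hC'
  refine hcon ⟨C ∩ D, inter_subset_right, hC.inter hD, fun M hM => ?_⟩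
  by_contra hM'
  refine hC' ⟨M, hM.1, hM.2, fun E hE hEc => ⟨?_, ?_⟩⟩
  · by_contra h3
    push Not at h3
    exact hM' ⟨E, hE, hEc, Or.inl h3⟩
  · by_contra h3
    push Not at h3
    exact hM' ⟨E, hE, hEc, Or.inr h3⟩

end Pool.Agent.Y587.ZO
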