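import Mathlib

/-!
# Supercompact cardinals
-/

set_option autoImplicit false

namespace Pool.Agent.Y587.GM

open Cardinal

universe u

/-- `P_κ(L)`, the set of subsets of `L` of cardinality less than `κ`. -/
abbrev PK (κ : Cardinal.{u}) (L : Type u) : Type u := {x : Set L // #x < κ}

/-- `U` is a fine, normal and `κ`-complete ultrafilter on `P_κ(L)`. -/
structure FineNormal (κ : Cardinal.{u}) {L : Type u} (U : Ultrafilter (PK κ L)) : Prop where
  complete : ∀ (ι : Type u) (A : ι → Set (PK κ L)), #ι < κ → (∀ i, A i ∈ U) → (⋂ i, A i) ∈ U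
  fine : ∀ a : L, {x : PK κ L | a ∈ x.1} ∈ U
  normal : ∀ A : L → Set (PK κ L), (∀ a, A a ∈ U) → {x : PK κ L | ∀ a ∈ x.1, x ∈ A a} ∈ U

/-- `κ` is supercompact: `κ` is uncountable and for each set `L` there is a fine, normal and
`κ`-complete ultrafilter on `P_κ(L)`. -/
def Supercompact (κ : Cardinal.{u}) : Prop :=
  ℵ₀ < κ ∧ ∀ L : Type u, ∃ U : Ultrafilter (PK κ L), FineNormal κ U

end Pool.Agent.Y587.GM
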