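import Mathlib
import Pool.Agent.Y587.GMDefs

set_option autoImplicit false

namespace Pool.Agent.Y587.GM

open Cardinal Set

universe u

theorem FineNormal.press {κ : Cardinal.{u}} {L : Type u} {U : Ultrafilter (PK κ L)}
    (hU : FineNormal κ U) {S : Set (PK κ L)} (hS : S ∈ U) (f : PK κ L → L)
    (hf : ∀ z ∈ S, f z ∈ z.1) : ∃ a, {z | z ∈ S ∧ f z = a} ∈ U := by
  by_contra hcon
  push Not at hcon
  have h1 : ∀ a, {z | z ∈ S ∧ f z = a}ᶜ ∈ U := fun a =>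
    Ultrafilter.compl_mem_iff_notMem.2 (hcon a)
  have h2 := hU.normal _ h1
  obtain ⟨z, hz, hz'⟩ := U.nonempty_of_mem (Filter.inter_mem h2 hS)
  exact hz (f z) (hf z hz') ⟨hz', rfl⟩

/-- pressing down, relational form -/
theorem FineNormal.press' {κ : Cardinal.{u}} {L : Type u} {U : Ultrafilter (PK κ L)}
    (hU : FineNormal κ U) {S : Set (PK κ L)} (hS : S ∈ U) (R : PK κ L → L → Prop)
    (hf : ∀ z ∈ S, ∃ a ∈ z.1, R z a) : ∃ a, {z | z ∈ S ∧ R z a} ∈ U := by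
  classical
  obtain ⟨z₀, hz₀⟩ := U.nonempty_of_mem hS
  obtain ⟨a₀, -⟩ := hf z₀ hz₀
  have h1 : ∀ z, ∃ a, z ∈ S → a ∈ z.1 ∧ R z a := by
    intro z
    by_cases hz : z ∈ S
    · obtain ⟨a, ha⟩ := hf z hz
      exact ⟨a, fun _ => ha⟩
    · exact ⟨a₀, fun h => absurd h hz⟩
  choose f hf using h1
  obtain ⟨a, ha⟩ := hU.press hS f fun z hz => (hf z hz).1
  refine ⟨a, Filter.mem_of_superset ha ?_⟩
  rintro z ⟨hz, rfl⟩
  exact ⟨hz, (hf z hz).2⟩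

/-- completeness of an ultrafilter -/
def Complete (κ : Cardinal.{u}) {I : Type u} (D : Ultrafilter I) : Prop :=
  ∀ (ι : Type u) (A : ι → Set I), #ι < κ → (∀ i, A i ∈ D) → (⋂ i, A i) ∈ D

theorem Complete.union {κ : Cardinal.{u}} {I : Type u} {D : Ultrafilter I} (hD : Complete κ D)
    {ι : Type u} (hι : #ι < κ) {S : Set I} (hS : S ∈ D) (R : I → ι → Prop)
    (hR : ∀ z ∈ S, ∃ i, R z i) : ∃ i, {z | z ∈ S ∧ R z i} ∈ D := by
  by_contra hcon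
  push Not at hcon
  have h1 : ∀ a, {z | z ∈ S ∧ R z a}ᶜ ∈ D := fun a =>
    Ultrafilter.compl_mem_iff_notMem.2 (hcon a)
  obtain ⟨z, hz, hz'⟩ := D.nonempty_of_mem (Filter.inter_mem (hD ι _ hι h1) hS)
  obtain ⟨i, hi⟩ := hR z hz'
  exact (mem_iInter.1 hz i) ⟨hz', hi⟩

theorem FineNormal.toComplete {κ : Cardinal.{u}} {L : Type u} {U : Ultrafilter (PK κ L)}
    (hU : FineNormal κ U) : Complete κ U := hU.complete

/-- a uniform measure on the small subsets of `X` -/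
theorem exists_measure {T : Type u} (X : Set T) {κ μ : Cardinal.{u}} (hκ : Supercompact κ)
    (hκμ : κ ≤ μ) : ∃ D : Ultrafilter {b : Set T // b ⊆ X ∧ #b ≤ μ}, Complete κ D ∧
      ∀ c : {b : Set T // b ⊆ X ∧ #b ≤ μ}, {b | c.1 ⊆ b.1} ∈ D := by
  obtain ⟨W, hW⟩ := hκ.2 {b : Set T // b ⊆ X ∧ #b ≤ μ}
  have hμ : ℵ₀ ≤ μ := hκ.1.le.trans hκμ
  let f : PK κ {b : Set T // b ⊆ X ∧ #b ≤ μ} → {b : Set T // b ⊆ X ∧ #b ≤ μ} := fun s =>
    ⟨⋃ b : s.1, b.1.1, iUnion_subset fun b => b.1.2.1, by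
      refine (mk_iUnion_le _).trans ?_
      refine mul_le_of_le hμ (s.2.le.trans hκμ) (ciSup_le' fun b => b.1.2.2)⟩
  refine ⟨W.map f, ?_, fun c => ?_⟩
  · intro ι A hι hA
    have h1 : f ⁻¹' (⋂ i, A i) = ⋂ i, f ⁻¹' A i := preimage_iInter
    rw [Ultrafilter.mem_map, h1]
    exact hW.complete ι _ hι fun i => Ultrafilter.mem_map.1 (hA i)
  · rw [Ultrafilter.mem_map]
    refine Filter.mem_of_superset (hW.fine c) fun s hs => ?_
    exact subset_iUnion (fun b : s.1 => b.1.1) ⟨c, hs⟩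

/-- Branch lemma. -/
theorem branch {T : Type u} {X : Set T} {κ ν μ : Cardinal.{u}} (hκ : ℵ₀ < κ) (hν : ν < κ)
    (hν0 : ν ≠ 0) {D : Ultrafilter {b : Set T // b ⊆ X ∧ #b ≤ μ}} (hD : Complete κ D)
    (F : {b : Set T // b ⊆ X ∧ #b ≤ μ} → Set (Set T)) (hF : ∀ b, #(F b) ≤ ν)
    (hcone : ∀ c : {b : Set T // b ⊆ X ∧ #b ≤ μ}, {b | c.1 ⊆ b.1} ∈ D)
    (A : Set {b : Set T // b ⊆ X ∧ #b ≤ μ}) (hA : A ∈ D)
    (hco : ∀ b ∈ A, ∀ b' ∈ A, b.1 ⊆ b'.1 → ∃ y ∈ F b', y ∩ b.1 ∈ F b) :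
    ∃ y : Set T, {b | b ∈ A ∧ y ∩ b.1 ∈ F b} ∈ D := by
  classical
  have hne : Nonempty ν.out := by
    rw [← mk_ne_zero_iff, mk_out]
    exact hν0
  have h1 : ∀ b, ∃ e : ν.out → Set T, F b ⊆ range e := by
    intro b
    rcases (F b).eq_empty_or_nonempty with h | h
    · exact ⟨fun _ => ∅, by rw [h]; exact empty_subset _⟩
    · have h2 : #(F b) ≤ #ν.out := by rw [mk_out]; exact hF b
      obtain ⟨i⟩ := Cardinal.le_def _ _ |>.1 h2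
      haveI : Nonempty (F b) := h.to_subtype
      refine ⟨fun x => (Function.invFun i x).1, fun y hy => ⟨i ⟨y, hy⟩, ?_⟩⟩
      show (Function.invFun i (i ⟨y, hy⟩)).1 = y
      rw [Function.leftInverse_invFun i.injective]
  choose e he using h1
  have hprod : #(ν.out × ν.out) < κ := by
    rw [mk_prod, lift_id, mk_out]
    exact mul_lt_of_lt hκ.le hν hν
  have h2 : ∀ b, ∃ p : ν.out × ν.out, b ∈ A → {b' | (b' ∈ A ∧ b.1 ⊆ b'.1) ∧
      (e b p.1 ∈ F b ∧ e b p.1 = e b' p.2 ∩ b.1)} ∈ D := by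
    intro b
    by_cases hb : b ∈ A
    · obtain ⟨p, hp⟩ := hD.union hprod (Filter.inter_mem hA (hcone b))
        (fun b' p => e b p.1 ∈ F b ∧ e b p.1 = e b' p.2 ∩ b.1) (fun b' hb' => by
          obtain ⟨y, hy, hy'⟩ := hco b hb b' hb'.1 hb'.2
          obtain ⟨j, rfl⟩ := he b' hy
          obtain ⟨i, hi⟩ := he b hy'
          exact ⟨(i, j), by rw [hi]; exact ⟨hy', rfl⟩⟩)
      exact ⟨p, fun _ => hp⟩
    · exact ⟨(hne.some, hne.some), fun h => absurd h hb⟩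
  choose p hp using h2
  obtain ⟨q, hq⟩ := hD.union hprod hA (fun b q => p b = q) fun b _ => ⟨p b, rfl⟩
  have hpq : ∀ b ∈ {b | b ∈ A ∧ p b = q}, {b' | (b' ∈ A ∧ b.1 ⊆ b'.1) ∧
      (e b q.1 ∈ F b ∧ e b q.1 = e b' q.2 ∩ b.1)} ∈ D := by
    rintro b ⟨hb, rfl⟩
    exact hp b hb
  let y : Set T := ⋃ b : {b | b ∈ A ∧ p b = q}, e b.1 q.1
  refine ⟨y, Filter.mem_of_superset hq fun b hb => ⟨hb.1, ?_⟩⟩
  obtain ⟨b₀, hb₀⟩ := D.nonempty_of_mem (hpq b hb)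
  have h3 : y ∩ b.1 = e b q.1 := by
    apply Subset.antisymm
    · rintro t ⟨ht, htb⟩
      obtain ⟨b₁, hb₁⟩ := mem_iUnion.1 ht
      obtain ⟨b', hb', hb''⟩ := D.nonempty_of_mem (Filter.inter_mem (hpq b hb) (hpq b₁.1 b₁.2))
      rw [hb''.2.2] at hb₁
      rw [hb'.2.2]
      exact ⟨hb₁.1, htb⟩
    · intro t ht
      refine ⟨mem_iUnion.2 ⟨⟨b, hb⟩, ht⟩, ?_⟩
      rw [hb₀.2.2] at ht
      exact ht.2
  rw [h3]
  exact hb₀.2.1

end Pool.Agent.Y587.GM
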