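import Mathlib
import Pool.Agent.Y587.GMCore

set_option autoImplicit false

namespace Pool.Agent.Y587.GM

open Cardinal Set

universe u

theorem exists_sep {T : Type u} {X : Set T} {μ : Cardinal.{u}} (hμ : ℵ₀ ≤ μ) (B : Set (Set T))
    (hX : ∀ y ∈ B, y ⊆ X) (hB : #B ≤ μ) :
    ∃ b ⊆ X, #b ≤ μ ∧ ∀ y ∈ B, ∀ y' ∈ B, y ∩ b = y' ∩ b → y = y' := by
  have h1 : ∀ p : B × B, ∃ s : Set T, s ⊆ X ∧ #s ≤ 1 ∧
      (p.1 ≠ p.2 → ∃ t ∈ s, ¬ (t ∈ p.1.1 ↔ t ∈ p.2.1)) := by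
    rintro ⟨⟨y, hy⟩, ⟨y', hy'⟩⟩
    by_cases h : y = y'
    · refine ⟨∅, empty_subset _, by simp, fun h' => absurd (Subtype.ext h) h'⟩
    · have h2 : ∃ t, ¬ (t ∈ y ↔ t ∈ y') := by
        by_contra hcon
        push Not at hcon
        exact h (Set.ext hcon)
      obtain ⟨t, ht⟩ := h2
      refine ⟨{t}, ?_, by simp, fun _ => ⟨t, rfl, ht⟩⟩
      intro t' ht'
      rw [mem_singleton_iff] at ht'
      subst ht'
      by_cases h3 : t' ∈ y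
      · exact hX y hy h3
      · by_cases h4 : t' ∈ y'
        · exact hX y' hy' h4
        · exact absurd (iff_of_false h3 h4) ht
  choose s hs1 hs2 hs3 using h1
  refine ⟨⋃ p, s p, iUnion_subset hs1, ?_, fun y hy y' hy' h => ?_⟩
  · refine (mk_iUnion_le _).trans ?_
    refine mul_le_of_le hμ ?_ (ciSup_le' fun p => (hs2 p).trans (one_le_aleph0.trans hμ))
    rw [mk_prod, lift_id]
    exact mul_le_of_le hμ hB hB
  · by_contra hne
    obtain ⟨t, ht, ht'⟩ := hs3 (⟨y, hy⟩, ⟨y', hy'⟩) fun h' => hne (congrArg Subtype.val h')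
    apply ht'
    have htb : t ∈ ⋃ p, s p := mem_iUnion.2 ⟨_, ht⟩
    constructor
    · intro h5
      have : t ∈ y ∩ ⋃ p, s p := ⟨h5, htb⟩
      rw [h] at this
      exact this.1
    · intro h5
      have : t ∈ y' ∩ ⋃ p, s p := ⟨h5, htb⟩
      rw [← h] at this
      exact this.1

theorem card_branches {T : Type u} {X : Set T} {κ ν μ : Cardinal.{u}} (hν : Order.succ ν < κ)
    (hκμ : κ ≤ μ) (hμ : ℵ₀ ≤ μ) {D : Ultrafilter {b : Set T // b ⊆ X ∧ #b ≤ μ}}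
    (hD : Complete κ D) (F : {b : Set T // b ⊆ X ∧ #b ≤ μ} → Set (Set T)) (hF : ∀ b, #(F b) ≤ ν)
    (hcone : ∀ c : {b : Set T // b ⊆ X ∧ #b ≤ μ}, {b | c.1 ⊆ b.1} ∈ D) :
    #{y : Set T | y ⊆ X ∧ {b | y ∩ b.1 ∈ F b} ∈ D} ≤ ν := by
  by_contra hcon
  rw [not_le, ← Order.succ_le_iff, le_mk_iff_exists_subset] at hcon
  obtain ⟨B, hB, hBcard⟩ := hcon
  obtain ⟨b₀, hb₀X, hb₀, hsep⟩ := exists_sep (X := X) hμ B (fun y hy => (hB hy).1)
    (hBcard.le.trans (hν.le.trans hκμ))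
  have h1 : (⋂ y : B, {b | y.1 ∩ b.1 ∈ F b}) ∈ D :=
    hD B _ (by rw [hBcard]; exact hν) fun y => (hB y.2).2
  obtain ⟨b, hb, hb'⟩ := D.nonempty_of_mem (Filter.inter_mem h1 (hcone ⟨b₀, hb₀X, hb₀⟩))
  have h2 : ∀ y : B, y.1 ∩ b.1 ∈ F b := fun y => mem_iInter.1 hb y
  have hinj : Function.Injective fun y : B => (⟨y.1 ∩ b.1, h2 y⟩ : F b) := by
    intro y y' h
    have h3 : y.1 ∩ b.1 = y'.1 ∩ b.1 := congrArg Subtype.val h
    refine Subtype.ext (hsep y.1 y.2 y'.1 y'.2 ?_)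
    have h4 : b₀ ⊆ b.1 := hb'
    have h5 : ∀ s : Set T, s ∩ b₀ = s ∩ b.1 ∩ b₀ := fun s => by
      rw [inter_assoc, inter_eq_right.2 h4]
    rw [h5 y.1, h5 y'.1, h3]
  have h6 := (mk_le_of_injective hinj).trans (hF b)
  rw [hBcard] at h6
  exact absurd h6 (not_le.2 (Order.lt_succ ν))

/-- Sets of cardinality at most `μ` split into countably many small pieces. -/
theorem exists_split {κ : ℕ → Cardinal.{u}} {T : Type u} (N : Set T) (hN : #N ≤ ⨆ n, κ n) :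
    ∃ P : ℕ → Set T, (∀ n, #(P n) ≤ κ n) ∧ ∀ a ∈ N, ∃ n, a ∈ P n := by
  have h1 : #N ≤ Cardinal.sum κ := hN.trans (iSup_le_sum κ)
  obtain ⟨i⟩ := (Cardinal.le_def N (Σ n, (κ n).out)).1 h1
  refine ⟨fun n => Subtype.val '' (i ⁻¹' range (Sigma.mk n)), fun n => ?_, fun a ha => ?_⟩
  · refine mk_image_le.trans ((mk_preimage_of_injective _ _ i.injective).trans ?_)
    refine mk_range_le.trans ?_
    rw [mk_out]
  · exact ⟨(i ⟨a, ha⟩).1, ⟨a, ha⟩, ⟨(i ⟨a, ha⟩).2, rfl⟩, rfl⟩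

end Pool.Agent.Y587.GM
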