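import Mathlib
import Pool.Agent.Y587.GMCore2

set_option autoImplicit false

namespace Pool.Agent.Y587.GM

open Cardinal Set

universe u

/-- guessing, for a set `M` of elements of a structure in which `ext a` is the set of the elements
of `a` -/
def Guess {T : Type u} (ext : T → Set T) (μ : Cardinal.{u}) (M : Set T) : Prop :=
  ∀ X ∈ M, ∀ x ⊆ ext X, (∀ a ∈ M, #(ext a) ≤ μ → ∃ c ∈ M, ext c = x ∩ ext a) →
    ∃ e ∈ M, ext e ⊆ ext X ∧ ∀ t ∈ M, t ∈ ext e ↔ t ∈ x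

/-- the union of the members of `z` -/
def MM {T : Type u} {μ κ : Cardinal.{u}} (z : PK κ {N : Set T // #N ≤ μ}) : Set T :=
  {t | ∃ N ∈ z.1, t ∈ N.1}

section

variable {κ : ℕ → Cardinal.{u}} {T : Type u} {ext : T → Set T} {μ : Cardinal.{u}}

theorem guess_ae (hκ : ∀ n, Supercompact (κ n)) (hmono : StrictMono κ)
    (hμ : μ = ⨆ n, κ n)
    (E1 : ∀ S : Set T, #S ≤ μ → ∃ a, ext a = S)
    (E2 : ∀ a, ∀ S ⊆ ext a, ∃ b, ext b = S)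
    {U : Ultrafilter (PK (κ 0) {N : Set T // #N ≤ μ})} (hU : FineNormal (κ 0) U)
    (hins : {z : PK (κ 0) {N : Set T // #N ≤ μ} | ∀ b ∈ MM z, ∀ t ∈ MM z, #(ext b) ≤ μ →
      ∃ b' ∈ MM z, ext b' = insert t (ext b)} ∈ U) :
    {z | Guess ext μ (MM z)} ∈ U := by
  classical
  have hbdd : BddAbove (range κ) := bddAbove_of_small
  have hκμ : ∀ n, κ n ≤ μ := fun n => hμ ▸ le_ciSup hbdd n
  have hμ0 : ℵ₀ ≤ μ := (hκ 0).1.le.trans (hκμ 0)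
  have h0 : ℵ₀ < κ 0 := (hκ 0).1
  by_contra hcon
  rw [← Ultrafilter.compl_mem_iff_notMem] at hcon
  -- bad sets
  have h1 : ∀ z : PK (κ 0) {N : Set T // #N ≤ μ}, ∃ X : T, ∃ x : Set T,
      z ∈ {z | Guess ext μ (MM z)}ᶜ → X ∈ MM z ∧ x ⊆ ext X ∧
        (∀ a ∈ MM z, #(ext a) ≤ μ → ∃ c ∈ MM z, ext c = x ∩ ext a) ∧
        ¬ ∃ e ∈ MM z, ext e ⊆ ext X ∧ ∀ t ∈ MM z, t ∈ ext e ↔ t ∈ x := by
    intro z
    by_cases hz : z ∈ {z | Guess ext μ (MM z)}ᶜ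
    · have hz' : ¬ Guess ext μ (MM z) := hz
      unfold Guess at hz'
      push Not at hz'
      obtain ⟨X, hX, x, hx, hx1, hx2⟩ := hz'
      refine ⟨X, x, fun _ => ⟨hX, hx, hx1, ?_⟩⟩
      rintro ⟨e, he, he1, he2⟩
      obtain ⟨t, ht, ht'⟩ := hx2 e he he1
      have := he2 t ht
      tauto
    · obtain ⟨a, -⟩ := E1 ∅ (by simp)
      exact ⟨a, ∅, fun h => absurd h hz⟩
  choose X x hX using h1
  obtain ⟨N', hN'⟩ := hU.press' hcon (fun z N => X z ∈ N.1) fun z hz => (hX z hz).1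
  set S₁ : Set (PK (κ 0) {N : Set T // #N ≤ μ}) :=
    {z | z ∈ {z | Guess ext μ (MM z)}ᶜ ∧ X z ∈ N'.1} with hS₁
  let X' : Set T := ⋃ a ∈ N'.1, ext a
  have hxX' : ∀ z ∈ S₁, x z ⊆ X' := fun z hz t ht =>
    mem_biUnion hz.2 ((hX z hz.1).2.1 ht)
  -- each element of `T` and each small set of elements of `T` is in `MM z`
  have hmem : ∀ a : T, {z : PK (κ 0) {N : Set T // #N ≤ μ} | a ∈ MM z} ∈ U := by
    intro a
    refine Filter.mem_of_superset (hU.fine ⟨{a}, by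
      rw [mk_singleton]; exact one_le_aleph0.trans hμ0⟩) fun z hz => ?_
    exact ⟨_, hz, rfl⟩
  have hsub : ∀ N : Set T, #N ≤ μ →
      {z : PK (κ 0) {N : Set T // #N ≤ μ} | N ⊆ MM z} ∈ U := by
    intro N hN
    refine Filter.mem_of_superset (hU.fine ⟨N, hN⟩) fun z hz => ?_
    exact fun t ht => ⟨_, hz, ht⟩
  -- the approximations
  have h2 : ∀ b : {b : Set T // b ⊆ X' ∧ #b ≤ μ}, ∃ n : ℕ, ∃ F : Set (Set T), #F ≤ κ n ∧
      {z | z ∈ S₁ ∧ x z ∩ b.1 ∈ F} ∈ U := by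
    intro b
    obtain ⟨β, hβ⟩ := E1 b.1 b.2.2
    have h3 : S₁ ∩ {z | β ∈ MM z} ∈ U := Filter.inter_mem hN' (hmem β)
    obtain ⟨N, hN⟩ := hU.press' h3 (fun z N => ∃ c ∈ N.1, ext c = x z ∩ b.1) (by
      intro z hz
      obtain ⟨c, ⟨N, hN, hc⟩, hc'⟩ := (hX z hz.1.1).2.2.1 β hz.2 (by rw [hβ]; exact b.2.2)
      rw [hβ] at hc'
      exact ⟨N, hN, c, hc, hc'⟩)
    obtain ⟨P, hP, hP'⟩ := exists_split (κ := κ) N.1 (N.2.trans hμ.le)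
    obtain ⟨n, hn⟩ := hU.toComplete.union (ι := ULift.{u} ℕ) (by simpa using h0) hN
      (fun z n => ∃ c ∈ P n.down, ext c = x z ∩ b.1) (by
        rintro z ⟨-, c, hc, hc'⟩
        obtain ⟨n, hn⟩ := hP' c hc
        exact ⟨⟨n⟩, c, hn, hc'⟩)
    refine ⟨n.down, ext '' P n.down, mk_image_le.trans (hP _), Filter.mem_of_superset hn ?_⟩
    rintro z ⟨⟨hz, -⟩, c, hc, hc'⟩
    exact ⟨hz.1, c, hc, hc'⟩
  choose n F₀ hF₀ hF₀' using h2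
  have h3 : ∃ m, ∀ b : {b : Set T // b ⊆ X' ∧ #b ≤ μ}, ∃ b' : {b : Set T // b ⊆ X' ∧ #b ≤ μ},
      b.1 ⊆ b'.1 ∧ n b' = m := by
    by_contra hcon
    push Not at hcon
    choose b hb using hcon
    let b' : {b : Set T // b ⊆ X' ∧ #b ≤ μ} := ⟨⋃ m : ULift.{u} ℕ, (b m.down).1,
      iUnion_subset fun m => (b m.down).2.1, by
      refine (mk_iUnion_le _).trans (mul_le_of_le hμ0 ?_ (ciSup_le' fun m => (b m.down).2.2))
      simpa using hμ0⟩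
    exact hb (n b') b' (subset_iUnion (fun m : ULift.{u} ℕ => (b m.down).1) ⟨n b'⟩) rfl
  obtain ⟨m, hm⟩ := h3
  choose sup hsup hsup' using hm
  let F : {b : Set T // b ⊆ X' ∧ #b ≤ μ} → Set (Set T) := fun b =>
    (fun y => y ∩ b.1) '' F₀ (sup b)
  have hF : ∀ b, #(F b) ≤ κ m := fun b => by
    refine mk_image_le.trans ((hF₀ _).trans ?_)
    rw [hsup' b]
  have hFx : ∀ b, {z | z ∈ S₁ ∧ x z ∩ b.1 ∈ F b} ∈ U := fun b => by
    refine Filter.mem_of_superset (hF₀' (sup b)) fun z hz => ⟨hz.1, x z ∩ (sup b).1, hz.2, ?_⟩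
    show x z ∩ (sup b).1 ∩ b.1 = x z ∩ b.1
    rw [inter_assoc, inter_eq_right.2 (hsup b)]
  obtain ⟨D, hD, hcone⟩ := exists_measure X' (hκ (m + 2)) (hκμ (m + 2))
  have hm1 : Order.succ (κ m) < κ (m + 2) :=
    (Order.succ_le_iff.2 (hmono (Nat.lt_succ_self m))).trans_lt (hmono (Nat.lt_succ_self (m + 1)))
  have hmlt : κ m < κ (m + 2) := hmono (by omega)
  let 𝓑 : Set (Set T) := {y : Set T | y ⊆ X' ∧ {b | y ∩ b.1 ∈ F b} ∈ D}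
  have h𝓑 : #𝓑 ≤ κ m := card_branches hm1 (hκμ _) hμ0 hD F hF hcone
  have h𝓑μ : #𝓑 ≤ μ := h𝓑.trans (hκμ m)
  -- `x z` agrees with a branch on each small element of `MM z`
  have h4 : {z | z ∈ S₁ ∧ ∀ b ∈ MM z, ext b ⊆ X' → #(ext b) ≤ μ →
      ∃ y ∈ 𝓑, y ∩ ext b = x z ∩ ext b} ∈ U := by
    by_contra hcon
    rw [← Ultrafilter.compl_mem_iff_notMem] at hcon
    have h5 := Filter.inter_mem hN' hcon
    obtain ⟨N'', hN''⟩ := hU.press' h5 (fun z N => ∃ b ∈ N.1, ext b ⊆ X' ∧ #(ext b) ≤ μ ∧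
      ∀ y ∈ 𝓑, y ∩ ext b ≠ x z ∩ ext b) (by
        rintro z ⟨hz, hz'⟩
        have hz'' : ¬ ∀ b ∈ MM z, ext b ⊆ X' → #(ext b) ≤ μ →
          ∃ y ∈ 𝓑, y ∩ ext b = x z ∩ ext b := fun h => hz' ⟨hz, h⟩
        push Not at hz''
        obtain ⟨b, ⟨N, hN, hb⟩, hb1, hb2, hb3⟩ := hz''
        exact ⟨N, hN, b, hb, hb1, hb2, hb3⟩)
    let bs : {b : Set T // b ⊆ X' ∧ #b ≤ μ} :=
      ⟨⋃ b : {b : N''.1 // ext b.1 ⊆ X' ∧ #(ext b.1) ≤ μ}, ext b.1.1,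
        iUnion_subset fun b => b.2.1, by
        refine (mk_iUnion_le _).trans (mul_le_of_le hμ0 ?_ (ciSup_le' fun b => b.2.2))
        exact (mk_subtype_le _).trans N''.2⟩
    have h6 : ∀ z ∈ {z | z ∈ S₁ ∩ {z | z ∈ S₁ ∧ ∀ b ∈ MM z, ext b ⊆ X' → #(ext b) ≤ μ →
        ∃ y ∈ 𝓑, y ∩ ext b = x z ∩ ext b}ᶜ ∧ ∃ b ∈ N''.1, ext b ⊆ X' ∧ #(ext b) ≤ μ ∧
        ∀ y ∈ 𝓑, y ∩ ext b ≠ x z ∩ ext b}, ∀ y ∈ 𝓑, y ∩ bs.1 ≠ x z ∩ bs.1 := by
      rintro z ⟨-, b, hb, hb1, hb2, hb3⟩ y hy heq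
      apply hb3 y hy
      have h7 : ext b ⊆ bs.1 := subset_iUnion
        (fun b : {b : N''.1 // ext b.1 ⊆ X' ∧ #(ext b.1) ≤ μ} => ext b.1.1) ⟨⟨b, hb⟩, hb1, hb2⟩
      have h8 : ∀ s : Set T, s ∩ ext b = s ∩ bs.1 ∩ ext b := fun s => by
        rw [inter_assoc, inter_eq_right.2 h7]
      rw [h8 y, h8 (x z), heq]
    let F' : {b : Set T // b ⊆ X' ∧ #b ≤ μ} → Set (Set T) := fun b =>
      {f | f ∈ F b ∧ ∀ y ∈ 𝓑, y ∩ bs.1 ≠ f ∩ bs.1}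
    have hν0 : κ m ≠ 0 := (aleph0_pos.trans (hκ m).1).ne'
    obtain ⟨y, hy⟩ := branch (hκ (m + 2)).1 hmlt hν0 hD F'
      (fun b => (mk_le_mk_of_subset fun _ h => h.1).trans (hF b)) hcone
      {b | bs.1 ⊆ b.1} (hcone bs) (by
        intro b hb b' hb' hbb'
        obtain ⟨z, ⟨hz, hz1⟩, hz2⟩ := U.nonempty_of_mem
          (Filter.inter_mem (Filter.inter_mem hN'' (hFx b)) (hFx b'))
        have h7 := h6 z hz
        refine ⟨x z ∩ b'.1, ⟨hz2.2, fun y hy h => h7 y hy ?_⟩, ?_, fun y hy h => h7 y hy ?_⟩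
        · rw [h, inter_assoc, inter_eq_right.2 hb']
        · have h8 : x z ∩ b'.1 ∩ b.1 = x z ∩ b.1 := by
            rw [inter_assoc, inter_eq_right.2 hbb']
          rw [h8]
          exact hz1.2
        · rw [h, inter_assoc, inter_assoc, inter_eq_right.2 (show bs.1 ⊆ b.1 from hb),
            inter_eq_right.2 (show bs.1 ⊆ b'.1 from hb')])
    have hy0 : y ∩ X' ∈ 𝓑 := by
      refine ⟨inter_subset_right, Filter.mem_of_superset hy fun b hb => ?_⟩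
      show y ∩ X' ∩ b.1 ∈ F b
      rw [inter_assoc, inter_eq_right.2 b.2.1]
      exact hb.2.1
    obtain ⟨b, hb⟩ := D.nonempty_of_mem hy
    refine hb.2.2 _ hy0 ?_
    rw [inter_assoc, inter_eq_right.2 bs.2.1, inter_assoc,
      inter_eq_right.2 (show bs.1 ⊆ b.1 from hb.1)]
  -- conclusion
  obtain ⟨b₀, hb₀X, hb₀, hsep⟩ := exists_sep (X := X') hμ0 𝓑 (fun y hy => hy.1) h𝓑μ
  obtain ⟨β₀, hβ₀⟩ := E1 b₀ hb₀
  have h5 : ∀ p : 𝓑 × N'.1, ∃ e, ext e = p.1.1 ∩ ext p.2.1 := fun p => E2 p.2.1 _ inter_subset_right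
  choose e he using h5
  have hrange : #(range e) ≤ μ := by
    refine mk_range_le.trans ?_
    rw [mk_prod, lift_id, lift_id]
    exact mul_le_of_le hμ0 h𝓑μ N'.2
  obtain ⟨z, ⟨⟨⟨hz1, hz2⟩, hz3⟩, hz4⟩, hz5⟩ := U.nonempty_of_mem (Filter.inter_mem
    (Filter.inter_mem (Filter.inter_mem h4 (hmem β₀)) (hsub _ hrange)) hins)
  obtain ⟨y, hy, hy'⟩ := hz2 β₀ hz3 (by rw [hβ₀]; exact hb₀X) (by rw [hβ₀]; exact hb₀)
  rw [hβ₀] at hy'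
  apply (hX z hz1.1).2.2.2
  refine ⟨e (⟨y, hy⟩, ⟨X z, hz1.2⟩), hz4 ⟨_, rfl⟩, ?_, fun t ht => ?_⟩
  · rw [he]
    exact inter_subset_right
  · rw [he]
    show t ∈ y ∧ t ∈ ext (X z) ↔ t ∈ x z
    by_cases htX : t ∈ X'
    · obtain ⟨b₁, hb₁, hb₁'⟩ := hz5 β₀ hz3 t ht (by rw [hβ₀]; exact hb₀)
      rw [hβ₀] at hb₁'
      obtain ⟨y₁, hy₁, hy₁'⟩ := hz2 b₁ hb₁ (by rw [hb₁']; exact insert_subset htX hb₀X) (by
        rw [hb₁']
        refine mk_insert_le.trans (add_le_of_le hμ0 hb₀ (one_le_aleph0.trans hμ0)))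
      rw [hb₁'] at hy₁'
      have h6 : y₁ = y := by
        apply hsep y₁ hy₁ y hy
        have h8 : ∀ s : Set T, s ∩ b₀ = s ∩ insert t b₀ ∩ b₀ := fun s => by
          rw [inter_assoc, inter_eq_right.2 (subset_insert _ _)]
        rw [hy', h8 y₁, h8 (x z), hy₁']
      subst h6
      have h7 : t ∈ y₁ ∩ insert t b₀ ↔ t ∈ x z ∩ insert t b₀ := by rw [hy₁']
      have h8 : t ∈ insert t b₀ := mem_insert _ _
      constructor
      · rintro ⟨h9, -⟩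
        exact (h7.1 ⟨h9, h8⟩).1
      · intro h9
        exact ⟨(h7.2 ⟨h9, h8⟩).1, (hX z hz1.1).2.1 h9⟩
    · constructor
      · rintro ⟨h9, -⟩
        exact absurd (hy.1 h9) htX
      · intro h9
        exact absurd (hxX' z hz1 h9) htX

end

end Pool.Agent.Y587.GM
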