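import Mathlib
import Pool.Agent.Y587.GMMain

/-!
# The sets `H_θ`, elementary submodels and guessing models
-/

set_option autoImplicit false

namespace Pool.Agent.Y587.GM

open Cardinal Set FirstOrder ZFSet

universe u

/-- `H_θ`: the set of the `x` whose transitive closure has cardinality less than `θ`, i.e. `x` is
contained in a transitive set of cardinality less than `θ`. -/
def HH (θ : Cardinal.{u}) : Set ZFSet.{u} :=
  {x | ∃ y : ZFSet.{u}, y.IsTransitive ∧ x ⊆ y ∧ y.card < θ}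

/-- The relation symbols: one binary symbol and an `n`-ary one for each `n`. -/
inductive Rel : ℕ → Type
  | mem : Rel 2
  | pred (n : ℕ) : Rel n

/-- The language of the structures `(H_θ, ∈, A)`. -/
def LL : FirstOrder.Language.{0, 0} := ⟨fun _ => Empty, Rel⟩

/-- The structure `(H_θ, ∈, A)`, where `A` is a set of finite subsets of `H_θ`: besides `∈` there are
for each `n` the relation that `{x₁, …, xₙ}` is an element of `A`. -/
def str (θ : Cardinal.{u}) (A : Set (Set ZFSet.{u})) : LL.Structure (HH θ) where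
  funMap := fun f _ => f.elim
  RelMap := fun r => match r with
    | .mem => fun v => (v 0).1 ∈ (v 1).1
    | .pred _ => fun v => Set.range (fun i => (v i).1) ∈ A

/-- `M` is (the underlying set of) an elementary substructure of `(H_θ, ∈, A)`. -/
def ElemSub (θ : Cardinal.{u}) (A : Set (Set ZFSet.{u})) (M : Set ZFSet.{u}) : Prop :=
  letI := str θ A
  ∃ S : LL.ElementarySubstructure (HH θ), M = Subtype.val '' (S : Set (HH θ))

/-- The least ordinal which is an element but not a subset of `M` is the cardinal `κ`. -/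
def KappaIs (M : Set ZFSet.{u}) (κ : Cardinal.{u}) : Prop :=
  κ.ord.toZFSet ∈ M ∧ (∃ x ∈ κ.ord.toZFSet, x ∉ M) ∧
    ∀ α < κ.ord, α.toZFSet ∈ M → ∀ x ∈ α.toZFSet, x ∈ M

/-- `d` is `(δ, M)`-approximated. -/
def Approx (δ : Cardinal.{u}) (M : Set ZFSet.{u}) (d : ZFSet.{u}) : Prop :=
  ∀ Z ∈ M, Z.card < δ → d ∩ Z ∈ M

/-- `d ⊆ X` is guessed: there is a subset `e` of `X` in `M` with `d ∩ M = e ∩ M`. -/
def Guessed (M : Set ZFSet.{u}) (X d : ZFSet.{u}) : Prop :=
  ∃ e ∈ M, e ⊆ X ∧ ∀ t ∈ M, t ∈ d ↔ t ∈ e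

/-- `M` is `δ`-guessing. -/
def IsGuessing (δ : Cardinal.{u}) (M : Set ZFSet.{u}) : Prop :=
  ∀ X ∈ M, ∀ d ⊆ X, Approx δ M d → Guessed M X d

section

variable {θ : Cardinal.{u}}

theorem HH_trans {x y : ZFSet.{u}} (hx : x ∈ HH θ) (hy : y ∈ x) : y ∈ HH θ := by
  obtain ⟨z, hz, hxz, hc⟩ := hx
  exact ⟨z, hz, hz y (hxz hy), hc⟩

theorem HH_sub {x y : ZFSet.{u}} (hx : x ∈ HH θ) (hy : y ⊆ x) : y ∈ HH θ := by
  obtain ⟨z, hz, hxz, hc⟩ := hx
  exact ⟨z, hz, hy.trans hxz, hc⟩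

theorem HH_ordinal {α : Ordinal.{u}} (hα : α < θ.ord) : α.toZFSet ∈ HH θ := by
  refine ⟨α.toZFSet, (isOrdinal_toZFSet α).isTransitive, subset_rfl, ?_⟩
  rw [Ordinal.card_toZFSet]
  exact lt_ord.1 hα

theorem exists_rank {y : ZFSet.{u}} (hy : y.IsTransitive) : ∀ x : ZFSet.{u}, x ⊆ y →
    ∀ β < x.rank, ∃ a ∈ y, a.rank = β := by
  intro x
  induction x using ZFSet.inductionOn with
  | _ x ih =>
    intro hx β hβ
    obtain ⟨a, ha, hβa⟩ := lt_rank_iff.1 hβ
    rcases hβa.eq_or_lt with h | h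
    · exact ⟨a, hx ha, h.symm⟩
    · exact ih a ha (hy a (hx ha)) β h

theorem card_rank_le {y : ZFSet.{u}} (hy : y.IsTransitive) : y.rank.card ≤ y.card := by
  have h1 := exists_rank hy y subset_rfl
  have h2 : Set.Iio y.rank ⊆ ZFSet.rank '' (y : Set ZFSet.{u}) := fun β hβ => by
    obtain ⟨a, ha, hab⟩ := h1 β hβ
    exact ⟨a, ha, hab⟩
  have h3 := (mk_le_mk_of_subset h2).trans mk_image_le
  rw [Cardinal.mk_Iio_ordinal] at h3
  have h4 : #(y : Set ZFSet.{u}) = Cardinal.lift.{u + 1} y.card := cardinalMk_coe_sort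
  rw [h4] at h3
  exact Cardinal.lift_le.1 h3

theorem HH_sub_V {x : ZFSet.{u}} (hx : x ∈ HH θ) : x ∈ vonNeumann θ.ord := by
  obtain ⟨z, hz, hxz, hc⟩ := hx
  rw [mem_vonNeumann]
  refine (rank_mono hxz).trans_lt ?_
  rw [lt_ord]
  exact (card_rank_le hz).trans_lt hc

instance : Small.{u} (HH θ) := by
  have h1 : Small.{u} ((vonNeumann θ.ord : ZFSet.{u}) : Set ZFSet.{u}) :=
    ZFSet.small_coe (vonNeumann θ.ord)
  exact small_subset (s := ((vonNeumann θ.ord : ZFSet.{u}) : Set ZFSet.{u})) fun _ hx => HH_sub_V hx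

theorem HH_of_card (hθ : θ.IsRegular) {x : ZFSet.{u}} (hx : ∀ y ∈ x, y ∈ HH θ)
    (hc : x.card < θ) : x ∈ HH θ := by
  choose! f hf hf1 hf2 using hx
  let g : Shrink.{u} x → ZFSet.{u} := fun y => f ((equivShrink x).symm y).1
  have hg : ∀ a ∈ x, ∃ i, g i = f a := fun a ha => ⟨equivShrink x ⟨a, ha⟩, by simp [g]⟩
  let z : ZFSet.{u} := ZFSet.iUnion g
  have hz : z.IsTransitive := by
    intro a ha
    obtain ⟨i, hi⟩ := ZFSet.mem_iUnion.1 ha
    exact (hf _ ((equivShrink x).symm i).2 a hi).trans (ZFSet.subset_iUnion g i)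
  refine ⟨x ∪ z, ?_, fun a ha => ZFSet.mem_union.2 (Or.inl ha), ?_⟩
  · intro a ha
    rcases ZFSet.mem_union.1 ha with h | h
    · obtain ⟨i, hi⟩ := hg a h
      refine fun b hb => ZFSet.mem_union.2 (Or.inr (ZFSet.subset_iUnion g i ?_))
      rw [hi]
      exact hf1 a h hb
    · exact fun b hb => ZFSet.mem_union.2 (Or.inr (hz a h hb))
  · refine ZFSet.card_union_le.trans_lt (add_lt_of_lt hθ.aleph0_le hc ?_)
    have h1 := ZFSet.lift_card_iUnion_le_sum_card (f := g)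
    simp only [Cardinal.lift_id] at h1
    exact h1.trans_lt (sum_lt_of_isRegular hθ hc fun i => hf2 _ ((equivShrink x).symm i).2)

end

end Pool.Agent.Y587.GM
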