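import Mathlib
import Pool.Agent.Y587.GMSets

set_option autoImplicit false

namespace Pool.Agent.Y587.GM

open Cardinal Set FirstOrder

universe u

section closure

variable {T : Type u} {μ κ₀ : Cardinal.{u}}

theorem mk_biUnion_le' (hμ : ℵ₀ ≤ μ) {N : Set T} (hN : #N ≤ μ) {P : T → Set T}
    (hP : ∀ b, #(P b) ≤ μ) : #(⋃ b ∈ N, P b : Set T) ≤ μ := by
  rw [biUnion_eq_iUnion]
  exact (mk_iUnion_le _).trans (mul_le_of_le hμ hN (ciSup_le' fun b => hP _))

theorem mk_MM (hμ : ℵ₀ ≤ μ) (hκ : κ₀ ≤ μ) (z : PK κ₀ {N : Set T // #N ≤ μ}) :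
    #(MM z) ≤ μ := by
  have h : MM z = ⋃ N : z.1, N.1.1 := by
    ext t
    simp [MM]
  rw [h]
  exact (mk_iUnion_le _).trans (mul_le_of_le hμ (z.2.le.trans hκ) (ciSup_le' fun N => N.1.2))

theorem closed_ae {U : Ultrafilter (PK κ₀ {N : Set T // #N ≤ μ})} (hU : FineNormal κ₀ U)
    (c : {N : Set T // #N ≤ μ} → {N : Set T // #N ≤ μ} → {N : Set T // #N ≤ μ}) :
    {z : PK κ₀ {N : Set T // #N ≤ μ} | ∀ N ∈ z.1, ∀ N' ∈ z.1, c N N' ∈ z.1} ∈ U :=
  hU.normal _ fun N => hU.normal _ fun N' => hU.fine (c N N')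

theorem exists_mem_of_fin {z : PK κ₀ {N : Set T // #N ≤ μ}}
    (hdir : ∀ N ∈ z.1, ∀ N' ∈ z.1, ∃ N'' ∈ z.1, N.1 ⊆ N''.1 ∧ N'.1 ⊆ N''.1)
    (hne : z.1.Nonempty) : ∀ (n : ℕ) (w : Fin n → T), (∀ i, w i ∈ MM z) →
      ∃ N ∈ z.1, ∀ i, w i ∈ N.1 := by
  intro n
  induction n with
  | zero => exact fun w _ => ⟨hne.some, hne.some_mem, fun i => i.elim0⟩
  | succ n ih =>
    intro w hw
    obtain ⟨N, hN, hN'⟩ := ih (fun i => w i.castSucc) fun i => hw _
    obtain ⟨N₁, hN₁, h1⟩ := hw (Fin.last n)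
    obtain ⟨N₂, hN₂, h2, h3⟩ := hdir N hN N₁ hN₁
    refine ⟨N₂, hN₂, fun i => ?_⟩
    refine Fin.lastCases (h3 h1) (fun i => h2 (hN' i)) i

end closure

section transfer

variable (θ : Cardinal.{u})

/-- The elements of `H_θ`, as a type in the universe `u`. -/
abbrev TT : Type u := Shrink.{u} (HH θ)

/-- The set corresponding to an element. -/
noncomputable def val (t : TT θ) : ZFSet.{u} := ((equivShrink (HH θ)).symm t).1

variable {θ}

theorem val_inj : Function.Injective (val θ) := fun s t h => by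
  have := Subtype.ext (a1 := (equivShrink (HH θ)).symm s) (a2 := (equivShrink (HH θ)).symm t) h
  exact (equivShrink (HH θ)).symm.injective this

theorem val_mem (t : TT θ) : val θ t ∈ HH θ := ((equivShrink (HH θ)).symm t).2

theorem exists_val {x : ZFSet.{u}} (hx : x ∈ HH θ) : ∃ t : TT θ, val θ t = x :=
  ⟨equivShrink (HH θ) ⟨x, hx⟩, by simp [val]⟩

/-- the elements of an element -/
def ex (a : TT θ) : Set (TT θ) := {t | val θ t ∈ val θ a}

theorem image_ex (a : TT θ) : val θ '' ex a = (val θ a : Set ZFSet.{u}) := by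
  ext x
  constructor
  · rintro ⟨t, ht, rfl⟩
    exact ht
  · intro hx
    obtain ⟨t, rfl⟩ := exists_val (HH_trans (val_mem a) hx)
    exact ⟨t, hx, rfl⟩

theorem mk_ex (a : TT θ) : #(ex a) = (val θ a).card := by
  have h1 : Cardinal.lift.{u} #(val θ '' ex a) = Cardinal.lift.{u + 1} #(ex a) :=
    mk_image_eq_lift _ _ val_inj
  rw [image_ex] at h1
  have h2 : #((val θ a : ZFSet.{u}) : Set ZFSet.{u}) = Cardinal.lift.{u + 1} (val θ a).card :=
    ZFSet.cardinalMk_coe_sort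
  rw [h2] at h1
  have h3 := Cardinal.lift_injective.{u + 1} (by simpa using h1)
  exact h3.symm

theorem ex_inj : Function.Injective (ex (θ := θ)) := fun a b h => by
  apply val_inj
  have : (val θ a : Set ZFSet.{u}) = val θ b := by rw [← image_ex, ← image_ex, h]
  exact SetLike.coe_injective this

theorem ex_E1 (hθ : θ.IsRegular) {S : Set (TT θ)} (hS : #S < θ) : ∃ a, ex a = S := by
  let x : ZFSet.{u} := ZFSet.range fun t : S => val θ t.1
  have hx : ∀ y, y ∈ x ↔ ∃ t ∈ S, val θ t = y := by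
    intro y
    simp [x]
  have hc : x.card < θ := by
    have h1 := ZFSet.lift_card_range_le (f := fun t : S => val θ t.1)
    simp only [Cardinal.lift_id] at h1
    exact h1.trans_lt hS
  have hxH : x ∈ HH θ := HH_of_card hθ (fun y hy => by
    obtain ⟨t, -, rfl⟩ := (hx y).1 hy
    exact val_mem t) hc
  obtain ⟨a, ha⟩ := exists_val hxH
  refine ⟨a, Set.ext fun t => ?_⟩
  show val θ t ∈ val θ a ↔ t ∈ S
  rw [ha, hx]
  exact ⟨fun ⟨s, hs, h⟩ => val_inj h ▸ hs, fun h => ⟨t, h, rfl⟩⟩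

theorem ex_E2 (a : TT θ) {S : Set (TT θ)} (hS : S ⊆ ex a) : ∃ b, ex b = S := by
  let x : ZFSet.{u} := ZFSet.sep (fun y => ∃ t ∈ S, val θ t = y) (val θ a)
  have hx : ∀ y, y ∈ x ↔ y ∈ val θ a ∧ ∃ t ∈ S, val θ t = y := fun y => ZFSet.mem_sep
  obtain ⟨b, hb⟩ := exists_val (HH_sub (val_mem a) (y := x) fun y hy => ((hx y).1 hy).1)
  refine ⟨b, Set.ext fun t => ?_⟩
  show val θ t ∈ val θ b ↔ t ∈ S
  rw [hb, hx]
  exact ⟨fun ⟨_, s, hs, h⟩ => val_inj h ▸ hs, fun h => ⟨hS h, t, h, rfl⟩⟩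

end transfer

end Pool.Agent.Y587.GM
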