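import Mathlib
import Pool.Agent.Y587.GMFinal

set_option autoImplicit false

namespace Pool.Agent.Y587.GM

open Cardinal Set FirstOrder

universe u

/-- the code of the Skolem functions -/
abbrev Sk (θ : Cardinal.{u}) (N : Set (TT θ)) : Type u :=
  Σ p : (Σ n, LL.BoundedFormula Empty n), (Fin p.1 → N)

instance : Countable LL.Symbols := by
  have h1 : Countable (Σ n, LL.Functions n) := by
    have : IsEmpty (Σ n, LL.Functions n) := ⟨fun ⟨_, f⟩ => f.elim⟩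
    infer_instance
  have h2 : Countable (Σ n, LL.Relations n) := by
    have : Function.Surjective (fun o : Option ℕ => (match o with
      | none => ⟨2, Rel.mem⟩
      | some n => ⟨n, Rel.pred n⟩ : Σ n, Rel n)) := by
      rintro ⟨n, r⟩
      cases r with
      | mem => exact ⟨none, rfl⟩
      | pred n => exact ⟨some n, rfl⟩
    exact this.countable
  exact inferInstanceAs (Countable ((Σ n, LL.Functions n) ⊕ (Σ n, LL.Relations n)))

theorem mk_Sk {θ μ : Cardinal.{u}} (hμ : ℵ₀ ≤ μ) {N : Set (TT θ)} (hN : #N ≤ μ) :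
    #(Sk θ N) ≤ μ := by
  have h1 : ∀ p : (Σ n, LL.BoundedFormula Empty n), #(Fin p.1 → N) ≤ μ := by
    intro p
    have h2 : #(Fin p.1 → N) = #N ^ p.1 := by simp
    rw [h2]
    exact (pow_le_pow_left' hN p.1).trans (power_nat_le hμ)
  have h3 : #(Sk θ N) = Cardinal.sum fun p : (Σ n, LL.BoundedFormula Empty n) =>
      #(Fin p.1 → N) := mk_sigma _
  rw [h3]
  refine (sum_le_lift_mk_mul_iSup _).trans ?_
  refine mul_le_of_le hμ ?_ (ciSup_le' h1)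
  have h4 : #(Σ n, LL.BoundedFormula Empty n) ≤ ℵ₀ := mk_le_aleph0
  refine (Cardinal.lift_le.2 h4).trans ?_
  simpa using hμ

theorem exists_model {κ : ℕ → Cardinal.{u}} (hκ : ∀ n, Supercompact (κ n)) (hmono : StrictMono κ)
    {μ : Cardinal.{u}} (hμ : μ = ⨆ n, κ n) {θ : Cardinal.{u}} (hθ : θ.IsRegular)
    (hμθ : Order.succ μ < θ) (A : Set (Set ZFSet.{u})) :
    ∃ M : Set ZFSet.{u}, ElemSub θ A M ∧ #M ≤ Cardinal.lift.{u + 1} μ ∧
      (∀ α < μ.ord, α.toZFSet ∈ M) ∧ μ.ord.toZFSet ∈ M ∧ (Order.succ μ).ord.toZFSet ∈ M ∧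
      (∀ a ∈ M, a.card ≤ μ → ∀ x ∈ a, x ∈ M) ∧
      (∀ a ∈ M, 2 ^ a.card ≤ μ → ∀ x ⊆ a, x ∈ M) ∧ IsGuessing (Order.succ μ) M := by
  classical
  have hbdd : BddAbove (range κ) := bddAbove_of_small
  have hκμ : ∀ n, κ n ≤ μ := fun n => hμ ▸ le_ciSup hbdd n
  have hμ0 : ℵ₀ ≤ μ := (hκ 0).1.le.trans (hκμ 0)
  have hμlt : μ < θ := (Order.lt_succ μ).trans hμθ
  obtain ⟨U, hU⟩ := (hκ 0).2 {N : Set (TT θ) // #N ≤ μ}
  letI := str θ A
  have hne : Nonempty (HH θ) := ⟨⟨(0 : Ordinal.{u}).toZFSet, HH_ordinal hθ.ord_pos⟩⟩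
  -- Skolem functions
  have hsk : ∀ (N : Set (TT θ)) (s : Sk θ N), ∃ b : HH θ, ∀ (n : ℕ)
      (φ : LL.BoundedFormula Empty (n + 1)) (w : Fin (n + 1) → N), s = ⟨⟨n + 1, φ⟩, w⟩ →
        (∃ a : HH θ, φ.Realize default (Fin.snoc (fun i : Fin n =>
          (equivShrink (HH θ)).symm (w i.castSucc).1) a : _ → HH θ)) →
        φ.Realize default (Fin.snoc (fun i : Fin n =>
          (equivShrink (HH θ)).symm (w i.castSucc).1) b : _ → HH θ) := by
    rintro N ⟨⟨m, φ⟩, w⟩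
    cases m with
    | zero => exact ⟨hne.some, fun n φ' w' h => by cases h⟩
    | succ n =>
      by_cases h : ∃ a : HH θ, φ.Realize default (Fin.snoc (fun i : Fin n =>
          (equivShrink (HH θ)).symm (w i.castSucc).1) a : _ → HH θ)
      · obtain ⟨a, ha⟩ := h
        refine ⟨a, fun n' φ' w' h' _ => ?_⟩
        cases h'
        exact ha
      · refine ⟨hne.some, fun n' φ' w' h' h'' => ?_⟩
        cases h'
        exact absurd h'' h
  choose sk hsk using hsk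
  have hins : ∀ b t : TT θ, ∃ b', #(ex b) ≤ μ → ex b' = insert t (ex b) := by
    intro b t
    by_cases hb : #(ex b) ≤ μ
    · obtain ⟨b', hb'⟩ := ex_E1 hθ (S := insert t (ex b))
        (mk_insert_le.trans_lt (add_lt_of_lt hθ.aleph0_le (hb.trans_lt hμlt)
          (one_lt_aleph0.trans_le hθ.aleph0_le)))
      exact ⟨b', fun _ => hb'⟩
    · exact ⟨b, fun h => absurd h hb⟩
  choose ins hins using hins
  let P₁ : TT θ → Set (TT θ) := fun b => if #(ex b) ≤ μ then ex b else ∅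
  have hP₁ : ∀ b, #(P₁ b) ≤ μ := by
    intro b
    by_cases hb : #(ex b) ≤ μ
    · simp [P₁, hb]
    · simp [P₁, hb]
  let P₂ : TT θ → Set (TT θ) := fun b => if 2 ^ #(ex b) ≤ μ then {b' | ex b' ⊆ ex b} else ∅
  have hP₂ : ∀ b, #(P₂ b) ≤ μ := by
    intro b
    by_cases hb : 2 ^ #(ex b) ≤ μ
    · simp only [P₂, hb, if_true]
      refine le_trans ?_ hb
      rw [← mk_set]
      refine mk_le_of_injective (f := fun b' : {b' | ex b' ⊆ ex b} =>
        ({t : ex b | t.1 ∈ ex b'.1} : Set (ex b))) fun b' b'' h => ?_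
      refine Subtype.ext (ex_inj (Set.ext fun t => ?_))
      constructor
      · intro ht
        have h1 : (⟨t, b'.2 ht⟩ : ex b) ∈ {t : ex b | t.1 ∈ ex b'.1} := ht
        have h' : {t : ex b | t.1 ∈ ex b'.1} = {t : ex b | t.1 ∈ ex b''.1} := h
        rw [h'] at h1
        exact h1
      · intro ht
        have h1 : (⟨t, b''.2 ht⟩ : ex b) ∈ {t : ex b | t.1 ∈ ex b''.1} := ht
        have h' : {t : ex b | t.1 ∈ ex b'.1} = {t : ex b | t.1 ∈ ex b''.1} := h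
        rw [← h'] at h1
        exact h1
    · simp [P₂, hb]
  let C : Set (TT θ) → Set (TT θ) := fun N =>
    N ∪ (⋃ b ∈ N, P₁ b) ∪ (⋃ b ∈ N, P₂ b) ∪ (range fun p : N × N => ins p.1.1 p.2.1) ∪
      range fun s : Sk θ N => equivShrink (HH θ) (sk N s)
  have hC : ∀ N : Set (TT θ), #N ≤ μ → #(C N) ≤ μ := by
    intro N hN
    have hadd : ∀ {a b : Cardinal.{u}}, a ≤ μ → b ≤ μ → a + b ≤ μ := fun ha hb =>
      add_le_of_le hμ0 ha hb
    refine (mk_union_le _ _).trans (hadd ((mk_union_le _ _).trans (hadd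
      ((mk_union_le _ _).trans (hadd ((mk_union_le _ _).trans (hadd hN
        (mk_biUnion_le' hμ0 hN hP₁))) (mk_biUnion_le' hμ0 hN hP₂))) ?_)) ?_)
    · refine mk_range_le.trans ?_
      rw [mk_prod, lift_id]
      exact mul_le_of_le hμ0 hN hN
    · exact mk_range_le.trans (mk_Sk hμ0 hN)
  let c : {N : Set (TT θ) // #N ≤ μ} → {N : Set (TT θ) // #N ≤ μ} → {N : Set (TT θ) // #N ≤ μ} :=
    fun N N' => ⟨C (N.1 ∪ N'.1), hC _ ((mk_union_le _ _).trans (add_le_of_le hμ0 N.2 N'.2))⟩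
  have hclosed := closed_ae hU c
  -- consequences of closure
  have hNC : ∀ N : Set (TT θ), N ⊆ C N := fun N t ht => Or.inl (Or.inl (Or.inl (Or.inl ht)))
  have hcl : ∀ z : PK (κ 0) {N : Set (TT θ) // #N ≤ μ},
      (∀ N ∈ z.1, ∀ N' ∈ z.1, c N N' ∈ z.1) → ∀ b ∈ MM z, ∀ t ∈ MM z,
        ∃ N : {N : Set (TT θ) // #N ≤ μ}, b ∈ N.1 ∧ t ∈ N.1 ∧
          C N.1 ⊆ MM z := by
    rintro z hz b ⟨N, hN, hb⟩ t ⟨N', hN', ht⟩
    refine ⟨⟨N.1 ∪ N'.1, (mk_union_le _ _).trans (add_le_of_le hμ0 N.2 N'.2)⟩, Or.inl hb,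
      Or.inr ht, fun s hs => ⟨_, hz N hN N' hN', hs⟩⟩
  have hinsae : {z : PK (κ 0) {N : Set (TT θ) // #N ≤ μ} | ∀ b ∈ MM z, ∀ t ∈ MM z,
      #(ex b) ≤ μ → ∃ b' ∈ MM z, ex b' = insert t (ex b)} ∈ U := by
    refine Filter.mem_of_superset hclosed fun z hz b hb t ht hcard => ?_
    obtain ⟨N, hN1, hN2, hN3⟩ := hcl z hz b hb t ht
    exact ⟨ins b t, hN3 (Or.inl (Or.inr ⟨(⟨b, hN1⟩, ⟨t, hN2⟩), rfl⟩)), hins b t hcard⟩
  have hguess := guess_ae (ext := ex (θ := θ)) hκ hmono hμ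
    (fun S hS => ex_E1 hθ (hS.trans_lt hμlt)) (fun a S hS => ex_E2 a hS) hU hinsae
  -- the starting set
  have hord : ∀ α : Ordinal.{u}, α ≤ (Order.succ μ).ord → α.toZFSet ∈ HH θ := fun α hα =>
    HH_ordinal (hα.trans_lt (ord_lt_ord.2 hμθ))
  have hωμ : μ.ord ≤ (Order.succ μ).ord := ord_le_ord.2 (Order.le_succ μ)
  let N₀ : Set (TT θ) := (range fun α : μ.ord.ToType => equivShrink (HH θ)
      ⟨(Ordinal.typein (α := μ.ord.ToType) (· < ·) α).toZFSet,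
        hord _ ((Ordinal.typein_lt_self α).le.trans hωμ)⟩) ∪
      {equivShrink (HH θ) ⟨μ.ord.toZFSet, hord _ hωμ⟩,
        equivShrink (HH θ) ⟨(Order.succ μ).ord.toZFSet, hord _ le_rfl⟩}
  have hN₀ : #N₀ ≤ μ := by
    refine (mk_union_le _ _).trans (add_le_of_le hμ0 (mk_range_le.trans (by simp)) ?_)
    refine (mk_insert_le).trans (add_le_of_le hμ0 ?_ (one_le_aleph0.trans hμ0))
    rw [mk_singleton]
    exact one_le_aleph0.trans hμ0
  obtain ⟨z, ⟨hz1, hz2⟩, hz3⟩ := U.nonempty_of_mem (Filter.inter_mem (Filter.inter_mem hclosed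
    hguess) (hU.fine ⟨N₀, hN₀⟩))
  have hzC : ∀ b ∈ MM z, ∀ t ∈ MM z, ∃ N : {N : Set (TT θ) // #N ≤ μ}, b ∈ N.1 ∧ t ∈ N.1 ∧
          C N.1 ⊆ MM z := hcl z hz1
  have hN₀M : N₀ ⊆ MM z := fun t ht => ⟨_, hz3, ht⟩
  have hmemM : ∀ {x : ZFSet.{u}} (hx : x ∈ HH θ),
      equivShrink (HH θ) ⟨x, hx⟩ ∈ MM z → x ∈ val θ '' MM z := fun hx h =>
    ⟨_, h, by simp [val]⟩
  refine ⟨val θ '' MM z, ?_, ?_, ?_, ?_, ?_, ?_, ?_, ?_⟩
  · -- elementarity
    let S : LL.Substructure (HH θ) := ⟨{x | equivShrink (HH θ) x ∈ MM z}, fun f => f.elim⟩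
    have htv : ∀ (n : ℕ) (φ : LL.BoundedFormula Empty (n + 1)) (x : Fin n → S) (a : HH θ),
        φ.Realize default (Fin.snoc ((↑) ∘ x) a : _ → HH θ) →
          ∃ b : S, φ.Realize default (Fin.snoc ((↑) ∘ x) b : _ → HH θ) := by
      intro n φ x a ha
      have hdir : ∀ N ∈ z.1, ∀ N' ∈ z.1, ∃ N'' ∈ z.1, N.1 ⊆ N''.1 ∧ N'.1 ⊆ N''.1 :=
        fun N hN N' hN' => ⟨_, hz1 N hN N' hN',
          fun t ht => hNC _ (Or.inl ht), fun t ht => hNC _ (Or.inr ht)⟩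
      have hne' : (MM z).Nonempty := by
        refine ⟨_, hN₀M (Or.inr (Or.inl rfl))⟩
      obtain ⟨t₀, ht₀⟩ := hne'
      let w : Fin (n + 1) → TT θ := Fin.snoc (fun i => equivShrink (HH θ) (x i).1) t₀
      have hw : ∀ i, w i ∈ MM z := by
        intro i
        refine Fin.lastCases ?_ (fun i => ?_) i
        · simpa [w] using ht₀
        · simp only [w, Fin.snoc_castSucc]
          exact (x i).2
      obtain ⟨N, hN, hN'⟩ := exists_mem_of_fin hdir ⟨_, hz3⟩ (n + 1) w hw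
      let s : Sk θ (N.1 ∪ N.1) := ⟨⟨n + 1, φ⟩, fun i => ⟨w i, Or.inl (hN' i)⟩⟩
      have hwi : (fun i : Fin n => (equivShrink (HH θ)).symm (w i.castSucc)) = ((↑) ∘ x) := by
        funext i
        simp [w]
      have h1 := hsk (N.1 ∪ N.1) s n φ (fun i => ⟨w i, Or.inl (hN' i)⟩) rfl
      simp only [hwi] at h1
      refine ⟨⟨sk _ s, ?_⟩, h1 ⟨a, ha⟩⟩
      exact ⟨_, hz1 N hN N hN, Or.inr ⟨s, rfl⟩⟩
    refine ⟨⟨S, S.isElementary_of_exists htv⟩, ?_⟩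
    ext y
    constructor
    · rintro ⟨t, ht, rfl⟩
      refine ⟨(equivShrink (HH θ)).symm t, ?_, rfl⟩
      show equivShrink (HH θ) ((equivShrink (HH θ)).symm t) ∈ MM z
      simpa using ht
    · rintro ⟨x, hx, rfl⟩
      exact hmemM x.2 hx
  · have h1 : Cardinal.lift.{u} #(val θ '' MM z) = Cardinal.lift.{u + 1} #(MM z) :=
      mk_image_eq_lift _ _ val_inj
    have h2 : #(val θ '' MM z) = Cardinal.lift.{u + 1} #(MM z) := by
      rw [← h1]
      exact (Cardinal.lift_id'.{u, u + 1} _).symm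
    rw [h2]
    exact Cardinal.lift_le.2 (mk_MM hμ0 (hκμ 0) z)
  · intro α hα
    refine hmemM (hord _ (hα.le.trans hωμ)) (hN₀M (Or.inl ⟨Ordinal.ToType.mk ⟨α, hα⟩, ?_⟩))
    simp only [EmbeddingLike.apply_eq_iff_eq, Subtype.mk.injEq]
    exact congrArg Ordinal.toZFSet
      (congrArg Subtype.val ((Ordinal.ToType.mk (o := μ.ord)).symm_apply_apply ⟨α, hα⟩))
  · exact hmemM _ (hN₀M (Or.inr (Or.inl rfl)))
  · exact hmemM _ (hN₀M (Or.inr (Or.inr rfl)))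
  · rintro _ ⟨a, ha, rfl⟩ hcard x hx
    obtain ⟨t, rfl⟩ := exists_val (HH_trans (val_mem a) hx)
    obtain ⟨N, hN1, -, hN3⟩ := hzC a ha a ha
    refine ⟨t, hN3 (Or.inl (Or.inl (Or.inl (Or.inr (mem_biUnion hN1 ?_))))), rfl⟩
    have h1 : #(ex a) ≤ μ := by rw [mk_ex]; exact hcard
    show t ∈ if #(ex a) ≤ μ then ex a else ∅
    rw [if_pos h1]
    exact hx
  · rintro _ ⟨a, ha, rfl⟩ hcard x hx
    obtain ⟨t, rfl⟩ := exists_val (HH_sub (val_mem a) hx)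
    obtain ⟨N, hN1, -, hN3⟩ := hzC a ha a ha
    refine ⟨t, hN3 (Or.inl (Or.inl (Or.inr (mem_biUnion hN1 ?_)))), rfl⟩
    have h1 : 2 ^ #(ex a) ≤ μ := by rw [mk_ex]; exact hcard
    show t ∈ if 2 ^ #(ex a) ≤ μ then {b' | ex b' ⊆ ex a} else ∅
    rw [if_pos h1]
    exact fun s hs => hx hs
  · -- guessing
    rintro _ ⟨X, hX, rfl⟩ d hd happ
    obtain ⟨e, he, he1, he2⟩ := hz2 X hX {t | val θ t ∈ d} (fun t ht => hd ht) (by
      intro a ha hcard
      obtain ⟨c, hc, hc'⟩ := happ (val θ a) ⟨a, ha, rfl⟩ (by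
        rw [← mk_ex]
        exact Order.lt_succ_iff.2 hcard)
      refine ⟨c, hc, Set.ext fun t => ?_⟩
      show val θ t ∈ val θ c ↔ val θ t ∈ d ∧ val θ t ∈ val θ a
      rw [hc', ZFSet.mem_inter])
    refine ⟨val θ e, ⟨e, he, rfl⟩, fun y hy => ?_, ?_⟩
    · obtain ⟨t, rfl⟩ := exists_val (HH_trans (val_mem e) hy)
      exact he1 hy
    · rintro _ ⟨t, ht, rfl⟩
      exact (he2 t ht).symm

end Pool.Agent.Y587.GM
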