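import Mathlib
import Pool.Agent.Y587.GMModel

set_option autoImplicit false

namespace Pool.Agent.Y587.GM

open Cardinal Set FirstOrder

universe u

theorem kappaIs_of {μ : Cardinal.{u}} {M : Set ZFSet.{u}}
    (h1 : #M ≤ Cardinal.lift.{u + 1} μ) (h2 : (Order.succ μ).ord.toZFSet ∈ M)
    (h3 : ∀ a ∈ M, a.card ≤ μ → ∀ x ∈ a, x ∈ M) : KappaIs M (Order.succ μ) := by
  refine ⟨h2, ?_, fun α hα hαM => h3 _ hαM ?_⟩
  · by_contra hcon
    push Not at hcon
    have h4 : (((Order.succ μ).ord.toZFSet : ZFSet.{u}) : Set ZFSet.{u}) ⊆ M := hcon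
    have h5 := (mk_le_mk_of_subset h4).trans h1
    have h6 : #(((Order.succ μ).ord.toZFSet : ZFSet.{u}) : Set ZFSet.{u}) =
        Cardinal.lift.{u + 1} ((Order.succ μ).ord.toZFSet : ZFSet.{u}).card :=
      ZFSet.cardinalMk_coe_sort
    rw [h6, Cardinal.lift_le, Ordinal.card_toZFSet, card_ord] at h5
    exact absurd h5 (not_le.2 (Order.lt_succ μ))
  · rw [Ordinal.card_toZFSet]
    exact Order.lt_succ_iff.1 (lt_ord.1 hα)

theorem singular {κ : ℕ → Cardinal.{u}} (hκ : ∀ n, Supercompact (κ n)) (hmono : StrictMono κ) :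
    ℵ₀ < (⨆ n, κ n) ∧ ¬ (⨆ n, κ n).IsRegular := by
  have hbdd : BddAbove (range κ) := bddAbove_of_small
  have hlt : ∀ n, κ n < ⨆ n, κ n := fun n =>
    (hmono (Nat.lt_succ_self n)).trans_le (le_ciSup hbdd (n + 1))
  have h0 : ℵ₀ < ⨆ n, κ n := (hκ 0).1.trans (hlt 0)
  refine ⟨h0, fun hreg => ?_⟩
  have h1 : (⨆ n, κ n) < ⨆ n, κ n := by
    conv_lhs => rw [← Equiv.ulift.{u, 0}.surjective.iSup_comp]
    refine Cardinal.iSup_lt_of_lt_cof_ord ?_ fun i => hlt _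
    rw [hreg.cof_ord]
    simpa using h0
  exact h1.false

end Pool.Agent.Y587.GM
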