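import Mathlib
import Pool.Agent.W872.CC.Defs

/-!
# The product of Prikry forcing and Cohen forcing, and the reals computed from a set and a function

The forcing relation is the one of `Pool.Agent.Helper669.Forcing`: a sentence of the forcing
language is the set of the conditions which force it, and a name for a subset of a ground model
set `X` is a map `X → Set P`.
-/

set_option autoImplicit false

namespace Pool.Agent.Y587.PR

open Cardinal Pool.Agent.Helper669.Forcing Pool.Agent.W872.CC

/-- `Ext A s t`: the finite sequence `t` extends `s`, and each new entry `a` of `t` belongs to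
the set which `A` attaches to the sequence of the entries before `a`. Finite sequences are lists
whose head is the last entry. -/
inductive Ext {K : Type} (A : List K → Set K) (s : List K) : List K → Prop
  | refl : Ext A s s
  | step (t : List K) (a : K) : Ext A s t → a ∈ A t → Ext A s (a :: t)

/-- The conditions of the product of the Prikry forcing (with trees) for the ultrafilter `U` and
the Cohen forcing of all finite functions from `ℕ × L` to the set of two elements. -/
structure Cond {K : Type} (U : Ultrafilter K) (L : Type) : Type where
  stem : List K
  tree : List K → Set K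
  coh : ℕ × L → Option Bool
  tree_mem : ∀ t, tree t ∈ U
  coh_fin : {x | coh x ≠ none}.Finite

theorem Ext.mono {K : Type} {A B : List K → Set K} (h : ∀ t, A t ⊆ B t) {s t : List K}
    (ht : Ext A s t) : Ext B s t := by
  induction ht with
  | refl => exact Ext.refl
  | step t a _ ha ih => exact Ext.step t a ih (h t ha)

theorem Ext.trans {K : Type} {A : List K → Set K} {s t u : List K} (h : Ext A s t)
    (h' : Ext A t u) : Ext A s u := by
  induction h' with
  | refl => exact h
  | step u a _ ha ih => exact Ext.step u a ih ha

instance {K : Type} (U : Ultrafilter K) (L : Type) : Preorder (Cond U L) where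
  le q p := Ext p.tree p.stem q.stem ∧ (∀ t, q.tree t ⊆ p.tree t) ∧
    ∀ x b, p.coh x = some b → q.coh x = some b
  le_refl p := ⟨Ext.refl, fun _ => Set.Subset.rfl, fun _ _ h => h⟩
  le_trans r q p h h' := ⟨h'.1.trans (h.1.mono h'.2.1), fun t => (h.2.1 t).trans (h'.2.1 t),
    fun x b hb => h.2.2 x b (h'.2.2 x b hb)⟩

/-- The name of the generic object, a subset of the disjoint union of `ℕ × K` and `ℕ × L`: the
first part is the graph of the Prikry sequence, the second part is the Cohen subset. -/
def gen {K : Type} (U : Ultrafilter K) (L : Type) : (ℕ × K) ⊕ (ℕ × L) → Set (Cond U L)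
  | Sum.inl z => {p | p.stem.reverse[z.1]? = some z.2}
  | Sum.inr z => {p | p.coh z = some true}

/-- The same subset, transferred to the set `L` by the bijection `e` of the ground model. -/
def genSub {K L : Type} (U : Ultrafilter K) (e : (ℕ × K) ⊕ (ℕ × L) ≃ L) : L → Set (Cond U L) :=
  fun y => gen U L (e.symm y)

/-- Let `A` name a subset of `L`, let `e` be a bijection of the ground model between the disjoint
union of `ℕ × K` and `ℕ × L` and the set `L`, and let `f : K → L` be a function of the ground
model. This is the name of the real which consists of all `n` such that for some `a : K` the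
points `e (n, a)` and `e (n, f a)` belong to `A`. -/
def real {P : Type} [Preorder P] {K L : Type} (e : (ℕ × K) ⊕ (ℕ × L) ≃ L) (A : L → Set P)
    (f : K → L) : ℕ → Set P :=
  fun n => fex fun a : K =>
    fand (meets (A (e (Sum.inl (n, a))))) (meets (A (e (Sum.inr (n, f a)))))

end Pool.Agent.Y587.PR
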