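import Mathlib
import Pool.Agent.Y587.PRDefs
import Pool.Agent.Y587.CBFinal

set_option autoImplicit false

namespace Pool.Agent.Y587.PR

open Cardinal Pool.Agent.Helper669.Forcing Pool.Agent.W872.CC Pool.Agent.Y587.CB

/-! ### Finite functions -/

/-- two incompatible functions -/
def Inc {X : Type} (c d : X → Option Bool) : Prop :=
  ∃ x b b', c x = some b ∧ d x = some b' ∧ b ≠ b'

theorem finite_of_inc {X : Type} (n : ℕ) : ∀ S : Set (X → Option Bool),
    (∀ c ∈ S, {x | c x ≠ none}.Finite ∧ {x | c x ≠ none}.ncard ≤ n) →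
    (∀ c ∈ S, ∀ d ∈ S, c ≠ d → Inc c d) → S.Finite := by
  classical
  induction n with
  | zero =>
    intro S hS hS'
    have h0 : ∀ c ∈ S, ∀ x, c x = none := by
      intro c hc x
      by_contra hx
      have h1 := hS c hc
      have h2 : {x | c x ≠ none}.ncard = 0 := Nat.le_zero.1 h1.2
      rw [Set.ncard_eq_zero h1.1] at h2
      have : x ∈ ({x | c x ≠ none} : Set X) := hx
      rw [h2] at this
      exact this
    refine Set.Subsingleton.finite fun c hc d hd => ?_
    funext x
    rw [h0 c hc x, h0 d hd x]
  | succ n ih =>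
    intro S hS hS'
    rcases S.eq_empty_or_nonempty with rfl | ⟨c0, hc0⟩
    · exact Set.finite_empty
    have h1 : S ⊆ {c0} ∪ ⋃ x ∈ {x | c0 x ≠ none}, ⋃ b ∈ (Set.univ : Set Bool),
        {d | d ∈ S ∧ d x = some b} := by
      intro d hd
      by_cases h : d = c0
      · exact Or.inl h
      · right
        obtain ⟨x, b, b', hb, hb', _⟩ := hS' c0 hc0 d hd (Ne.symm h)
        refine Set.mem_biUnion (x := x) (show c0 x ≠ none by rw [hb]; simp)
          (Set.mem_biUnion (x := b') (Set.mem_univ _) ⟨hd, hb'⟩)
    refine Set.Finite.subset ((Set.finite_singleton c0).union ?_) h1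
    refine Set.Finite.biUnion (hS c0 hc0).1 fun x _ => Set.Finite.biUnion Set.finite_univ
      fun b _ => ?_
    have hinj : Set.InjOn (fun d : X → Option Bool => Function.update d x none)
        {d | d ∈ S ∧ d x = some b} := by
      intro d hd d' hd' h
      funext y
      by_cases hy : y = x
      · rw [hy, hd.2, hd'.2]
      · have := congrFun h y
        simpa [Function.update_of_ne hy] using this
    refine Set.Finite.of_finite_image (ih _ ?_ ?_) hinj
    · rintro _ ⟨d, hd, rfl⟩
      have hsub : {y | Function.update d x none y ≠ none} = {y | d y ≠ none} \ {x} := by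
        ext y
        by_cases hy : y = x
        · subst hy; simp
        · simp [Function.update_of_ne hy, hy]
      have hx : x ∈ ({y | d y ≠ none} : Set X) := by
        show d x ≠ none
        rw [hd.2]; simp
      refine ⟨?_, ?_⟩
      · show ({y | Function.update d x none y ≠ none} : Set X).Finite
        rw [hsub]
        exact (hS d hd.1).1.subset Set.diff_subset
      · show ({y | Function.update d x none y ≠ none} : Set X).ncard ≤ n
        rw [hsub, Set.ncard_diff_singleton_of_mem hx]
        have := (hS d hd.1).2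
        omega
    · rintro _ ⟨d, hd, rfl⟩ _ ⟨d', hd', rfl⟩ hne
      have hdd : d ≠ d' := fun h => hne (by rw [h])
      obtain ⟨y, c, c', hc, hc', hcc⟩ := hS' d hd.1 d' hd'.1 hdd
      have hy : y ≠ x := by
        rintro rfl
        rw [hd.2] at hc
        rw [hd'.2] at hc'
        exact hcc ((Option.some.inj hc).symm.trans (Option.some.inj hc'))
      exact ⟨y, c, c', by simpa [Function.update_of_ne hy] using hc,
        by simpa [Function.update_of_ne hy] using hc', hcc⟩

theorem countable_of_inc {X Y : Type} (S : Set Y) (c : Y → X → Option Bool)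
    (hfin : ∀ y ∈ S, {x | c y x ≠ none}.Finite)
    (hinc : ∀ y ∈ S, ∀ z ∈ S, y ≠ z → Inc (c y) (c z)) : S.Countable := by
  have hirr : ∀ d : X → Option Bool, ¬ Inc d d := by
    rintro d ⟨x, b, b', hb, hb', hne⟩
    rw [hb] at hb'
    exact hne (Option.some.inj hb')
  have hinj : ∀ y ∈ S, ∀ z ∈ S, c y = c z → y = z := by
    intro y hy z hz h
    by_contra hne
    have := hinc y hy z hz hne
    rw [h] at this
    exact hirr _ this
  have h1 : S ⊆ ⋃ n : ℕ, {y | y ∈ S ∧ {x | c y x ≠ none}.ncard ≤ n} := fun y hy =>
    Set.mem_iUnion.2 ⟨_, hy, le_rfl⟩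
  refine Set.Countable.mono h1 (Set.countable_iUnion fun n => Set.Finite.countable ?_)
  refine Set.Finite.of_finite_image (f := c) (finite_of_inc n _ ?_ ?_) ?_
  · rintro _ ⟨y, hy, rfl⟩
    exact ⟨hfin y hy.1, hy.2⟩
  · rintro _ ⟨y, hy, rfl⟩ _ ⟨z, hz, rfl⟩ hne
    exact hinc y hy.1 z hz.1 fun h => hne (by rw [h])
  · intro y hy z hz h
    exact hinj y hy.1 z hz.1 h

/-! ### Conditions -/

section

variable {K L : Type} {U : Ultrafilter K}

/-- change the tree and the Cohen part -/
def Cond.mk' (s : List K) (A : List K → Set K) (hA : ∀ t, A t ∈ U) (c : ℕ × L → Option Bool)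
    (hc : {x | c x ≠ none}.Finite) : Cond U L := ⟨s, A, c, hA, hc⟩

/-- the common extension of two conditions with the same stem and compatible Cohen parts -/
noncomputable def Cond.meet (p q : Cond U L) : Cond U L where
  stem := p.stem
  tree := fun t => p.tree t ∩ q.tree t
  coh := fun x => (p.coh x).or (q.coh x)
  tree_mem := fun t => Filter.inter_mem (p.tree_mem t) (q.tree_mem t)
  coh_fin := (p.coh_fin.union q.coh_fin).subset fun x hx => by
    by_contra hcon
    simp only [Set.mem_union, Set.mem_setOf_eq, not_or, not_not] at hcon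
    refine hx ?_
    rw [hcon.1, hcon.2]
    rfl

theorem Cond.meet_le_left (p q : Cond U L) : p.meet q ≤ p :=
  ⟨Ext.refl, fun _ => Set.inter_subset_left, fun x b h => by
    show (p.coh x).or (q.coh x) = some b
    rw [h]; rfl⟩

theorem Cond.meet_le_right {p q : Cond U L} (hs : p.stem = q.stem) (hc : ¬ Inc p.coh q.coh) :
    p.meet q ≤ q :=
  ⟨by
    show Ext q.tree q.stem p.stem
    rw [hs]; exact Ext.refl, fun _ => Set.inter_subset_right, fun x b h => by
    show (p.coh x).or (q.coh x) = some b
    cases hp : p.coh x with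
    | none => rw [h]; rfl
    | some b' =>
      by_cases hb : b' = b
      · rw [hb]; rfl
      · exact absurd ⟨x, b', b, hp, h, hb⟩ hc⟩

/-- The possible values of a name for a function, decided by conditions with a given stem. -/
def Vals {X Y : Type} (R : X → Y → Set (Cond U L)) (p : Cond U L) (x : X) (t : List K) : Set Y :=
  {y | ∃ q ≤ p, q.stem = t ∧ q ∈ meets (R x y)}

theorem countable_Vals {X Y : Type} {R : X → Y → Set (Cond U L)} {p : Cond U L}
    (hR : p ∈ IsFun R) (x : X) (t : List K) : (Vals R p x t).Countable := by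
  classical
  have h1 : ∀ y : Y, ∃ q : Cond U L, y ∈ Vals R p x t → q ≤ p ∧ q.stem = t ∧
      q ∈ meets (R x y) := by
    intro y
    by_cases h : y ∈ Vals R p x t
    · obtain ⟨q, hq⟩ := h
      exact ⟨q, fun _ => hq⟩
    · exact ⟨p, fun h' => absurd h' h⟩
  choose q hq using h1
  refine countable_of_inc _ (fun y => (q y).coh) (fun y _ => (q y).coh_fin) ?_
  intro y hy z hz hne
  by_contra hcon
  apply hne
  obtain ⟨hy1, hy2, hy3⟩ := hq y hy
  obtain ⟨hz1, hz2, hz3⟩ := hq z hz
  have hl := (q y).meet_le_left (q z)
  have hr := Cond.meet_le_right (hy2.trans hz2.symm) hcon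
  exact IsFun.unique (down_IsFun R _ hR _ (hl.trans hy1)) (down_meets _ _ hy3 _ hl)
    (down_meets _ _ hz3 _ hr)

/-! ### Homogeneous trees -/

theorem Ext.length_le {A : List K → Set K} {s t : List K} (h : Ext A s t) :
    s.length ≤ t.length := by
  induction h with
  | refl => exact le_rfl
  | step t a _ _ ih => exact ih.trans (Nat.le_succ _)

theorem exists_homogeneous (hU : Measure U) {C : Type} (hC : #C < #K) (g : List K → C) :
    ∃ (B : List K → Set K) (v : List K → ℕ → C), (∀ t, B t ∈ U) ∧
      ∀ s t, Ext B s t → g t = v s (t.length - s.length) := by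
  classical
  have h1 : ∀ h : K → C, ∃ c, {a | h a = c} ∈ U := by
    intro h
    obtain ⟨c, hc⟩ := hU.const hC Filter.univ_mem (fun a c => h a = c) fun a _ => ⟨_, rfl⟩
    exact ⟨c, Filter.mem_of_superset hc fun a ha => ha.2⟩
  choose val hval using h1
  let G : ℕ → List K → C := fun n => Nat.rec g (fun _ G t => val fun a => G (a :: t)) n
  have hG : ∀ n t, G (n + 1) t = val fun a => G n (a :: t) := fun n t => rfl
  refine ⟨fun t => ⋂ n, {a | G n (a :: t) = G (n + 1) t}, fun s n => G n s, fun t =>
    hU.countable _ fun n => ?_, ?_⟩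
  · rw [hG]
    exact hval _
  · intro s t ht
    have key : ∀ k, G k t = G (k + (t.length - s.length)) s := by
      induction ht with
      | refl => intro k; simp
      | step t a ht ha ih =>
        intro k
        have h2 : G k (a :: t) = G (k + 1) t := Set.mem_iInter.1 ha k
        rw [h2, ih (k + 1)]
        have := ht.length_le
        have h3 : k + 1 + (t.length - s.length) = k + ((a :: t).length - s.length) := by
          rw [List.length_cons]
          omega
        rw [h3]
    have := key 0
    rwa [zero_add] at this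

end

end Pool.Agent.Y587.PR
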