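import Mathlib
import Pool.Agent.Y587.PRBasic

set_option autoImplicit false

namespace Pool.Agent.Y587.PR

open Cardinal Pool.Agent.Helper669.Forcing Pool.Agent.W872.CC Pool.Agent.Y587.CB

section

variable {K L : Type} {U : Ultrafilter K}

theorem mk_iUnion_le_of_countable {ι α : Type} (f : ι → Set α) (h : ∀ i, (f i).Countable) :
    #(⋃ i, f i) ≤ #ι * ℵ₀ := by
  refine mk_iUnion_le_sum_mk.trans ((sum_le_sum _ _ fun i =>
    le_aleph0_iff_set_countable.2 (h i)).trans ?_)
  simp

/-- make the tree smaller -/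
def Cond.shrink (p : Cond U L) (B : List K → Set K) (hB : ∀ t, B t ∈ U) : Cond U L where
  stem := p.stem
  tree := fun t => p.tree t ∩ B t
  coh := p.coh
  tree_mem := fun t => Filter.inter_mem (p.tree_mem t) (hB t)
  coh_fin := p.coh_fin

theorem Cond.shrink_le (p : Cond U L) (B : List K → Set K) (hB : ∀ t, B t ∈ U) :
    p.shrink B hB ≤ p := ⟨Ext.refl, fun _ => Set.inter_subset_left, fun _ _ h => h⟩

theorem exists_of_onto {μ ν : Cardinal.{0}} {p : Cond U L} {R : μ.out → ν.out → Set (Cond U L)}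
    (hO : p ∈ IsOnto R) (y : ν.out) : ∃ x, ∃ q ≤ p, q ∈ meets (R x y) := by
  obtain ⟨q, hq, x, hx⟩ := mem_fex.1 (hO y) p le_rfl
  exact ⟨x, q, hq, hx⟩

theorem no_onto (hU : Measure U) {μ ν : Cardinal.{0}} (hμν : μ < ν) (hν : ℵ₀ < ν)
    (p : Cond U L) (R : μ.out → ν.out → Set (Cond U L)) (hF : p ∈ IsFun R)
    (hO : p ∈ IsOnto R) : False := by
  classical
  by_cases hK : #K < ν
  · have h1 : (Set.univ : Set ν.out) ⊆ ⋃ z : μ.out × List K, Vals R p z.1 z.2 := by
      intro y _
      obtain ⟨x, q, hq, hx⟩ := exists_of_onto hO y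
      exact Set.mem_iUnion.2 ⟨(x, q.stem), q, hq, rfl, hx⟩
    have h2 := (mk_le_mk_of_subset h1).trans
      (mk_iUnion_le_of_countable _ fun z => countable_Vals hF z.1 z.2)
    rw [mk_univ, mk_out, mk_prod, lift_id, lift_id, mk_out] at h2
    have : Infinite K := infinite_iff.2 hU.unc.le
    rw [mk_list_eq_mk] at h2
    exact absurd h2 (not_le.2 (mul_lt_of_lt hν.le (mul_lt_of_lt hν.le hμν hK) hν))
  · rw [not_lt] at hK
    have hm : max μ ℵ₀ < ν := max_lt hμν hν
    obtain ⟨W, hW⟩ := le_mk_iff_exists_set.1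
      (show Order.succ (max μ ℵ₀) ≤ #ν.out by rw [mk_out]; exact Order.succ_le_of_lt hm)
    have hWK : #W < #K := by
      rw [hW]
      exact (Order.succ_le_of_lt (cantor _)).trans_lt
        (hU.strongLimit.isStrongPrelimit (hm.trans_le hK))
    have hC : #(Set W) < #K := by
      rw [mk_set]
      exact hU.strongLimit.isStrongPrelimit hWK
    have h1 := fun x : μ.out => exists_homogeneous hU hC
      (fun t => {w : W | w.1 ∈ Vals R p x t})
    choose B v hB hv using h1
    have hq : ∀ t, (⋂ x, B x t) ∈ U := fun t => hU.complete _ _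
      (by rw [mk_out]; exact hμν.trans_le hK) fun x => hB x t
    set q := p.shrink (fun t => ⋂ x, B x t) hq with hqdef
    have hqp : q ≤ p := p.shrink_le _ hq
    have h2 : (Set.univ : Set W) ⊆ ⋃ z : μ.out × ℕ,
        (if (v z.1 p.stem z.2).Countable then v z.1 p.stem z.2 else ∅ : Set W) := by
      intro y _
      obtain ⟨x, r, hr, hx⟩ := exists_of_onto (down_IsOnto R _ hO _ hqp) y.1
      have h3 : Ext (B x) p.stem r.stem := Ext.mono (A := q.tree)
        (fun t => Set.inter_subset_right.trans (Set.iInter_subset _ x)) hr.1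
      have h4 := hv x p.stem r.stem h3
      refine Set.mem_iUnion.2 ⟨(x, r.stem.length - p.stem.length), ?_⟩
      show y ∈ (if (v x p.stem (r.stem.length - p.stem.length)).Countable then
        v x p.stem (r.stem.length - p.stem.length) else ∅ : Set W)
      rw [← h4, if_pos]
      · exact ⟨r, hr.trans hqp, rfl, hx⟩
      · exact (countable_Vals hF x r.stem).preimage Subtype.val_injective
    have h5 := (mk_le_mk_of_subset h2).trans (mk_iUnion_le_of_countable _ fun z => by
      by_cases h : (v z.1 p.stem z.2).Countable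
      · rw [if_pos h]; exact h
      · rw [if_neg h]; exact Set.countable_empty)
    rw [mk_univ, hW, mk_prod, lift_id, lift_id, mk_out, mk_nat] at h5
    refine absurd h5 (not_le.2 ?_)
    have h6 : ℵ₀ ≤ Order.succ (max μ ℵ₀) := (le_max_right _ _).trans (Order.le_succ _)
    have h7 : ℵ₀ < Order.succ (max μ ℵ₀) := (le_max_right _ _).trans_lt (Order.lt_succ _)
    have h8 : μ < Order.succ (max μ ℵ₀) := (le_max_left _ _).trans_lt (Order.lt_succ _)
    exact mul_lt_of_lt h6 (mul_lt_of_lt h6 h8 h7) h7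

/-- All uncountable cardinals are preserved. -/
theorem mem_CardinalsPreserved (hU : Measure U) (p : Cond U L) :
    p ∈ (CardinalsPreserved.{0, 0} (Cond U L)) := by
  intro μ ν hμν hν q _ hq
  obtain ⟨r, _, R, hR⟩ := mem_fex.1 hq q le_rfl
  exact no_onto hU hμν hν r R hR.1 hR.2

end

end Pool.Agent.Y587.PR
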