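import Mathlib
import Pool.Agent.Y587.PRCard

set_option autoImplicit false

namespace Pool.Agent.Y587.PR

open Cardinal Pool.Agent.Helper669.Forcing Pool.Agent.W872.CC Pool.Agent.Y587.CB

section

variable {K L : Type} {U : Ultrafilter K}

/-- there is a function which is unbounded in the cardinality of `L` modulo `U` -/
theorem exists_unbounded (hU : Measure U) (hcof : (#L).ord.cof = #K) :
    ∃ h : K → (#L).ord.ToType, ∀ i, {a | i < h a} ∈ U := by
  obtain ⟨S, hS, hS'⟩ := Order.exists_cof_eq (#L).ord.ToType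
  rw [Ordinal.cof_toType, hcof] at hS'
  obtain ⟨g⟩ := Cardinal.eq.1 hS'
  obtain ⟨e⟩ : Nonempty (K ≃ (#K).ord.ToType) := Cardinal.eq.1 (by simp)
  have hsmall : ∀ a : K, #({b : K | e b ≤ e a} : Set K) < #K := by
    intro a
    have h2 : ({b : K | e b ≤ e a} : Set K) = e ⁻¹' (Set.Iic (e a)) := rfl
    rw [h2, mk_preimage_equiv]
    have h4 : (Set.Iic (e a) : Set (#K).ord.ToType) = insert (e a) (Set.Iio (e a)) := by
      ext y
      simp [le_iff_eq_or_lt]
    rw [h4]
    refine mk_insert_le.trans_lt (add_lt_of_lt hU.unc.le ?_ (one_lt_aleph0.trans hU.unc))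
    have := mk_Iio_lt (e a) (by simp)
    simpa using this
  have h1 : ∀ a : K, ∃ x : (#L).ord.ToType, ∀ b, e b ≤ e a → (g.symm b).1 < x := by
    intro a
    by_contra hcon
    push Not at hcon
    have h2 : IsCofinal ((fun b => (g.symm b).1) '' {b : K | e b ≤ e a}) := by
      intro x
      obtain ⟨b, hb, hb'⟩ := hcon x
      exact ⟨_, ⟨b, hb, rfl⟩, hb'⟩
    have h3 := (Order.cof_le h2).trans mk_image_le
    rw [Ordinal.cof_toType, hcof] at h3
    exact absurd h3 (not_le.2 (hsmall a))
  choose h hh using h1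
  refine ⟨h, fun i => ?_⟩
  obtain ⟨y, hy, hiy⟩ := hS i
  have h2 : {a : K | e a ≤ e (g ⟨y, hy⟩)}ᶜ ∈ U :=
    Ultrafilter.compl_mem_iff_notMem.2 (hU.card_lt_notMem (hsmall _))
  refine Filter.mem_of_superset h2 fun a ha => ?_
  have ha' : ¬ e a ≤ e (g ⟨y, hy⟩) := ha
  have h3 : e (g ⟨y, hy⟩) ≤ e a := (not_le.1 ha').le
  have h4 := hh a (g ⟨y, hy⟩) h3
  simp only [Equiv.symm_apply_apply] at h4
  exact hiy.trans_lt h4

theorem exists_avoid (hU : Measure U) (hcof : (#L).ord.cof = #K) (S : Set (K → L))
    (hS : #S ≤ #L) : ∃ f : K → L, ∀ g ∈ S, {a | f a = g a} ∉ U := by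
  obtain ⟨h, hh⟩ := exists_unbounded hU hcof
  have h0 : #S ≤ #((#L).ord.ToType) := by simpa using hS
  obtain ⟨ι⟩ := (Cardinal.le_def _ _).1 h0
  have h1 : ∀ a : K, ∃ y : L, ∀ g : S, ι g < h a → g.1 a ≠ y := by
    intro a
    by_contra hcon
    push Not at hcon
    have h2 : (Set.univ : Set L) ⊆ (fun g : S => g.1 a) '' {g | ι g < h a} := by
      intro y _
      obtain ⟨g, hg, hg'⟩ := hcon y
      exact ⟨g, hg, hg'⟩
    have h3 := (mk_le_mk_of_subset h2).trans mk_image_le
    have h4 : #({g | ι g < h a} : Set S) ≤ #(Set.Iio (h a)) :=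
      mk_le_of_injective (f := fun g : ({g | ι g < h a} : Set S) => (⟨ι g.1, g.2⟩ : Set.Iio (h a)))
        fun g g' hgg => Subtype.ext (ι.injective (congrArg Subtype.val hgg))
    have h5 := mk_Iio_lt (h a) (by simp)
    rw [mk_univ] at h3
    have h6 := (h3.trans h4).trans_lt h5
    simp at h6
  choose f hf using h1
  refine ⟨f, fun g hg hcon => ?_⟩
  obtain ⟨a, ha, ha'⟩ := U.nonempty_of_mem (Filter.inter_mem hcon (hh (ι ⟨g, hg⟩)))
  exact hf a ⟨g, hg⟩ ha' ha.symm

/-- there are more than `#L` functions which are pairwise different modulo `U` -/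
theorem exists_family (hU : Measure U) (hcof : (#L).ord.cof = #K) :
    ∃ F : (Order.succ #L).out → K → L, ∀ i j, i ≠ j → {a | F i a = F j a} ∉ U := by
  obtain ⟨M, hM⟩ := zorn_subset
    {S : Set (K → L) | ∀ f ∈ S, ∀ g ∈ S, f ≠ g → {a | f a = g a} ∉ U} (by
      intro c hc hchain
      refine ⟨⋃₀ c, ?_, fun s hs => Set.subset_sUnion_of_mem hs⟩
      rintro f ⟨s, hs, hfs⟩ g ⟨t, ht, hgt⟩ hne
      rcases hchain.total hs ht with h | h
      · exact hc ht f (h hfs) g hgt hne
      · exact hc hs f hfs g (h hgt) hne)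
  have h1 : ¬ #M ≤ #L := by
    intro h
    obtain ⟨f, hf⟩ := exists_avoid hU hcof M h
    have h2 : f ∉ M := fun hfM => hf f hfM (by
      have : {a | f a = f a} = Set.univ := by simp
      rw [this]
      exact Filter.univ_mem)
    have h3 : insert f M ∈ {S : Set (K → L) | ∀ f ∈ S, ∀ g ∈ S, f ≠ g →
        {a | f a = g a} ∉ U} := by
      rintro g (rfl | hg) g' (rfl | hg') hne
      · exact absurd rfl hne
      · exact hf g' hg'
      · intro hcon
        refine hf g hg (Filter.mem_of_superset hcon fun a ha => ?_)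
        exact Eq.symm ha
      · exact hM.prop g hg g' hg' hne
    have h4 := hM.le_of_ge h3 (Set.subset_insert f M)
    exact h2 (h4 (Set.mem_insert f M))
  have h2 : #(Order.succ #L).out ≤ #M := by
    rw [mk_out]
    exact Order.succ_le_of_lt (not_le.1 h1)
  obtain ⟨F⟩ := (Cardinal.le_def _ _).1 h2
  exact ⟨fun i => (F i).1, fun i j hij => hM.prop _ (F i).2 _ (F j).2
    fun h => hij (F.injective (Subtype.ext h))⟩

/-! ### The reals are distinct -/

theorem Ext.getElem? {A : List K → Set K} {s t : List K} (h : Ext A s t) {n : ℕ} {a : K}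
    (hn : s.reverse[n]? = some a) : t.reverse[n]? = some a := by
  induction h with
  | refl => exact hn
  | step t b _ _ ih =>
    rw [List.reverse_cons, List.getElem?_append_left]
    · exact ih
    · by_contra hcon
      rw [not_lt] at hcon
      rw [List.getElem?_eq_none hcon] at ih
      exact absurd ih (by simp)

/-- extend the stem by a point of the tree -/
def Cond.push (p : Cond U L) (a : K) : Cond U L where
  stem := a :: p.stem
  tree := p.tree
  coh := p.coh
  tree_mem := p.tree_mem
  coh_fin := p.coh_fin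

theorem Cond.push_le (p : Cond U L) {a : K} (ha : a ∈ p.tree p.stem) : p.push a ≤ p :=
  ⟨Ext.step _ _ Ext.refl ha, fun _ => Set.Subset.rfl, fun _ _ h => h⟩

theorem exists_length (p : Cond U L) (m : ℕ) : ∃ q ≤ p, q.stem.length = p.stem.length + m ∧
    q.tree = p.tree ∧ q.coh = p.coh := by
  induction m with
  | zero => exact ⟨p, le_rfl, rfl, rfl, rfl⟩
  | succ m ih =>
    obtain ⟨q, hq, hl, ht, hc⟩ := ih
    obtain ⟨a, ha⟩ := U.nonempty_of_mem (q.tree_mem q.stem)
    exact ⟨q.push a, (q.push_le ha).trans hq, by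
      show (a :: q.stem).length = _
      rw [List.length_cons, hl]; rfl, ht, hc⟩

open Classical in
/-- change two values of the Cohen part -/
noncomputable def Cond.put (p : Cond U L) (z w : ℕ × L) : Cond U L where
  stem := p.stem
  tree := p.tree
  coh := fun x => if x = z then some true else if x = w then some false else p.coh x
  tree_mem := p.tree_mem
  coh_fin := ((p.coh_fin.insert w).insert z).subset fun x hx => by
    by_cases h1 : x = z
    · exact Or.inl h1
    · by_cases h2 : x = w
      · exact Or.inr (Or.inl h2)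
      · refine Or.inr (Or.inr ?_)
        have hx' : (if x = z then some true else if x = w then some false else p.coh x) ≠ none :=
          hx
        rw [if_neg h1, if_neg h2] at hx'
        exact hx'

theorem Cond.put_le (p : Cond U L) {z w : ℕ × L} (hz : p.coh z = none) (hw : p.coh w = none) :
    p.put z w ≤ p := by
  classical
  refine ⟨Ext.refl, fun _ => Set.Subset.rfl, fun x b h => ?_⟩
  show (if x = z then some true else if x = w then some false else p.coh x) = some b
  rw [if_neg, if_neg]
  · exact h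
  · rintro rfl
    rw [hw] at h
    simp at h
  · rintro rfl
    rw [hz] at h
    simp at h

theorem Cond.put_left (p : Cond U L) (z w : ℕ × L) : (p.put z w).coh z = some true := by
  classical
  exact if_pos rfl

theorem Cond.put_right (p : Cond U L) {z w : ℕ × L} (h : w ≠ z) :
    (p.put z w).coh w = some false := by
  classical
  show (if w = z then some true else if w = w then some false else p.coh w) = some false
  rw [if_neg h, if_pos rfl]

/-- the condition `p` forces the stem to be an initial segment of the Prikry sequence -/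
theorem mem_meets_stem {p : Cond U L} {n : ℕ} {a b : K} (hp : p.stem.reverse[n]? = some a)
    (h : p ∈ meets {q : Cond U L | q.stem.reverse[n]? = some b}) : a = b := by
  obtain ⟨r, hr, s, hs, hrs⟩ := h p le_rfl
  have h1 := hr.1.getElem? hp
  have h2 := hrs.1.getElem? hs
  rw [h1] at h2
  exact Option.some.inj h2

theorem mem_meets_coh {p : Cond U L} {z : ℕ × L} (hp : p.coh z = some false)
    (h : p ∈ meets {q : Cond U L | q.coh z = some true}) : False := by
  obtain ⟨r, hr, s, hs, hrs⟩ := h p le_rfl
  have h1 := hr.2.2 _ _ hp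
  have h2 := hrs.2.2 _ _ hs
  rw [h1] at h2
  simp at h2

theorem real_ne (e : (ℕ × K) ⊕ (ℕ × L) ≃ L) {f g : K → L} (hfg : {a | f a = g a} ∉ U)
    (p : Cond U L) :
    p ∉ SameSet (real e (genSub U e) f)
      (real e (genSub U e) g) := by
  classical
  intro hcon
  -- a column without values of the Cohen part
  obtain ⟨n, hn, hn'⟩ : ∃ n, p.stem.length ≤ n ∧ ∀ y, p.coh (n, y) = none := by
    obtain ⟨N, hN⟩ := (p.coh_fin.image Prod.fst).bddAbove
    refine ⟨max p.stem.length (N + 1), le_max_left _ _, fun y => ?_⟩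
    by_contra hy
    have := hN ⟨_, hy, rfl⟩
    simp only at this
    have h2 := le_max_right p.stem.length (N + 1)
    omega
  obtain ⟨q, hq, hl, ht, hc⟩ := exists_length p (n - p.stem.length)
  have hl' : q.stem.length = n := by omega
  obtain ⟨a, ha, ha'⟩ := U.nonempty_of_mem (Filter.inter_mem (q.tree_mem q.stem)
    (Ultrafilter.compl_mem_iff_notMem.2 hfg))
  have hne : f a ≠ g a := ha'
  set r := (q.push a).put (n, f a) (n, g a) with hr
  have hrp : r ≤ p := by
    refine (Cond.put_le _ ?_ ?_).trans ((q.push_le ha).trans hq)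
    · show q.coh _ = none
      rw [hc]; exact hn' _
    · show q.coh _ = none
      rw [hc]; exact hn' _
  have hstem : r.stem.reverse[n]? = some a := by
    show (a :: q.stem).reverse[n]? = some a
    rw [List.reverse_cons, List.getElem?_append_right (by simp [hl']), List.length_reverse, hl']
    simp
  have h1 : r ∈ meets (real e (genSub U e) f n) := by
    refine meets_of_mem (mem_fex_of_mem a (down_fand (down_meets _) (down_meets _)) ⟨?_, ?_⟩)
    · refine meets_of_mem ?_
      show r ∈ gen U L (e.symm (e (Sum.inl (n, a))))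
      rw [Equiv.symm_apply_apply]
      exact hstem
    · refine meets_of_mem ?_
      show r ∈ gen U L (e.symm (e (Sum.inr (n, f a))))
      rw [Equiv.symm_apply_apply]
      exact Cond.put_left _ _ _
  have h2 := (mem_SameSet.1 hcon n r hrp).1 h1
  obtain ⟨s, hs, s', hs', hss⟩ := h2 r le_rfl
  obtain ⟨u, hu, b, hb, hb'⟩ := mem_fex.1 (down_fex _ _ hs' _ hss) s le_rfl
  unfold genSub at hb hb'
  rw [Equiv.symm_apply_apply] at hb hb'
  have hur : u ≤ r := hu.trans hs
  have hab : a = b := mem_meets_stem (hur.1.getElem? hstem) hb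
  rw [← hab] at hb'
  refine mem_meets_coh (hur.2.2 _ _ (Cond.put_right _ ?_)) hb'
  intro h
  exact hne (congrArg Prod.snd h).symm

end

end Pool.Agent.Y587.PR
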