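import Mathlib.Topology.GDelta.MetrizableSpace
import Mathlib.Topology.Bases
import Mathlib.Data.Real.Basic
import Mathlib.Topology.Instances.Real.Lemmas
import Mathlib.MeasureTheory.Constructions.BorelSpace.Basic

/-!
# Q-spaces and Δ-spaces

`QSpace Z`: every subset of `Z` is a `G_δ`. `DeltaSpace Z`: every partition of `Z` into countably
many sets has a point-finite open expansion.

If `X` and `Y` are Q-spaces, `Y` second countable, then `X × Y` is a Δ-space if and only if it is
a Q-space.
-/

set_option autoImplicit false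

namespace Pool.Agent.Y587.DeltaQ

open Set Topology

variable {X Y Z : Type*} [TopologicalSpace X] [TopologicalSpace Y] [TopologicalSpace Z]

/-- A Δ-space: for every partition of `Z` into countably many pairwise disjoint sets `P n` there
are open sets `U n` with `P n ⊆ U n` such that every point lies in only finitely many `U n`. -/
def DeltaSpace (Z : Type*) [TopologicalSpace Z] : Prop :=
  ∀ P : ℕ → Set Z, (∀ m n, m ≠ n → Disjoint (P m) (P n)) → (⋃ n, P n) = Set.univ →
    ∃ U : ℕ → Set Z, (∀ n, IsOpen (U n)) ∧ (∀ n, P n ⊆ U n) ∧ ∀ z, {n | z ∈ U n}.Finite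

/-- Every subset of `Z` is a `G_δ` of `Z`. -/
def QSpace (Z : Type*) [TopologicalSpace Z] : Prop := ∀ E : Set Z, IsGδ E

/-- The form of the definition with decreasing sequences. -/
theorem DeltaSpace.exists_antitone (h : DeltaSpace Z) (D : ℕ → Set Z) (hD : Antitone D)
    (h0 : (⋂ n, D n) = ∅) :
    ∃ V : ℕ → Set Z, (∀ n, IsOpen (V n)) ∧ (∀ n, D n ⊆ V n) ∧ (⋂ n, V n) = ∅ := by
  classical
  have hex : ∀ z : Z, ∃ n, z ∉ D n := by
    intro z
    by_contra hc
    push Not at hc
    have : z ∈ ⋂ n, D n := mem_iInter.2 hc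
    rw [h0] at this
    exact this.elim
  obtain ⟨U, hU, hPU, hfin⟩ := h (fun n => {z | Nat.find (hex z) = n})
    (by
      intro m n hmn
      rw [Set.disjoint_left]
      intro z hz hz'
      exact hmn (hz.symm.trans hz'))
    (by
      ext z
      simp)
  refine ⟨fun n => ⋃ m ∈ {m | n < m}, U m, fun n => isOpen_biUnion fun m _ => hU m, ?_, ?_⟩
  · intro n z hz
    have hlt : n < Nat.find (hex z) := by
      by_contra hc
      push Not at hc
      exact Nat.find_spec (hex z) (hD hc hz)
    exact mem_biUnion hlt (hPU _ rfl)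
  · rw [eq_empty_iff_forall_notMem]
    intro z hz
    obtain ⟨N, hN⟩ := (hfin z).bddAbove
    have := mem_iInter.1 hz N
    obtain ⟨m, hm, hzm⟩ := mem_iUnion₂.1 this
    exact absurd (hN hzm) (not_le.2 hm)

/-- Every Q-space is a Δ-space. -/
theorem QSpace.deltaSpace (h : QSpace Z) : DeltaSpace Z := by
  classical
  intro P hdisj huniv
  -- `C n = ⋃ m < n, P m`, a countable union of closed sets
  have hcl : ∀ n, ∃ F : ℕ → Set Z, (∀ k, IsClosed (F k)) ∧
      (⋃ m ∈ {m | m < n}, P m) = ⋃ k, F k := by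
    intro n
    obtain ⟨f, hf, hfe⟩ := isGδ_iff_eq_iInter_nat.1 (h (⋃ m ∈ {m | m < n}, P m)ᶜ)
    refine ⟨fun k => (f k)ᶜ, fun k => (hf k).isClosed_compl, ?_⟩
    rw [← compl_compl (⋃ m ∈ {m | m < n}, P m), hfe, compl_iInter]
  choose F hF hFe using hcl
  refine ⟨fun n => (⋃ m ∈ {m | m ≤ n}, ⋃ k ∈ {k | k ≤ n}, F m k)ᶜ, ?_, ?_, ?_⟩
  · intro n
    refine IsClosed.isOpen_compl (self := ?_)
    exact (Set.finite_le_nat n).isClosed_biUnion fun m _ =>
      (Set.finite_le_nat n).isClosed_biUnion fun k _ => hF m k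
  · intro n z hz hz'
    obtain ⟨m, hm, hz2⟩ := mem_iUnion₂.1 hz'
    obtain ⟨k, _, hz3⟩ := mem_iUnion₂.1 hz2
    have hz4 : z ∈ ⋃ i ∈ {i | i < m}, P i := by
      rw [hFe]
      exact mem_iUnion.2 ⟨k, hz3⟩
    obtain ⟨i, hi, hz5⟩ := mem_iUnion₂.1 hz4
    have hlt : i < n := lt_of_lt_of_le hi hm
    exact Set.disjoint_left.1 (hdisj i n hlt.ne) hz5 hz
  · intro z
    have hz : z ∈ ⋃ n, P n := by rw [huniv]; trivial
    obtain ⟨n, hn⟩ := mem_iUnion.1 hz
    have hz2 : z ∈ ⋃ k, F (n + 1) k := by
      rw [← hFe]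
      exact mem_biUnion (show n < n + 1 by omega) hn
    obtain ⟨k, hk⟩ := mem_iUnion.1 hz2
    refine (Set.finite_lt_nat (max (n + 1) k)).subset ?_
    intro j hj
    by_contra hc
    simp only [mem_ofPred_eq, not_lt, max_le_iff] at hc
    exact hj (mem_biUnion hc.1 (mem_biUnion hc.2 hk))

/-- In a Δ-space a decreasing intersection of `F_σ` sets is an `F_σ` set. -/
theorem DeltaSpace.isGδ_compl (h : DeltaSpace Z) {E : Set Z} (G : ℕ → Set Z) (hG : Antitone G)
    (hGF : ∀ n, IsGδ (G n)ᶜ) (hE : (⋂ n, G n) = E) : IsGδ Eᶜ := by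
  obtain ⟨V, hV, hDV, hV0⟩ := h.exists_antitone (fun n => G n \ E)
    (fun m n hmn => sdiff_subset_sdiff_left (hG hmn))
    (by
      rw [eq_empty_iff_forall_notMem]
      intro z hz
      have h1 := mem_iInter.1 hz
      have h2 : z ∈ ⋂ n, G n := mem_iInter.2 fun n => (h1 n).1
      rw [hE] at h2
      exact (h1 0).2 h2)
  have : Eᶜ = ⋂ n, ((G n)ᶜ ∪ V n) := by
    ext z
    constructor
    · intro hz
      refine mem_iInter.2 fun n => ?_
      by_cases hzn : z ∈ G n
      · exact Or.inr (hDV n ⟨hzn, hz⟩)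
      · exact Or.inl hzn
    · intro hz hzE
      have h1 : z ∈ ⋂ n, V n := by
        refine mem_iInter.2 fun n => ?_
        rcases mem_iInter.1 hz n with h2 | h2
        · exact absurd (by rw [← hE] at hzE; exact mem_iInter.1 hzE n) h2
        · exact h2
      rw [hV0] at h1
      exact h1
  rw [this]
  exact IsGδ.iInter fun n => (hGF n).union (hV n).isGδ

/-- Every subset of a product of two Q-spaces, the second one second countable, is a decreasing
intersection of `F_σ` sets. -/
theorem exists_antitone_Fσ [SecondCountableTopology Y] (hX : QSpace X) (hY : QSpace Y)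
    (E : Set (X × Y)) : ∃ G : ℕ → Set (X × Y), Antitone G ∧ (∀ n, IsGδ (G n)ᶜ) ∧
      (⋂ n, G n) = E := by
  have hsec : ∀ x : X, ∃ O : ℕ → Set Y, (∀ n, IsOpen (O n)) ∧ {y | (x, y) ∈ E} = ⋂ n, O n :=
    fun x => isGδ_iff_eq_iInter_nat.1 (hY {y | (x, y) ∈ E})
  choose O hO hOE using hsec
  have hO' : ∀ x n, IsOpen (⋂ m ∈ {m | m ≤ n}, O x m) := fun x n =>
    (Set.finite_le_nat n).isOpen_biInter fun m _ => hO x m
  refine ⟨fun n => {p | p.2 ∈ ⋂ m ∈ {m | m ≤ n}, O p.1 m}, ?_, ?_, ?_⟩
  · intro a b hab p hp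
    refine mem_iInter₂.2 fun m hm => mem_iInter₂.1 hp m (le_trans hm hab)
  · intro n
    have hB := TopologicalSpace.isBasis_countableBasis Y
    have heq : {p : X × Y | p.2 ∈ ⋂ m ∈ {m | m ≤ n}, O p.1 m}ᶜ =
        ⋂ B ∈ TopologicalSpace.countableBasis Y,
          (Prod.fst ⁻¹' {x : X | B ⊆ ⋂ m ∈ {m | m ≤ n}, O x m}ᶜ ∪ Prod.snd ⁻¹' Bᶜ) := by
      ext p
      constructor
      · intro hp
        refine mem_iInter₂.2 fun B _ => ?_
        by_cases hpB : p.2 ∈ B
        · exact Or.inl fun hsub => hp (hsub hpB)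
        · exact Or.inr hpB
      · intro hp hpG
        obtain ⟨B, hBb, hpB, hBs⟩ := hB.exists_subset_of_mem_open hpG (hO' p.1 n)
        rcases mem_iInter₂.1 hp B hBb with h1 | h1
        · exact h1 hBs
        · exact h1 hpB
    rw [heq]
    exact IsGδ.biInter (TopologicalSpace.countable_countableBasis Y) fun B _ =>
      ((hX _).preimage continuous_fst).union ((hY _).preimage continuous_snd)
  · ext p
    constructor
    · intro hp
      have h1 : p.2 ∈ ⋂ n, O p.1 n := by
        refine mem_iInter.2 fun n => ?_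
        exact mem_iInter₂.1 (mem_iInter.1 hp n) n (le_refl n)
      rw [← hOE] at h1
      exact h1
    · intro hp
      have h1 : p.2 ∈ {y | (p.1, y) ∈ E} := hp
      rw [hOE] at h1
      exact mem_iInter.2 fun n => mem_iInter₂.2 fun m _ => mem_iInter.1 h1 m

/-- If the product of two Q-spaces, the second one second countable, is a Δ-space, then it is a
Q-space. -/
theorem QSpace.prod_of_deltaSpace [SecondCountableTopology Y] (hX : QSpace X) (hY : QSpace Y)
    (h : DeltaSpace (X × Y)) : QSpace (X × Y) := by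
  intro E
  obtain ⟨G, hG, hGF, hGE⟩ := exists_antitone_Fσ hX hY Eᶜ
  have := h.isGδ_compl G hG hGF hGE
  rwa [compl_compl] at this

/-- A space embedded in a Δ-space is a Δ-space. -/
theorem DeltaSpace.of_embedding (h : DeltaSpace Z) {f : X → Z} (hf : Continuous f)
    (hi : Function.Injective f) : DeltaSpace X := by
  intro P hP hPu
  obtain ⟨U, hU, hPU, hfin⟩ := h
    (fun n => {z | (∃ x ∈ P n, f x = z) ∨ (n = 0 ∧ z ∉ Set.range f)})
    (by
      intro m n hmn
      rw [Set.disjoint_left]
      rintro z (⟨x, hx, rfl⟩ | ⟨rfl, hz⟩) (⟨y, hy, hyx⟩ | ⟨rfl, hz'⟩)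
      · rw [hi hyx] at hy
        exact Set.disjoint_left.1 (hP m n hmn) hx hy
      · exact hz' ⟨x, rfl⟩
      · exact hz ⟨y, hyx⟩
      · exact hmn rfl)
    (by
      rw [Set.eq_univ_iff_forall]
      intro z
      by_cases hz : z ∈ Set.range f
      · obtain ⟨x, rfl⟩ := hz
        have hx : x ∈ ⋃ n, P n := by rw [hPu]; trivial
        obtain ⟨n, hn⟩ := mem_iUnion.1 hx
        exact mem_iUnion.2 ⟨n, Or.inl ⟨x, hn, rfl⟩⟩
      · exact mem_iUnion.2 ⟨0, Or.inr ⟨rfl, hz⟩⟩)
  exact ⟨fun n => f ⁻¹' U n, fun n => (hU n).preimage hf,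
    fun n x hx => hPU n (Or.inl ⟨x, hx, rfl⟩), fun x => hfin (f x)⟩

/-- Being a Q-space passes to spaces with a continuous injection into a Q-space. -/
theorem QSpace.of_embedding (h : QSpace Z) {f : X → Z} (hf : Continuous f)
    (hi : Function.Injective f) : QSpace X := by
  intro E
  have : E = f ⁻¹' (f '' E) := (hi.preimage_image E).symm
  rw [this]
  exact (h _).preimage hf

/-- The finite powers of a second countable Q-space `X`: `X ^ n` is a Δ-space if and only if it
is a Q-space. -/
theorem QSpace.pow_iff [SecondCountableTopology X] (hX : QSpace X) (n : ℕ) :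
    DeltaSpace (Fin n → X) ↔ QSpace (Fin n → X) := by
  refine ⟨fun h => ?_, fun h => h.deltaSpace⟩
  induction n with
  | zero =>
    intro E
    have : IsOpen E := isOpen_discrete E
    exact this.isGδ
  | succ n ih =>
    by_cases hne : Nonempty X
    · obtain ⟨x0⟩ := hne
      have h1 : DeltaSpace (Fin n → X) := by
        refine h.of_embedding (f := fun v => (Fin.cons x0 v : Fin (n + 1) → X)) ?_ ?_
        · exact Continuous.finCons (A := fun _ : Fin (n + 1) => X) continuous_const continuous_id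
        · intro v w hvw
          exact (Fin.cons_injective2 hvw).2
      have h2 := ih h1
      have h3 : DeltaSpace (X × (Fin n → X)) := by
        refine h.of_embedding (f := fun p => (Fin.cons p.1 p.2 : Fin (n + 1) → X)) ?_ ?_
        · exact Continuous.finCons (A := fun _ : Fin (n + 1) => X) continuous_fst continuous_snd
        · rintro ⟨a, v⟩ ⟨b, w⟩ hvw
          obtain ⟨h4, h5⟩ := Fin.cons_injective2 hvw
          exact Prod.ext h4 h5
      have h4 : QSpace (X × (Fin n → X)) := QSpace.prod_of_deltaSpace hX h2 h3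
      refine h4.of_embedding
        (f := fun v : Fin (n + 1) → X => ((v 0, fun i : Fin n => v i.succ) : X × (Fin n → X))) ?_ ?_
      · exact (continuous_apply 0).prodMk (continuous_pi fun i => continuous_apply i.succ)
      · intro v w hvw
        have h5 := congrArg Prod.fst hvw
        have h6 := congrArg Prod.snd hvw
        funext i
        refine Fin.cases ?_ (fun j => ?_) i
        · exact h5
        · exact congrFun h6 j
    · intro E
      have : E = ∅ := by
        rw [eq_empty_iff_forall_notMem]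
        intro v _
        exact hne ⟨v 0⟩
      rw [this]
      exact IsGδ.empty

/-- In a Δ-space all of whose closed sets are `G_δ` sets every Borel set is a `G_δ` set. -/
theorem DeltaSpace.isGδ_of_measurable [MeasurableSpace Z] [BorelSpace Z] (h : DeltaSpace Z)
    (hcl : ∀ F : Set Z, IsClosed F → IsGδ F) (B : Set Z) (hB : MeasurableSet B) :
    IsGδ B ∧ IsGδ Bᶜ := by
  rw [BorelSpace.measurable_eq (α := Z)] at hB
  induction B, hB using MeasurableSpace.generateFrom_induction with
  | hC t ht _ => exact ⟨IsOpen.isGδ ht, hcl _ (IsOpen.isClosed_compl ht)⟩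
  | empty => exact ⟨IsGδ.empty, by simp⟩
  | compl t _ ih => exact ⟨ih.2, by simpa using ih.1⟩
  | iUnion s _ ih =>
    have h1 : IsGδ (⋃ n, s n)ᶜ := by
      rw [compl_iUnion]
      exact IsGδ.iInter fun n => (ih n).2
    refine ⟨?_, h1⟩
    -- `(⋃ s n)ᶜ` is the decreasing intersection of `⋂ m ≤ n, (s m)ᶜ`, which are `F_σ`
    have := h.isGδ_compl (E := (⋃ n, s n)ᶜ) (fun n => ⋂ m ∈ {m | m ≤ n}, (s m)ᶜ)
      (by
        intro a b hab z hz
        exact mem_iInter₂.2 fun m hm => mem_iInter₂.1 hz m (le_trans hm hab))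
      (by
        intro n
        rw [compl_iInter₂]
        refine IsGδ.biUnion (Set.finite_le_nat n) fun m _ => ?_
        simpa using (ih m).1)
      (by
        rw [compl_iUnion]
        ext z
        constructor
        · intro hz
          refine mem_iInter.2 fun n => ?_
          exact mem_iInter₂.1 (mem_iInter.1 hz n) n (le_refl n)
        · intro hz
          exact mem_iInter.2 fun n => mem_iInter₂.2 fun m _ => mem_iInter.1 hz m)
    simpa using this

end Pool.Agent.Y587.DeltaQ
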